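import Pool.Agent.Work.MP_484fb8_tp.Interface

set_option autoImplicit false

/-! # TypicalPowers, block CN4: quadruples of exponents in a residue class -/

namespace Pool.TP

open Finset
open Pool.Agent.Circle (e)
open Pool.Agent.PS (th)
open Pool.Agent.Work.MP_484fb8_nt
open scoped Classical

theorem CN4_ord (g L d : ℕ) (hd : 1 ≤ d) (hc : Nat.Coprime g d) (b : ℤ) :
    #((Icc 1 L).filter fun a => (d : ℤ) ∣ (g : ℤ) ^ a + b) ≤ L / orderOf (g : ZMod d) + 1 := by
  set s := (Icc 1 L).filter fun a => (d : ℤ) ∣ (g : ℤ) ^ a + b with hs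
  set o := orderOf (g : ZMod d) with ho
  have hunit : IsUnit (g : ZMod d) := by
    have := (ZMod.unitOfCoprime g hc).isUnit
    simpa [ZMod.coe_unitOfCoprime] using this
  have : NeZero d := ⟨by omega⟩
  have ho0 : 0 < o := by
    rw [ho]
    obtain ⟨u, hu⟩ := hunit
    rw [← hu, orderOf_units]
    exact orderOf_pos u
  have hmod : ∀ v ∈ s, ∀ w ∈ s, v ≡ w [MOD o] := by
    intro v hv w hw
    have h1 := (mem_filter.1 hv).2
    have h2 := (mem_filter.1 hw).2
    have h3 : (d : ℤ) ∣ (g : ℤ) ^ w - (g : ℤ) ^ v := by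
      have := dvd_sub h2 h1
      rwa [show (g : ℤ) ^ w + b - ((g : ℤ) ^ v + b) = (g : ℤ) ^ w - (g : ℤ) ^ v by ring] at this
    have h4 : (((g : ℤ) ^ w - (g : ℤ) ^ v : ℤ) : ZMod d) = 0 :=
      (ZMod.intCast_zmod_eq_zero_iff_dvd _ _).2 h3
    push_cast at h4
    rw [sub_eq_zero] at h4
    obtain ⟨u, hu⟩ := hunit
    have h5 : u ^ v = u ^ w := by
      apply Units.ext
      rw [Units.val_pow_eq_pow_val, Units.val_pow_eq_pow_val, hu, h4]
    have h6 : orderOf u = o := by rw [ho, ← hu, orderOf_units]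
    have h7 := pow_eq_pow_iff_modEq.1 h5
    rw [h6] at h7
    exact h7
  rw [← card_range (L / o + 1)]
  refine card_le_card_of_injOn (fun v => (v - 1) / o) ?_ ?_
  · intro v hv
    rw [mem_coe] at hv
    have h1 := mem_Icc.1 (mem_filter.1 hv).1
    show (v - 1) / o ∈ (range (L / o + 1) : Set ℕ)
    rw [mem_coe, mem_range, Nat.lt_succ_iff]
    exact Nat.div_le_div_right (by omega)
  · intro v hv w hw hvw
    rw [mem_coe] at hv hw
    simp only at hvw
    have h1 := mem_Icc.1 (mem_filter.1 hv).1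
    have h2 := mem_Icc.1 (mem_filter.1 hw).1
    have h3 : v ≡ w [MOD o] := hmod v hv w hw
    have h4 : v - 1 ≡ w - 1 [MOD o] := by
      refine Nat.ModEq.add_right_cancel' 1 ?_
      rw [Nat.sub_add_cancel h1.1, Nat.sub_add_cancel h2.1]
      exact h3
    have h5 := Nat.div_add_mod (v - 1) o
    have h6 := Nat.div_add_mod (w - 1) o
    rw [hvw] at h5
    have h7 : (v - 1) % o = (w - 1) % o := h4
    omega

theorem p_CN4 : Stmt_CN4 := by
  intro g L d _ _ hd hc
  set o := orderOf (g : ZMod d) with ho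
  set A := (box4 L).filter fun v => (d : ℤ) ∣ hh g v with hA
  set T := bx (fun _ : Fin 3 => L) with hT
  have hmaps : ∀ v ∈ A, Fin.tail v ∈ T := by
    intro v hv
    have h1 := (mem_bx.1 (mem_filter.1 hv).1)
    rw [hT, mem_bx]
    intro i
    exact h1 i.succ
  have hfib : ∀ w ∈ T, #(A.filter fun v => Fin.tail v = w) ≤ L / o + 1 := by
    intro w _
    refine le_trans ?_ (CN4_ord g L d hd hc
      ((g : ℤ) ^ w 0 - (g : ℤ) ^ w 1 - (g : ℤ) ^ w 2))
    refine card_le_card_of_injOn (fun v => v 0) ?_ ?_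
    · intro v hv
      rw [mem_coe, mem_filter] at hv
      have h1 := (mem_bx.1 (mem_filter.1 hv.1).1) 0
      have h2 := (mem_filter.1 hv.1).2
      show v 0 ∈ (((Icc 1 L).filter fun a => (d : ℤ) ∣ (g : ℤ) ^ a +
        ((g : ℤ) ^ w 0 - (g : ℤ) ^ w 1 - (g : ℤ) ^ w 2) : Finset ℕ) : Set ℕ)
      rw [mem_coe, mem_filter]
      refine ⟨mem_Icc.2 h1, ?_⟩
      have h3 : hh g v = (g : ℤ) ^ v 0 + ((g : ℤ) ^ w 0 - (g : ℤ) ^ w 1 - (g : ℤ) ^ w 2) := by
        unfold hh
        rw [← hv.2]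
        show (g : ℤ) ^ v 0 + (g : ℤ) ^ v 1 - (g : ℤ) ^ v 2 - (g : ℤ) ^ v 3 =
          (g : ℤ) ^ v 0 + ((g : ℤ) ^ v 1 - (g : ℤ) ^ v 2 - (g : ℤ) ^ v 3)
        ring
      rw [← h3]
      exact h2
    · intro v hv v' hv' h
      rw [mem_coe, mem_filter] at hv hv'
      simp only at h
      have h1 : Fin.tail v = Fin.tail v' := by rw [hv.2, hv'.2]
      rw [← Fin.cons_self_tail v, ← Fin.cons_self_tail v', h, h1]
  have hcard : #A ≤ #T * (L / o + 1) := by
    rw [card_eq_sum_card_fiberwise hmaps]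
    calc ∑ w ∈ T, #(A.filter fun v => Fin.tail v = w) ≤ ∑ _w ∈ T, (L / o + 1) :=
          sum_le_sum hfib
      _ = #T * (L / o + 1) := by rw [sum_const, smul_eq_mul]
  have hT3 : (#T : ℝ) = (L : ℝ) ^ 3 := by
    rw [hT, card_bx]
    simp
  have h8 : ((L / o : ℕ) : ℝ) ≤ (L : ℝ) / o := Nat.cast_div_le
  have h9 : (#A : ℝ) ≤ #T * (((L / o : ℕ) : ℝ) + 1) := by exact_mod_cast hcard
  rw [hT3] at h9
  refine h9.trans ?_
  apply mul_le_mul_of_nonneg_left _ (by positivity)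
  linarith

end Pool.TP
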