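import Pool.Agent.Work.MP_484fb8_tp.B_VFT
import Pool.Agent.Work.Circle.Ram

set_option autoImplicit false

/-! # Block CNC of TypicalPowers: concentration modulo `r` -/

namespace Pool.TP

open Finset
open Pool.Agent.Circle (e)
open Pool.Agent.PS (th)
open Pool.Agent.Work.MP_484fb8_nt
open scoped Classical

theorem CNC_per (g L : ℕ) (x : ℝ) (n : ℤ) : Gg g L (x + n) = Gg g L x := by
  unfold Gg
  refine sum_congr rfl fun v _ => ?_
  have h : (g : ℝ) ^ v * (x + n) = (g : ℝ) ^ v * x + (((g : ℤ) ^ v * n : ℤ) : ℝ) := by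
    push_cast
    ring
  rw [h, Pool.Agent.Circle.e_add_int]

/-- multiplication by `b` permutes the residues modulo `r` -/
theorem CNC_bij (r : ℕ) (hr : 0 < r) (b : ℤ) (hco : IsCoprime b (r : ℤ)) (f : ℤ → ℝ)
    (hf : ∀ z z' : ℤ, (r : ℤ) ∣ z - z' → f z = f z') :
    ∑ x ∈ range r, f (b * x) = ∑ x ∈ range r, f x := by
  have hr' : (0 : ℤ) < r := by exact_mod_cast hr
  have hlt : ∀ z : ℤ, 0 ≤ z % r ∧ z % r < r := fun z =>
    ⟨Int.emod_nonneg _ hr'.ne', Int.emod_lt_of_pos _ hr'⟩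
  have hmaps : ∀ x ∈ range r, ((b * x) % (r : ℤ)).toNat ∈ range r := by
    intro x _
    rw [mem_range]
    have := hlt (b * x)
    omega
  have hinj : Set.InjOn (fun x : ℕ => ((b * x) % (r : ℤ)).toNat) (range r : Set ℕ) := by
    intro x hx y hy hxy
    have hx' : x < r := by simpa using hx
    have hy' : y < r := by simpa using hy
    have h1 := hlt (b * x)
    have h2 := hlt (b * y)
    have h3 : (b * x) % (r : ℤ) = (b * y) % (r : ℤ) := by
      have : ((b * x) % (r : ℤ)).toNat = ((b * y) % (r : ℤ)).toNat := hxy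
      omega
    have h4 : (r : ℤ) ∣ b * (x - y) := by
      have h5 := Int.ModEq.dvd (show b * y ≡ b * x [ZMOD r] from h3.symm)
      rw [mul_sub]
      exact h5
    have h6 : (r : ℤ) ∣ (x - y : ℤ) := hco.symm.dvd_of_dvd_mul_left h4
    obtain ⟨c, hc⟩ := h6
    have h7 : c = 0 := by
      by_contra hne
      rcases lt_or_gt_of_ne hne with h | h
      · nlinarith
      · nlinarith
    rw [h7] at hc
    omega
  have hsurj : Set.SurjOn (fun x : ℕ => ((b * x) % (r : ℤ)).toNat) (range r : Set ℕ)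
      (range r : Set ℕ) := by
    refine Finset.surjOn_of_injOn_of_card_le _ ?_ hinj le_rfl
    intro x hx
    exact hmaps x hx
  refine Finset.sum_nbij (fun x : ℕ => ((b * x) % (r : ℤ)).toNat) hmaps hinj hsurj ?_
  intro x _
  refine hf _ _ ?_
  have h1 := hlt (b * x)
  have h2 : ((((b * x) % (r : ℤ)).toNat : ℕ) : ℤ) = (b * x) % (r : ℤ) := Int.toNat_of_nonneg h1.1
  rw [h2]
  exact Int.dvd_self_sub_emod

theorem CNC_amgm (k : ℕ) (hk : 0 < k) (a : Fin k → ℝ) (ha : ∀ i, 0 ≤ a i) :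
    ∏ i, a i ≤ (1 / (k : ℝ)) * ∑ i, a i ^ k := by
  have hk' : (0 : ℝ) < k := by exact_mod_cast hk
  have h := Real.geom_mean_le_arith_mean_weighted (univ : Finset (Fin k))
    (fun _ => (k : ℝ)⁻¹) (fun i => a i ^ k) (fun i _ => by positivity)
    (by rw [sum_const, card_univ, Fintype.card_fin, nsmul_eq_mul, mul_inv_cancel₀ hk'.ne'])
    (fun i _ => pow_nonneg (ha i) k)
  have h1 : ∏ i, (a i ^ k) ^ ((k : ℝ)⁻¹) = ∏ i, a i :=
    prod_congr rfl fun i _ => Real.pow_rpow_inv_natCast (ha i) hk.ne'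
  rw [h1] at h
  refine h.trans (le_of_eq ?_)
  rw [← mul_sum, one_div]

theorem CNC_count (r k : ℕ) (hr : 0 < r) (g : Fin k → ℕ) (b : Fin k → ℤ) (ℓ : Fin k → ℕ) (N : ℤ) :
    (((bx ℓ).filter fun v => (r : ℤ) ∣ vl N g b v).card : ℝ) ≤
      (1 / (r : ℝ)) * ∑ x ∈ range r, ∏ i, ‖Gg (g i) (ℓ i) (b i * ((x : ℝ) / r))‖ := by
  have hr0 : (r : ℂ) ≠ 0 := by exact_mod_cast hr.ne'
  have h1 : ((((bx ℓ).filter fun v => (r : ℤ) ∣ vl N g b v).card : ℝ) : ℂ) =
      (1 / (r : ℂ)) * ∑ x ∈ range r, ∑ v ∈ bx ℓ, e (-((vl N g b v : ℝ) * ((x : ℝ) / r))) := by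
    rw [sum_comm, mul_sum, card_filter]
    push_cast
    refine sum_congr rfl fun v _ => ?_
    have h2 : ∑ x ∈ range r, e (-((vl N g b v : ℝ) * ((x : ℝ) / r))) =
        ∑ x ∈ range r, e (x * (((-vl N g b v : ℤ) : ℝ) / r)) := by
      refine sum_congr rfl fun x _ => ?_
      congr 1
      push_cast
      ring
    rw [h2, Pool.Agent.Circle.full_sum r hr (-vl N g b v)]
    by_cases hd : (r : ℤ) ∣ vl N g b v
    · rw [if_pos hd, if_pos (dvd_neg.mpr hd)]
      field_simp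
      simp
    · rw [if_neg hd, if_neg (fun h => hd (dvd_neg.mp h)), mul_zero]
      simp
  have h3 : (((bx ℓ).filter fun v => (r : ℤ) ∣ vl N g b v).card : ℝ) =
      ‖((((bx ℓ).filter fun v => (r : ℤ) ∣ vl N g b v).card : ℝ) : ℂ)‖ := by
    rw [Complex.norm_real, Real.norm_of_nonneg (Nat.cast_nonneg _)]
  rw [h3, h1, norm_mul, norm_div, norm_one, Complex.norm_natCast]
  refine mul_le_mul_of_nonneg_left ?_ (by positivity)
  refine (norm_sum_le _ _).trans (sum_le_sum fun x _ => ?_)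
  rw [VFT_box]

theorem p_CNC (h : Stmt_CN1) : Stmt_CNC := by
  intro G B
  obtain ⟨κ, C, hκ, hC, hc⟩ := h G
  refine ⟨κ, 1 + C, hκ, by linarith, ?_⟩
  intro r k lo g b ℓ N hr hq hA hlo hℓ
  have hr0 : 0 < r := by omega
  have hr1 : (0 : ℝ) < r := by exact_mod_cast hr0
  have hE : 0 ≤ (r : ℝ) ^ (-(1 / 2) : ℝ) := by positivity
  have hF : 0 ≤ (2 : ℝ) ^ (-((lo : ℝ) / 2) : ℝ) := by positivity
  rcases Nat.eq_zero_or_pos k with hk | hk
  · subst hk
    have h1 : (((bx ℓ).filter fun v => (r : ℤ) ∣ vl N g b v).card : ℝ) ≤ 1 := by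
      have h2 : (((bx ℓ).filter fun v => (r : ℤ) ∣ vl N g b v).card : ℝ) ≤ ((bx ℓ).card : ℝ) := by
        exact_mod_cast card_filter_le _ _
      rw [card_bx] at h2
      simpa using h2
    refine h1.trans ?_
    simp only [Nat.cast_zero, mul_zero, neg_zero, Real.exp_zero, univ_eq_empty, prod_empty,
      mul_one]
    have : 0 ≤ (1 + C) * ((r : ℝ) ^ (-(1 / 2) : ℝ) + (2 : ℝ) ^ (-((lo : ℝ) / 2) : ℝ)) := by
      positivity
    nlinarith
  · refine (CNC_count r k hr0 g b ℓ N).trans ?_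
    have hℓ0 : ∀ i, (0 : ℝ) < ℓ i := fun i => by
      have := hℓ i
      exact_mod_cast (by omega : 0 < ℓ i)
    set P : ℝ := ∏ i, (ℓ i : ℝ) with hP
    have hP0 : 0 < P := prod_pos fun i _ => hℓ0 i
    -- one coordinate
    have hone : ∀ i, (1 / (r : ℝ)) * ∑ x ∈ range r,
        (‖Gg (g i) (ℓ i) (b i * ((x : ℝ) / r))‖ / ℓ i) ^ k ≤
        Real.exp (-(κ * k)) + C * ((r : ℝ) ^ (-(1 / 2) : ℝ) + (2 : ℝ) ^ (-((lo : ℝ) / 2) : ℝ)) := by
      intro i
      obtain ⟨hg1, hg2, hb1, hb2⟩ := hA i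
      have hco : IsCoprime (b i) (r : ℤ) := by
        rw [Int.isCoprime_iff_gcd_eq_one]
        by_contra hne
        obtain ⟨q, hqp, hqd⟩ := Nat.exists_prime_and_dvd hne
        have hq1 : (q : ℤ) ∣ b i := (Int.natCast_dvd_natCast.mpr hqd).trans (Int.gcd_dvd_left ..)
        have hq2 : (q : ℤ) ∣ (r : ℤ) :=
          (Int.natCast_dvd_natCast.mpr hqd).trans (Int.gcd_dvd_right ..)
        have h1 := hq q hqp (Int.natCast_dvd_natCast.mp hq2)
        have h2 : (q : ℤ) ≤ |b i| := Int.le_of_dvd (abs_pos.mpr hb1) ((dvd_abs _ _).mpr hq1)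
        have h3 : B < q := lt_of_le_of_lt (le_max_right _ _) h1
        have h4 : (q : ℤ) ≤ B := h2.trans hb2
        omega
      have hbij := CNC_bij r hr0 (b i) hco
        (fun z => ‖Gg (g i) (ℓ i) ((z : ℝ) / r)‖ ^ k) (by
          intro z z' hz
          obtain ⟨c, hc'⟩ := hz
          have h1 : (z : ℝ) / r = (z' : ℝ) / r + (c : ℤ) := by
            have h2 : (z : ℝ) = z' + r * c := by
              have : z = z' + r * c := by linarith
              exact_mod_cast this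
            rw [h2]
            field_simp
          simp only [h1, CNC_per])
      have h1 : ∑ x ∈ range r, (‖Gg (g i) (ℓ i) (b i * ((x : ℝ) / r))‖ / ℓ i) ^ k =
          (∑ x ∈ range r, ‖Gg (g i) (ℓ i) ((x : ℝ) / r)‖ ^ k) / (ℓ i : ℝ) ^ k := by
        rw [sum_div]
        have h2 : ∑ x ∈ range r, (‖Gg (g i) (ℓ i) (b i * ((x : ℝ) / r))‖ / ℓ i) ^ k =
            (∑ x ∈ range r, ‖Gg (g i) (ℓ i) (((b i * (x : ℤ) : ℤ) : ℝ) / r)‖ ^ k) /
              (ℓ i : ℝ) ^ k := by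
          rw [sum_div]
          refine sum_congr rfl fun x _ => ?_
          rw [div_pow]
          congr 3
          push_cast
          rw [mul_div_assoc]
        rw [h2, hbij, sum_div]
        refine sum_congr rfl fun x _ => ?_
        simp
      rw [h1]
      have h3 := hc r (g i) (ℓ i) k hr (fun q hqp hqd => lt_of_le_of_lt (le_max_left _ _)
        (hq q hqp hqd)) hg1 hg2 (by have := hℓ i; omega)
      have h4 : (2 : ℝ) ^ (-((ℓ i : ℝ) / 2) : ℝ) ≤ (2 : ℝ) ^ (-((lo : ℝ) / 2) : ℝ) := by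
        refine Real.rpow_le_rpow_of_exponent_le (by norm_num) ?_
        have : (lo : ℝ) ≤ ℓ i := by exact_mod_cast hℓ i
        linarith
      have h5 : (0 : ℝ) < (ℓ i : ℝ) ^ k := pow_pos (hℓ0 i) k
      rw [← mul_div_assoc, div_le_iff₀ h5, mul_comm _ ((ℓ i : ℝ) ^ k)]
      refine h3.trans (mul_le_mul_of_nonneg_left ?_ h5.le)
      have := mul_le_mul_of_nonneg_left h4 hC.le
      linarith
    have hk' : (0 : ℝ) < k := by exact_mod_cast hk
    have hx : ∀ x ∈ range r, ∏ i, ‖Gg (g i) (ℓ i) (b i * ((x : ℝ) / r))‖ ≤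
        P * ((1 / (k : ℝ)) * ∑ i, (‖Gg (g i) (ℓ i) (b i * ((x : ℝ) / r))‖ / ℓ i) ^ k) := by
      intro x _
      have h1 : ∏ i, ‖Gg (g i) (ℓ i) (b i * ((x : ℝ) / r))‖ =
          P * ∏ i, (‖Gg (g i) (ℓ i) (b i * ((x : ℝ) / r))‖ / ℓ i) := by
        rw [hP, ← prod_mul_distrib]
        refine prod_congr rfl fun i _ => ?_
        rw [mul_div_cancel₀ _ (hℓ0 i).ne']
      rw [h1]
      refine mul_le_mul_of_nonneg_left ?_ hP0.le
      exact CNC_amgm k hk _ fun i => div_nonneg (norm_nonneg _) (hℓ0 i).le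
    calc (1 / (r : ℝ)) * ∑ x ∈ range r, ∏ i, ‖Gg (g i) (ℓ i) (b i * ((x : ℝ) / r))‖
        ≤ (1 / (r : ℝ)) * ∑ x ∈ range r, P * ((1 / (k : ℝ)) * ∑ i,
          (‖Gg (g i) (ℓ i) (b i * ((x : ℝ) / r))‖ / ℓ i) ^ k) :=
          mul_le_mul_of_nonneg_left (sum_le_sum hx) (by positivity)
      _ = P * ((1 / (k : ℝ)) * ∑ i, ((1 / (r : ℝ)) * ∑ x ∈ range r,
          (‖Gg (g i) (ℓ i) (b i * ((x : ℝ) / r))‖ / ℓ i) ^ k)) := by
          rw [← mul_sum, ← mul_sum, ← mul_sum, sum_comm]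
          ring
      _ ≤ P * ((1 / (k : ℝ)) * ∑ _i : Fin k, (Real.exp (-(κ * k)) +
          C * ((r : ℝ) ^ (-(1 / 2) : ℝ) + (2 : ℝ) ^ (-((lo : ℝ) / 2) : ℝ)))) := by
          refine mul_le_mul_of_nonneg_left (mul_le_mul_of_nonneg_left
            (sum_le_sum fun i _ => hone i) (by positivity)) hP0.le
      _ = P * (Real.exp (-(κ * k)) +
          C * ((r : ℝ) ^ (-(1 / 2) : ℝ) + (2 : ℝ) ^ (-((lo : ℝ) / 2) : ℝ))) := by
          rw [sum_const, card_univ, Fintype.card_fin, nsmul_eq_mul]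
          field_simp
      _ ≤ (1 + C) * ((Real.exp (-(κ * k)) + (r : ℝ) ^ (-(1 / 2) : ℝ) +
          (2 : ℝ) ^ (-((lo : ℝ) / 2) : ℝ)) * P) := by
          have hx1 : 0 < Real.exp (-(κ * k)) := Real.exp_pos _
          have e1 : 0 ≤ P * (r : ℝ) ^ (-(1 / 2) : ℝ) := by positivity
          have e2 : 0 ≤ P * (2 : ℝ) ^ (-((lo : ℝ) / 2) : ℝ) := by positivity
          have e3 : 0 ≤ C * (P * Real.exp (-(κ * k))) := by positivity
          nlinarith

end Pool.TP
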