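import Pool.Agent.Work.MP_484fb8_tp.Interface2

set_option autoImplicit false

/-! # Block DBC: double counting -/

namespace Pool.TP

open Finset
open Pool.Agent.Circle (e)
open Pool.Agent.PS (th)
open Pool.Agent.Work.MP_484fb8_nt
open scoped Classical

/-- the positions of nonzero digits below the leading one, in order -/
noncomputable def DBC_V (g ℓ k₂ m : ℕ) : Finset (Fin k₂ → ℕ) :=
  (bx fun _ : Fin k₂ => ℓ).filter fun v =>
    Function.Injective v ∧ ∀ i, dg g m (v i) ≠ 0 ∧ v i < Nat.log g m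

/-- the sum of the chosen digits -/
noncomputable def DBC_s (g m : ℕ) {k₂ : ℕ} (v : Fin k₂ → ℕ) : ℕ := ∑ i, dg g m (v i) * g ^ v i

theorem DBC_vl (g m : ℕ) {k₂ : ℕ} (v : Fin k₂ → ℕ) (h : DBC_s g m v ≤ m) :
    vl ((m - DBC_s g m v : ℕ) : ℤ) (fun _ => g) (fun i => ((dg g m (v i) : ℕ) : ℤ)) v = (m : ℤ) := by
  unfold vl
  rw [Nat.cast_sub h]
  unfold DBC_s
  push_cast
  ring

theorem DBC_rec (g m : ℕ) {k₂ : ℕ} (v : Fin k₂ → ℕ) (h : DBC_s g m v ≤ m) :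
    (m - DBC_s g m v) + ∑ i, dg g m (v i) * g ^ v i = m := by
  have : ∑ i, dg g m (v i) * g ^ v i = DBC_s g m v := rfl
  rw [this]
  omega

theorem p_DBC (hNZR : Stmt_NZR) (hNZI : Stmt_NZI) : Stmt_DBC := by
  intro g ℓ α M₁ k k₂ P E S hg hE hk hP hS
  set NN : Finset ℕ := (Icc (g ^ α) M₁).filter fun N => nz g N = k - k₂ with hNN
  let BB : Finset (Fin k₂ → ℕ) := Fintype.piFinset fun _ : Fin k₂ => Ico 1 g
  let W : ℕ × (Fin k₂ → ℕ) → Finset (Fin k₂ → ℕ) := fun x =>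
    (bx fun _ : Fin k₂ => ℓ).filter fun v => P (vl (x.1 : ℤ) (fun _ => g) (fun i => ((x.2 i : ℕ) : ℤ)) v)
  let T : Finset (Σ _ : ℕ, (Fin k₂ → ℕ)) := S.sigma fun m => DBC_V g ℓ k₂ m
  let TT : Finset (Σ _ : ℕ × (Fin k₂ → ℕ), (Fin k₂ → ℕ)) := (NN ×ˢ BB).sigma fun x => W x
  let f : (Σ _ : ℕ, (Fin k₂ → ℕ)) → (Σ _ : ℕ × (Fin k₂ → ℕ), (Fin k₂ → ℕ)) := fun p =>
    ⟨(p.1 - DBC_s g p.1 p.2, fun i => dg g p.1 (p.2 i)), p.2⟩
  -- lower bound
  have h1 : S.card * (k - 2).descFactorial k₂ ≤ T.card := by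
    rw [Finset.card_sigma, ← smul_eq_mul]
    refine Finset.card_nsmul_le_sum S _ _ fun m hm => ?_
    obtain ⟨a1, _, a3, _, a5, _⟩ := hS m hm
    have := hNZI g m k₂ ℓ hg a1 a5
    rw [a3] at this
    exact this
  -- the map
  have hfacts : ∀ p ∈ T, DBC_s g p.1 p.2 ≤ p.1 ∧ f p ∈ TT := by
    intro p hp
    obtain ⟨hp1, hp2⟩ := Finset.mem_sigma.1 hp
    obtain ⟨a1, a2, a3, a4, _, a6⟩ := hS p.1 hp1
    obtain ⟨b1, b2, b3⟩ := Finset.mem_filter.1 hp2
    obtain ⟨c1, c2, c3⟩ := hNZR g p.1 k₂ p.2 hg a1 b2 b3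
    have hs : DBC_s g p.1 p.2 ≤ p.1 := c1
    refine ⟨hs, Finset.mem_sigma.2 ⟨Finset.mem_product.2 ⟨?_, ?_⟩, ?_⟩⟩
    · rw [hNN]
      refine Finset.mem_filter.2 ⟨Finset.mem_Icc.2 ⟨?_, ?_⟩, ?_⟩
      · exact (Nat.pow_le_pow_right (by omega) a4).trans c3
      · exact (Nat.sub_le _ _).trans a6
      · have c2' : nz g (p.1 - DBC_s g p.1 p.2) + k₂ = nz g p.1 := c2
        change nz g (p.1 - DBC_s g p.1 p.2) = k - k₂
        omega
    · refine Fintype.mem_piFinset.2 fun i => Finset.mem_Ico.2 ⟨?_, ?_⟩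
      · exact Nat.one_le_iff_ne_zero.2 (b3 i).1
      · exact Nat.mod_lt _ (by omega)
    · refine Finset.mem_filter.2 ⟨b1, ?_⟩
      have h := DBC_vl g p.1 p.2 hs
      change P (vl ((p.1 - DBC_s g p.1 p.2 : ℕ) : ℤ) (fun _ => g)
        (fun i => ((dg g p.1 (p.2 i) : ℕ) : ℤ)) p.2)
      rw [h]
      exact a2
  have hinj : Set.InjOn f (T : Set (Σ _ : ℕ, (Fin k₂ → ℕ))) := by
    rintro ⟨m, v⟩ hp ⟨m', v'⟩ hp' hh
    have hs := (hfacts _ (Finset.mem_coe.1 hp)).1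
    have hs' := (hfacts _ (Finset.mem_coe.1 hp')).1
    have e1 : (m - DBC_s g m v, fun i => dg g m (v i)) =
        (m' - DBC_s g m' v', fun i => dg g m' (v' i)) := congrArg Sigma.fst hh
    have e2 : v = v' := by
      have := (Sigma.mk.inj_iff.1 hh).2
      exact eq_of_heq this
    subst e2
    have e3 : m - DBC_s g m v = m' - DBC_s g m' v := congrArg Prod.fst e1
    have e4 : (fun i => dg g m (v i)) = fun i => dg g m' (v i) := congrArg Prod.snd e1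
    have r1 := DBC_rec g m v hs
    have r2 := DBC_rec g m' v hs'
    have e5 : ∑ i, dg g m (v i) * g ^ v i = ∑ i, dg g m' (v i) * g ^ v i :=
      Finset.sum_congr rfl fun i _ => by rw [show dg g m (v i) = dg g m' (v i) from congrFun e4 i]
    have e6 : m = m' := by
      rw [← r1, ← r2, e3, e5]
    subst e6
    rfl
  have h2 : T.card ≤ TT.card :=
    Finset.card_le_card_of_injOn f (fun p hp => Finset.mem_coe.2 (hfacts p (Finset.mem_coe.1 hp)).2) hinj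
  -- upper bound
  have hBB : (BB.card : ℝ) = ((g : ℝ) - 1) ^ k₂ := by
    have : BB.card = (g - 1) ^ k₂ := by
      change (Fintype.piFinset fun _ : Fin k₂ => Ico 1 g).card = _
      rw [Fintype.card_piFinset]
      simp
    rw [this, Nat.cast_pow, Nat.cast_sub (by omega : 1 ≤ g), Nat.cast_one]
  have h3 : (TT.card : ℝ) ≤ (NN.card : ℝ) * ((g : ℝ) - 1) ^ k₂ * E := by
    rw [Finset.card_sigma, Nat.cast_sum]
    calc ∑ x ∈ NN ×ˢ BB, ((W x).card : ℝ) ≤ ∑ _x ∈ NN ×ˢ BB, E := by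
          refine Finset.sum_le_sum fun x hx => ?_
          have hx2 := (Finset.mem_product.1 hx).2
          exact hP (x.1 : ℤ) (fun i => ((x.2 i : ℕ) : ℤ)) fun i => by
            have := Finset.mem_Ico.1 (Fintype.mem_piFinset.1 hx2 i)
            exact ⟨by exact_mod_cast this.1, by exact_mod_cast this.2⟩
      _ = (NN.card : ℝ) * ((g : ℝ) - 1) ^ k₂ * E := by
          rw [Finset.sum_const, Finset.card_product, nsmul_eq_mul, Nat.cast_mul, hBB]
  calc (S.card : ℝ) * (k - 2).descFactorial k₂ = ((S.card * (k - 2).descFactorial k₂ : ℕ) : ℝ) := by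
        push_cast
        rfl
    _ ≤ (T.card : ℝ) := by exact_mod_cast h1
    _ ≤ (TT.card : ℝ) := by exact_mod_cast h2
    _ ≤ _ := h3

end Pool.TP
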