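import Pool.Agent.Work.MP_484fb8_tp.Interface2

set_option autoImplicit false

/-! # TypicalPowers (MP_484fb8_nt), part 2: block FDG, the assembly (helper98) -/

namespace Pool.TP

open Finset
open Pool.Agent.Circle (e)
open Pool.Agent.PS (th)
open Pool.Agent.Work.MP_484fb8_nt
open scoped Classical

theorem FDG_pow (n : ℕ) : 2 ^ n ≤ prml n := by
  unfold prml
  calc 2 ^ n = ∏ _i ∈ Finset.range n, 2 := by simp
    _ ≤ ∏ i ∈ Finset.range n, Nat.nth Nat.Prime i :=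
        Finset.prod_le_prod' fun i _ => (Nat.prime_nth_prime i).two_le

theorem FDG_mono {m n : ℕ} (h : m ≤ n) : prml m ≤ prml n := by
  refine monotone_nat_of_le_succ (f := prml) (fun n => ?_) h
  unfold prml
  rw [Finset.prod_range_succ]
  exact Nat.le_mul_of_pos_right _ (Nat.prime_nth_prime n).pos

theorem FDG_tend : Filter.Tendsto (fun n : ℕ => Real.log (prml n)) Filter.atTop Filter.atTop := by
  have h1 : Filter.Tendsto (fun n : ℕ => (n : ℝ) * Real.log 2) Filter.atTop Filter.atTop :=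
    tendsto_natCast_atTop_atTop.atTop_mul_const (Real.log_pos (by norm_num))
  refine Filter.tendsto_atTop_mono (fun n => ?_) h1
  have h2 : Real.log ((2 : ℝ) ^ n) ≤ Real.log (prml n) := by
    apply Real.log_le_log (by positivity)
    exact_mod_cast FDG_pow n
  rwa [Real.log_pow] at h2

theorem FDG_big (K : ℝ) : ∃ n₀ : ℕ, ∀ n : ℕ, n₀ ≤ n →
    1 ≤ Real.log (Real.log (prml n)) ∧
      K * (Real.log (Real.log (prml n))) ^ 2 ≤ Real.log (prml n) := by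
  have hK : (0 : ℝ) < |K| + 1 := by positivity
  have h1 := (Real.isLittleO_pow_log_id_atTop (n := 2)).bound (inv_pos.mpr hK)
  have h2 := FDG_tend.eventually h1
  have h3 := FDG_tend.eventually (Real.tendsto_log_atTop.eventually (Filter.eventually_ge_atTop 1))
  have h4 := FDG_tend.eventually (Filter.eventually_ge_atTop 0)
  obtain ⟨n₀, hn₀⟩ := Filter.eventually_atTop.mp ((h2.and h3).and h4)
  refine ⟨n₀, fun n hn => ?_⟩
  obtain ⟨⟨h5, h6⟩, h7⟩ := hn₀ n hn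
  refine ⟨h6, ?_⟩
  have h8 : (Real.log (Real.log (prml n))) ^ 2 ≤ (|K| + 1)⁻¹ * Real.log (prml n) := by
    have h9 : ‖(Real.log (Real.log (prml n))) ^ 2‖ ≤ (|K| + 1)⁻¹ * ‖Real.log (prml n)‖ := h5
    rw [Real.norm_of_nonneg (sq_nonneg _), Real.norm_of_nonneg h7] at h9
    exact h9
  calc K * (Real.log (Real.log (prml n))) ^ 2
      ≤ (|K| + 1) * (Real.log (Real.log (prml n))) ^ 2 :=
        mul_le_mul_of_nonneg_right (by linarith [le_abs_self K]) (sq_nonneg _)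
    _ ≤ (|K| + 1) * ((|K| + 1)⁻¹ * Real.log (prml n)) :=
        mul_le_mul_of_nonneg_left h8 hK.le
    _ = Real.log (prml n) := by
        rw [← mul_assoc, mul_inv_cancel₀ hK.ne', one_mul]

/-- The numerical estimate. -/
theorem FDG_num (κ₁ Ca Cb C₂ A L k₂ X A₂ Z : ℝ) (hκ : 0 < κ₁) (hCa : 0 ≤ Ca) (hCb : 0 ≤ Cb)
    (hL : 0 ≤ L) (hk : 0 ≤ k₂)
    (hk2 : κ₁ * k₂ / 2 ≤ (C₂ + A) * L + κ₁ / 2) (hA₂ : 2 * C₂ + 2 * A ≤ A₂)
    (hX : X ≤ κ₁ * k₂ / 4 + Z) (hZ : Z ≤ 1 + C₂ * L) :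
    6 * (k₂ + 1) * Real.exp X * (Ca * Real.exp (-(κ₁ * k₂)) + Cb * Real.exp (-(A₂ * L))) ≤
      6 * (1 + 4 / κ₁) * (Ca * Real.exp (Z - κ₁ * k₂ / 2) +
        Cb * Real.exp (1 + κ₁ / 2) * Real.exp (-(A * L))) := by
  have h1 : k₂ + 1 ≤ (1 + 4 / κ₁) * Real.exp (κ₁ * k₂ / 4) := by
    have h2 : κ₁ * k₂ / 4 + 1 ≤ Real.exp (κ₁ * k₂ / 4) := Real.add_one_le_exp _
    have h3 : (0 : ℝ) < 1 + 4 / κ₁ := by positivity
    have h4 : (1 + 4 / κ₁) * (κ₁ * k₂ / 4 + 1) ≤ (1 + 4 / κ₁) * Real.exp (κ₁ * k₂ / 4) :=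
      mul_le_mul_of_nonneg_left h2 h3.le
    have h5 : (1 + 4 / κ₁) * (κ₁ * k₂ / 4 + 1) = κ₁ * k₂ / 4 + 1 + k₂ + 4 / κ₁ := by
      field_simp
      ring
    have h6 : 0 ≤ κ₁ * k₂ / 4 := by positivity
    have h7 : 0 < 4 / κ₁ := by positivity
    linarith
  have h2 : Real.exp X ≤ Real.exp (κ₁ * k₂ / 4) * Real.exp Z := by
    rw [← Real.exp_add]
    exact Real.exp_le_exp.mpr hX
  have hF : 0 ≤ Ca * Real.exp (-(κ₁ * k₂)) + Cb * Real.exp (-(A₂ * L)) := by positivity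
  have h3 : 6 * (k₂ + 1) * Real.exp X ≤
      6 * (1 + 4 / κ₁) * (Real.exp (κ₁ * k₂ / 2) * Real.exp Z) := by
    have h4 : (k₂ + 1) * Real.exp X ≤
        ((1 + 4 / κ₁) * Real.exp (κ₁ * k₂ / 4)) * (Real.exp (κ₁ * k₂ / 4) * Real.exp Z) := by
      apply mul_le_mul h1 h2 (Real.exp_pos _).le
      positivity
    have h5 : Real.exp (κ₁ * k₂ / 4) * Real.exp (κ₁ * k₂ / 4) = Real.exp (κ₁ * k₂ / 2) := by
      rw [← Real.exp_add]
      congr 1
      ring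
    calc 6 * (k₂ + 1) * Real.exp X = 6 * ((k₂ + 1) * Real.exp X) := by ring
      _ ≤ 6 * (((1 + 4 / κ₁) * Real.exp (κ₁ * k₂ / 4)) *
            (Real.exp (κ₁ * k₂ / 4) * Real.exp Z)) := by linarith
      _ = 6 * (1 + 4 / κ₁) * ((Real.exp (κ₁ * k₂ / 4) * Real.exp (κ₁ * k₂ / 4)) *
            Real.exp Z) := by ring
      _ = _ := by rw [h5]
  refine (mul_le_mul_of_nonneg_right h3 hF).trans ?_
  have h6 : 6 * (1 + 4 / κ₁) * (Real.exp (κ₁ * k₂ / 2) * Real.exp Z) *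
      (Ca * Real.exp (-(κ₁ * k₂)) + Cb * Real.exp (-(A₂ * L))) =
      6 * (1 + 4 / κ₁) * (Ca * (Real.exp (κ₁ * k₂ / 2) * Real.exp Z * Real.exp (-(κ₁ * k₂))) +
        Cb * (Real.exp (κ₁ * k₂ / 2) * Real.exp Z * Real.exp (-(A₂ * L)))) := by ring
  rw [h6]
  have h7 : Real.exp (κ₁ * k₂ / 2) * Real.exp Z * Real.exp (-(κ₁ * k₂)) =
      Real.exp (Z - κ₁ * k₂ / 2) := by
    rw [← Real.exp_add, ← Real.exp_add]
    congr 1
    ring
  have h8 : Real.exp (κ₁ * k₂ / 2) * Real.exp Z * Real.exp (-(A₂ * L)) ≤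
      Real.exp (1 + κ₁ / 2) * Real.exp (-(A * L)) := by
    rw [← Real.exp_add, ← Real.exp_add, ← Real.exp_add]
    apply Real.exp_le_exp.mpr
    have h9 : (2 * C₂ + 2 * A) * L ≤ A₂ * L := mul_le_mul_of_nonneg_right hA₂ hL
    nlinarith [h9, hk2, hZ]
  rw [h7]
  have h9 : (0 : ℝ) ≤ 6 * (1 + 4 / κ₁) := by positivity
  apply mul_le_mul_of_nonneg_left _ h9
  have h10 := mul_le_mul_of_nonneg_left h8 hCb
  linarith [h10, mul_assoc Cb (Real.exp (1 + κ₁ / 2)) (Real.exp (-(A * L)))]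

/-- The counting estimate, from DBC, TOT and RAT. -/
theorem FDG_count (hDBC : Stmt_DBC) (hRAT : Stmt_RAT) (g n k k₂ : ℕ) (c C C₂ y : ℝ) (A₂ : ℕ) (κ₁ : ℝ)
    (hg : 2 ≤ g) (_hn : 1 ≤ n) (hy : y = Real.log (prml n)) (hy0 : 0 < y)
    (hF : ∀ (b : Fin k₂ → ℤ) (N : ℤ), Adm g g (fun _ => g) b →
      (((bx fun i => Nat.log ((fun _ : Fin k₂ => g) i) (prml (n + 1))).filter fun v =>
        ∃ m : ℕ, (m : ℤ) = vl N (fun _ => g) b v ∧ Bdp n c m).card : ℝ) ≤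
        (C * Real.exp (-(κ₁ * k₂)) + C₂ / (Real.log (prml n)) ^ A₂) *
          ∏ i, (Nat.log ((fun _ : Fin k₂ => g) i) (prml (n + 1)) : ℝ))
    (hk : k₂ + 2 ≤ k) (hα : k < Nat.log g (prml n))
    (hL1 : Nat.log g (prml (n + 1) + 1) ≤ Nat.log g (prml n) + om g n)
    (hL2 : Nat.log g (prml (n + 1)) ≤ Nat.log g (prml n) + om g n)
    (hL3 : Nat.log g (prml (n + 1) + 1) ≤ Nat.log g (prml (n + 1)) + 1)
    (hT1 : (((Icc (g ^ Nat.log g (prml n)) (prml (n + 1) + 1)).filter fun N =>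
        nz g N = (k - k₂ - 1) + 1).card : ℝ) ≤
      (om g n : ℝ) * (((Nat.log g (prml (n + 1) + 1)).choose (k - k₂ - 1) : ℝ) *
        ((g : ℝ) - 1) ^ ((k - k₂ - 1) + 1)))
    (hT2 : (om g n : ℝ) * (((Nat.log g (prml n)).choose (k - 1) : ℝ) *
        ((g : ℝ) - 1) ^ ((k - 1) + 1)) ≤
      6 * (((evensIn (n + 1)).filter fun m => nz g m = (k - 1) + 1).card : ℝ)) :
    (((evensIn (n + 1)).filter fun m => nz g m = k ∧ Bdp n c m).card : ℝ) ≤
      6 * ((k₂ : ℝ) + 1) * Real.exp (((k₂ : ℝ) * (om g n + k) + k * om g n) /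
        ((Nat.log g (prml n) : ℝ) - k)) *
        (|C| * Real.exp (-(κ₁ * k₂)) + |C₂| * Real.exp (-((A₂ : ℝ) * Real.log y))) *
        (((evensIn (n + 1)).filter fun m => nz g m = k).card : ℝ) := by
  set ℓ : ℕ := Nat.log g (prml (n + 1)) with hℓ
  set F : ℝ := |C| * Real.exp (-(κ₁ * k₂)) + |C₂| * Real.exp (-((A₂ : ℝ) * Real.log y)) with hFdef
  have hF0 : 0 ≤ F := by positivity
  have hg1 : (0 : ℝ) ≤ (g : ℝ) - 1 := by
    have : (2 : ℝ) ≤ g := by exact_mod_cast hg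
    linarith
  have hyA : Real.exp (-((A₂ : ℝ) * Real.log y)) = 1 / y ^ A₂ := by
    rw [Real.exp_neg, Real.exp_nat_mul, Real.exp_log hy0, one_div]
  have hFge : C * Real.exp (-(κ₁ * k₂)) + C₂ / (Real.log (prml n)) ^ A₂ ≤ F := by
    rw [hFdef, hyA, ← hy]
    have h1 : C * Real.exp (-(κ₁ * k₂)) ≤ |C| * Real.exp (-(κ₁ * k₂)) :=
      mul_le_mul_of_nonneg_right (le_abs_self C) (Real.exp_pos _).le
    have h2 : C₂ / y ^ A₂ ≤ |C₂| * (1 / y ^ A₂) := by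
      rw [div_eq_mul_one_div]
      exact mul_le_mul_of_nonneg_right (le_abs_self C₂) (by positivity)
    exact add_le_add h1 h2
  have hE : (0 : ℝ) ≤ F * (ℓ : ℝ) ^ k₂ := by positivity
  have hb := hDBC g ℓ (Nat.log g (prml n)) (prml (n + 1) + 1) k k₂
    (fun z => ∃ m : ℕ, (m : ℤ) = z ∧ Bdp n c m) (F * (ℓ : ℝ) ^ k₂)
    ((evensIn (n + 1)).filter fun m => nz g m = k ∧ Bdp n c m) hg hE hk ?_ ?_
  · have hD : (0 : ℝ) < ((k - 2).descFactorial k₂ : ℝ) := by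
      exact_mod_cast Nat.descFactorial_pos.mpr (by omega)
    have hR := hRAT (Nat.log g (prml n)) (Nat.log g (prml (n + 1) + 1)) (om g n) ℓ k k₂ hk hα hL1 hL2
    have e1 : k - k₂ - 1 + 1 = k - k₂ := by omega
    have e2 : k - 1 + 1 = k := by omega
    rw [e1] at hT1
    rw [e2] at hT2
    set D : ℝ := ((k - 2).descFactorial k₂ : ℝ) with hDdef
    set S : ℝ := (((evensIn (n + 1)).filter fun m => nz g m = k ∧ Bdp n c m).card : ℝ) with hS
    set T : ℝ := (((evensIn (n + 1)).filter fun m => nz g m = k).card : ℝ) with hTdef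
    set X : ℝ := (((k₂ : ℝ) * (om g n + k) + k * om g n) / ((Nat.log g (prml n) : ℝ) - k)) with hX
    have h1 : S * D ≤ ((om g n : ℝ) * (((Nat.log g (prml (n + 1) + 1)).choose (k - k₂ - 1) : ℝ) *
        ((g : ℝ) - 1) ^ (k - k₂))) * ((g : ℝ) - 1) ^ k₂ * (F * (ℓ : ℝ) ^ k₂) := by
      refine hb.trans ?_
      gcongr
    have e3 : ((g : ℝ) - 1) ^ (k - k₂) * ((g : ℝ) - 1) ^ k₂ = ((g : ℝ) - 1) ^ k := by
      rw [← pow_add]
      congr 1
      omega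
    have h2 : S * D ≤ (om g n : ℝ) * ((g : ℝ) - 1) ^ k * F *
        (((Nat.log g (prml (n + 1) + 1)).choose (k - k₂ - 1) : ℝ) * (ℓ : ℝ) ^ k₂) := by
      refine h1.trans (le_of_eq ?_)
      rw [← e3]
      ring
    have h3 : S * D ≤ (om g n : ℝ) * ((g : ℝ) - 1) ^ k * F *
        (((k₂ : ℝ) + 1) * Real.exp X * ((Nat.log g (prml n)).choose (k - 1) : ℝ) * D) := by
      refine h2.trans ?_
      apply mul_le_mul_of_nonneg_left hR
      positivity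
    have h4 : S * D ≤ (6 * ((k₂ : ℝ) + 1) * Real.exp X * F * T) * D := by
      refine h3.trans ?_
      have h5 : (om g n : ℝ) * ((g : ℝ) - 1) ^ k * F *
          (((k₂ : ℝ) + 1) * Real.exp X * ((Nat.log g (prml n)).choose (k - 1) : ℝ) * D) =
          (F * (((k₂ : ℝ) + 1) * Real.exp X) * D) *
            ((om g n : ℝ) * (((Nat.log g (prml n)).choose (k - 1) : ℝ) * ((g : ℝ) - 1) ^ k)) := by
        ring
      rw [h5]
      have h6 : (0 : ℝ) ≤ F * (((k₂ : ℝ) + 1) * Real.exp X) * D := by positivity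
      refine (mul_le_mul_of_nonneg_left hT2 h6).trans (le_of_eq ?_)
      ring
    exact le_of_mul_le_mul_right h4 hD
  · intro N b hb
    have hadm : Adm g g (fun _ : Fin k₂ => g) b := by
      intro i
      obtain ⟨h1, h2⟩ := hb i
      refine ⟨hg, le_rfl, by omega, ?_⟩
      rw [abs_of_nonneg (by omega)]
      exact h2.le
    refine (hF b N hadm).trans ?_
    rw [Finset.prod_const, Finset.card_univ, Fintype.card_fin]
    exact mul_le_mul_of_nonneg_right hFge (by positivity)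
  · intro m hm
    rw [Finset.mem_filter] at hm
    obtain ⟨hm1, hm2, hm3⟩ := hm
    unfold evensIn primorialInterval at hm1
    rw [Finset.mem_filter, Finset.mem_Icc, Nat.add_sub_cancel] at hm1
    obtain ⟨⟨h1, h2⟩, -⟩ := hm1
    refine ⟨by omega, ⟨m, rfl, hm3⟩, hm2, Nat.log_mono_right (by omega), ?_, h2⟩
    exact (Nat.log_mono_right h2).trans hL3

theorem p_FDG (hDBC : Stmt_DBC) (hTOT : Stmt_TOT) (hRAT : Stmt_RAT) (hLGS : Stmt_LGS) :
    Stmt_FDG := by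
  intro c _hc hFin g hg
  obtain ⟨κ₁, C, hκ₁, hF⟩ := hFin g g
  obtain ⟨c₁, C₁, nL, hc₁, hC₁, hLG⟩ := hLGS g hg
  obtain ⟨nT, hT⟩ := hTOT g hg
  obtain ⟨κ, hκ, hκa, hκb, hκc⟩ : ∃ κ : ℝ, 0 < κ ∧ κ ≤ κ₁ / 2 ∧ κ ≤ c₁ / 2 ∧ κ ≤ c₁ * κ₁ / 16 := by
    refine ⟨min (κ₁ / 2) (min (c₁ / 2) (c₁ * κ₁ / 16)), ?_, min_le_left _ _,
      (min_le_right _ _).trans (min_le_left _ _), (min_le_right _ _).trans (min_le_right _ _)⟩
    exact lt_min (by positivity) (lt_min (by positivity) (by positivity))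
  have hM0 : (0 : ℝ) ≤ 6 * (1 + 4 / κ₁) := by positivity
  refine ⟨κ, Real.exp (3 * κ) + 6 * (1 + 4 / κ₁) * (|C| * Real.exp (1 + κ₁)), hκ, ?_⟩
  intro A
  obtain ⟨C₂, hC₂⟩ : ∃ x : ℝ, x = κ₁ * C₁ / 8 := ⟨_, rfl⟩
  have hC₂0 : 0 ≤ C₂ := by rw [hC₂]; positivity
  obtain ⟨A', hA'⟩ : ∃ x : ℝ, x = 2 * (C₂ + A) / κ₁ := ⟨_, rfl⟩
  have hA'0 : 0 ≤ A' := by rw [hA']; positivity
  have hA'e : κ₁ * A' / 2 = C₂ + A := by
    rw [hA']
    field_simp
  obtain ⟨A₂, hA₂⟩ : ∃ m : ℕ, 2 * C₂ + 2 * (A : ℝ) ≤ m := exists_nat_ge _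
  obtain ⟨Cb, hCb⟩ := hF A₂
  obtain ⟨nB, hB⟩ := FDG_big (16 * C₁ / (κ₁ * c₁) + 2 * (A' + 3) * C₁ / c₁)
  obtain ⟨n₀, hn₀⟩ : ∃ m : ℕ, m = max nL (max nT nB) := ⟨_, rfl⟩
  refine ⟨(Real.log (prml n₀)) ^ A +
    6 * (1 + 4 / κ₁) * (|C| + |Cb| * Real.exp (1 + κ₁ / 2)), ?_⟩
  intro n k hn hk
  have hple : ∀ m : ℕ, 0 ≤ Real.log (prml m) := by
    intro m
    apply Real.log_nonneg
    have := FDG_pow m
    have h2 : 1 ≤ prml m := le_trans Nat.one_le_two_pow this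
    exact_mod_cast h2
  have hy : 0 < Real.log (prml n) := by
    apply Real.log_pos
    have h1 : 2 ^ 1 ≤ prml n := (Nat.pow_le_pow_right (by norm_num) hn).trans (FDG_pow n)
    have h2 : 1 < prml n := by omega
    exact_mod_cast h2
  obtain ⟨y, hyd⟩ : ∃ y : ℝ, y = Real.log (prml n) := ⟨_, rfl⟩
  rw [← hyd] at hk hy ⊢
  have hle : (((evensIn (n + 1)).filter fun m => nz g m = k ∧ Bdp n c m).card : ℝ) ≤
      (((evensIn (n + 1)).filter fun m => nz g m = k).card : ℝ) := by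
    have h1 : ((evensIn (n + 1)).filter fun m => nz g m = k ∧ Bdp n c m).card ≤
        ((evensIn (n + 1)).filter fun m => nz g m = k).card := by
      apply Finset.card_le_card
      intro m hm
      rw [Finset.mem_filter] at hm ⊢
      exact ⟨hm.1, hm.2.1⟩
    exact_mod_cast h1
  by_cases htriv : 1 ≤ (Real.exp (3 * κ) + 6 * (1 + 4 / κ₁) * (|C| * Real.exp (1 + κ₁))) *
      Real.exp (-(κ * k)) + ((Real.log (prml n₀)) ^ A +
        6 * (1 + 4 / κ₁) * (|C| + |Cb| * Real.exp (1 + κ₁ / 2))) / y ^ A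
  · refine hle.trans ?_
    exact le_mul_of_one_le_left (Nat.cast_nonneg _) htriv
  have hlt := not_le.mp htriv
  have hc1 : 0 ≤ 6 * (1 + 4 / κ₁) * (|C| * Real.exp (1 + κ₁)) := by positivity
  have hc2 : 0 ≤ 6 * (1 + 4 / κ₁) * (|C| + |Cb| * Real.exp (1 + κ₁ / 2)) := by positivity
  have hc3 : 0 ≤ (Real.log (prml n₀)) ^ A := pow_nonneg (hple n₀) A
  have hyA : 0 < y ^ A := pow_pos hy A
  have hk3 : 3 ≤ k := by
    by_contra hcon
    have h1 : (k : ℝ) ≤ 2 := by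
      have : k ≤ 2 := by omega
      exact_mod_cast this
    have h2 : 1 ≤ Real.exp (3 * κ) * Real.exp (-(κ * k)) := by
      rw [← Real.exp_add]
      apply Real.one_le_exp
      nlinarith
    have h3 : 0 ≤ 6 * (1 + 4 / κ₁) * (|C| * Real.exp (1 + κ₁)) * Real.exp (-(κ * k)) :=
      mul_nonneg hc1 (Real.exp_pos _).le
    have h4 : 0 ≤ ((Real.log (prml n₀)) ^ A +
        6 * (1 + 4 / κ₁) * (|C| + |Cb| * Real.exp (1 + κ₁ / 2))) / y ^ A :=
      div_nonneg (add_nonneg hc3 hc2) hyA.le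
    apply htriv
    rw [add_mul]
    linarith
  have hnn : n₀ ≤ n := by
    by_contra hcon
    have h1 : y ≤ Real.log (prml n₀) := by
      rw [hyd]
      apply Real.log_le_log
      · have h2 := FDG_pow n
        have h3 : 0 < prml n := lt_of_lt_of_le (by positivity) h2
        exact_mod_cast h3
      · exact_mod_cast FDG_mono (by omega)
    have h2 : y ^ A ≤ (Real.log (prml n₀)) ^ A := pow_le_pow_left₀ hy.le h1 A
    have h3 : 1 ≤ ((Real.log (prml n₀)) ^ A +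
        6 * (1 + 4 / κ₁) * (|C| + |Cb| * Real.exp (1 + κ₁ / 2))) / y ^ A := by
      rw [le_div_iff₀ hyA]
      linarith
    have h4 : 0 ≤ (Real.exp (3 * κ) + 6 * (1 + 4 / κ₁) * (|C| * Real.exp (1 + κ₁))) *
        Real.exp (-(κ * k)) := by positivity
    apply htriv
    linarith
  have hnL : nL ≤ n := le_trans (le_max_left _ _) (hn₀ ▸ hnn)
  have hnT : nT ≤ n := le_trans ((le_max_left _ _).trans (le_max_right _ _)) (hn₀ ▸ hnn)
  have hnB : nB ≤ n := le_trans ((le_max_right _ _).trans (le_max_right _ _)) (hn₀ ▸ hnn)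
  obtain ⟨hL1, hKL⟩ := hB n hnB
  obtain ⟨hl1, hl2, hl3, hl4, hl5⟩ := hLG n hnL
  rw [← hyd] at hL1 hKL hl1 hl2
  obtain ⟨L, hLd⟩ : ∃ L : ℝ, L = Real.log y := ⟨_, rfl⟩
  rw [← hLd] at hL1 hKL hl2
  obtain ⟨α, hαd⟩ : ∃ α : ℕ, α = Nat.log g (prml n) := ⟨_, rfl⟩
  obtain ⟨ω, hωd⟩ : ∃ ω : ℕ, ω = om g n := ⟨_, rfl⟩
  rw [← hαd] at hl1
  rw [← hωd] at hl2
  -- the two consequences of the size of `n`
  have hLsq : L ≤ L ^ 2 := by nlinarith
  have hw1 : 16 * C₁ / (κ₁ * c₁) * L ≤ y := by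
    have h1 : 16 * C₁ / (κ₁ * c₁) * L ≤ 16 * C₁ / (κ₁ * c₁) * L ^ 2 :=
      mul_le_mul_of_nonneg_left hLsq (by positivity)
    have h2 : 0 ≤ 2 * (A' + 3) * C₁ / c₁ * L ^ 2 := by positivity
    linarith [add_mul (16 * C₁ / (κ₁ * c₁)) (2 * (A' + 3) * C₁ / c₁) (L ^ 2)]
  have hw2 : 2 * (A' + 3) * C₁ / c₁ * L ^ 2 ≤ y := by
    have h2 : 0 ≤ 16 * C₁ / (κ₁ * c₁) * L ^ 2 := by positivity
    linarith [add_mul (16 * C₁ / (κ₁ * c₁)) (2 * (A' + 3) * C₁ / c₁) (L ^ 2)]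
  have hw1' : 16 * C₁ * L ≤ κ₁ * c₁ * y := by
    have h1 : 16 * C₁ / (κ₁ * c₁) * L = 16 * C₁ * L / (κ₁ * c₁) := by ring
    rw [h1, div_le_iff₀ (by positivity)] at hw1
    linarith
  have hw2' : 2 * (A' + 3) * C₁ * L ^ 2 ≤ c₁ * y := by
    have h1 : 2 * (A' + 3) * C₁ / c₁ * L ^ 2 = 2 * (A' + 3) * C₁ * L ^ 2 / c₁ := by ring
    rw [h1, div_le_iff₀ hc₁] at hw2
    linarith
  -- the denominator
  have hden : c₁ * y / 2 ≤ (α : ℝ) - k := by
    have h1 : κ * y ≤ c₁ / 2 * y := mul_le_mul_of_nonneg_right hκb hy.le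
    linarith
  have hden0 : 0 < c₁ * y / 2 := by positivity
  have hden1 : 0 < (α : ℝ) - k := lt_of_lt_of_le hden0 hden
  have hkα : k < Nat.log g (prml n) := by
    rw [← hαd]
    have : (k : ℝ) < α := by linarith
    exact_mod_cast this
  -- `k / (α - k) ≤ κ₁ / 8`, `ω / (α - k) ≤ κ₁ / 8`
  have hk8 : (k : ℝ) / ((α : ℝ) - k) ≤ κ₁ / 8 := by
    rw [div_le_iff₀ hden1]
    have h1 : κ * y ≤ c₁ * κ₁ / 16 * y := mul_le_mul_of_nonneg_right hκc hy.le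
    have h2 : κ₁ / 8 * (c₁ * y / 2) ≤ κ₁ / 8 * ((α : ℝ) - k) :=
      mul_le_mul_of_nonneg_left hden (by positivity)
    nlinarith
  have hω8 : (ω : ℝ) / ((α : ℝ) - k) ≤ κ₁ / 8 := by
    rw [div_le_iff₀ hden1]
    have h2 : κ₁ / 8 * (c₁ * y / 2) ≤ κ₁ / 8 * ((α : ℝ) - k) :=
      mul_le_mul_of_nonneg_left hden (by positivity)
    nlinarith
  -- the choice of `k₂`
  obtain ⟨q, hq⟩ : ∃ q : ℕ, q = ⌈A' * L⌉₊ := ⟨_, rfl⟩
  have hL0 : 0 ≤ L := by linarith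
  have hq1 : A' * L ≤ q := by rw [hq]; exact Nat.le_ceil _
  have hq2 : (q : ℝ) ≤ A' * L + 1 := by
    rw [hq]
    exact (Nat.ceil_lt_add_one (by positivity)).le
  -- the exponent
  have hXe : ∀ k₂ : ℕ, (((k₂ : ℝ) * (om g n + k) + k * om g n) / ((Nat.log g (prml n) : ℝ) - k)) ≤
      κ₁ * k₂ / 4 + (k : ℝ) * ((ω : ℝ) / ((α : ℝ) - k)) := by
    intro k₂
    rw [← hαd, ← hωd]
    have h1 : (((k₂ : ℝ) * (ω + k) + k * ω) / ((α : ℝ) - k)) =
        (k₂ : ℝ) * ((ω : ℝ) / ((α : ℝ) - k)) + (k₂ : ℝ) * ((k : ℝ) / ((α : ℝ) - k)) +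
          (k : ℝ) * ((ω : ℝ) / ((α : ℝ) - k)) := by
      field_simp
    rw [h1]
    have h2 : (k₂ : ℝ) * ((ω : ℝ) / ((α : ℝ) - k)) ≤ (k₂ : ℝ) * (κ₁ / 8) :=
      mul_le_mul_of_nonneg_left hω8 (Nat.cast_nonneg _)
    have h3 : (k₂ : ℝ) * ((k : ℝ) / ((α : ℝ) - k)) ≤ (k₂ : ℝ) * (κ₁ / 8) :=
      mul_le_mul_of_nonneg_left hk8 (Nat.cast_nonneg _)
    linarith
  -- everything but the choice of `Z`
  have hmain : ∀ (k₂ : ℕ) (Z : ℝ), k₂ + 2 ≤ k → k₂ ≤ q → Z ≤ 1 + C₂ * L →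
      (k : ℝ) * ((ω : ℝ) / ((α : ℝ) - k)) ≤ Z →
      Real.exp (Z - κ₁ * k₂ / 2) ≤
        Real.exp (1 + κ₁) * Real.exp (-(κ * k)) + Real.exp (-((A : ℝ) * L)) →
      (((evensIn (n + 1)).filter fun m => nz g m = k ∧ Bdp n c m).card : ℝ) ≤
        ((Real.exp (3 * κ) + 6 * (1 + 4 / κ₁) * (|C| * Real.exp (1 + κ₁))) *
          Real.exp (-(κ * k)) + ((Real.log (prml n₀)) ^ A +
            6 * (1 + 4 / κ₁) * (|C| + |Cb| * Real.exp (1 + κ₁ / 2))) / y ^ A) *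
          (((evensIn (n + 1)).filter fun m => nz g m = k).card : ℝ) := by
    intro k₂ Z hk2 hkq hZ hkZ hexp
    have hcnt := FDG_count hDBC hRAT g n k k₂ c C Cb y A₂ κ₁ hg hn hyd hy
      (fun b N hadm => hCb n k₂ (fun _ => g) b N hn hadm) hk2 hkα hl3 hl4 hl5
      (hT n (k - k₂ - 1) hnT).1 (hT n (k - 1) hnT).2
    refine hcnt.trans (mul_le_mul_of_nonneg_right ?_ (Nat.cast_nonneg _))
    rw [← hLd]
    have hkq' : (k₂ : ℝ) ≤ q := by exact_mod_cast hkq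
    have hk2' : κ₁ * k₂ / 2 ≤ (C₂ + A) * L + κ₁ / 2 := by
      have h1 : κ₁ * k₂ ≤ κ₁ * (A' * L + 1) :=
        mul_le_mul_of_nonneg_left (hkq'.trans hq2) hκ₁.le
      have h2 : κ₁ * A' / 2 * L = (C₂ + A) * L := by rw [hA'e]
      nlinarith
    have hnum := FDG_num κ₁ |C| |Cb| C₂ A L k₂ _ A₂ Z hκ₁ (abs_nonneg _) (abs_nonneg _) hL0
      (Nat.cast_nonneg _) hk2' hA₂ ((hXe k₂).trans (by linarith)) hZ
    refine hnum.trans ?_
    have hyA' : Real.exp (-((A : ℝ) * L)) = 1 / y ^ A := by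
      rw [hLd, Real.exp_neg, Real.exp_nat_mul, Real.exp_log hy, one_div]
    have h1 : |C| * Real.exp (Z - κ₁ * k₂ / 2) ≤
        |C| * (Real.exp (1 + κ₁) * Real.exp (-(κ * k)) + Real.exp (-((A : ℝ) * L))) :=
      mul_le_mul_of_nonneg_left hexp (abs_nonneg _)
    have h2 := mul_le_mul_of_nonneg_left (add_le_add_left h1
      (|Cb| * Real.exp (1 + κ₁ / 2) * Real.exp (-((A : ℝ) * L)))) hM0
    refine h2.trans ?_
    rw [hyA']
    have h3 : 0 ≤ Real.exp (3 * κ) * Real.exp (-(κ * k)) := by positivity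
    have h4 : 0 ≤ (Real.log (prml n₀)) ^ A / y ^ A := div_nonneg hc3 hyA.le
    have h5 : ((Real.exp (3 * κ) + 6 * (1 + 4 / κ₁) * (|C| * Real.exp (1 + κ₁))) *
          Real.exp (-(κ * k)) + ((Real.log (prml n₀)) ^ A +
            6 * (1 + 4 / κ₁) * (|C| + |Cb| * Real.exp (1 + κ₁ / 2))) / y ^ A) =
        Real.exp (3 * κ) * Real.exp (-(κ * k)) + (Real.log (prml n₀)) ^ A / y ^ A +
          6 * (1 + 4 / κ₁) * (|C| * (Real.exp (1 + κ₁) * Real.exp (-(κ * k)) + 1 / y ^ A) +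
            |Cb| * Real.exp (1 + κ₁ / 2) * (1 / y ^ A)) := by
      ring
    rw [h5]
    linarith
  rcases le_total (k - 2) q with hcase | hcase
  · -- `k₂ = k - 2`
    refine hmain (k - 2) 1 (by omega) hcase (by nlinarith) ?_ ?_
    · have h1 : (k : ℝ) ≤ (A' + 3) * L := by
        have h2 : ((k - 2 : ℕ) : ℝ) ≤ q := by exact_mod_cast hcase
        have h3 : ((k - 2 : ℕ) : ℝ) = (k : ℝ) - 2 := by
          rw [Nat.cast_sub (by omega)]
          norm_num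
        rw [h3] at h2
        nlinarith
      rw [← mul_div_assoc, div_le_iff₀ hden1, one_mul]
      refine le_trans ?_ hden
      have h4 : (k : ℝ) * ω ≤ ((A' + 3) * L) * (C₁ * L) := by
        apply mul_le_mul h1 hl2 (Nat.cast_nonneg _)
        positivity
      nlinarith
    · have h3 : ((k - 2 : ℕ) : ℝ) = (k : ℝ) - 2 := by
        rw [Nat.cast_sub (by omega)]
        norm_num
      rw [h3, ← Real.exp_add]
      have h4 : Real.exp (1 - κ₁ * ((k : ℝ) - 2) / 2) ≤ Real.exp (1 + κ₁ + -(κ * k)) := by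
        apply Real.exp_le_exp.mpr
        have h5 : κ * k ≤ κ₁ / 2 * k := mul_le_mul_of_nonneg_right hκa (Nat.cast_nonneg _)
        linarith
      have h5 := Real.exp_pos (-((A : ℝ) * L))
      linarith
  · -- `k₂ = q`
    refine hmain q (C₂ * L) (by omega) le_rfl (by linarith) ?_ ?_
    · have h1 : (k : ℝ) * ((ω : ℝ) / ((α : ℝ) - k)) = (ω : ℝ) * ((k : ℝ) / ((α : ℝ) - k)) := by
        ring
      rw [h1]
      have h2 : (ω : ℝ) * ((k : ℝ) / ((α : ℝ) - k)) ≤ (C₁ * L) * (κ₁ / 8) := by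
        apply mul_le_mul hl2 hk8 (by positivity)
        positivity
      refine h2.trans (le_of_eq ?_)
      rw [hC₂]
      ring
    · have h1 : Real.exp (C₂ * L - κ₁ * q / 2) ≤ Real.exp (-((A : ℝ) * L)) := by
        apply Real.exp_le_exp.mpr
        have h2 : κ₁ * (A' * L) ≤ κ₁ * q := mul_le_mul_of_nonneg_left hq1 hκ₁.le
        have h3 : κ₁ * A' / 2 * L = (C₂ + A) * L := by rw [hA'e]
        nlinarith
      have h4 : 0 < Real.exp (1 + κ₁) * Real.exp (-(κ * k)) := by positivity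
      linarith

end Pool.TP
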