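import Pool.Agent.Work.MP_484fb8_tp.Interface

set_option autoImplicit false

/-! # TypicalPowers, block FFS -/

namespace Pool.TP

open Finset
open scoped Classical

theorem FFS_nonneg (n : ℕ) : 0 ≤ FF n := Finset.sum_nonneg fun _ _ => by positivity

theorem FFS_mul (m n : ℕ) (h : m.Coprime n) : FF (m * n) = FF m * FF n := by
  unfold FF
  rw [Nat.divisors_mul, Finset.mul_def, Finset.sum_image h.mul_injOn_divisors, Finset.sum_mul_sum,
    ← Finset.sum_product']
  refine Finset.sum_congr rfl fun p _ => ?_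
  push_cast
  rw [one_div_mul_one_div]

theorem FFS_pp (p n : ℕ) (hp : p.Prime) : FF (p ^ n) ≤ (1 - (p : ℝ)⁻¹)⁻¹ := by
  have hp1 : (1 : ℝ) < p := by exact_mod_cast hp.one_lt
  have h1 : (p : ℝ)⁻¹ < 1 := inv_lt_one_of_one_lt₀ hp1
  have h0 : (0 : ℝ) ≤ (p : ℝ)⁻¹ := by positivity
  unfold FF
  rw [Nat.sum_divisors_prime_pow hp]
  have h := Summable.sum_le_tsum (range (n + 1)) (fun i _ => by positivity)
    (summable_geometric_of_lt_one h0 h1)
  rw [tsum_geometric_of_lt_one h0 h1] at h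
  refine le_trans (le_of_eq ?_) h
  refine Finset.sum_congr rfl fun i _ => ?_
  push_cast
  rw [one_div, inv_pow]

theorem FFS_le (h : ℕ) : h ≠ 0 → FF h ≤ ∏ p ∈ h.primeFactors, (1 - (p : ℝ)⁻¹)⁻¹ := by
  have hpos : ∀ n : ℕ, 0 ≤ ∏ p ∈ n.primeFactors, (1 - (p : ℝ)⁻¹)⁻¹ := by
    intro n
    refine prod_nonneg fun p hp => ?_
    have h1 : (1 : ℝ) < p := by exact_mod_cast (Nat.prime_of_mem_primeFactors hp).one_lt
    have : (p : ℝ)⁻¹ < 1 := inv_lt_one_of_one_lt₀ h1
    exact inv_nonneg.2 (by linarith)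
  induction h using Nat.recOnPosPrimePosCoprime with
  | prime_pow p n hp hn =>
    intro _
    rw [Nat.primeFactors_prime_pow hn.ne' hp, prod_singleton]
    exact FFS_pp p n hp
  | zero => exact fun h => absurd rfl h
  | one =>
    intro _
    unfold FF
    simp
  | coprime a b ha hb hab iha ihb =>
    intro _
    rw [FFS_mul a b hab, hab.primeFactors_mul, prod_union hab.disjoint_primeFactors]
    exact mul_le_mul (iha (by omega)) (ihb (by omega)) (FFS_nonneg b) (hpos a)

theorem FFS_one (p : ℕ) (hp : p.Prime) :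
    ((1 - (p : ℝ)⁻¹)⁻¹) ^ 2 ≤ (if p < 5 then 2 else 1) * (1 + 3 / (p : ℝ)) := by
  have h2 := hp.two_le
  have h2' : (2 : ℝ) ≤ p := by exact_mod_cast h2
  split_ifs with h5
  · have : p = 2 ∨ p = 3 ∨ p = 4 := by omega
    rcases this with rfl | rfl | rfl <;> norm_num
  · have h5' : (5 : ℝ) ≤ p := by exact_mod_cast (by omega : 5 ≤ p)
    have e1 : (1 - (p : ℝ)⁻¹)⁻¹ = p / (p - 1) := by
      have : (p : ℝ) - 1 ≠ 0 := by linarith
      have : (p : ℝ) ≠ 0 := by linarith
      field_simp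
    have e2 : 1 + 3 / (p : ℝ) = (p + 3) / p := by
      have : (p : ℝ) ≠ 0 := by linarith
      field_simp
    rw [e1, e2, one_mul, div_pow, div_le_div_iff₀ (by nlinarith) (by linarith)]
    nlinarith [mul_nonneg (by linarith : (0 : ℝ) ≤ p - 5) (by linarith : (0 : ℝ) ≤ (p : ℝ))]

theorem FFS_sq (h : ℕ) (hh : h ≠ 0) : FF h ^ 2 ≤ 4 * ∏ p ∈ h.primeFactors, (1 + 3 / (p : ℝ)) := by
  have h1 : FF h ^ 2 ≤ (∏ p ∈ h.primeFactors, (1 - (p : ℝ)⁻¹)⁻¹) ^ 2 :=
    pow_le_pow_left₀ (FFS_nonneg h) (FFS_le h hh) 2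
  have h2 : (∏ p ∈ h.primeFactors, (1 - (p : ℝ)⁻¹)⁻¹) ^ 2 ≤
      ∏ p ∈ h.primeFactors, ((if p < 5 then 2 else 1) * (1 + 3 / (p : ℝ))) := by
    rw [← prod_pow]
    exact prod_le_prod (fun p _ => sq_nonneg _) fun p hp => FFS_one p (Nat.prime_of_mem_primeFactors hp)
  have h3 : (∏ p ∈ h.primeFactors, (if p < 5 then (2 : ℝ) else 1)) ≤ 4 := by
    rw [← prod_filter, prod_const]
    have h4 : h.primeFactors.filter (fun p => p < 5) ⊆ {2, 3} := by
      intro p hp
      rw [mem_filter] at hp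
      have hpp := Nat.prime_of_mem_primeFactors hp.1
      have := hpp.two_le
      have h6 : p = 2 ∨ p = 3 ∨ p = 4 := by omega
      rcases h6 with rfl | rfl | rfl
      · simp
      · simp
      · exact absurd hpp (by norm_num)
    have h5 : (h.primeFactors.filter (fun p => p < 5)).card ≤ 2 := (card_le_card h4).trans (by simp)
    calc (2 : ℝ) ^ (h.primeFactors.filter (fun p => p < 5)).card ≤ 2 ^ 2 :=
          pow_le_pow_right₀ (by norm_num) h5
      _ = 4 := by norm_num
  rw [prod_mul_distrib] at h2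
  refine (h1.trans h2).trans (mul_le_mul_of_nonneg_right h3 ?_)
  exact prod_nonneg fun p _ => by positivity

theorem p_FFS : Stmt_FFS := by
  intro g hg
  refine ⟨4 * (3 ^ g.primeFactors.card * Real.exp (3 * (1 + g))), by positivity, ?_⟩
  intro L h hL hh hle
  have hL' : (1 : ℝ) ≤ L := by exact_mod_cast hL
  have hcard : h.primeFactors.card ≤ (1 + g) * L := by
    have h1 : 2 ^ h.primeFactors.card ≤ ∏ p ∈ h.primeFactors, p := by
      refine Finset.pow_card_le_prod _ _ _ fun p hp => (Nat.prime_of_mem_primeFactors hp).two_le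
    have h2 : ∏ p ∈ h.primeFactors, p ≤ h := Nat.le_of_dvd hh (Nat.prod_primeFactors_dvd h)
    have h3 : g ^ L ≤ 2 ^ (g * L) := by
      rw [pow_mul]
      exact Nat.pow_le_pow_left (Nat.lt_two_pow_self).le L
    have h4 : 2 ^ h.primeFactors.card ≤ 2 ^ (1 + g * L) := by
      rw [pow_add, pow_one]
      omega
    have h5 := (Nat.pow_le_pow_iff_right (by norm_num : 1 < 2)).1 h4
    nlinarith
  set A := (PL g L).filter fun p => p ∣ h with hA
  set B := h.primeFactors.filter fun p => p ∣ g with hB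
  set D := (h.primeFactors.filter fun p => ¬ p ∣ g).filter fun p => ¬ p ≤ L with hD
  have hAe : (h.primeFactors.filter fun p => ¬ p ∣ g).filter (fun p => p ≤ L) = A := by
    ext p
    rw [hA, mem_filter, mem_filter, mem_filter, PL, mem_filter, mem_range, Nat.mem_primeFactors]
    constructor
    · rintro ⟨⟨⟨h1, h2, h3⟩, h4⟩, h5⟩
      exact ⟨⟨by omega, h1, h4⟩, h2⟩
    · rintro ⟨⟨h5, h1, h4⟩, h2⟩
      exact ⟨⟨⟨h1, h2, hh.ne'⟩, h4⟩, by omega⟩
  have hsplit : ∏ p ∈ h.primeFactors, (1 + 3 / (p : ℝ)) =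
      (∏ p ∈ B, (1 + 3 / (p : ℝ))) * ((∏ p ∈ A, (1 + 3 / (p : ℝ))) * ∏ p ∈ D, (1 + 3 / (p : ℝ))) := by
    rw [← prod_filter_mul_prod_filter_not h.primeFactors (fun p => p ∣ g),
      ← prod_filter_mul_prod_filter_not (h.primeFactors.filter fun p => ¬ p ∣ g) (fun p => p ≤ L), hAe]
  have hBb : ∏ p ∈ B, (1 + 3 / (p : ℝ)) ≤ 3 ^ g.primeFactors.card := by
    have hBs : B ⊆ g.primeFactors := by
      intro p hp
      rw [hB, mem_filter] at hp
      exact Nat.mem_primeFactors.2 ⟨Nat.prime_of_mem_primeFactors hp.1, hp.2, by omega⟩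
    calc ∏ p ∈ B, (1 + 3 / (p : ℝ)) ≤ ∏ _p ∈ B, (3 : ℝ) := by
          refine prod_le_prod (fun p _ => by positivity) fun p hp => ?_
          rw [hB, mem_filter] at hp
          have h1 : (2 : ℝ) ≤ p := by exact_mod_cast (Nat.prime_of_mem_primeFactors hp.1).two_le
          have h2 : 3 / (p : ℝ) ≤ 3 / 2 := div_le_div_of_nonneg_left (by norm_num) (by norm_num) h1
          linarith
      _ = 3 ^ B.card := prod_const _
      _ ≤ 3 ^ g.primeFactors.card := pow_le_pow_right₀ (by norm_num) (card_le_card hBs)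
  have hDb : ∏ p ∈ D, (1 + 3 / (p : ℝ)) ≤ Real.exp (3 * (1 + g)) := by
    calc ∏ p ∈ D, (1 + 3 / (p : ℝ)) ≤ ∏ _p ∈ D, Real.exp (3 / L) := by
          refine prod_le_prod (fun p _ => by positivity) fun p hp => ?_
          rw [hD, mem_filter] at hp
          have h1 : (L : ℝ) ≤ p := by exact_mod_cast (by omega : L ≤ p)
          have h2 : 3 / (p : ℝ) ≤ 3 / L :=
            div_le_div_of_nonneg_left (by norm_num) (by linarith) h1
          have h3 := Real.add_one_le_exp (3 / (L : ℝ))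
          linarith
      _ = Real.exp (3 / L) ^ D.card := prod_const _
      _ = Real.exp (D.card * (3 / L)) := by rw [← Real.exp_nat_mul]
      _ ≤ Real.exp (3 * (1 + g)) := by
          refine Real.exp_le_exp.2 ?_
          have h1 : D.card ≤ (1 + g) * L := by
            refine (card_le_card ?_).trans hcard
            exact (filter_subset _ _).trans (filter_subset _ _)
          have h2 : (D.card : ℝ) ≤ (1 + g) * L := by exact_mod_cast h1
          rw [mul_div_assoc', div_le_iff₀ (by linarith)]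
          linarith
  have hAb : ∏ p ∈ A, (1 + 3 / (p : ℝ)) ≤
      ∑ T ∈ (PL g L).powerset.filter (fun T => dt T ∣ h), wt T := by
    rw [prod_one_add]
    refine sum_le_sum_of_subset_of_nonneg ?_ ?_
    · intro T hT
      rw [mem_powerset] at hT
      rw [mem_filter, mem_powerset]
      refine ⟨hT.trans (filter_subset _ _), ?_⟩
      refine prod_primes_dvd h (fun p hp => ?_) (fun p hp => ?_)
      · have := hT hp
        rw [hA, mem_filter, PL, mem_filter] at this
        exact this.1.2.1.prime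
      · have := hT hp
        rw [hA, mem_filter] at this
        exact this.2
    · intro T _ _
      exact prod_nonneg fun p _ => by positivity
  have hA0 : 0 ≤ ∏ p ∈ A, (1 + 3 / (p : ℝ)) := prod_nonneg fun p _ => by positivity
  have hD0 : 0 ≤ ∏ p ∈ D, (1 + 3 / (p : ℝ)) := prod_nonneg fun p _ => by positivity
  have hS0 := hA0.trans hAb
  calc FF h ^ 2 ≤ 4 * ∏ p ∈ h.primeFactors, (1 + 3 / (p : ℝ)) := FFS_sq h hh.ne'
    _ = 4 * ((∏ p ∈ B, (1 + 3 / (p : ℝ))) *
          ((∏ p ∈ A, (1 + 3 / (p : ℝ))) * ∏ p ∈ D, (1 + 3 / (p : ℝ)))) := by rw [hsplit]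
    _ ≤ 4 * (3 ^ g.primeFactors.card *
          ((∑ T ∈ (PL g L).powerset.filter (fun T => dt T ∣ h), wt T) *
            Real.exp (3 * (1 + g)))) := by
        refine mul_le_mul_of_nonneg_left ?_ (by norm_num)
        refine mul_le_mul hBb ?_ (mul_nonneg hA0 hD0) (by positivity)
        exact mul_le_mul hAb hDb hD0 hS0
    _ = 4 * (3 ^ g.primeFactors.card * Real.exp (3 * (1 + g))) *
          ∑ T ∈ (PL g L).powerset.filter (fun T => dt T ∣ h), wt T := by ring

end Pool.TP
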