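import Pool.Agent.Work.MP_484fb8_tp.Interface
import Pool.Agent.Work.MP_484fb8_nt.Cheb

set_option autoImplicit false

/-! # Block FIN of TypicalPowers -/

namespace Pool.TP

open Finset
open Pool.Agent.Circle (e)
open Pool.Agent.PS (th)
open Pool.Agent.Work.MP_484fb8_nt
open scoped Classical

theorem FIN_mono {m n : ℕ} (h : m ≤ n) : prml m ≤ prml n := by
  induction n, h using Nat.le_induction with
  | base => exact le_rfl
  | succ n _ ih =>
    rw [prml_succ]
    have := nth_prime_ge n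
    exact ih.trans (Nat.le_mul_of_pos_right _ (by omega))

theorem FIN_log_ge (Y : ℝ) : ∃ n₁ : ℕ, ∀ n, n₁ ≤ n → Y ≤ Real.log (prml n) := by
  have h : Filter.Tendsto (fun n : ℕ => Real.log ((n : ℝ) + 1)) Filter.atTop Filter.atTop :=
    Real.tendsto_log_atTop.comp
      (Filter.tendsto_atTop_add_const_right _ _ tendsto_natCast_atTop_atTop)
  obtain ⟨n₁, hn₁⟩ := Filter.eventually_atTop.1 (h.eventually_ge_atTop Y)
  refine ⟨n₁, fun n hn => (hn₁ n hn).trans ?_⟩
  apply Real.log_le_log (by positivity)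
  exact_mod_cast le_prml n

theorem FIN_exp (a : ℝ) (ha : 0 < a) (A : ℕ) :
    ∃ Y : ℝ, ∀ y : ℝ, Y ≤ y → 0 < y → Real.exp (-(a * y)) ≤ 1 / y ^ A := by
  have h := tendsto_rpow_mul_exp_neg_mul_atTop_nhds_zero (A : ℝ) a ha
  obtain ⟨Y, hY⟩ := Filter.eventually_atTop.1 (h.eventually (ge_mem_nhds zero_lt_one))
  refine ⟨Y, fun y hy h0 => ?_⟩
  have h1 := hY y hy
  rw [Real.rpow_natCast] at h1
  rw [le_div_iff₀ (pow_pos h0 A)]
  have h2 : -a * y = -(a * y) := by ring
  rw [h2] at h1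
  linarith

theorem FIN_fact (M : ℕ) : ∏ q ∈ Finset.Icc 1 M, q = M.factorial := by
  induction M with
  | zero => simp
  | succ M ih =>
    rw [Finset.prod_Icc_succ_top (by omega), ih, Nat.factorial_succ, mul_comm]

theorem FIN_sq (r M : ℕ) (hr : Squarefree r) : ∃ r' : ℕ, r' ∣ r ∧
    (∀ q : ℕ, q.Prime → q ∣ r' → M < q) ∧ r ≤ r' * M.factorial := by
  refine ⟨∏ q ∈ r.primeFactors.filter (fun q => M < q), q, ?_, ?_, ?_⟩
  · have h1 := Finset.prod_dvd_prod_of_subset (r.primeFactors.filter (fun q => M < q))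
      r.primeFactors (fun q => q) (Finset.filter_subset _ _)
    rwa [Nat.prod_primeFactors_of_squarefree hr] at h1
  · intro q hq hqd
    obtain ⟨q', hq', hd⟩ := (Nat.Prime.prime hq).exists_mem_finset_dvd hqd
    rw [Finset.mem_filter] at hq'
    rw [(Nat.prime_dvd_prime_iff_eq hq (Nat.prime_of_mem_primeFactors hq'.1)).1 hd]
    exact hq'.2
  · have h1 : r = (∏ q ∈ r.primeFactors.filter (fun q => M < q), q) *
        ∏ q ∈ r.primeFactors.filter (fun q => ¬ M < q), q := by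
      rw [Finset.prod_filter_mul_prod_filter_not, Nat.prod_primeFactors_of_squarefree hr]
    have h2 : (∏ q ∈ r.primeFactors.filter (fun q => ¬ M < q), q) ≤ M.factorial := by
      refine Nat.le_of_dvd (Nat.factorial_pos M) ?_
      rw [← FIN_fact]
      refine Finset.prod_dvd_prod_of_subset _ _ _ ?_
      intro q hq
      rw [Finset.mem_filter] at hq
      rw [Finset.mem_Icc]
      exact ⟨(Nat.prime_of_mem_primeFactors hq.1).one_lt.le, by omega⟩
    calc r = _ := h1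
      _ ≤ _ := Nat.mul_le_mul_left _ h2

/-- the four estimates for large `y` -/
theorem FIN_two (G' : ℕ) (hG : 2 ≤ G') (n A : ℕ) (Y : ℝ)
    (hY : ∀ y : ℝ, Y ≤ y → 0 < y →
      Real.exp (-(Real.log 2 / (4 * Real.log G') * y)) ≤ 1 / y ^ A)
    (h1 : Y ≤ Real.log (prml n)) (h2 : 2 * Real.log G' ≤ Real.log (prml n)) :
    (2 : ℝ) ^ (-((Nat.log G' (prml (n + 1)) : ℝ) / 2)) ≤ 1 / (Real.log (prml n)) ^ A := by
  set y := Real.log (prml n) with hy
  set lo := Nat.log G' (prml (n + 1)) with hlo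
  have hG1 : (1 : ℝ) < G' := by exact_mod_cast (by omega : 1 < G')
  have hlG : 0 < Real.log G' := Real.log_pos hG1
  have hl2 : 0 < Real.log 2 := Real.log_pos one_lt_two
  have hy0 : 0 < y := lt_of_lt_of_le (by positivity) h2
  refine le_trans ?_ (hY y h1 hy0)
  rw [Real.rpow_def_of_pos two_pos, Real.exp_le_exp]
  have h3 : prml (n + 1) < G' ^ (lo + 1) := Nat.lt_pow_succ_log_self (by omega) _
  have h4 : y ≤ (lo + 1) * Real.log G' := by
    have h5 : Real.log (prml (n + 1)) ≤ Real.log ((G' : ℝ) ^ (lo + 1)) := by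
      refine Real.log_le_log (by exact_mod_cast prml_pos (n + 1)) ?_
      exact_mod_cast h3.le
    rw [Real.log_pow] at h5
    have h6 : y ≤ Real.log (prml (n + 1)) := by
      refine Real.log_le_log (by exact_mod_cast prml_pos n) ?_
      exact_mod_cast FIN_mono (Nat.le_succ n)
    push_cast at h5
    linarith
  have h7 : Real.log 2 / (4 * Real.log G') * y ≤ Real.log 2 * ((lo : ℝ) / 2) := by
    rw [div_mul_eq_mul_div, div_le_iff₀ (by positivity)]
    nlinarith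
  linarith

theorem FIN_half (y r' : ℝ) (A : ℕ) (hy : 0 < y) (h : y ^ (2 * A) ≤ r') :
    r' ^ (-(1 / 2) : ℝ) ≤ 1 / y ^ A := by
  have hr : 0 < r' := lt_of_lt_of_le (by positivity) h
  rw [Real.rpow_neg hr.le, ← Real.sqrt_eq_rpow, one_div]
  refine inv_anti₀ (by positivity) ?_
  refine Real.le_sqrt_of_sq_le ?_
  rw [← pow_mul, mul_comm A 2]
  exact h

theorem p_FIN (hPRT : Stmt_PRT) (hCNC : Stmt_CNC) : Stmt_FIN := by
  obtain ⟨c, r, hc, hgr, hsq, hP⟩ := hPRT
  refine ⟨c, hc, fun G B => ?_⟩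
  obtain ⟨κ₁, C₁, n₀, hκ₁, hC₁, h1⟩ := hP G B
  obtain ⟨κ₂, C₂, hκ₂, hC₂, h2⟩ := hCNC G B
  refine ⟨min κ₁ κ₂, C₁ + C₂, lt_min hκ₁ hκ₂, fun A => ?_⟩
  obtain ⟨G', hG'⟩ : ∃ G', G' = max G 2 := ⟨_, rfl⟩
  obtain ⟨F, hF⟩ : ∃ F, F = (max G B).factorial := ⟨_, rfl⟩
  have hG2 : 2 ≤ G' := by rw [hG']; exact le_max_right _ _
  have hlG : 0 < Real.log G' := Real.log_pos (by exact_mod_cast (by omega : 1 < G'))
  have hl2 : 0 < Real.log 2 := Real.log_pos one_lt_two
  obtain ⟨Y₁, hY₁⟩ := FIN_exp κ₁ hκ₁ A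
  obtain ⟨Y₂, hY₂⟩ := FIN_exp (Real.log 2 / (4 * Real.log G')) (by positivity) A
  obtain ⟨n₁, hn₁⟩ := hgr (2 * A + 1)
  obtain ⟨n₂, hn₂⟩ := FIN_log_ge (max (max Y₁ Y₂) (max (2 * Real.log G') (max 1 (2 * F))))
  obtain ⟨N0, hN0⟩ : ∃ N0, N0 = max n₀ (max n₁ n₂) := ⟨_, rfl⟩
  refine ⟨C₁ + 2 * C₂ + (Real.log (prml N0)) ^ A, ?_⟩
  intro n k g b N hn hA
  set P : ℝ := ∏ i, (Nat.log (g i) (prml (n + 1)) : ℝ) with hPdef
  have hP0 : 0 ≤ P := Finset.prod_nonneg fun i _ => Nat.cast_nonneg _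
  set y := Real.log (prml n) with hy
  have hy0 : 0 < y := by
    refine Real.log_pos ?_
    have := le_prml n
    exact_mod_cast (by omega : 1 < prml n)
  have hyA : 0 < y ^ A := pow_pos hy0 A
  by_cases hlarge : n < N0
  · -- small `n`
    have h3 : ((bx fun i => Nat.log (g i) (prml (n + 1))).filter fun v =>
        ∃ m : ℕ, (m : ℤ) = vl N g b v ∧ Bdp n c m).card ≤
        (bx fun i => Nat.log (g i) (prml (n + 1))).card := Finset.card_filter_le _ _
    have h4 : (((bx fun i => Nat.log (g i) (prml (n + 1))).filter fun v =>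
        ∃ m : ℕ, (m : ℤ) = vl N g b v ∧ Bdp n c m).card : ℝ) ≤ P := by
      rw [hPdef, ← card_bx]
      exact_mod_cast h3
    have h5 : y ^ A ≤ (Real.log (prml N0)) ^ A := by
      refine pow_le_pow_left₀ hy0.le ?_ A
      refine Real.log_le_log (by exact_mod_cast prml_pos n) ?_
      exact_mod_cast FIN_mono hlarge.le
    have h6 : 1 ≤ (C₁ + 2 * C₂ + (Real.log (prml N0)) ^ A) / y ^ A := by
      rw [le_div_iff₀ hyA]
      linarith
    have h7 : 0 ≤ (C₁ + C₂) * Real.exp (-(min κ₁ κ₂ * k)) :=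
      mul_nonneg (by linarith) (Real.exp_pos _).le
    calc _ ≤ P := h4
      _ = 1 * P := (one_mul P).symm
      _ ≤ _ := mul_le_mul_of_nonneg_right (by linarith) hP0
  · -- large `n`
    have hn0 : n₀ ≤ n := by omega
    have hn1 : n₁ ≤ n := by omega
    have hn2 : n₂ ≤ n := by omega
    have hyy := hn₂ n hn2
    rw [← hy] at hyy
    have y1 : Y₁ ≤ y := (le_max_left _ _).trans ((le_max_left _ _).trans hyy)
    have y2 : Y₂ ≤ y := (le_max_right _ _).trans ((le_max_left _ _).trans hyy)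
    have y3 : 2 * Real.log G' ≤ y := (le_max_left _ _).trans ((le_max_right _ _).trans hyy)
    have y4 : 1 ≤ y :=
      (le_max_left _ _).trans ((le_max_right _ _).trans ((le_max_right _ _).trans hyy))
    have y5 : 2 * (F : ℝ) ≤ y :=
      (le_max_right _ _).trans ((le_max_right _ _).trans ((le_max_right _ _).trans hyy))
    obtain ⟨r', hr'd, hr'p, hr'F⟩ := FIN_sq (r n) (max G B) (hsq n)
    rw [← hF] at hr'F
    have hF1 : (1 : ℝ) ≤ F := by
      rw [hF]
      exact_mod_cast Nat.factorial_pos _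
    have hr1 : 2 * y ^ (2 * A) ≤ r' := by
      have e1 : y ^ (2 * A + 1) ≤ (r' : ℝ) * F := (hn₁ n hn1).trans (by exact_mod_cast hr'F)
      rw [pow_succ] at e1
      have e2 : 0 < y ^ (2 * A) := pow_pos hy0 _
      have e3 : y ^ (2 * A) * (2 * F) ≤ (r' : ℝ) * F :=
        (mul_le_mul_of_nonneg_left y5 e2.le).trans e1
      have e4 : (2 * y ^ (2 * A)) * (F : ℝ) ≤ (r' : ℝ) * F := by linarith
      exact le_of_mul_le_mul_right e4 (by linarith)
    have hyA2 : 1 ≤ y ^ (2 * A) := one_le_pow₀ y4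
    have hr2 : 2 ≤ r' := by
      have : (2 : ℝ) ≤ r' := by linarith
      exact_mod_cast this
    have hhalf : (r' : ℝ) ^ (-(1 / 2) : ℝ) ≤ 1 / y ^ A := FIN_half y r' A hy0 (by linarith)
    obtain ⟨lo, hlo⟩ : ∃ lo, lo = Nat.log G' (prml (n + 1)) := ⟨_, rfl⟩
    have htwo : (2 : ℝ) ^ (-((lo : ℝ) / 2)) ≤ 1 / y ^ A := by
      rw [hlo]
      exact FIN_two G' hG2 n A Y₂ hY₂ y2 y3
    have hexp : Real.exp (-(κ₁ * y)) ≤ 1 / y ^ A := hY₁ y y1 hy0
    have hlo1 : 1 ≤ lo := by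
      rw [hlo]
      refine Nat.log_pos (by omega) ?_
      have e1 : Real.log G' ≤ Real.log (prml n) := by
        rw [← hy]
        linarith
      have e2 : (G' : ℝ) ≤ prml n := by
        refine (Real.log_le_log_iff (by exact_mod_cast (by omega : 0 < G')) ?_).1 e1
        exact_mod_cast prml_pos n
      have e3 : G' ≤ prml n := by exact_mod_cast e2
      exact e3.trans (FIN_mono (Nat.le_succ n))
    have hlo2 : ∀ i, lo ≤ Nat.log (g i) (prml (n + 1)) := by
      intro i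
      rw [hlo]
      obtain ⟨a1, a2, -, -⟩ := hA i
      exact Nat.log_anti_left (by omega) (by rw [hG']; exact a2.trans (le_max_left _ _))
    have c1 := h1 n k g b N hn0 hA
    have c2 := h2 r' k lo g b (fun i => Nat.log (g i) (prml (n + 1))) N hr2 hr'p hA hlo1 hlo2
    have hcov : ((bx fun i => Nat.log (g i) (prml (n + 1))).filter fun v =>
        ∃ m : ℕ, (m : ℤ) = vl N g b v ∧ Bdp n c m) ⊆
        ((bx fun i => Nat.log (g i) (prml (n + 1))).filter fun v =>
          ∃ m : ℕ, (m : ℤ) = vl N g b v ∧ Bdp n c m ∧ ¬ r n ∣ m) ∪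
        ((bx fun i => Nat.log (g i) (prml (n + 1))).filter fun v => (r' : ℤ) ∣ vl N g b v) := by
      intro v hv
      rw [Finset.mem_filter] at hv
      obtain ⟨hv1, m, hm1, hm2⟩ := hv
      rw [Finset.mem_union, Finset.mem_filter, Finset.mem_filter]
      by_cases hd : r n ∣ m
      · right
        refine ⟨hv1, ?_⟩
        rw [← hm1]
        exact_mod_cast hr'd.trans hd
      · left
        exact ⟨hv1, m, hm1, hm2, hd⟩
    have c3 := (Finset.card_le_card hcov).trans (Finset.card_union_le _ _)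
    have c4 : (((bx fun i => Nat.log (g i) (prml (n + 1))).filter fun v =>
        ∃ m : ℕ, (m : ℤ) = vl N g b v ∧ Bdp n c m).card : ℝ) ≤
        (((bx fun i => Nat.log (g i) (prml (n + 1))).filter fun v =>
          ∃ m : ℕ, (m : ℤ) = vl N g b v ∧ Bdp n c m ∧ ¬ r n ∣ m).card : ℝ) +
        (((bx fun i => Nat.log (g i) (prml (n + 1))).filter fun v =>
          (r' : ℤ) ∣ vl N g b v).card : ℝ) := by exact_mod_cast c3
    refine c4.trans ((add_le_add c1 c2).trans ?_)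
    rw [← hPdef, ← hy]
    have k0 : (0 : ℝ) ≤ k := Nat.cast_nonneg k
    have m1 : Real.exp (-(κ₁ * k)) ≤ Real.exp (-(min κ₁ κ₂ * k)) :=
      Real.exp_le_exp.2 (neg_le_neg (mul_le_mul_of_nonneg_right (min_le_left _ _) k0))
    have m2 : Real.exp (-(κ₂ * k)) ≤ Real.exp (-(min κ₁ κ₂ * k)) :=
      Real.exp_le_exp.2 (neg_le_neg (mul_le_mul_of_nonneg_right (min_le_right _ _) k0))
    have hl0 : 0 ≤ (Real.log (prml N0)) ^ A := by
      refine pow_nonneg (Real.log_nonneg ?_) A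
      exact_mod_cast prml_pos N0
    have f1 : C₁ * (Real.exp (-(κ₁ * k)) + Real.exp (-(κ₁ * y))) ≤
        C₁ * (Real.exp (-(min κ₁ κ₂ * k)) + 1 / y ^ A) :=
      mul_le_mul_of_nonneg_left (add_le_add m1 hexp) hC₁.le
    have f2 : C₂ * (Real.exp (-(κ₂ * k)) + (r' : ℝ) ^ (-(1 / 2) : ℝ) +
        (2 : ℝ) ^ (-((lo : ℝ) / 2))) ≤
        C₂ * (Real.exp (-(min κ₁ κ₂ * k)) + 1 / y ^ A + 1 / y ^ A) :=
      mul_le_mul_of_nonneg_left (add_le_add (add_le_add m2 hhalf) htwo) hC₂.le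
    have f3 : 0 ≤ (Real.log (prml N0)) ^ A / y ^ A := div_nonneg hl0 hyA.le
    have f4 : (C₁ + 2 * C₂ + (Real.log (prml N0)) ^ A) / y ^ A =
        C₁ * (1 / y ^ A) + 2 * C₂ * (1 / y ^ A) + (Real.log (prml N0)) ^ A / y ^ A := by
      ring
    calc _ = (C₁ * (Real.exp (-(κ₁ * k)) + Real.exp (-(κ₁ * y))) +
          C₂ * (Real.exp (-(κ₂ * k)) + (r' : ℝ) ^ (-(1 / 2) : ℝ) +
            (2 : ℝ) ^ (-((lo : ℝ) / 2)))) * P := by ring
      _ ≤ _ := by
        refine mul_le_mul_of_nonneg_right ?_ hP0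
        rw [f4]
        linarith

end Pool.TP
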