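import Pool.Agent.Work.MP_484fb8_tp.Interface
import Pool.Agent.Work.PS.GB

set_option autoImplicit false

/-! # TypicalPowers, block GBG: the sum over the powers of `g` is rarely large -/

namespace Pool.TP

open Finset
open Pool.Agent.Circle (e dn norm_e e_add e_neg conj_e norm_one_sub_e)
open Pool.Agent.PS (th)
open Pool.Agent.Work.MP_484fb8_nt
open scoped Classical

/-- weights of the digit changes in base `g` -/
noncomputable def GBG_Pw (g : ℕ) (t : ℝ) (n w : ℕ) : ℝ :=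
  ∏ i ∈ range n, if (w / g ^ i) % g = (w / g ^ (i + 1)) % g then 1 else t

theorem GBG_sum_mul (g : ℕ) (h : ℕ → ℝ) (M : ℕ) :
    ∑ w ∈ range (g * M), h w = ∑ w ∈ range M, ∑ r ∈ range g, h (g * w + r) := by
  induction M with
  | zero => simp
  | succ M ih =>
    rw [show g * (M + 1) = g * M + g by ring, Finset.sum_range_add, ih, sum_range_succ]

theorem GBG_Pw_succ (g : ℕ) (t : ℝ) (n w : ℕ) : GBG_Pw g t (n + 1) w =
    (if w % g = (w / g) % g then 1 else t) * GBG_Pw g t n (w / g) := by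
  unfold GBG_Pw
  rw [Finset.prod_range_succ', mul_comm]
  congr 1
  · simp
  · refine Finset.prod_congr rfl fun i _ => ?_
    rw [Nat.div_div_eq_div_mul, Nat.div_div_eq_div_mul, ← pow_succ', ← pow_succ']

theorem GBG_sum_Pw (g : ℕ) (hg : 2 ≤ g) (t : ℝ) (n M : ℕ) :
    ∑ w ∈ range (g ^ n * M), GBG_Pw g t n w = M * (1 + ((g : ℝ) - 1) * t) ^ n := by
  induction n generalizing M with
  | zero => simp [GBG_Pw]
  | succ n ih =>
    rw [pow_succ', mul_assoc, GBG_sum_mul]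
    have h1 : ∀ w, ∑ r ∈ range g, GBG_Pw g t (n + 1) (g * w + r) =
        (1 + ((g : ℝ) - 1) * t) * GBG_Pw g t n w := by
      intro w
      have h2 : ∀ r ∈ range g, GBG_Pw g t (n + 1) (g * w + r) =
          (if r = w % g then 1 else t) * GBG_Pw g t n w := by
        intro r hr
        rw [mem_range] at hr
        rw [GBG_Pw_succ]
        have e1 : (g * w + r) / g = w := by
          rw [Nat.mul_add_div (by omega), Nat.div_eq_of_lt hr, add_zero]
        have e2 : (g * w + r) % g = r := by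
          rw [Nat.mul_add_mod, Nat.mod_eq_of_lt hr]
        rw [e1, e2]
      rw [sum_congr rfl h2, ← sum_mul]
      congr 1
      have h3 : ∀ r ∈ range g, (if r = w % g then (1 : ℝ) else t) =
          t + (if r = w % g then 1 - t else 0) := by
        intro r _
        split_ifs <;> ring
      rw [sum_congr rfl h3, sum_add_distrib, sum_const, card_range, nsmul_eq_mul, sum_ite_eq',
        if_pos (mem_range.2 (Nat.mod_lt _ (by omega)))]
      ring
    simp only [h1]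
    rw [← Finset.mul_sum, ih]
    ring

theorem GBG_digit (g A R : ℕ) (hg : 2 ≤ g) (hR : 0 < R)
    (h : dn ((A : ℝ) / R) < 1 / (2 * (g : ℝ) ^ 2)) :
    (g ^ 2 * A / R) % g = (g * A / R) % g := by
  set m : ℤ := round ((A : ℝ) / R) with hm
  have hR' : (0 : ℝ) < R := by exact_mod_cast hR
  have hg' : (2 : ℝ) ≤ g := by exact_mod_cast hg
  have hg2 : (0 : ℝ) < 2 * (g : ℝ) ^ 2 := by positivity
  have h1 : |(A : ℝ) / R - m| < 1 / (2 * (g : ℝ) ^ 2) := h
  have h2 : |(A : ℝ) - m * R| * (2 * (g : ℝ) ^ 2) < R := by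
    have h3 : (A : ℝ) - m * R = ((A : ℝ) / R - m) * R := by field_simp
    rw [h3, abs_mul, abs_of_pos hR']
    rw [lt_div_iff₀ hg2] at h1
    nlinarith
  have h3 : 2 * (g : ℤ) ^ 2 * ((A : ℤ) - m * R) < R := by
    have h4 := le_abs_self ((A : ℝ) - m * R)
    have h5 : 2 * (g : ℝ) ^ 2 * ((A : ℝ) - m * R) < R := by nlinarith
    exact_mod_cast h5
  have h4 : -(R : ℤ) < 2 * (g : ℤ) ^ 2 * ((A : ℤ) - m * R) := by
    have h4 := neg_abs_le ((A : ℝ) - m * R)
    have h5 : -(R : ℝ) < 2 * (g : ℝ) ^ 2 * ((A : ℝ) - m * R) := by nlinarith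
    exact_mod_cast h5
  have hRz : (0 : ℤ) < R := by exact_mod_cast hR
  have hgz : (2 : ℤ) ≤ g := by exact_mod_cast hg
  have key : ∀ (B : ℤ) (c : ℤ), c * R ≤ B → B < (c + 1) * R → B / (R : ℤ) = c := by
    intro B c h5 h6
    apply le_antisymm
    · exact Int.lt_add_one_iff.1 (Int.ediv_lt_of_lt_mul hRz h6)
    · exact Int.le_ediv_of_mul_le hRz h5
  have h7 : (((g ^ 2 * A / R : ℕ)) : ℤ) % g = (((g * A / R : ℕ)) : ℤ) % g := by
    push_cast
    set d : ℤ := (A : ℤ) - m * R with hd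
    have hA : (A : ℤ) = m * R + d := by rw [hd]; ring
    rw [hA]
    by_cases h8 : 0 ≤ d
    · have e1 : (g : ℤ) * d ≤ (g : ℤ) ^ 2 * d := by nlinarith [mul_nonneg h8 (by linarith : (0 : ℤ) ≤ g)]
      have e0 : 0 ≤ (g : ℤ) * d := mul_nonneg (by linarith) h8
      rw [key ((g : ℤ) ^ 2 * (m * R + d)) ((g : ℤ) ^ 2 * m) (by nlinarith) (by nlinarith),
        key ((g : ℤ) * (m * R + d)) ((g : ℤ) * m) (by nlinarith) (by nlinarith)]
      rw [Int.mul_emod_right, show (g : ℤ) ^ 2 * m = g * (g * m) by ring, Int.mul_emod_right]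
    · rw [not_le] at h8
      have e1 : (g : ℤ) ^ 2 * d ≤ (g : ℤ) * d := by nlinarith [mul_nonneg (neg_nonneg.2 h8.le) (by linarith : (0 : ℤ) ≤ g)]
      have e0 : (g : ℤ) * d < 0 := mul_neg_of_pos_of_neg (by linarith) h8
      rw [key ((g : ℤ) ^ 2 * (m * R + d)) ((g : ℤ) ^ 2 * m - 1) (by nlinarith) (by nlinarith),
        key ((g : ℤ) * (m * R + d)) ((g : ℤ) * m - 1) (by nlinarith) (by nlinarith)]
      rw [Int.emod_eq_emod_iff_emod_sub_eq_zero,
        show (g : ℤ) ^ 2 * m - 1 - (g * m - 1) = g * (g * m - m) by ring, Int.mul_emod_right]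
  exact_mod_cast h7

theorem GBG_Pw_nonneg (g : ℕ) (t : ℝ) (ht : 0 ≤ t) (n w : ℕ) : 0 ≤ GBG_Pw g t n w := by
  refine Finset.prod_nonneg fun i _ => ?_
  split_ifs
  · exact zero_le_one
  · exact ht

theorem GBG_sum_floor (g : ℕ) (hg : 2 ≤ g) (t : ℝ) (ht : 0 ≤ t) (n M R : ℕ) (hR : 0 < R)
    (hM : 0 < M) :
    ∑ k ∈ range R, GBG_Pw g t n (g ^ n * M * k / R) ≤
      (R / (g ^ n * M : ℕ) + 1) * (M * (1 + ((g : ℝ) - 1) * t) ^ n) := by
  have hT : 0 < g ^ n * M := by positivity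
  have hmaps : ∀ k ∈ range R, g ^ n * M * k / R ∈ range (g ^ n * M) := by
    intro k hk
    rw [mem_range] at hk ⊢
    rw [Nat.div_lt_iff_lt_mul hR]
    exact Nat.mul_lt_mul_of_pos_left hk hT
  rw [← Finset.sum_fiberwise_of_maps_to hmaps]
  calc ∑ w ∈ range (g ^ n * M), ∑ k ∈ range R with g ^ n * M * k / R = w,
        GBG_Pw g t n (g ^ n * M * k / R)
      = ∑ w ∈ range (g ^ n * M), (#((range R).filter fun k => g ^ n * M * k / R = w) : ℝ)
        * GBG_Pw g t n w := by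
        refine Finset.sum_congr rfl fun w _ => ?_
        rw [← nsmul_eq_mul, ← Finset.sum_const]
        refine Finset.sum_congr rfl fun k hk => ?_
        rw [(mem_filter.1 hk).2]
    _ ≤ ∑ w ∈ range (g ^ n * M), ((R : ℝ) / (g ^ n * M : ℕ) + 1) * GBG_Pw g t n w := by
        refine Finset.sum_le_sum fun w _ => ?_
        refine mul_le_mul_of_nonneg_right ?_ (GBG_Pw_nonneg g t ht n w)
        have h1 := Pool.Agent.PS.GB.card_fibre (g ^ n * M) R w hT hR
        have h2 : ((R / (g ^ n * M) : ℕ) : ℝ) ≤ (R : ℝ) / (g ^ n * M : ℕ) := Nat.cast_div_le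
        have h3 : (#((range R).filter fun k => g ^ n * M * k / R = w) : ℝ)
            ≤ ((R / (g ^ n * M) : ℕ) : ℝ) + 1 := by exact_mod_cast h1
        linarith
    _ = _ := by rw [← Finset.mul_sum, GBG_sum_Pw g hg]

/-- the direction argument -/
theorem GBG_direction (a : ℕ → ℂ) (ha : ∀ v, ‖a v‖ = 1) (L : ℕ)
    (η : ℝ) (hη : (1 - η) * L < ‖∑ v ∈ Icc 1 L, a v‖) (hη1 : η < 1) (hL : 1 ≤ L) :
    ∑ v ∈ Icc 1 (L - 1), ‖a (v + 1) - a v‖ ^ 2 ≤ 8 * η * L := by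
  set G := ∑ v ∈ Icc 1 L, a v with hG
  have hL' : (1 : ℝ) ≤ L := by exact_mod_cast hL
  have hG0 : 0 < ‖G‖ := lt_of_le_of_lt (by nlinarith) hη
  set u : ℂ := G / ‖G‖ with hu
  have hGc : (‖G‖ : ℂ) ≠ 0 := by exact_mod_cast hG0.ne'
  have hu1 : ‖u‖ = 1 := by
    rw [hu, norm_div, Complex.norm_real, norm_norm, div_self hG0.ne']
  have hGu : (G * (starRingEnd ℂ) u).re = ‖G‖ := by
    have : G * (starRingEnd ℂ) u = ((‖G‖ : ℝ) : ℂ) := by
      rw [hu, map_div₀, Complex.conj_ofReal, mul_div_assoc', Complex.mul_conj, Complex.normSq_eq_norm_sq]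
      push_cast
      field_simp
    rw [this, Complex.ofReal_re]
  have h3 : ∀ v, ‖a v - u‖ ^ 2 = 2 - 2 * (a v * (starRingEnd ℂ) u).re := by
    intro v
    rw [← Complex.normSq_eq_norm_sq, Complex.normSq_sub, Complex.normSq_eq_norm_sq,
      Complex.normSq_eq_norm_sq, ha, hu1]
    ring
  have h4 : ∑ v ∈ Icc 1 L, ‖a v - u‖ ^ 2 = 2 * L - 2 * ‖G‖ := by
    simp only [h3]
    rw [Finset.sum_sub_distrib, ← Finset.mul_sum, ← Complex.re_sum, ← Finset.sum_mul, ← hG, hGu]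
    simp
    ring
  have h5 : ∀ v, ‖a (v + 1) - a v‖ ^ 2 ≤ 2 * ‖a (v + 1) - u‖ ^ 2 + 2 * ‖a v - u‖ ^ 2 := by
    intro v
    have e2 : ‖a (v + 1) - a v‖ ≤ ‖a (v + 1) - u‖ + ‖a v - u‖ := by
      rw [show a (v + 1) - a v = (a (v + 1) - u) - (a v - u) by ring]
      exact norm_sub_le _ _
    nlinarith [norm_nonneg (a (v + 1) - a v), norm_nonneg (a (v + 1) - u), norm_nonneg (a v - u),
      sq_nonneg (‖a (v + 1) - u‖ - ‖a v - u‖)]
  have h6 : ∑ v ∈ Icc 1 (L - 1), ‖a (v + 1) - u‖ ^ 2 ≤ ∑ v ∈ Icc 1 L, ‖a v - u‖ ^ 2 := by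
    rw [← Finset.sum_image (f := fun v => ‖a v - u‖ ^ 2) (g := fun v => v + 1)
      (s := Icc 1 (L - 1)) (fun _ _ _ _ h => Nat.succ_injective h)]
    refine Finset.sum_le_sum_of_subset_of_nonneg ?_ (fun _ _ _ => by positivity)
    intro v hv
    rw [mem_image] at hv
    obtain ⟨w, hw, rfl⟩ := hv
    rw [mem_Icc] at hw ⊢
    omega
  have h7 : ∑ v ∈ Icc 1 (L - 1), ‖a v - u‖ ^ 2 ≤ ∑ v ∈ Icc 1 L, ‖a v - u‖ ^ 2 :=
    Finset.sum_le_sum_of_subset_of_nonneg (Icc_subset_Icc_right (Nat.sub_le _ _))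
      (fun _ _ _ => by positivity)
  calc ∑ v ∈ Icc 1 (L - 1), ‖a (v + 1) - a v‖ ^ 2
      ≤ ∑ v ∈ Icc 1 (L - 1), (2 * ‖a (v + 1) - u‖ ^ 2 + 2 * ‖a v - u‖ ^ 2) :=
        Finset.sum_le_sum fun v _ => h5 v
    _ = 2 * ∑ v ∈ Icc 1 (L - 1), ‖a (v + 1) - u‖ ^ 2 + 2 * ∑ v ∈ Icc 1 (L - 1), ‖a v - u‖ ^ 2 := by
        rw [Finset.sum_add_distrib, Finset.mul_sum, Finset.mul_sum]
    _ ≤ 4 * (2 * L - 2 * ‖G‖) := by rw [← h4]; linarith
    _ ≤ 8 * η * L := by nlinarith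

theorem GBG_Pw_ge (g : ℕ) (hg : 2 ≤ g) (t : ℝ) (ht : 0 < t) (ht1 : t ≤ 1) (L R K : ℕ)
    (hR : 0 < R) (τ : ℝ)
    (hτ : ∑ v ∈ Icc 1 (L - 1), ‖1 - e ((g : ℝ) ^ v * ((K : ℝ) / R))‖ ^ 2 ≤ τ) :
    t ^ ((g : ℝ) ^ 4 / 4 * τ) ≤ GBG_Pw g t (L - 1) (g ^ (L + 1) * K / R) := by
  have hg' : (2 : ℝ) ≤ g := by exact_mod_cast hg
  have hg0 : (0 : ℝ) < g := by linarith
  set B := (Icc 1 (L - 1)).filter
    fun v => 2 / (g : ℝ) ^ 2 ≤ ‖1 - e ((g : ℝ) ^ v * ((K : ℝ) / R))‖ with hB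
  have h1 : (#B : ℝ) ≤ (g : ℝ) ^ 4 / 4 * τ := by
    have h0 : (#B : ℝ) * (4 / (g : ℝ) ^ 4) ≤ τ := by
      refine le_trans ?_ hτ
      calc (#B : ℝ) * (4 / (g : ℝ) ^ 4) = ∑ v ∈ B, (4 / (g : ℝ) ^ 4 : ℝ) := by
            rw [sum_const, nsmul_eq_mul]
        _ ≤ ∑ v ∈ B, ‖1 - e ((g : ℝ) ^ v * ((K : ℝ) / R))‖ ^ 2 := by
            refine Finset.sum_le_sum fun v hv => ?_
            have h2 := (mem_filter.1 hv).2
            have h3 : (0 : ℝ) ≤ 2 / (g : ℝ) ^ 2 := by positivity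
            have h4 := pow_le_pow_left₀ h3 h2 2
            have h5 : (2 / (g : ℝ) ^ 2) ^ 2 = 4 / (g : ℝ) ^ 4 := by
              rw [div_pow, ← pow_mul]
              norm_num
            rwa [h5] at h4
        _ ≤ _ := Finset.sum_le_sum_of_subset_of_nonneg (filter_subset _ _)
            (fun _ _ _ => by positivity)
    have h4 : (0 : ℝ) < 4 / (g : ℝ) ^ 4 := by positivity
    rw [← le_div_iff₀ h4] at h0
    refine h0.trans_eq ?_
    field_simp
  have h2 : GBG_Pw g t (L - 1) (g ^ (L + 1) * K / R) = t ^ #((range (L - 1)).filter fun i =>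
      ¬ (g ^ (L + 1) * K / R / g ^ i) % g = (g ^ (L + 1) * K / R / g ^ (i + 1)) % g) := by
    unfold GBG_Pw
    rw [Finset.prod_ite, prod_const_one, one_mul, prod_const]
  have h3 : #((range (L - 1)).filter fun i =>
      ¬ (g ^ (L + 1) * K / R / g ^ i) % g = (g ^ (L + 1) * K / R / g ^ (i + 1)) % g) ≤ #B := by
    refine card_le_card_of_injOn (fun i => L - 1 - i) ?_ ?_
    · intro i hi
      rw [mem_coe, mem_filter, mem_range] at hi
      have hi1 := hi.1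
      show L - 1 - i ∈ (B : Set ℕ)
      rw [mem_coe, hB, mem_filter, mem_Icc]
      refine ⟨⟨by omega, by omega⟩, ?_⟩
      by_contra hlt
      rw [not_le] at hlt
      apply hi.2
      set v := L - 1 - i with hv
      have h4 : dn (((g ^ v * K : ℕ) : ℝ) / R) < 1 / (2 * (g : ℝ) ^ 2) := by
        have h5 := norm_one_sub_e ((g : ℝ) ^ v * ((K : ℝ) / R))
        have h6 : (((g ^ v * K : ℕ) : ℝ) / R) = (g : ℝ) ^ v * ((K : ℝ) / R) := by
          push_cast
          ring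
        have h7 : (2 : ℝ) / (g : ℝ) ^ 2 = 4 * (1 / (2 * (g : ℝ) ^ 2)) := by
          field_simp
          norm_num
        rw [h6]
        rw [h7] at hlt
        linarith
      have h5 := GBG_digit g (g ^ v * K) R hg hR h4
      have e1 : g ^ (L + 1) * K / R / g ^ i = g ^ 2 * (g ^ v * K) / R := by
        rw [Nat.div_div_eq_div_mul, mul_comm R, ← Nat.div_div_eq_div_mul]
        congr 1
        rw [show L + 1 = i + (v + 2) by omega, pow_add, mul_assoc,
          Nat.mul_div_cancel_left _ (by positivity), pow_add]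
        ring
      have e2 : g ^ (L + 1) * K / R / g ^ (i + 1) = g * (g ^ v * K) / R := by
        rw [Nat.div_div_eq_div_mul, mul_comm R, ← Nat.div_div_eq_div_mul]
        congr 1
        rw [show L + 1 = (i + 1) + (v + 1) by omega, pow_add, mul_assoc,
          Nat.mul_div_cancel_left _ (by positivity), pow_add]
        ring
      rw [e1, e2]
      exact h5
    · intro i hi j hj hij
      rw [mem_coe, mem_filter, mem_range] at hi hj
      simp only at hij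
      omega
  rw [h2, ← Real.rpow_natCast t]
  refine Real.rpow_le_rpow_of_exponent_ge ht ht1 ?_
  have h4 : ((#((range (L - 1)).filter fun i =>
      ¬ (g ^ (L + 1) * K / R / g ^ i) % g = (g ^ (L + 1) * K / R / g ^ (i + 1)) % g) : ℕ) : ℝ)
      ≤ (#B : ℝ) := by exact_mod_cast h3
  linarith

theorem GBG_norm_neg (y : ℝ) : ‖1 - e (-y)‖ = ‖1 - e y‖ := by
  have h : (1 : ℂ) - e (-y) = (starRingEnd ℂ) (1 - e y) := by
    rw [map_sub, map_one, conj_e]
  rw [h]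
  exact RCLike.norm_conj _

theorem GBG_diff (g : ℕ) (hg : 2 ≤ g) (b : ℤ) (k R v : ℕ) :
    ‖e ((g : ℝ) ^ (v + 1) * (b * ((k : ℝ) / R))) - e ((g : ℝ) ^ v * (b * ((k : ℝ) / R)))‖ =
      ‖1 - e ((g : ℝ) ^ v * ((((g - 1) * b.natAbs * k : ℕ) : ℝ) / R))‖ := by
  set s : ℝ := (g : ℝ) ^ v * (((g : ℝ) - 1) * b * ((k : ℝ) / R)) with hs
  have h1 : e ((g : ℝ) ^ (v + 1) * (b * ((k : ℝ) / R))) =
      e ((g : ℝ) ^ v * (b * ((k : ℝ) / R))) * e s := by
    rw [← e_add]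
    congr 1
    rw [hs]
    ring
  have h2 : e ((g : ℝ) ^ (v + 1) * (b * ((k : ℝ) / R))) - e ((g : ℝ) ^ v * (b * ((k : ℝ) / R))) =
      -(e ((g : ℝ) ^ v * (b * ((k : ℝ) / R))) * (1 - e s)) := by
    rw [h1]
    ring
  rw [h2, norm_neg, norm_mul, norm_e, one_mul]
  have hg1 : ((g - 1 : ℕ) : ℝ) = (g : ℝ) - 1 := by
    rw [Nat.cast_sub (by omega)]
    simp
  rcases Int.natAbs_eq b with hb | hb
  · have h3 : (b : ℝ) = (b.natAbs : ℝ) := by
      have h4 : ((b : ℤ) : ℝ) = (((b.natAbs : ℕ) : ℤ) : ℝ) := by rw [← hb]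
      simpa using h4
    have h5 : s = (g : ℝ) ^ v * ((((g - 1) * b.natAbs * k : ℕ) : ℝ) / R) := by
      rw [hs, h3]
      push_cast
      rw [hg1]
      ring
    rw [h5]
  · have h3 : (b : ℝ) = -(b.natAbs : ℝ) := by
      have h4 : ((b : ℤ) : ℝ) = ((-((b.natAbs : ℕ) : ℤ) : ℤ) : ℝ) := by rw [← hb]
      rw [h4, Int.cast_neg, Int.cast_natCast]
    have h5 : s = -((g : ℝ) ^ v * ((((g - 1) * b.natAbs * k : ℕ) : ℝ) / R)) := by
      rw [hs, h3]
      push_cast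
      rw [hg1]
      ring
    rw [h5, GBG_norm_neg]

theorem GBG_count (g : ℕ) (hg : 2 ≤ g) (t η : ℝ) (ht : 0 < t) (ht1 : t ≤ 1) (hη1 : η < 1)
    (L R : ℕ) (b : ℤ) (hL : 1 ≤ L) (hb : b ≠ 0) (hR : g ^ L ≤ R) :
    (((range R).filter fun k : ℕ => (1 - η) * L < ‖Gg g L (b * ((k : ℝ) / R))‖).card : ℝ)
      * t ^ (2 * (g : ℝ) ^ 4 * η * L) ≤
      2 * (R / (g : ℝ) ^ L) * ((g : ℝ) ^ 3 * b.natAbs * (1 + ((g : ℝ) - 1) * t) ^ L) := by
  have hg' : (2 : ℝ) ≤ g := by exact_mod_cast hg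
  have hg0 : 0 < g := by omega
  have hR0 : 0 < R := lt_of_lt_of_le (by positivity) hR
  have hb0 : 0 < b.natAbs := Int.natAbs_pos.2 hb
  set c : ℕ := (g - 1) * b.natAbs with hc
  have hc0 : 0 < c := Nat.mul_pos (by omega) hb0
  have hT : ∀ k : ℕ, g ^ (L + 1) * (c * k) / R = g ^ (L - 1) * (g ^ 2 * c) * k / R := by
    intro k
    congr 1
    rw [show L + 1 = (L - 1) + 2 by omega, pow_add]
    ring
  have hx : (1 : ℝ) ≤ 1 + ((g : ℝ) - 1) * t := by nlinarith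
  calc (((range R).filter fun k : ℕ => (1 - η) * L < ‖Gg g L (b * ((k : ℝ) / R))‖).card : ℝ)
      * t ^ (2 * (g : ℝ) ^ 4 * η * L)
      = ∑ k ∈ (range R).filter (fun k : ℕ => (1 - η) * L < ‖Gg g L (b * ((k : ℝ) / R))‖),
        t ^ (2 * (g : ℝ) ^ 4 * η * L) := by rw [sum_const, nsmul_eq_mul]
    _ ≤ ∑ k ∈ (range R).filter (fun k : ℕ => (1 - η) * L < ‖Gg g L (b * ((k : ℝ) / R))‖),
        GBG_Pw g t (L - 1) (g ^ (L - 1) * (g ^ 2 * c) * k / R) := by
        refine Finset.sum_le_sum fun k hk => ?_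
        have h1 := (mem_filter.1 hk).2
        have h2 := GBG_direction (fun v => e ((g : ℝ) ^ v * (b * ((k : ℝ) / R))))
          (fun v => norm_e _) L η h1 hη1 hL
        have h2' : ∑ v ∈ Icc 1 (L - 1), ‖1 - e ((g : ℝ) ^ v * (((c * k : ℕ) : ℝ) / R))‖ ^ 2 ≤
            8 * η * L := by
          refine le_trans (le_of_eq ?_) h2
          refine Finset.sum_congr rfl fun v _ => ?_
          show _ = ‖e ((g : ℝ) ^ (v + 1) * (b * ((k : ℝ) / R))) -
            e ((g : ℝ) ^ v * (b * ((k : ℝ) / R)))‖ ^ 2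
          rw [GBG_diff g hg]
        have h3 := GBG_Pw_ge g hg t ht ht1 L R (c * k) hR0 _ h2'
        rw [hT] at h3
        rwa [show (g : ℝ) ^ 4 / 4 * (8 * η * (L : ℝ)) = 2 * (g : ℝ) ^ 4 * η * L by ring] at h3
    _ ≤ ∑ k ∈ range R, GBG_Pw g t (L - 1) (g ^ (L - 1) * (g ^ 2 * c) * k / R) :=
        Finset.sum_le_sum_of_subset_of_nonneg (filter_subset _ _)
          (fun _ _ _ => GBG_Pw_nonneg g t ht.le _ _)
    _ ≤ (R / (g ^ (L - 1) * (g ^ 2 * c) : ℕ) + 1) *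
        ((g ^ 2 * c : ℕ) * (1 + ((g : ℝ) - 1) * t) ^ (L - 1)) :=
        GBG_sum_floor g hg t ht.le (L - 1) (g ^ 2 * c) R hR0 (by positivity)
    _ ≤ 2 * (R / (g : ℝ) ^ L) * ((g : ℝ) ^ 3 * b.natAbs * (1 + ((g : ℝ) - 1) * t) ^ L) := by
        have hgL : (0 : ℝ) < (g : ℝ) ^ L := by positivity
        have e1 : (g : ℝ) ^ L ≤ ((g ^ (L - 1) * (g ^ 2 * c) : ℕ) : ℝ) := by
          have e2 : g ^ L ≤ g ^ (L - 1) * (g ^ 2 * c) := by
            calc g ^ L ≤ g ^ (L + 1) := Nat.pow_le_pow_right hg0 (Nat.le_succ L)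
              _ = g ^ (L - 1) * (g ^ 2 * 1) := by
                rw [mul_one, ← pow_add]
                congr 1
                omega
              _ ≤ _ := Nat.mul_le_mul le_rfl (Nat.mul_le_mul le_rfl hc0)
          exact_mod_cast e2
        have h1 : (1 : ℝ) ≤ R / (g : ℝ) ^ L := by
          rw [le_div_iff₀ hgL, one_mul]
          exact_mod_cast hR
        have h2 : (R : ℝ) / (g ^ (L - 1) * (g ^ 2 * c) : ℕ) ≤ R / (g : ℝ) ^ L :=
          div_le_div_of_nonneg_left (Nat.cast_nonneg _) hgL e1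
        have h3 : (1 + ((g : ℝ) - 1) * t) ^ (L - 1) ≤ (1 + ((g : ℝ) - 1) * t) ^ L :=
          pow_le_pow_right₀ hx (Nat.sub_le _ _)
        have h4 : ((g ^ 2 * c : ℕ) : ℝ) ≤ (g : ℝ) ^ 3 * b.natAbs := by
          have h5 : g ^ 2 * c ≤ g ^ 3 * b.natAbs := by
            rw [hc, pow_succ g 2, mul_assoc]
            exact Nat.mul_le_mul le_rfl (Nat.mul_le_mul (Nat.sub_le _ _) le_rfl)
          exact_mod_cast h5
        refine mul_le_mul ?_ (mul_le_mul h4 h3 (by positivity) (by positivity)) ?_ ?_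
        · linarith
        · positivity
        · positivity

theorem p_GBG : Stmt_GBG := by
  intro g B w hg hw
  have hg' : (2 : ℝ) ≤ g := by exact_mod_cast hg
  have hlg : 0 < Real.log g := Real.log_pos (by linarith)
  set c : ℝ := (1 - w) / 2 * Real.log g with hc
  have hc0 : 0 < c := by
    have : 0 < 1 - w := by linarith
    positivity
  set t : ℝ := min (1 / 2) (c / g) with htd
  have ht0 : 0 < t := lt_min (by norm_num) (by positivity)
  have ht2 : t ≤ 1 / 2 := min_le_left _ _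
  have htc : (g : ℝ) * t ≤ c := by
    have h1 : t ≤ c / g := min_le_right _ _
    rw [le_div_iff₀ (by positivity)] at h1
    linarith
  have hlt : 0 < -Real.log t := by
    have := Real.log_neg ht0 (by linarith)
    linarith
  set η : ℝ := min (1 / 2) (c / (2 * (g : ℝ) ^ 4 * -Real.log t)) with hηd
  have hden : 0 < 2 * (g : ℝ) ^ 4 * -Real.log t := by positivity
  have hη0 : 0 < η := lt_min (by norm_num) (by positivity)
  have hη1 : η < 1 := lt_of_le_of_lt (min_le_left _ _) (by norm_num)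
  have hη2 : η * (2 * (g : ℝ) ^ 4 * -Real.log t) ≤ c := by
    have h1 : η ≤ c / (2 * (g : ℝ) ^ 4 * -Real.log t) := min_le_right _ _
    rwa [le_div_iff₀ hden] at h1
  refine ⟨η, 2 * ((g : ℝ) ^ 3 * (B + 1)), hη0, hη1, by positivity, fun L R b hL hR hb hbB => ?_⟩
  have h1 := GBG_count g hg t η ht0 (by linarith) hη1 L R b hL hb hR
  have hbB' : (b.natAbs : ℝ) ≤ B + 1 := by
    have h2 : (b.natAbs : ℤ) ≤ B := by
      rw [← Int.abs_eq_natAbs]
      exact hbB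
    have h3 : b.natAbs ≤ B := by exact_mod_cast h2
    have h4 : (b.natAbs : ℝ) ≤ B := by exact_mod_cast h3
    linarith
  have hLn : (0 : ℝ) ≤ L := Nat.cast_nonneg _
  have h2 : (1 + ((g : ℝ) - 1) * t) ^ L ≤ Real.exp (c * L) := by
    calc (1 + ((g : ℝ) - 1) * t) ^ L ≤ (Real.exp (((g : ℝ) - 1) * t)) ^ L := by
          refine pow_le_pow_left₀ (by nlinarith) ?_ _
          linarith [Real.add_one_le_exp (((g : ℝ) - 1) * t)]
      _ = Real.exp (L * (((g : ℝ) - 1) * t)) := by rw [← Real.exp_nat_mul]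
      _ ≤ Real.exp (c * L) := Real.exp_le_exp.2 (by nlinarith)
  have h3 : Real.exp (-(c * L)) ≤ t ^ (2 * (g : ℝ) ^ 4 * η * L) := by
    rw [Real.rpow_def_of_pos ht0]
    refine Real.exp_le_exp.2 ?_
    have h4 : η * (2 * (g : ℝ) ^ 4 * -Real.log t) * L ≤ c * L :=
      mul_le_mul_of_nonneg_right hη2 hLn
    nlinarith
  have h4 : (R : ℝ) * (g : ℝ) ^ (-(w * L)) = R / (g : ℝ) ^ L * Real.exp (2 * (c * L)) := by
    rw [div_mul_eq_mul_div, eq_div_iff (by positivity), mul_assoc]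
    congr 1
    rw [← Real.rpow_natCast, ← Real.rpow_add (by linarith), Real.rpow_def_of_pos (by linarith)]
    congr 1
    rw [hc]
    ring
  rw [h4]
  set N : ℝ := (((range R).filter fun k : ℕ => (1 - η) * L < ‖Gg g L (b * ((k : ℝ) / R))‖).card : ℝ)
    with hN
  have hN0 : 0 ≤ N := Nat.cast_nonneg _
  have h5 : N * Real.exp (-(c * L)) ≤
      2 * (R / (g : ℝ) ^ L) * ((g : ℝ) ^ 3 * (B + 1) * Real.exp (c * L)) := by
    calc N * Real.exp (-(c * L)) ≤ N * t ^ (2 * (g : ℝ) ^ 4 * η * L) :=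
          mul_le_mul_of_nonneg_left h3 hN0
      _ ≤ 2 * (R / (g : ℝ) ^ L) * ((g : ℝ) ^ 3 * b.natAbs * (1 + ((g : ℝ) - 1) * t) ^ L) := h1
      _ ≤ _ := by
          refine mul_le_mul_of_nonneg_left ?_ (by positivity)
          refine mul_le_mul (mul_le_mul_of_nonneg_left hbB' (by positivity)) h2 ?_ (by positivity)
          have : (0 : ℝ) ≤ 1 + ((g : ℝ) - 1) * t := by nlinarith
          positivity
  have h6 : Real.exp (-(c * L)) * Real.exp (c * L) = 1 := by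
    rw [← Real.exp_add]
    simp
  have h7 : Real.exp (2 * (c * L)) = Real.exp (c * L) * Real.exp (c * L) := by
    rw [← Real.exp_add]
    ring_nf
  calc N = N * Real.exp (-(c * L)) * Real.exp (c * L) := by rw [mul_assoc, h6, mul_one]
    _ ≤ 2 * (R / (g : ℝ) ^ L) * ((g : ℝ) ^ 3 * (B + 1) * Real.exp (c * L)) * Real.exp (c * L) :=
        mul_le_mul_of_nonneg_right h5 (Real.exp_pos _).le
    _ = 2 * ((g : ℝ) ^ 3 * (B + 1)) * (R / (g : ℝ) ^ L * Real.exp (2 * (c * L))) := by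
        rw [h7]
        ring

end Pool.TP
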