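import Pool.Agent.Work.MP_484fb8_tp.Interface
import Pool.Agent.Work.PS.FINALB

set_option autoImplicit false

/-! # TypicalPowers: block LFE (lengths of the powers) -/

namespace Pool.TP

open Finset
open Pool.Agent.Circle (e)
open Pool.Agent.PS (th)
open Pool.Agent.Work.MP_484fb8_nt
open scoped Classical

theorem LFE_ev (c δ H : ℝ) (hδ : 0 < δ) (hH : 0 < H) : ∃ Y : ℝ, ∀ y : ℝ, Y ≤ y →
    c ≤ y ∧ 32 ≤ y ∧ y ^ 2 ≤ Real.exp y ∧ 5 * Real.log y / Real.log 2 ≤ δ * (y / H - 1) := by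
  have hl2 : 0 < Real.log 2 := Real.log_pos (by norm_num)
  have hε : 0 < δ * Real.log 2 / (10 * H) := by positivity
  have h1 := Real.isLittleO_log_id_atTop.bound hε
  rw [Filter.eventually_atTop] at h1
  obtain ⟨Y₀, hY₀⟩ := h1
  refine ⟨max Y₀ (max c (max 32 (2 * H))), fun y hy => ?_⟩
  simp only [max_le_iff] at hy
  obtain ⟨h1, h2, h3, h4⟩ := hy
  have hy0 : 0 < y := by linarith
  refine ⟨h2, h3, ?_, ?_⟩
  · have h5 := Real.pow_div_factorial_le_exp y hy0.le 3
    have h6 : y ^ 2 ≤ y ^ 3 / (Nat.factorial 3 : ℝ) := by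
      rw [le_div_iff₀ (by positivity)]
      have : (Nat.factorial 3 : ℝ) = 6 := by norm_num [Nat.factorial]
      rw [this]
      nlinarith [pow_pos hy0 2]
    linarith
  · have h5 := hY₀ y h1
    rw [Real.norm_eq_abs, id, Real.norm_eq_abs, abs_of_pos hy0] at h5
    have h6 : Real.log y ≤ δ * Real.log 2 / (10 * H) * y := (le_abs_self _).trans h5
    have h7 : 5 * Real.log y / Real.log 2 ≤ δ * (y / (2 * H)) := by
      rw [div_le_iff₀ hl2]
      calc 5 * Real.log y ≤ 5 * (δ * Real.log 2 / (10 * H) * y) := by linarith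
        _ = _ := by field_simp; ring
    have h8 : 1 ≤ y / (2 * H) := by
      rw [le_div_iff₀ (by positivity)]
      linarith
    have h9 : y / H = y / (2 * H) + y / (2 * H) := by field_simp; ring
    calc 5 * Real.log y / Real.log 2 ≤ δ * (y / (2 * H)) := h7
      _ ≤ δ * (y / H - 1) := by
        apply mul_le_mul_of_nonneg_left _ hδ.le
        rw [h9]
        linarith

theorem LFE_core (G B K X P a : ℕ) (κ δ y : ℝ) (hδ : 0 < δ) (hy : y = Real.log X)
    (hB : 1 ≤ B) (hK : 1 ≤ K) (hKy : (K : ℝ) ≤ κ * y) (ha2 : 2 ≤ a) (haG : a ≤ G)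
    (hX0 : 0 < X) (hXP : X ≤ P) (hP : (P : ℝ) ≤ 32 * X * y ^ 2)
    (h1 : 32 * G * B * κ ≤ y) (h2 : 32 ≤ y) (h3 : y ^ 2 ≤ Real.exp y)
    (h4 : 5 * Real.log y / Real.log 2 ≤ δ * (y / Real.log G - 1)) :
    (32 * B * K * a ^ Nat.log a (X / (32 * B * K)) ≤ X ∧
      (X : ℝ) ≤ (a : ℝ) ^ Nat.log a (X / (32 * B * K)) * y ^ 2 ∧
      1 ≤ Nat.log a (X / (32 * B * K))) ∧
    Nat.log a (X / (32 * B * K)) ≤ Nat.log a P ∧
    (Nat.log a P : ℝ) - Nat.log a (X / (32 * B * K)) ≤ δ * Nat.log a P := by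
  have hy0 : 0 < y := by linarith
  have hXr : (0 : ℝ) < X := by exact_mod_cast hX0
  have hexp : Real.exp y = X := by rw [hy, Real.exp_log hXr]
  set D := 32 * B * K with hD
  have hD0 : 0 < D := by rw [hD]; positivity
  have hG2 : 2 ≤ G := ha2.trans haG
  have hG0 : (0 : ℝ) < G := by exact_mod_cast (by omega : 0 < G)
  have hB0 : (0 : ℝ) < B := by exact_mod_cast (by omega : 0 < B)
  have hGD : (G : ℝ) * D ≤ y ^ 2 := by
    rw [hD]
    push_cast
    calc (G : ℝ) * (32 * B * K) ≤ G * (32 * B * (κ * y)) := by gcongr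
      _ = (32 * G * B * κ) * y := by ring
      _ ≤ y * y := by gcongr
      _ = y ^ 2 := by ring
  have haD : a * D ≤ X := by
    have : ((a * D : ℕ) : ℝ) ≤ X := by
      push_cast
      calc (a : ℝ) * D ≤ G * D := by gcongr
        _ ≤ y ^ 2 := hGD
        _ ≤ X := by rw [← hexp]; exact h3
    exact_mod_cast this
  have haXD : a ≤ X / D := by
    rw [Nat.le_div_iff_mul_le hD0]
    exact haD
  have hXD0 : X / D ≠ 0 := by omega
  set L := Nat.log a (X / D) with hL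
  have ha0 : (0 : ℝ) < a := by exact_mod_cast (by omega : 0 < a)
  have hXa : (X : ℝ) ≤ (a : ℝ) ^ L * y ^ 2 := by
    have h5 : X / D < a ^ (L + 1) := Nat.lt_pow_succ_log_self (by omega) _
    have h6 : X < a ^ (L + 1) * D := by
      exact (Nat.div_lt_iff_lt_mul hD0).mp h5
    have h7 : (X : ℝ) ≤ (a : ℝ) ^ (L + 1) * D := by exact_mod_cast h6.le
    calc (X : ℝ) ≤ (a : ℝ) ^ (L + 1) * D := h7
      _ = (a : ℝ) ^ L * (a * D) := by ring
      _ ≤ (a : ℝ) ^ L * (G * D) := by gcongr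
      _ ≤ (a : ℝ) ^ L * y ^ 2 := by gcongr
  have hLm : L ≤ Nat.log a P := Nat.log_mono_right ((Nat.div_le_self _ _).trans hXP)
  refine ⟨⟨?_, hXa, ?_⟩, hLm, ?_⟩
  · have h5 : a ^ L ≤ X / D := Nat.pow_log_le_self a hXD0
    calc D * a ^ L ≤ D * (X / D) := Nat.mul_le_mul_left _ h5
      _ ≤ X := Nat.mul_div_le _ _
  · exact Nat.log_pos (by omega) haXD
  · set m := Nat.log a P with hm
    have hP0 : P ≠ 0 := by omega
    have h5 : a ^ m ≤ P := Nat.pow_log_le_self a hP0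
    have h6 : (a : ℝ) ^ m ≤ (a : ℝ) ^ L * y ^ 5 := by
      calc (a : ℝ) ^ m ≤ P := by exact_mod_cast h5
        _ ≤ 32 * X * y ^ 2 := hP
        _ ≤ y * ((a : ℝ) ^ L * y ^ 2) * y ^ 2 := by gcongr
        _ = _ := by ring
    have h7 : (a : ℝ) ^ (m - L) ≤ y ^ 5 := by
      have h8 : (a : ℝ) ^ m = (a : ℝ) ^ L * (a : ℝ) ^ (m - L) := by
        rw [← pow_add]; congr 1; omega
      rw [h8] at h6
      exact le_of_mul_le_mul_left h6 (by positivity)
    have h8 : ((m - L : ℕ) : ℝ) * Real.log 2 ≤ 5 * Real.log y := by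
      have h9 : Real.log ((a : ℝ) ^ (m - L)) ≤ Real.log (y ^ 5) :=
        Real.log_le_log (by positivity) h7
      rw [Real.log_pow, Real.log_pow] at h9
      have h10 : Real.log 2 ≤ Real.log a :=
        Real.log_le_log (by norm_num) (by exact_mod_cast ha2)
      calc ((m - L : ℕ) : ℝ) * Real.log 2 ≤ ((m - L : ℕ) : ℝ) * Real.log a := by gcongr
        _ ≤ _ := h9
        _ = _ := by norm_num
    have hl2 : 0 < Real.log 2 := Real.log_pos (by norm_num)
    have h9 : ((m - L : ℕ) : ℝ) ≤ 5 * Real.log y / Real.log 2 := by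
      rw [le_div_iff₀ hl2]
      exact h8
    have h10 : y / Real.log G - 1 ≤ m := by
      have h11 : P < a ^ (m + 1) := Nat.lt_pow_succ_log_self (by omega) _
      have h12 : (X : ℝ) ≤ (a : ℝ) ^ (m + 1) := by
        exact_mod_cast (hXP.trans h11.le)
      have h13 : y ≤ ((m + 1 : ℕ) : ℝ) * Real.log a := by
        rw [hy, ← Real.log_pow]
        exact Real.log_le_log hXr h12
      have h14 : Real.log a ≤ Real.log G :=
        Real.log_le_log ha0 (by exact_mod_cast haG)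
      have hlG : 0 < Real.log G := Real.log_pos (by exact_mod_cast hG2)
      have h15 : y / Real.log G ≤ ((m + 1 : ℕ) : ℝ) := by
        rw [div_le_iff₀ hlG]
        exact h13.trans (by gcongr)
      push_cast at h15
      linarith
    have h11 : ((m - L : ℕ) : ℝ) = (m : ℝ) - L := by
      rw [Nat.cast_sub hLm]
    rw [← h11]
    calc ((m - L : ℕ) : ℝ) ≤ 5 * Real.log y / Real.log 2 := h9
      _ ≤ δ * (y / Real.log G - 1) := h4
      _ ≤ δ * m := by gcongr

theorem p_LFE : Stmt_LFE := by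
  intro G B κ δ hκ hδ
  set B' := max B 1 with hB'
  have hG2 : 2 ≤ max G 2 := le_max_right _ _
  have hlG : 0 < Real.log ((max G 2 : ℕ) : ℝ) := Real.log_pos (by exact_mod_cast hG2)
  obtain ⟨Y, hY⟩ := LFE_ev (32 * (max G 2 : ℕ) * B' * κ) δ (Real.log ((max G 2 : ℕ) : ℝ)) hδ hlG
  obtain ⟨X₁, hX₁⟩ := Pool.Agent.PS.prml_succ_le
  refine ⟨max 1 (max X₁ (4 * (⌈Real.exp Y⌉₊ + 1))), fun n K hn hK hKy => ?_⟩
  simp only [max_le_iff] at hn
  obtain ⟨hn1, hn2, hn3⟩ := hn
  have hle := le_prml n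
  obtain ⟨hP1, -⟩ := hX₁ n hn1 (by omega)
  set X := prml n / 4 with hX
  have hXc : ⌈Real.exp Y⌉₊ + 1 ≤ X := by
    rw [hX, Nat.le_div_iff_mul_le (by norm_num)]
    omega
  have hX0 : 0 < X := by omega
  have hXr : (0 : ℝ) < X := by exact_mod_cast hX0
  have hYX : Y ≤ Real.log X := by
    rw [Real.le_log_iff_exp_le hXr]
    have h1 : Real.exp Y ≤ ⌈Real.exp Y⌉₊ := Nat.le_ceil _
    have h2 : ((⌈Real.exp Y⌉₊ + 1 : ℕ) : ℝ) ≤ X := by exact_mod_cast hXc
    push_cast at h2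
    linarith
  obtain ⟨h1, h2, h3, h4⟩ := hY _ hYX
  have hXn : X ≤ prml n := Nat.div_le_self _ _
  have hnX : prml n ≤ 8 * X := by
    have : prml n < 4 * (X + 1) := by omega
    omega
  have hXP : X ≤ prml (n + 1) := hXn.trans (prml_mono (by omega))
  have hp0 : (0 : ℝ) < prml n := by exact_mod_cast (by omega : 0 < prml n)
  have hlog : Real.log (prml n) ≤ 2 * Real.log X := by
    have h5 : (prml n : ℝ) ≤ 8 * X := by exact_mod_cast hnX
    have h6 : (8 : ℝ) ≤ X := by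
      have h7 : Real.exp (Real.log X) = X := Real.exp_log hXr
      have h8 := Real.add_one_le_exp (Real.log X)
      linarith
    calc Real.log (prml n) ≤ Real.log ((X : ℝ) ^ 2) := by
          apply Real.log_le_log hp0
          nlinarith
      _ = 2 * Real.log X := by rw [Real.log_pow]; norm_num
  have hlog0 : 0 ≤ Real.log (prml n) :=
    Real.log_nonneg (by exact_mod_cast (by omega : 1 ≤ prml n))
  have hP : ((prml (n + 1) : ℕ) : ℝ) ≤ 32 * X * (Real.log X) ^ 2 := by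
    have h5 : (prml n : ℝ) ≤ 8 * X := by exact_mod_cast hnX
    calc ((prml (n + 1) : ℕ) : ℝ) ≤ ((prml (n + 1) + 1 : ℕ) : ℝ) := by push_cast; linarith
      _ ≤ prml n * (Real.log (prml n)) ^ 2 := hP1
      _ ≤ (8 * X) * (2 * Real.log X) ^ 2 := by gcongr
      _ = _ := by ring
  refine ⟨fun a => Nat.log a (X / (32 * B' * K)), fun a ha2 haG => ?_⟩
  obtain ⟨⟨r1, r2, r3⟩, r4, r5⟩ := LFE_core (max G 2) B' K X (prml (n + 1)) a κ δ (Real.log X)
    hδ rfl (le_max_right _ _) hK hKy ha2 (haG.trans (le_max_left _ _)) hX0 hXP hP h1 h2 h3 h4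
  refine ⟨⟨?_, r2, r3⟩, r4, r5⟩
  refine le_trans ?_ r1
  have : B ≤ B' := le_max_left _ _
  gcongr

end Pool.TP
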