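import Pool.Agent.Work.MP_484fb8_tp.Interface2
import Pool.Agent.Work.PS.FINALB

set_option autoImplicit false

/-! # TypicalPowers, block LGS: logarithms to the base `g` of the primorials -/

namespace Pool.TP

open Finset
open Pool.Agent.Circle (e)
open Pool.Agent.PS (th)
open Pool.Agent.Work.MP_484fb8_nt
open scoped Classical

theorem LGS_log_ge {g x : ℕ} (hg : 2 ≤ g) (hx : 1 ≤ x) :
    Real.log x / Real.log g - 1 ≤ (Nat.log g x : ℝ) := by
  have h := Nat.lt_pow_succ_log_self (by omega : 1 < g) x
  have hgr : (1 : ℝ) < g := by exact_mod_cast (by omega : 1 < g)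
  have hlg : 0 < Real.log g := Real.log_pos hgr
  have hx0 : (0 : ℝ) < x := by exact_mod_cast hx
  have h1 : Real.log x ≤ ((Nat.log g x : ℝ) + 1) * Real.log g := by
    have h2 : (x : ℝ) ≤ (g : ℝ) ^ (Nat.log g x + 1) := by exact_mod_cast h.le
    have h3 := Real.log_le_log hx0 h2
    rw [Real.log_pow] at h3
    push_cast at h3
    exact h3
  have h4 : Real.log x / Real.log g ≤ (Nat.log g x : ℝ) + 1 := by
    rw [div_le_iff₀ hlg]
    exact h1
  linarith

theorem LGS_log_le {g x : ℕ} (hg : 2 ≤ g) (hx : 1 ≤ x) :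
    (Nat.log g x : ℝ) ≤ Real.log x / Real.log g := by
  have h := Nat.pow_log_le_self g (by omega : x ≠ 0)
  have hgr : (1 : ℝ) < g := by exact_mod_cast (by omega : 1 < g)
  have hlg : 0 < Real.log g := Real.log_pos hgr
  rw [le_div_iff₀ hlg]
  have h2 : (g : ℝ) ^ (Nat.log g x) ≤ x := by exact_mod_cast h
  have h3 := Real.log_le_log (by positivity) h2
  rw [Real.log_pow] at h3
  exact h3

theorem p_LGS : Stmt_LGS := by
  intro g hg
  obtain ⟨X1, hX1⟩ := Pool.Agent.PS.prml_succ_le
  have hgr : (1 : ℝ) < g := by exact_mod_cast (by omega : 1 < g)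
  have hlg : 0 < Real.log g := Real.log_pos hgr
  refine ⟨1 / (2 * Real.log g), 2 / Real.log g + 2, max 1 (max X1 (max ⌈Real.exp 3⌉₊ (g ^ 2))),
    by positivity, by positivity, fun n hn => ?_⟩
  simp only [max_le_iff] at hn
  obtain ⟨hn1, hn2, hn3, hn4⟩ := hn
  have hle := le_prml n
  have hpos := prml_pos n
  have hXr : (0 : ℝ) < prml n := by exact_mod_cast hpos
  have hy3 : 3 ≤ Real.log (prml n) := by
    rw [Real.le_log_iff_exp_le hXr]
    exact (Nat.le_ceil _).trans (by exact_mod_cast (by omega : ⌈Real.exp 3⌉₊ ≤ prml n))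
  have hyg : 2 * Real.log g ≤ Real.log (prml n) := by
    have h1 : ((g : ℝ) ^ 2) ≤ prml n := by exact_mod_cast (by omega : g ^ 2 ≤ prml n)
    have h2 := Real.log_le_log (by positivity) h1
    rw [Real.log_pow] at h2
    push_cast at h2
    exact h2
  have hmono : prml n ≤ prml (n + 1) := by
    rw [prml_succ]
    have := nth_prime_ge n
    exact Nat.le_mul_of_pos_right _ (by omega)
  have hlog1 : Nat.log g (prml n) ≤ Nat.log g (prml (n + 1) + 1) :=
    Nat.log_mono_right (by omega)
  have hlog2 : Nat.log g (prml (n + 1)) ≤ Nat.log g (prml (n + 1) + 1) :=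
    Nat.log_mono_right (by omega)
  have hb1 := LGS_log_ge hg (show 1 ≤ prml n from hpos)
  obtain ⟨hu, _⟩ := hX1 n hn1 (by omega)
  refine ⟨?_, ?_, ?_, ?_, ?_⟩
  · have h1 : 1 / (2 * Real.log g) * Real.log (prml n) =
        Real.log (prml n) / Real.log g - Real.log (prml n) / (2 * Real.log g) := by
      field_simp
      ring
    have h2 : 1 ≤ Real.log (prml n) / (2 * Real.log g) := by
      rw [le_div_iff₀ (by positivity), one_mul]
      exact hyg
    rw [h1]
    linarith
  · have hll : 1 ≤ Real.log (Real.log (prml n)) := by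
      rw [Real.le_log_iff_exp_le (by linarith)]
      exact (Real.exp_one_lt_d9.le.trans (by norm_num)).trans hy3
    have h1 := LGS_log_le hg (show 1 ≤ prml (n + 1) + 1 by omega)
    have h2 : Real.log ((prml (n + 1) + 1 : ℕ) : ℝ) ≤
        Real.log (prml n) + 2 * Real.log (Real.log (prml n)) := by
      have h3 := Real.log_le_log (by positivity) hu
      rw [Real.log_mul hXr.ne' (by positivity), Real.log_pow] at h3
      push_cast at h3 ⊢
      exact h3
    have h3 : (Nat.log g (prml (n + 1) + 1) : ℝ) ≤
        Real.log (prml n) / Real.log g + 2 * Real.log (Real.log (prml n)) / Real.log g := by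
      refine h1.trans ?_
      rw [← add_div]
      exact div_le_div_of_nonneg_right h2 hlg.le
    unfold om
    rw [Nat.cast_sub (by omega)]
    push_cast
    have h4 : 2 * Real.log (Real.log (prml n)) / Real.log g =
        2 / Real.log g * Real.log (Real.log (prml n)) := by ring
    rw [h4] at h3
    have h5 : (2 / Real.log g + 2) * Real.log (Real.log (prml n)) =
        2 / Real.log g * Real.log (Real.log (prml n)) + 2 * Real.log (Real.log (prml n)) := by ring
    rw [h5]
    linarith
  · unfold om
    omega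
  · unfold om
    omega
  · have h1 : prml (n + 1) + 1 ≤ prml (n + 1) * g := by
      have := prml_pos (n + 1)
      nlinarith
    calc Nat.log g (prml (n + 1) + 1) ≤ Nat.log g (prml (n + 1) * g) := Nat.log_mono_right h1
      _ = Nat.log g (prml (n + 1)) + 1 :=
        Nat.log_mul_base (by omega) (prml_pos (n + 1)).ne'

end Pool.TP
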