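import Pool.Agent.Work.MP_484fb8_tp.Interface2

set_option autoImplicit false

/-! Block NZC of TypicalPowers, part 2 (helper24). -/

namespace Pool.TP

open Finset
open Pool.Agent.Circle (e)
open Pool.Agent.PS (th)
open Pool.Agent.Work.MP_484fb8_nt
open scoped Classical

theorem NZC_sum (g n : ℕ) (f : ℕ → ℕ) :
    ∑ m ∈ range (g * n), f m = ∑ m ∈ range n, ∑ d ∈ range g, f (g * m + d) := by
  induction n with
  | zero => simp
  | succ n ih =>
    rw [Nat.mul_succ, sum_range_add, ih, sum_range_succ]

theorem NZC_inner (g j m : ℕ) (hg : 2 ≤ g) :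
    ∑ d ∈ range g, (if nz g (g * m + d) = j then 1 else 0) =
      (if nz g m = j then 1 else 0) + (g - 1) * (if nz g m + 1 = j then 1 else 0) := by
  obtain ⟨k, rfl⟩ : ∃ k, g = k + 1 := ⟨g - 1, by omega⟩
  rw [sum_range_succ']
  have h1 : ∀ i ∈ range k, (if nz (k + 1) ((k + 1) * m + (i + 1)) = j then 1 else 0) =
      (if nz (k + 1) m + 1 = j then 1 else 0) := by
    intro i hi
    rw [nz_add (k + 1) m (i + 1) hg (by have := mem_range.1 hi; omega)]
    simp
  rw [sum_congr rfl h1, sum_const, card_range, nz_add (k + 1) m 0 hg (by omega)]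
  simp only [if_true, add_zero, smul_eq_mul, Nat.add_sub_cancel]
  ring

theorem p_NZC : Stmt_NZC := by
  intro g L j hg
  induction L generalizing j with
  | zero =>
    rw [pow_zero, range_one, filter_singleton, nz_zero]
    cases j with
    | zero => simp
    | succ j => simp
  | succ L ih =>
    rw [card_filter, pow_succ', NZC_sum, sum_congr rfl fun m _ => NZC_inner g j m hg,
      sum_add_distrib, ← mul_sum, ← card_filter, ← card_filter, ih j]
    cases j with
    | zero => simp
    | succ i =>
      have h1 : ((range (g ^ L)).filter fun m => nz g m + 1 = i + 1) =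
          (range (g ^ L)).filter fun m => nz g m = i := by
        refine filter_congr fun m _ => ?_
        omega
      rw [h1, ih i, Nat.choose_succ_succ]
      ring

end Pool.TP
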