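import Pool.Agent.Work.MP_484fb8_tp.Interface2

set_option autoImplicit false

/-! # TypicalPowers, block NZD: the number of nonzero digits -/

namespace Pool.TP

open Finset
open Pool.Agent.Circle (e)
open Pool.Agent.PS (th)
open Pool.Agent.Work.MP_484fb8_nt
open scoped Classical

theorem p_NZD : Stmt_NZD := by
  intro g m L hg
  induction L generalizing m with
  | zero =>
    intro h
    have hm : m = 0 := by
      rw [pow_zero] at h
      omega
    subst hm
    rw [nz_zero]
    simp
  | succ L ih =>
    intro h
    have h1 : m / g < g ^ L := by
      apply Nat.div_lt_of_lt_mul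
      rw [pow_succ'] at h
      exact h
    have h2 : m % g < g := Nat.mod_lt _ (by omega)
    have h3 : nz g m = nz g (m / g) + if m % g = 0 then 0 else 1 := by
      conv_lhs => rw [← Nat.div_add_mod m g]
      exact nz_add g (m / g) (m % g) hg h2
    rw [h3, ih _ h1, Finset.card_filter, Finset.card_filter, Finset.sum_range_succ']
    have h4 : ∀ p, dg g m (p + 1) = dg g (m / g) p := by
      intro p
      unfold dg
      rw [pow_succ', Nat.div_div_eq_div_mul]
    have h5 : dg g m 0 = m % g := by
      unfold dg
      rw [pow_zero, Nat.div_one]
    simp only [h4, h5]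
    by_cases h6 : m % g = 0
    · simp [h6]
    · simp [h6]

end Pool.TP
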