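import Pool.Agent.Work.MP_484fb8_tp.Interface2

set_option autoImplicit false

/-! # TypicalPowers, block NZI -/

namespace Pool.TP

open Finset
open scoped Classical

theorem p_NZI (hNZD : Stmt_NZD) : Stmt_NZI := by
  intro g m k₂ ℓ hg hm hl
  set l := Nat.log g m with hl0
  set P : Finset ℕ := (Ico 1 l).filter fun p => dg g m p ≠ 0 with hP
  have hP1 : nz g m - 2 ≤ P.card := by
    have h1 : m < g ^ (l + 1) := Nat.lt_pow_succ_log_self (by omega) m
    have h2 := hNZD g m (l + 1) hg h1
    have h3 : ((range (l + 1)).filter fun p => dg g m p ≠ 0) ⊆ insert 0 (insert l P) := by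
      intro p hp
      rw [mem_filter, mem_range] at hp
      rw [mem_insert, mem_insert, hP, mem_filter, mem_Ico]
      by_cases h4 : p = 0
      · exact Or.inl h4
      · by_cases h5 : p = l
        · exact Or.inr (Or.inl h5)
        · exact Or.inr (Or.inr ⟨⟨by omega, by omega⟩, hp.2⟩)
    have h4 := card_le_card h3
    have h5 := card_insert_le 0 (insert l P)
    have h6 := card_insert_le l P
    omega
  have hc : Fintype.card (Fin k₂ ↪ P) = P.card.descFactorial k₂ := by
    rw [Fintype.card_embedding_eq, Fintype.card_fin, Fintype.card_coe]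
  calc (nz g m - 2).descFactorial k₂ ≤ P.card.descFactorial k₂ := Nat.descFactorial_le k₂ hP1
    _ = (univ : Finset (Fin k₂ ↪ P)).card := by rw [← hc, card_univ]
    _ ≤ _ := by
      refine card_le_card_of_injOn (fun f i => ((f i : P) : ℕ)) ?_ ?_
      · intro f _
        have h1 : ∀ i, (1 ≤ ((f i : P) : ℕ) ∧ ((f i : P) : ℕ) < l) ∧ dg g m ((f i : P) : ℕ) ≠ 0 := by
          intro i
          have h7 : ∀ x ∈ P, (1 ≤ x ∧ x < l) ∧ dg g m x ≠ 0 := by
            intro x hx
            rw [hP, mem_filter, mem_Ico] at hx
            exact hx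
          exact h7 _ (f i).2
        have h2 : (fun i => ((f i : P) : ℕ)) ∈ (bx fun _ : Fin k₂ => ℓ) := by
          rw [mem_bx]
          intro i
          have := (h1 i).1
          exact ⟨this.1, by omega⟩
        have h3 : Function.Injective (fun i => ((f i : P) : ℕ)) := by
          intro i j hij
          exact f.injective (Subtype.ext hij)
        exact mem_coe.2 (mem_filter.2 ⟨h2, h3, fun i => ⟨(h1 i).2, (h1 i).1.2⟩⟩)
      · intro f _ f' _ hff
        ext i
        exact congrFun hff i

end Pool.TP
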