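import Pool.Agent.Work.MP_484fb8_tp.Interface2

set_option autoImplicit false

/-! # Block NZR: removing some nonzero digits below the leading one -/

namespace Pool.TP

open Finset
open Pool.Agent.Circle (e)
open Pool.Agent.PS (th)
open Pool.Agent.Work.MP_484fb8_nt
open scoped Classical

theorem NZR_dg_zero (g m : ℕ) : dg g m 0 = m % g := by
  unfold dg
  rw [pow_zero, Nat.div_one]

theorem NZR_dg_succ (g m p : ℕ) : dg g m (p + 1) = dg g (m / g) p := by
  unfold dg
  rw [pow_succ', Nat.div_div_eq_div_mul]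

theorem NZR_one {g : ℕ} (hg : 2 ≤ g) : ∀ v m : ℕ, dg g m v ≠ 0 →
    dg g m v * g ^ v ≤ m ∧ nz g (m - dg g m v * g ^ v) + 1 = nz g m ∧
    ∀ w, dg g (m - dg g m v * g ^ v) w = if w = v then 0 else dg g m w := by
  intro v
  induction v with
  | zero =>
    intro m h
    rw [NZR_dg_zero] at h
    have h1 : g * (m / g) + m % g = m := Nat.div_add_mod m g
    have h2 : m % g < g := Nat.mod_lt _ (by omega)
    rw [NZR_dg_zero, pow_zero, mul_one]
    have h3 : m - m % g = g * (m / g) + 0 := by omega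
    have h4 : nz g (g * (m / g) + 0) = nz g (m / g) + 0 := by
      rw [nz_add g (m / g) 0 hg (by omega), if_pos rfl]
    have h5 : nz g m = nz g (m / g) + 1 := by
      conv_lhs => rw [← h1]
      rw [nz_add g (m / g) (m % g) hg h2, if_neg h]
    refine ⟨Nat.mod_le _ _, ?_, ?_⟩
    · rw [h3, h4, h5]
    · intro w
      rw [h3, add_zero]
      cases w with
      | zero =>
        rw [if_pos rfl, NZR_dg_zero, Nat.mul_mod_right]
      | succ w =>
        rw [if_neg (by omega), NZR_dg_succ, NZR_dg_succ, Nat.mul_div_cancel_left _ (by omega)]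
  | succ v ih =>
    intro m h
    rw [NZR_dg_succ] at h
    obtain ⟨i1, i2, i3⟩ := ih (m / g) h
    rw [NZR_dg_succ]
    set d := dg g (m / g) v with hd
    have h1 : g * (m / g) + m % g = m := Nat.div_add_mod m g
    have h2 : m % g < g := Nat.mod_lt _ (by omega)
    have h3 : d * g ^ (v + 1) = g * (d * g ^ v) := by
      rw [pow_succ]; ring
    have h4 : m - d * g ^ (v + 1) = g * (m / g - d * g ^ v) + m % g := by
      rw [h3, Nat.mul_sub]
      have : g * (d * g ^ v) ≤ g * (m / g) := Nat.mul_le_mul_left _ i1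
      omega
    have h5 : nz g m = nz g (m / g) + if m % g = 0 then 0 else 1 := by
      conv_lhs => rw [← h1]
      rw [nz_add g (m / g) (m % g) hg h2]
    refine ⟨?_, ?_, ?_⟩
    · rw [h3]
      have : g * (d * g ^ v) ≤ g * (m / g) := Nat.mul_le_mul_left _ i1
      omega
    · rw [h4, nz_add g _ _ hg h2, h5]
      omega
    · intro w
      rw [h4]
      cases w with
      | zero =>
        rw [if_neg (by omega), NZR_dg_zero, NZR_dg_zero, Nat.mul_add_mod, Nat.mod_eq_of_lt h2]
      | succ w =>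
        rw [NZR_dg_succ, NZR_dg_succ, Nat.mul_add_div (by omega), Nat.div_eq_of_lt h2, add_zero,
          i3 w]
        by_cases hw : w = v
        · rw [if_pos hw, if_pos (by omega)]
        · rw [if_neg hw, if_neg (by omega)]

theorem NZR_set {g : ℕ} (hg : 2 ≤ g) (m : ℕ) (S : Finset ℕ) :
    (∀ p ∈ S, dg g m p ≠ 0) →
    ∑ p ∈ S, dg g m p * g ^ p ≤ m ∧ nz g (m - ∑ p ∈ S, dg g m p * g ^ p) + S.card = nz g m ∧
    ∀ w, dg g (m - ∑ p ∈ S, dg g m p * g ^ p) w = if w ∈ S then 0 else dg g m w := by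
  induction S using Finset.induction_on with
  | empty =>
    intro _
    simp
  | insert v S hv ih =>
    intro h
    obtain ⟨i1, i2, i3⟩ := ih fun p hp => h p (mem_insert_of_mem hp)
    have h1 : dg g (m - ∑ p ∈ S, dg g m p * g ^ p) v = dg g m v := by
      rw [i3 v, if_neg hv]
    obtain ⟨j1, j2, j3⟩ := NZR_one hg v (m - ∑ p ∈ S, dg g m p * g ^ p)
      (by rw [h1]; exact h v (mem_insert_self _ _))
    rw [h1] at j1 j2 j3
    rw [sum_insert hv, card_insert_of_notMem hv]
    have h2 : m - (dg g m v * g ^ v + ∑ p ∈ S, dg g m p * g ^ p) =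
        m - ∑ p ∈ S, dg g m p * g ^ p - dg g m v * g ^ v := by omega
    rw [h2]
    refine ⟨by omega, by omega, ?_⟩
    intro w
    rw [j3 w, i3 w]
    by_cases hw : w = v
    · rw [if_pos hw, if_pos (by rw [hw]; exact mem_insert_self _ _)]
    · rw [if_neg hw]
      by_cases hw2 : w ∈ S
      · rw [if_pos hw2, if_pos (mem_insert_of_mem hw2)]
      · rw [if_neg hw2, if_neg (by simp [hw, hw2])]

/-- Block NZR. -/
theorem NZR : Stmt_NZR := by
  intro g m k₂ v hg hm hv hd
  have hs : ∑ i, dg g m (v i) * g ^ v i = ∑ p ∈ (univ : Finset (Fin k₂)).image v, dg g m p * g ^ p := by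
    rw [sum_image fun a _ b _ hab => hv hab]
  have hc : ((univ : Finset (Fin k₂)).image v).card = k₂ := by
    rw [card_image_of_injective _ hv, card_univ, Fintype.card_fin]
  obtain ⟨i1, i2, i3⟩ := NZR_set hg m ((univ : Finset (Fin k₂)).image v) (by
    intro p hp
    obtain ⟨i, -, rfl⟩ := mem_image.1 hp
    exact (hd i).1)
  rw [← hs] at i1 i2 i3
  rw [hc] at i2
  refine ⟨i1, i2, ?_⟩
  have h1 : dg g m (Nat.log g m) ≠ 0 := by
    unfold dg
    have h2 : g ^ Nat.log g m ≤ m := Nat.pow_log_le_self g (by omega)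
    have h3 : m < g ^ (Nat.log g m + 1) := Nat.lt_pow_succ_log_self (by omega) m
    have h4 : 0 < m / g ^ Nat.log g m := Nat.div_pos h2 (Nat.pow_pos (by omega))
    have h5 : m / g ^ Nat.log g m < g := by
      rw [Nat.div_lt_iff_lt_mul (Nat.pow_pos (by omega))]
      rwa [pow_succ, mul_comm] at h3
    rw [Nat.mod_eq_of_lt h5]
    omega
  have h2 := i3 (Nat.log g m)
  rw [if_neg (by
    intro h
    obtain ⟨i, -, hi⟩ := mem_image.1 h
    have := (hd i).2
    omega)] at h2
  by_contra hcon
  push_neg at hcon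
  have h3 : dg g (m - ∑ i, dg g m (v i) * g ^ v i) (Nat.log g m) = 0 := by
    unfold dg
    unfold dg at hcon
    rw [Nat.div_eq_of_lt hcon, Nat.zero_mod]
  rw [h3] at h2
  exact h1 h2.symm

end Pool.TP
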