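import Pool.Agent.Work.MP_484fb8_tp.Interface2

set_option autoImplicit false

/-! # Block NZT: integers with a given leading position and number of nonzero digits -/

namespace Pool.TP

open Finset
open Pool.Agent.Circle (e)
open Pool.Agent.PS (th)
open Pool.Agent.Work.MP_484fb8_nt
open scoped Classical

theorem NZT_nz {g d : ℕ} (hg : 2 ≤ g) (hd1 : 1 ≤ d) (hd2 : d < g) (a : ℕ) :
    ∀ m' : ℕ, m' < g ^ a → nz g (d * g ^ a + m') = nz g m' + 1 := by
  induction a with
  | zero =>
    intro m' hm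
    rw [pow_zero] at hm
    have h0 : m' = 0 := by omega
    subst h0
    have h1 := nz_add g 0 d hg hd2
    rw [if_neg (by omega), mul_zero, zero_add] at h1
    rw [pow_zero, mul_one, add_zero, h1]
  | succ a ih =>
    intro m' hm
    have h1 : g * (m' / g) + m' % g = m' := Nat.div_add_mod m' g
    have h2 : m' % g < g := Nat.mod_lt _ (by omega)
    have h3 : m' / g < g ^ a := by
      rw [Nat.div_lt_iff_lt_mul (by omega)]
      rwa [pow_succ] at hm
    have h4 : d * g ^ (a + 1) + m' = g * (d * g ^ a + m' / g) + m' % g := by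
      calc d * g ^ (a + 1) + m' = d * g ^ (a + 1) + (g * (m' / g) + m' % g) := by rw [h1]
        _ = g * (d * g ^ a + m' / g) + m' % g := by rw [pow_succ]; ring
    have h5 := nz_add g (m' / g) (m' % g) hg h2
    rw [h1] at h5
    rw [h4, nz_add g _ _ hg h2, ih _ h3, h5]
    ring

theorem NZT_inj {G d1 d2 m1 m2 : ℕ} (h1 : m1 < G) (h2 : m2 < G)
    (h : d1 * G + m1 = d2 * G + m2) : d1 = d2 ∧ m1 = m2 := by
  have e1 : (d1 * G + m1) / G = d1 := by
    rw [mul_comm, Nat.mul_add_div (by omega), Nat.div_eq_of_lt h1, add_zero]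
  have e2 : (d2 * G + m2) / G = d2 := by
    rw [mul_comm, Nat.mul_add_div (by omega), Nat.div_eq_of_lt h2, add_zero]
  have e3 : d1 = d2 := by rw [← e1, ← e2, h]
  refine ⟨e3, ?_⟩
  rw [e3] at h
  omega

theorem NZT_mem {g a d m' : ℕ} (hd1 : 1 ≤ d) (hd2 : d < g) (hm : m' < g ^ a) :
    d * g ^ a + m' ∈ Ico (g ^ a) (g ^ (a + 1)) := by
  rw [mem_Ico]
  constructor
  · calc g ^ a = 1 * g ^ a := (one_mul _).symm
      _ ≤ d * g ^ a := Nat.mul_le_mul_right _ hd1
      _ ≤ d * g ^ a + m' := Nat.le_add_right _ _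
  · calc d * g ^ a + m' < d * g ^ a + g ^ a := Nat.add_lt_add_left hm _
      _ = (d + 1) * g ^ a := by ring
      _ ≤ g * g ^ a := Nat.mul_le_mul_right _ hd2
      _ = g ^ (a + 1) := by rw [pow_succ]; ring

theorem NZT_first (hNZC : Stmt_NZC) (g a j : ℕ) (hg : 2 ≤ g) :
    ((Ico (g ^ a) (g ^ (a + 1))).filter fun m => nz g m = j + 1).card =
      a.choose j * (g - 1) ^ (j + 1) := by
  have h1 : ((Ico (g ^ a) (g ^ (a + 1))).filter fun m => nz g m = j + 1) =
      ((Icc 1 (g - 1)) ×ˢ ((range (g ^ a)).filter fun m => nz g m = j)).image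
        (fun q : ℕ × ℕ => q.1 * g ^ a + q.2) := by
    ext m
    rw [mem_filter, mem_image]
    constructor
    · rintro ⟨h2, h3⟩
      have h2' := mem_Ico.1 h2
      have hG : 0 < g ^ a := Nat.pow_pos (by omega)
      have h4 : g ^ a * (m / g ^ a) + m % g ^ a = m := Nat.div_add_mod m (g ^ a)
      have h5 : m % g ^ a < g ^ a := Nat.mod_lt _ hG
      have h6 : 1 ≤ m / g ^ a := (Nat.one_le_div_iff hG).2 h2'.1
      have h7 : m / g ^ a < g := by
        rw [Nat.div_lt_iff_lt_mul hG]
        have h8 := h2'.2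
        rw [pow_succ, mul_comm] at h8
        exact h8
      have h9 : m / g ^ a * g ^ a + m % g ^ a = m := by rw [mul_comm, h4]
      refine ⟨(m / g ^ a, m % g ^ a), ?_, h9⟩
      rw [mem_product, mem_Icc, mem_filter, mem_range]
      refine ⟨⟨h6, by show m / g ^ a ≤ g - 1; omega⟩, h5, ?_⟩
      have h10 := NZT_nz hg h6 h7 a (m % g ^ a) h5
      rw [h9, h3] at h10
      show nz g (m % g ^ a) = j
      omega
    · rintro ⟨⟨d, m'⟩, h2, rfl⟩
      rw [mem_product, mem_Icc, mem_filter, mem_range] at h2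
      obtain ⟨⟨h3, h4⟩, h5, h6⟩ := h2
      simp only at h3 h4 h5 h6
      refine ⟨NZT_mem h3 (by omega) h5, ?_⟩
      show nz g (d * g ^ a + m') = j + 1
      rw [NZT_nz hg h3 (by omega) a m' h5, h6]
  rw [h1, card_image_of_injOn, card_product, hNZC g a j hg, Nat.card_Icc]
  · rw [pow_succ]
    have h2 : g - 1 + 1 - 1 = g - 1 := by omega
    rw [h2]
    ring
  · rintro ⟨d1, m1⟩ h2 ⟨d2, m2⟩ h3 h4
    rw [mem_coe, mem_product, mem_filter, mem_range] at h2 h3
    have h5 := NZT_inj h2.2.1 h3.2.1 h4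
    exact Prod.ext h5.1 h5.2

theorem p_NZT (_hNZD : Stmt_NZD) (hNZC : Stmt_NZC) : Stmt_NZT := by
  intro g a j hg
  refine ⟨NZT_first hNZC g a j hg, fun ha => ?_⟩
  rcases Nat.even_or_odd g with hev | hodd
  · -- even base
    obtain ⟨b, rfl⟩ : ∃ b, a = b + 1 := ⟨a - 1, by omega⟩
    have h1 : (((Icc 1 (g - 1)) ×ˢ ((range (g ^ b)).filter fun m => nz g m = j)).image
        (fun q : ℕ × ℕ => q.1 * g ^ (b + 1) + g * q.2)) ⊆
        ((Ico (g ^ (b + 1)) (g ^ (b + 1 + 1))).filter fun m => nz g m = j + 1 ∧ Even m) := by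
      intro m hm
      rw [mem_image] at hm
      obtain ⟨⟨d, m'⟩, h2, rfl⟩ := hm
      rw [mem_product, mem_Icc, mem_filter, mem_range] at h2
      obtain ⟨⟨h3, h4⟩, h5, h6⟩ := h2
      simp only at h3 h4 h5 h6
      have h7 : g * m' < g ^ (b + 1) := by
        rw [pow_succ, mul_comm]
        exact Nat.mul_lt_mul_of_pos_right h5 (by omega)
      rw [mem_filter]
      refine ⟨NZT_mem h3 (by omega) h7, ?_, ?_⟩
      · show nz g (d * g ^ (b + 1) + g * m') = j + 1
        rw [NZT_nz hg h3 (by omega) (b + 1) _ h7]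
        have h8 := nz_add g m' 0 hg (by omega)
        rw [if_pos rfl, add_zero, add_zero] at h8
        rw [h8, h6]
      · show Even (d * g ^ (b + 1) + g * m')
        refine Even.add ?_ (hev.mul_right _)
        rw [pow_succ, ← mul_assoc]
        exact hev.mul_left _
    have h2 := card_le_card h1
    rw [card_image_of_injOn, card_product, hNZC g b j hg, Nat.card_Icc] at h2
    · have h3 : g - 1 + 1 - 1 = g - 1 := by omega
      rw [h3] at h2
      have h4 : (g - 1) * (b.choose j * (g - 1) ^ j) = b.choose j * (g - 1) ^ (j + 1) := by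
        rw [pow_succ]; ring
      rw [h4] at h2
      have h5 : b + 1 - 1 = b := by omega
      rw [h5]
      omega
    · rintro ⟨d1, m1⟩ h3 ⟨d2, m2⟩ h4 h5
      rw [mem_coe, mem_product, mem_filter, mem_range] at h3 h4
      have h7 : ∀ m', m' < g ^ b → g * m' < g ^ (b + 1) := by
        intro m' hm
        rw [pow_succ, mul_comm]
        exact Nat.mul_lt_mul_of_pos_right hm (by omega)
      have h8 := NZT_inj (h7 _ h3.2.1) (h7 _ h4.2.1) h5
      exact Prod.ext h8.1 (Nat.eq_of_mul_eq_mul_left (by omega) h8.2)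
  · -- odd base
    obtain ⟨P, hP⟩ : ∃ P : Finset (ℕ × ℕ),
        P = (Icc 1 (g - 1)) ×ˢ ((range (g ^ a)).filter fun m => nz g m = j) := ⟨_, rfl⟩
    have hmem : ∀ q ∈ P, (1 ≤ q.1 ∧ q.1 < g) ∧ q.2 < g ^ a ∧ nz g q.2 = j := by
      intro q hq
      rw [hP, mem_product, mem_Icc, mem_filter, mem_range] at hq
      exact ⟨⟨hq.1.1, by omega⟩, hq.2.1, hq.2.2⟩
    have hcard : P.card = a.choose j * (g - 1) ^ (j + 1) := by
      rw [hP, card_product, hNZC g a j hg, Nat.card_Icc]
      have h3 : g - 1 + 1 - 1 = g - 1 := by omega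
      rw [h3, pow_succ]
      ring
    have hG : Odd (g ^ a) := hodd.pow
    have hpar : ∀ q ∈ P, ¬ Even (q.1 * g ^ a + q.2) → Even ((g - q.1) * g ^ a + q.2) := by
      intro q hq hne
      obtain ⟨⟨h1, h2⟩, -, -⟩ := hmem q hq
      have h3 : Odd (q.1 * g ^ a + q.2) := Nat.not_even_iff_odd.1 hne
      have h4 : (g - q.1) * g ^ a + q.2 + (q.1 * g ^ a + q.2) = g * g ^ a + 2 * q.2 := by
        have h5 : g = (g - q.1) + q.1 := by omega
        calc (g - q.1) * g ^ a + q.2 + (q.1 * g ^ a + q.2)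
            = ((g - q.1) + q.1) * g ^ a + 2 * q.2 := by ring
          _ = g * g ^ a + 2 * q.2 := by rw [← h5]
      have h6 : Odd (g * g ^ a + 2 * q.2) := (hodd.mul hG).add_even (even_two_mul _)
      rw [← h4] at h6
      rcases Nat.even_or_odd ((g - q.1) * g ^ a + q.2) with h7 | h7
      · exact h7
      · exact absurd (h7.add_odd h3) (Nat.not_even_iff_odd.2 h6)
    have hOE : (P.filter fun q => ¬ Even (q.1 * g ^ a + q.2)).card ≤
        (P.filter fun q => Even (q.1 * g ^ a + q.2)).card := by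
      refine card_le_card_of_injOn (fun q : ℕ × ℕ => (g - q.1, q.2)) ?_ ?_
      · intro q hq
        rw [mem_coe, mem_filter] at hq
        obtain ⟨⟨h1, h2⟩, h3, h4⟩ := hmem q hq.1
        rw [mem_coe, mem_filter]
        refine ⟨?_, hpar q hq.1 hq.2⟩
        rw [hP, mem_product, mem_Icc, mem_filter, mem_range]
        exact ⟨⟨by show 1 ≤ g - q.1; omega, by show g - q.1 ≤ g - 1; omega⟩, h3, h4⟩
      · intro q hq q' hq' h
        rw [mem_coe, mem_filter] at hq hq'
        obtain ⟨⟨h1, h2⟩, -, -⟩ := hmem q hq.1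
        obtain ⟨⟨h3, h4⟩, -, -⟩ := hmem q' hq'.1
        have h5 := congrArg Prod.fst h
        have h6 := congrArg Prod.snd h
        simp only at h5 h6
        exact Prod.ext (by omega) h6
    have hsum : (P.filter fun q => Even (q.1 * g ^ a + q.2)).card +
        (P.filter fun q => ¬ Even (q.1 * g ^ a + q.2)).card = P.card :=
      card_filter_add_card_filter_not (s := P) fun q => Even (q.1 * g ^ a + q.2)
    have hE : (P.filter fun q => Even (q.1 * g ^ a + q.2)).card ≤
        ((Ico (g ^ a) (g ^ (a + 1))).filter fun m => nz g m = j + 1 ∧ Even m).card := by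
      refine card_le_card_of_injOn (fun q : ℕ × ℕ => q.1 * g ^ a + q.2) ?_ ?_
      · intro q hq
        rw [mem_coe, mem_filter] at hq
        obtain ⟨⟨h1, h2⟩, h3, h4⟩ := hmem q hq.1
        rw [mem_coe, mem_filter]
        refine ⟨NZT_mem h1 h2 h3, ?_, hq.2⟩
        show nz g (q.1 * g ^ a + q.2) = j + 1
        rw [NZT_nz hg h1 h2 a q.2 h3, h4]
      · intro q hq q' hq' h
        rw [mem_coe, mem_filter] at hq hq'
        have h5 := NZT_inj (hmem q hq.1).2.1 (hmem q' hq'.1).2.1 h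
        exact Prod.ext h5.1 h5.2
    have hch : (a - 1).choose j ≤ a.choose j := Nat.choose_le_choose j (Nat.sub_le a 1)
    have h1 : (a - 1).choose j * (g - 1) ^ (j + 1) ≤ a.choose j * (g - 1) ^ (j + 1) :=
      Nat.mul_le_mul_right _ hch
    omega

end Pool.TP
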