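import Pool.Agent.Work.MP_484fb8_tp.Interface

set_option autoImplicit false

/-! # Block ORS: Romanov's lemma with the weights `wt` -/

namespace Pool.TP

open Finset
open Pool.Agent.Circle (e)
open Pool.Agent.PS (th)
open Pool.Agent.Work.MP_484fb8_nt
open scoped Classical

theorem ORS_wt_nonneg (T : Finset ℕ) : 0 ≤ wt T := by
  unfold wt
  exact Finset.prod_nonneg fun p _ => by positivity

theorem ORS_sum_wt (F : Finset ℕ) : ∑ T ∈ F.powerset, wt T = ∏ p ∈ F, (1 + 3 / (p : ℝ)) := by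
  rw [Finset.prod_one_add]
  rfl

theorem ORS_mem_PL {g L p : ℕ} (h : p ∈ PL g L) : p ≤ L ∧ p.Prime ∧ ¬ p ∣ g := by
  unfold PL at h
  rw [mem_filter, mem_range] at h
  exact ⟨by omega, h.2.1, h.2.2⟩

theorem ORS_card_PL (g L : ℕ) : (PL g L).card ≤ L := by
  have h : PL g L ⊆ Icc 1 L := by
    intro p hp
    obtain ⟨h1, h2, -⟩ := ORS_mem_PL hp
    exact mem_Icc.2 ⟨h2.one_lt.le, h1⟩
  calc (PL g L).card ≤ (Icc 1 L).card := card_le_card h
    _ = L := by simp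

theorem ORS_coprime {g L : ℕ} {T : Finset ℕ} (hT : T ⊆ PL g L) : Nat.Coprime g (dt T) := by
  unfold dt
  refine Nat.Coprime.prod_right fun p hp => ?_
  obtain ⟨-, h2, h3⟩ := ORS_mem_PL (hT hp)
  exact ((Nat.Prime.coprime_iff_not_dvd h2).2 h3).symm

theorem ORS_dt_pos {g L : ℕ} {T : Finset ℕ} (hT : T ⊆ PL g L) : 0 < dt T := by
  unfold dt
  exact Finset.prod_pos fun p hp => (ORS_mem_PL (hT hp)).2.1.pos

theorem ORS_ord_pos {g L : ℕ} {T : Finset ℕ} (hT : T ⊆ PL g L) :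
    0 < orderOf (g : ZMod (dt T)) := by
  rw [orderOf_pos_iff, isOfFinOrder_iff_pow_eq_one]
  refine ⟨Nat.totient (dt T), Nat.totient_pos.2 (ORS_dt_pos hT), ?_⟩
  have h := (ZMod.natCast_eq_natCast_iff _ _ _).2 (Nat.ModEq.pow_totient (ORS_coprime hT))
  rw [Nat.cast_pow, Nat.cast_one] at h
  exact h

theorem ORS_one_le_pow {g : ℕ} (hg : 2 ≤ g) (j : ℕ) : 1 ≤ g ^ j :=
  Nat.one_le_pow _ _ (by omega)

theorem ORS_sub_pos {g : ℕ} (hg : 2 ≤ g) {j : ℕ} (hj : 1 ≤ j) : 0 < g ^ j - 1 := by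
  have h : g ^ 1 ≤ g ^ j := Nat.pow_le_pow_right (by omega) hj
  rw [pow_one] at h
  omega

theorem ORS_dvd {g d : ℕ} (hg : 2 ≤ g) : d ∣ g ^ orderOf (g : ZMod d) - 1 := by
  rw [← ZMod.natCast_eq_zero_iff, Nat.cast_sub (ORS_one_le_pow hg _), Nat.cast_pow,
    pow_orderOf_eq_one, Nat.cast_one, sub_self]

/-- all prime factors of `g ^ j - 1`, `1 ≤ j ≤ t` -/
noncomputable def ORS_F (g t : ℕ) : Finset ℕ :=
  (Icc 1 t).biUnion fun j => (g ^ j - 1).primeFactors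

theorem ORS_F_prime {g t p : ℕ} (h : p ∈ ORS_F g t) : p.Prime := by
  unfold ORS_F at h
  rw [mem_biUnion] at h
  obtain ⟨j, -, hj⟩ := h
  exact Nat.prime_of_mem_primeFactors hj

theorem ORS_card_pf {g j : ℕ} (hg : 2 ≤ g) (hj : 1 ≤ j) :
    (g ^ j - 1).primeFactors.card ≤ g * j := by
  have h1 : 2 ^ (g ^ j - 1).primeFactors.card ≤ g ^ j - 1 := by
    calc 2 ^ (g ^ j - 1).primeFactors.card = ∏ p ∈ (g ^ j - 1).primeFactors, 2 := by
          rw [prod_const]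
      _ ≤ ∏ p ∈ (g ^ j - 1).primeFactors, p :=
          Finset.prod_le_prod' fun p hp => (Nat.prime_of_mem_primeFactors hp).two_le
      _ ≤ g ^ j - 1 := Nat.le_of_dvd (ORS_sub_pos hg hj) (Nat.prod_primeFactors_dvd _)
  have h2 : g ^ j ≤ 2 ^ (g * j) := by
    rw [pow_mul]
    exact Nat.pow_le_pow_left (Nat.lt_two_pow_self).le j
  exact (Nat.pow_le_pow_iff_right (by norm_num)).1 (h1.trans ((Nat.sub_le _ _).trans h2))

theorem ORS_card_F {g t : ℕ} (hg : 2 ≤ g) : (ORS_F g t).card ≤ t * (g * t) := by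
  unfold ORS_F
  have h := Finset.card_biUnion_le_card_mul (Icc 1 t) (fun j => (g ^ j - 1).primeFactors) (g * t)
    (fun j hj => (ORS_card_pf hg (mem_Icc.1 hj).1).trans
      (Nat.mul_le_mul_left _ (mem_Icc.1 hj).2))
  simpa using h

theorem ORS_sub_F {g L t : ℕ} (hg : 2 ≤ g) {T : Finset ℕ} (hT : T ⊆ PL g L)
    (ht : orderOf (g : ZMod (dt T)) ≤ t) : T ⊆ ORS_F g t := by
  intro p hp
  unfold ORS_F
  rw [mem_biUnion]
  refine ⟨orderOf (g : ZMod (dt T)), mem_Icc.2 ⟨ORS_ord_pos hT, ht⟩, ?_⟩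
  rw [Nat.mem_primeFactors]
  refine ⟨(ORS_mem_PL (hT hp)).2.1, ?_, (ORS_sub_pos hg (ORS_ord_pos hT)).ne'⟩
  have h1 : p ∣ dt T := by
    unfold dt
    exact Finset.dvd_prod_of_mem (fun q => q) hp
  exact h1.trans (ORS_dvd hg)

/-- the sets with small order -/
theorem ORS_S {C : ℝ} (hC : ∀ (M : ℕ) (F : Finset ℕ), 1 ≤ M → (∀ p ∈ F, p.Prime) → F.card ≤ M →
      ∏ p ∈ F, (1 + 3 / (p : ℝ)) ≤ C * (M : ℝ) ^ (1 / 4 : ℝ))
    {g L t : ℕ} (hg : 2 ≤ g) (ht : 1 ≤ t) :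
    ∑ T ∈ (PL g L).powerset.filter (fun T => orderOf (g : ZMod (dt T)) ≤ t), wt T ≤
      C * ((t * (g * t) : ℕ) : ℝ) ^ (1 / 4 : ℝ) := by
  have h1 : ∑ T ∈ (PL g L).powerset.filter (fun T => orderOf (g : ZMod (dt T)) ≤ t), wt T ≤
      ∑ T ∈ (ORS_F g t).powerset, wt T := by
    refine Finset.sum_le_sum_of_subset_of_nonneg ?_ (fun T _ _ => ORS_wt_nonneg T)
    intro T hT
    rw [mem_filter, mem_powerset] at hT
    rw [mem_powerset]
    exact ORS_sub_F hg hT.1 hT.2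
  refine h1.trans ?_
  rw [ORS_sum_wt]
  refine hC _ _ ?_ (fun p hp => ORS_F_prime hp) (ORS_card_F hg)
  exact Nat.one_le_iff_ne_zero.2 (Nat.mul_ne_zero (by omega) (Nat.mul_ne_zero (by omega) (by omega)))

theorem ORS_rpow (g k : ℕ) : (((2 ^ (k + 1) * (g * 2 ^ (k + 1)) : ℕ) : ℝ)) ^ (1 / 4 : ℝ) =
    (g : ℝ) ^ (1 / 4 : ℝ) * ((4 : ℝ) ^ (1 / 4 : ℝ)) ^ (k + 1) := by
  have h1 : ((2 ^ (k + 1) * (g * 2 ^ (k + 1)) : ℕ) : ℝ) = (g : ℝ) * (4 : ℝ) ^ (k + 1) := by
    push_cast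
    have h2 : (4 : ℝ) ^ (k + 1) = 2 ^ (k + 1) * 2 ^ (k + 1) := by
      rw [← mul_pow]
      norm_num
    rw [h2]
    ring
  rw [h1, Real.mul_rpow (by positivity) (by positivity), ← Real.rpow_natCast (4 : ℝ) (k + 1),
    ← Real.rpow_mul (by norm_num), ← Real.rpow_natCast ((4 : ℝ) ^ (1 / 4 : ℝ)) (k + 1),
    ← Real.rpow_mul (by norm_num), mul_comm ((k + 1 : ℕ) : ℝ) (1 / 4 : ℝ)]

theorem ORS_s : (4 : ℝ) ^ (1 / 4 : ℝ) < 2 := by
  have h1 : ((4 : ℝ) ^ (1 / 4 : ℝ)) ^ 4 = 4 := by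
    rw [← Real.rpow_natCast, ← Real.rpow_mul (by norm_num)]
    norm_num
  refine lt_of_pow_lt_pow_left₀ 4 (by norm_num) ?_
  rw [h1]
  norm_num

theorem p_ORS (hMRT : Stmt_MRT) : Stmt_ORS := by
  intro g hg
  obtain ⟨C1, hC1, h1⟩ := hMRT 1 one_pos
  obtain ⟨C, hC0, hC⟩ := hMRT (1 / 4) (by norm_num)
  obtain ⟨s, hs⟩ : ∃ s : ℝ, s = (4 : ℝ) ^ (1 / 4 : ℝ) := ⟨_, rfl⟩
  have hs0 : 0 < s := by rw [hs]; positivity
  have hs2 : s < 2 := by rw [hs]; exact ORS_s
  have hr0 : 0 ≤ s / 2 := by positivity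
  have hr1 : s / 2 < 1 := by linarith
  have hC4 : 0 ≤ C * (g : ℝ) ^ (1 / 4 : ℝ) * s * (1 - s / 2)⁻¹ := by
    have h2 : 0 < 1 - s / 2 := by linarith
    positivity
  refine ⟨C1 + C * (g : ℝ) ^ (1 / 4 : ℝ) * s * (1 - s / 2)⁻¹, by linarith, fun L hL => ⟨?_, ?_⟩⟩
  · rw [ORS_sum_wt]
    have h2 := h1 L (PL g L) hL (fun p hp => (ORS_mem_PL hp).2.1) (ORS_card_PL g L)
    rw [Real.rpow_one] at h2
    have h3 : (0 : ℝ) ≤ L := Nat.cast_nonneg _
    nlinarith [mul_nonneg hC4 h3]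
  · obtain ⟨ord, hord⟩ : ∃ ord : Finset ℕ → ℕ, ∀ T, ord T = orderOf (g : ZMod (dt T)) :=
      ⟨_, fun _ => rfl⟩
    have hpos : ∀ T ∈ (PL g L).powerset, 0 < ord T := by
      intro T hT
      rw [hord]
      exact ORS_ord_pos (mem_powerset.1 hT)
    have hS : ∀ k : ℕ, ∑ T ∈ (PL g L).powerset.filter (fun T => ord T ≤ 2 ^ (k + 1)), wt T ≤
        C * ((g : ℝ) ^ (1 / 4 : ℝ) * s ^ (k + 1)) := by
      intro k
      have h2 := ORS_S hC (L := L) hg (t := 2 ^ (k + 1)) (Nat.one_le_two_pow)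
      rw [ORS_rpow, ← hs] at h2
      simp only [hord]
      exact h2
    obtain ⟨K, hK⟩ : ∃ K, K = (PL g L).powerset.sup (fun T => Nat.log 2 (ord T)) + 1 := ⟨_, rfl⟩
    have hmaps : ∀ T ∈ (PL g L).powerset, Nat.log 2 (ord T) ∈ range K := by
      intro T hT
      rw [mem_range, hK]
      have h2 : Nat.log 2 (ord T) ≤ (PL g L).powerset.sup (fun T => Nat.log 2 (ord T)) :=
        Finset.le_sup (f := fun T => Nat.log 2 (ord T)) hT
      omega
    have hmain : ∑ T ∈ (PL g L).powerset, wt T / (ord T : ℝ) ≤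
        C * (g : ℝ) ^ (1 / 4 : ℝ) * s * (1 - s / 2)⁻¹ := by
      rw [← Finset.sum_fiberwise_of_maps_to hmaps]
      calc ∑ k ∈ range K, ∑ T ∈ (PL g L).powerset.filter (fun T => Nat.log 2 (ord T) = k),
            wt T / (ord T : ℝ)
          ≤ ∑ k ∈ range K, C * (g : ℝ) ^ (1 / 4 : ℝ) * s * (s / 2) ^ k := by
            refine Finset.sum_le_sum fun k _ => ?_
            calc ∑ T ∈ (PL g L).powerset.filter (fun T => Nat.log 2 (ord T) = k),
                  wt T / (ord T : ℝ)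
                ≤ ∑ T ∈ (PL g L).powerset.filter (fun T => Nat.log 2 (ord T) = k),
                  wt T / 2 ^ k := by
                  refine Finset.sum_le_sum fun T hT => ?_
                  rw [mem_filter] at hT
                  refine div_le_div_of_nonneg_left (ORS_wt_nonneg T) (by positivity) ?_
                  have h2 := Nat.pow_log_le_self 2 (hpos T hT.1).ne'
                  rw [hT.2] at h2
                  exact_mod_cast h2
              _ = (∑ T ∈ (PL g L).powerset.filter (fun T => Nat.log 2 (ord T) = k), wt T) /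
                  2 ^ k := by rw [Finset.sum_div]
              _ ≤ (C * ((g : ℝ) ^ (1 / 4 : ℝ) * s ^ (k + 1))) / 2 ^ k := by
                  refine div_le_div_of_nonneg_right ?_ (by positivity)
                  refine le_trans ?_ (hS k)
                  refine Finset.sum_le_sum_of_subset_of_nonneg ?_ (fun T _ _ => ORS_wt_nonneg T)
                  intro T hT
                  rw [mem_filter] at hT ⊢
                  refine ⟨hT.1, ?_⟩
                  have h2 := Nat.lt_pow_succ_log_self (b := 2) (by norm_num) (ord T)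
                  rw [hT.2] at h2
                  exact h2.le
              _ = C * (g : ℝ) ^ (1 / 4 : ℝ) * s * (s / 2) ^ k := by
                  rw [div_pow, pow_succ]
                  ring
        _ = C * (g : ℝ) ^ (1 / 4 : ℝ) * s * ∑ k ∈ range K, (s / 2) ^ k := by
            rw [Finset.mul_sum]
        _ ≤ C * (g : ℝ) ^ (1 / 4 : ℝ) * s * (1 - s / 2)⁻¹ := by
            refine mul_le_mul_of_nonneg_left ?_ (by positivity)
            rw [← tsum_geometric_of_lt_one hr0 hr1]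
            exact (summable_geometric_of_lt_one hr0 hr1).sum_le_tsum _
              (fun k _ => pow_nonneg hr0 k)
    simp only [hord] at hmain
    linarith

end Pool.TP
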