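import Pool.Agent.Work.MP_484fb8_tp.Interface
import Pool.Agent.Work.PS.FINALB

set_option autoImplicit false

/-! # TypicalPowers: block PRT (all values in a primorial interval) -/

namespace Pool.TP

open Finset
open Pool.Agent.Circle (e)
open Pool.Agent.PS (th)
open Pool.Agent.Work.MP_484fb8_nt
open scoped Classical

theorem PRT_card (k k₁ : ℕ) (h : k₁ ≤ k)
    (hi : Fintype {i : Fin k // i ∉ (univ.filter fun i : Fin k => k₁ ≤ (i : ℕ))}) :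
    @Fintype.card {i : Fin k // i ∉ (univ.filter fun i : Fin k => k₁ ≤ (i : ℕ))} hi = k₁ := by
  have e : {i : Fin k // i ∉ (univ.filter fun i : Fin k => k₁ ≤ (i : ℕ))} ≃ Fin k₁ :=
    { toFun := fun i => ⟨i.1, by
        have h1 := i.2
        rw [mem_filter] at h1
        by_contra h2
        exact h1 ⟨mem_univ _, not_lt.mp h2⟩⟩
      invFun := fun j => ⟨⟨j.1, lt_of_lt_of_le j.2 h⟩, by
        rw [mem_filter]
        rintro ⟨-, h1⟩
        exact absurd j.2 (not_lt.mpr h1)⟩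
      left_inv := fun i => by
        apply Subtype.ext
        apply Fin.ext
        rfl
      right_inv := fun j => by
        apply Fin.ext
        rfl }
  have h1 := Fintype.card_congr e
  rw [h1, Fintype.card_fin]

/-- the facts for large `n` -/
theorem PRT_large (Y : ℝ) : ∃ n₁ : ℕ, 1 ≤ n₁ ∧ ∀ n : ℕ, n₁ ≤ n → ∀ X : ℕ, X = prml n / 4 →
    0 < X ∧ 4 * X ≤ prml n ∧ prml n ≤ 8 * X ∧ Y ≤ Real.log X ∧
      0 < Real.log (prml n) ∧ Real.log (prml n) ≤ 2 * Real.log X ∧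
      Real.log X ≤ Real.log (prml n) ∧
      ((prml (n + 1) : ℕ) : ℝ) + 1 ≤ 32 * X * (Real.log X) ^ 2 := by
  obtain ⟨X₁, hX₁⟩ := Pool.Agent.PS.prml_succ_le
  refine ⟨max 1 (max X₁ (4 * (⌈Real.exp (max Y 3)⌉₊ + 1))), le_max_left _ _,
    fun n hn X hX => ?_⟩
  simp only [max_le_iff] at hn
  obtain ⟨hn1, hn2, hn3⟩ := hn
  have hle := le_prml n
  obtain ⟨hP1, -⟩ := hX₁ n hn1 (by omega)
  have hXc : ⌈Real.exp (max Y 3)⌉₊ + 1 ≤ X := by
    rw [hX, Nat.le_div_iff_mul_le (by norm_num)]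
    omega
  have hX0 : 0 < X := by omega
  have hXr : (0 : ℝ) < X := by exact_mod_cast hX0
  have hYX' : max Y 3 ≤ Real.log X := by
    rw [Real.le_log_iff_exp_le hXr]
    have h1 : Real.exp (max Y 3) ≤ ⌈Real.exp (max Y 3)⌉₊ := Nat.le_ceil _
    have h2 : ((⌈Real.exp (max Y 3)⌉₊ + 1 : ℕ) : ℝ) ≤ X := by exact_mod_cast hXc
    push_cast at h2
    linarith
  have hYX : Y ≤ Real.log X := (le_max_left _ _).trans hYX'
  have h3X : 3 ≤ Real.log X := (le_max_right _ _).trans hYX'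
  have h4X : 4 * X ≤ prml n := by omega
  have hnX : prml n ≤ 8 * X := by
    have : prml n < 4 * (X + 1) := by omega
    omega
  have hp0 : (0 : ℝ) < prml n := by exact_mod_cast (by omega : 0 < prml n)
  have h8 : (8 : ℝ) ≤ X := by
    have h7 : Real.exp (Real.log X) = X := Real.exp_log hXr
    have h6 : Real.exp 3 ≤ X := by
      rw [← h7]
      exact Real.exp_le_exp.mpr h3X
    have h9 : (8 : ℝ) ≤ Real.exp 3 := by
      have h10 : Real.exp 3 = (Real.exp 1) ^ 3 := by rw [← Real.exp_nat_mul]; norm_num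
      have h11 : (2 : ℝ) ≤ Real.exp 1 := by
        have := Real.add_one_le_exp (1 : ℝ)
        linarith
      rw [h10]
      nlinarith [pow_le_pow_left₀ (by norm_num) h11 3]
    linarith
  have h5 : (prml n : ℝ) ≤ 8 * X := by exact_mod_cast hnX
  have hlog : Real.log (prml n) ≤ 2 * Real.log X := by
    calc Real.log (prml n) ≤ Real.log ((X : ℝ) ^ 2) := by
          apply Real.log_le_log hp0
          nlinarith
      _ = 2 * Real.log X := by rw [Real.log_pow]; norm_num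
  have hXn : (X : ℝ) ≤ prml n := by
    have : X ≤ prml n := by omega
    exact_mod_cast this
  have hlog2 : Real.log X ≤ Real.log (prml n) := Real.log_le_log hXr hXn
  have hlog0 : 0 < Real.log (prml n) := by linarith
  refine ⟨hX0, h4X, hnX, hYX, hlog0, hlog, hlog2, ?_⟩
  calc ((prml (n + 1) : ℕ) : ℝ) + 1 = ((prml (n + 1) + 1 : ℕ) : ℝ) := by push_cast; ring
    _ ≤ prml n * (Real.log (prml n)) ^ 2 := hP1
    _ ≤ (8 * X) * (2 * Real.log X) ^ 2 := by gcongr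
    _ = _ := by ring

/-- few representations in the primorial interval give few representations in the window -/
theorem PRT_bdw (n X m r : ℕ) (c : ℝ) (hX : X = prml n / 4) (hc : 0 < c)
    (hl : 0 < Real.log (prml n)) (h8 : prml n ≤ 8 * X)
    (hTHR : prml n ≤ 2 * m → m ≤ prml (n + 1) + 1 →
      ∑ a ∈ Ioc (prml n / 4 / 4) (prml n / 4 / 2), th a * th (m - a) ≤
        4 * (Real.log (prml n)) ^ 2 * primorialReps n m)
    (hm : Bdp n (c / 32) m) (hr : ¬ r ∣ m) : Bdw X c r (m : ℤ) := by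
  obtain ⟨h1, h2, h3, h4⟩ := hm
  refine ⟨m, rfl, h1, hr, ?_⟩
  have h5 := hTHR h2 h3
  rw [← hX] at h5
  refine lt_of_le_of_lt h5 ?_
  have hL2 : 0 < (Real.log (prml n)) ^ 2 := by positivity
  have h6 : 4 * (Real.log (prml n)) ^ 2 * (primorialReps n m : ℝ) <
      4 * (Real.log (prml n)) ^ 2 *
        (c / 32 * ((m : ℝ) / m.totient) * (prml n / (Real.log (prml n)) ^ 2)) :=
    mul_lt_mul_of_pos_left h4 (by positivity)
  refine lt_of_lt_of_le h6 ?_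
  have h7 : 4 * (Real.log (prml n)) ^ 2 *
        (c / 32 * ((m : ℝ) / m.totient) * (prml n / (Real.log (prml n)) ^ 2)) =
      c * ((m : ℝ) / m.totient) * ((prml n : ℝ) / 8) := by
    field_simp
    ring
  rw [h7]
  have h9 : (prml n : ℝ) / 8 ≤ X := by
    have : (prml n : ℝ) ≤ 8 * X := by exact_mod_cast h8
    linarith
  have h10 : 0 ≤ c * ((m : ℝ) / m.totient) := by positivity
  exact mul_le_mul_of_nonneg_left h9 h10

/-- the values are close to the centre -/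
theorem PRT_close {ι : Type} [Fintype ι] (X K B G : ℕ) (Lf : ℕ → ℕ) (g : ι → ℕ) (b : ι → ℤ)
    (N : ℤ) (v : ι → ℕ) (hK : 1 ≤ K) (hcard : Fintype.card ι ≤ K)
    (hL : ∀ a, 2 ≤ a → a ≤ G → 32 * B * K * a ^ Lf a ≤ X) (hA : Adm G B g b)
    (hv : v ∈ bx fun i => Lf (g i)) : 32 * |vl N g b v - N| ≤ X := by
  have h1 : vl N g b v - N = ∑ i, b i * (g i : ℤ) ^ v i := by unfold vl; ring
  rw [h1]
  have h2 : |∑ i, b i * (g i : ℤ) ^ v i| ≤ ∑ i, (B : ℤ) * (g i : ℤ) ^ Lf (g i) := by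
    refine (abs_sum_le_sum_abs _ _).trans (sum_le_sum fun i _ => ?_)
    obtain ⟨h3, h4, h5, h6⟩ := hA i
    rw [abs_mul]
    have h7 : |(g i : ℤ) ^ v i| = (g i : ℤ) ^ v i := abs_of_nonneg (by positivity)
    rw [h7]
    have h8 := (mem_bx.mp hv i).2
    have h9 : (g i : ℤ) ^ v i ≤ (g i : ℤ) ^ Lf (g i) := by
      apply pow_le_pow_right₀
      · exact_mod_cast (by omega : 1 ≤ g i)
      · exact h8
    exact mul_le_mul h6 h9 (by positivity) (by positivity)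
  have h3 : 32 * (K : ℤ) * ∑ i, (B : ℤ) * (g i : ℤ) ^ Lf (g i) ≤ K * X := by
    calc 32 * (K : ℤ) * ∑ i, (B : ℤ) * (g i : ℤ) ^ Lf (g i)
        = ∑ i : ι, 32 * (K : ℤ) * ((B : ℤ) * (g i : ℤ) ^ Lf (g i)) := by rw [mul_sum]
      _ ≤ ∑ _i : ι, (X : ℤ) := by
          refine sum_le_sum fun i _ => ?_
          obtain ⟨h4, h5, -, -⟩ := hA i
          have h6 := hL (g i) h4 h5
          have h7 : ((32 * B * K * (g i) ^ Lf (g i) : ℕ) : ℤ) ≤ X := by exact_mod_cast h6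
          push_cast at h7
          calc 32 * (K : ℤ) * ((B : ℤ) * (g i : ℤ) ^ Lf (g i))
              = 32 * (B : ℤ) * K * (g i : ℤ) ^ Lf (g i) := by ring
            _ ≤ X := h7
      _ = (Fintype.card ι : ℤ) * X := by simp
      _ ≤ K * X := by
          have : (Fintype.card ι : ℤ) ≤ K := by exact_mod_cast hcard
          exact mul_le_mul_of_nonneg_right this (by positivity)
  have hK0 : (0 : ℤ) < K := by exact_mod_cast hK
  have h4 : 32 * ∑ i, (B : ℤ) * (g i : ℤ) ^ Lf (g i) ≤ X := by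
    have h5 : (K : ℤ) * (32 * ∑ i, (B : ℤ) * (g i : ℤ) ^ Lf (g i)) ≤ K * X := by
      calc _ = 32 * (K : ℤ) * ∑ i, (B : ℤ) * (g i : ℤ) ^ Lf (g i) := by ring
        _ ≤ _ := h3
    exact le_of_mul_le_mul_left h5 hK0
  linarith

/-- one subfamily -/
theorem PRT_sub (c κ₀ κ₁ C₁ : ℝ) (r : ℕ → ℕ) (G B X₀ : ℕ) (hc : 0 < c) (hC : 0 < C₁)
    (hκ : κ₀ ≤ κ₁)
    (hW : ∀ (X K : ℕ) (Lf : ℕ → ℕ) (ι : Type) [Fintype ι] (g : ι → ℕ) (b : ι → ℤ) (N : ℤ),
      X₀ ≤ X → (K : ℝ) ≤ κ₁ * Real.log X → Fintype.card ι ≤ K →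
      (∀ a, 2 ≤ a → a ≤ G → 32 * B * K * a ^ Lf a ≤ X ∧
        (X : ℝ) ≤ (a : ℝ) ^ Lf a * (Real.log X) ^ 2 ∧ 1 ≤ Lf a) →
      Adm G B g b → 3 * (X : ℤ) ≤ 2 * N → (N : ℝ) ≤ X * (Real.log X) ^ 3 →
      (((bx fun i => Lf (g i)).filter fun v => Bdw X c (r X) (vl N g b v)).card : ℝ) ≤
        C₁ * (Real.exp (-(κ₁ * Fintype.card ι)) * ∏ i, (Lf (g i) : ℝ)))
    (n X K : ℕ) (hX : X = prml n / 4) (hX0 : X₀ ≤ X) (h4 : 4 * X ≤ prml n)
    (h8 : prml n ≤ 8 * X) (h33 : 33 ≤ Real.log X) (hl : 0 < Real.log (prml n))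
    (hP : ((prml (n + 1) : ℕ) : ℝ) + 1 ≤ 32 * X * (Real.log X) ^ 2)
    (hTHR : ∀ m : ℕ, prml n ≤ 2 * m → m ≤ prml (n + 1) + 1 →
      ∑ a ∈ Ioc (prml n / 4 / 4) (prml n / 4 / 2), th a * th (m - a) ≤
        4 * (Real.log (prml n)) ^ 2 * primorialReps n m)
    (hK : 1 ≤ K) (hKκ : (K : ℝ) ≤ κ₁ * Real.log X) (Lf : ℕ → ℕ)
    (hL : ∀ a, 2 ≤ a → a ≤ G → 32 * B * K * a ^ Lf a ≤ X ∧
        (X : ℝ) ≤ (a : ℝ) ^ Lf a * (Real.log X) ^ 2 ∧ 1 ≤ Lf a)
    (ι : Type) [Fintype ι] (g : ι → ℕ) (b : ι → ℤ) (N : ℤ) (hcard : Fintype.card ι ≤ K)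
    (hA : Adm G B g b) :
    (((bx fun i => Lf (g i)).filter fun v =>
      ∃ m : ℕ, (m : ℤ) = vl N g b v ∧ Bdp n (c / 32) m ∧ ¬ r X ∣ m).card : ℝ) ≤
      C₁ * ((Real.exp (-κ₀)) ^ Fintype.card ι * ∏ i, (Lf (g i) : ℝ)) := by
  have hprod : (0 : ℝ) ≤ ∏ i, (Lf (g i) : ℝ) := prod_nonneg fun i _ => by positivity
  have hX1 : (0 : ℝ) < X := by
    rcases Nat.eq_zero_or_pos X with h | h
    · rw [h] at h33
      norm_num at h33
    · exact_mod_cast h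
  rcases Finset.eq_empty_or_nonempty ((bx fun i => Lf (g i)).filter fun v =>
      ∃ m : ℕ, (m : ℤ) = vl N g b v ∧ Bdp n (c / 32) m ∧ ¬ r X ∣ m) with h0 | ⟨v₀, hv₀⟩
  · rw [h0]
    simp only [card_empty, Nat.cast_zero]
    positivity
  · rw [mem_filter] at hv₀
    obtain ⟨hv1, m, hm1, hm2, hm3⟩ := hv₀
    have hcl := PRT_close X K B G Lf g b N v₀ hK hcard (fun a h1 h2 => (hL a h1 h2).1) hA hv1
    rw [← hm1] at hcl
    obtain ⟨-, hb1, hb2, -⟩ := hm2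
    have hcl1 := (abs_le.mp (show |(m : ℤ) - N| ≤ |(m : ℤ) - N| from le_rfl))
    have hN1 : 3 * (X : ℤ) ≤ 2 * N := by
      have h1 : (m : ℤ) - N ≤ |(m : ℤ) - N| := le_abs_self _
      have h2 : ((4 * X : ℕ) : ℤ) ≤ ((2 * m : ℕ) : ℤ) := by exact_mod_cast h4.trans hb1
      push_cast at h2
      have h3 : (0 : ℤ) ≤ X := by positivity
      omega
    have hN2 : (N : ℝ) ≤ X * (Real.log X) ^ 3 := by
      have h1 : N - (m : ℤ) ≤ |(m : ℤ) - N| := by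
        rw [abs_sub_comm]
        exact le_abs_self _
      have h2 : N ≤ (m : ℤ) + X := by
        have h3 : (0 : ℤ) ≤ X := by positivity
        omega
      have h3 : (N : ℝ) ≤ (m : ℝ) + X := by exact_mod_cast h2
      have h5 : (m : ℝ) ≤ ((prml (n + 1) : ℕ) : ℝ) + 1 := by exact_mod_cast hb2
      have h6 : 1 ≤ (Real.log X) ^ 2 := by nlinarith
      calc (N : ℝ) ≤ 32 * X * (Real.log X) ^ 2 + X := by linarith
        _ ≤ 32 * X * (Real.log X) ^ 2 + X * (Real.log X) ^ 2 := by nlinarith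
        _ = X * (33 * (Real.log X) ^ 2) := by ring
        _ ≤ X * (Real.log X * (Real.log X) ^ 2) := by gcongr
        _ = X * (Real.log X) ^ 3 := by ring
    have hW1 := hW X K Lf ι g b N hX0 hKκ hcard hL hA hN1 hN2
    refine le_trans ?_ (hW1.trans ?_)
    · have hsub : ((bx fun i => Lf (g i)).filter fun v =>
          ∃ m : ℕ, (m : ℤ) = vl N g b v ∧ Bdp n (c / 32) m ∧ ¬ r X ∣ m) ⊆
          (bx fun i => Lf (g i)).filter fun v => Bdw X c (r X) (vl N g b v) := by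
        intro v hv
        rw [mem_filter] at hv ⊢
        obtain ⟨h1, m', h2, h3, h5⟩ := hv
        refine ⟨h1, ?_⟩
        rw [← h2]
        exact PRT_bdw n X m' (r X) c hX hc hl h8 (hTHR m') h3 h5
      exact_mod_cast card_le_card hsub
    · apply mul_le_mul_of_nonneg_left _ hC.le
      apply mul_le_mul_of_nonneg_right _ hprod
      rw [← Real.exp_nat_mul, Real.exp_le_exp]
      have : (0 : ℝ) ≤ Fintype.card ι := by positivity
      nlinarith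

theorem PRT_prod {ι : Type} [Fintype ι] (L ℓ : ι → ℝ) (q δ : ℝ) (hq : 0 ≤ q)
    (h0 : ∀ i, 0 ≤ L i) (h1 : ∀ i, L i ≤ ℓ i) (h2 : ∀ i, ℓ i - L i ≤ δ * ℓ i) :
    ∏ i, (ℓ i - L i + q * L i) ≤ (δ + q) ^ Fintype.card ι * ∏ i, ℓ i := by
  have h3 : (δ + q) ^ Fintype.card ι * ∏ i, ℓ i = ∏ i, ((δ + q) * ℓ i) := by
    rw [prod_mul_distrib, prod_const, Finset.card_univ]
  rw [h3]
  refine prod_le_prod (fun i _ => ?_) fun i _ => ?_
  · have := h0 i
    have := h1 i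
    have := mul_nonneg hq (h0 i)
    linarith
  · have h5 := h2 i
    have h6 := mul_le_mul_of_nonneg_left (h1 i) hq
    calc ℓ i - L i + q * L i ≤ δ * ℓ i + q * ℓ i := by linarith
      _ = (δ + q) * ℓ i := by ring

theorem PRT_triv {α : Type} (s : Finset α) (p : α → Prop) :
    (((s.filter p).card : ℕ) : ℝ) ≤ (s.card : ℝ) := by
  exact_mod_cast card_filter_le _ _

theorem PRT_cs {α : Type} (i1 : Fintype α) (p : α → Prop) (i2 : Fintype {a // p a}) :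
    @Fintype.card _ i2 ≤ @Fintype.card _ i1 := Fintype.card_subtype_le p

/-- from the subfamilies to the whole family -/
theorem PRT_J (hSPL : Stmt_SPL) (C₂ q δ : ℝ) (hC₂ : 0 ≤ C₂) (hq : 0 ≤ q) (hδ : 0 ≤ δ)
    (Q : ℤ → Prop) (G B K : ℕ) (Lf lf : ℕ → ℕ)
    (hL : ∀ a, 2 ≤ a → a ≤ G → Lf a ≤ lf a ∧ (lf a : ℝ) - Lf a ≤ δ * lf a)
    (hsub : ∀ (ι : Type) (_hi : Fintype ι) (g : ι → ℕ) (b : ι → ℤ) (N : ℤ),
      Fintype.card ι ≤ K →
      Adm G B g b → (((bx fun i => Lf (g i)).filter fun v => Q (vl N g b v)).card : ℝ) ≤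
        C₂ * (q ^ Fintype.card ι * ∏ i, (Lf (g i) : ℝ)))
    (ι : Type) [Fintype ι] (g : ι → ℕ) (b : ι → ℤ) (N : ℤ) (hA : Adm G B g b) (J : Finset ι)
    (hJ : Fintype.card {i // i ∉ J} ≤ K) :
    (((bx fun i => lf (g i)).filter fun v => Q (vl N g b v)).card : ℝ) ≤
      (C₂ * (δ + q) ^ Fintype.card {i // i ∉ J}) * ∏ i, (lf (g i) : ℝ) := by
  refine (hSPL ι (fun i => lf (g i)) (fun v => Q (vl N g b v))).1 J
    (C₂ * (δ + q) ^ Fintype.card {i // i ∉ J}) (by positivity) ?_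
  intro w
  have h1 := (hSPL {i // i ∉ J} (fun i => lf (g i))
    (fun u => Q (vl N g b (glue J w u)))).2 (fun i => Lf (g i)) C₂ q hC₂ hq
    (fun i => (hL (g i) (hA i).1 (hA i).2.1).1) ?_
  · refine h1.trans ?_
    rw [mul_assoc]
    refine mul_le_mul_of_nonneg_left ?_ hC₂
    exact PRT_prod (fun i : {i // i ∉ J} => (Lf (g i) : ℝ)) (fun i => (lf (g i) : ℝ)) q δ hq
      (fun i => by positivity)
      (fun i => by exact_mod_cast (hL (g i) (hA i).1 (hA i).2.1).1)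
      (fun i => (hL (g i) (hA i).1 (hA i).2.1).2)
  · intro J' w'
    simp only [vl_glue]
    exact hsub _ _ _ _ _ ((PRT_cs _ _ _).trans hJ) (fun i => hA i)

theorem p_PRT (hWTH : Stmt_WTH) (hSPL : Stmt_SPL) (hTHR : Stmt_THR) (hLFE : Stmt_LFE) :
    Stmt_PRT := by
  obtain ⟨c, r, hc, hgr, hsq, hW⟩ := hWTH
  obtain ⟨nT, hT⟩ := hTHR
  refine ⟨c / 32, fun n => r (prml n / 4), by positivity, ?_, fun n => hsq _, ?_⟩
  · intro A
    obtain ⟨X₁, hX₁⟩ := hgr (A + 1)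
    obtain ⟨n₁, hn₁, h⟩ := PRT_large (max (2 ^ A) (Real.log (X₁ + 1)))
    refine ⟨n₁, fun n hn => ?_⟩
    obtain ⟨hX0, h4, h8, hY, hl0, hl1, -, -⟩ := h n hn _ rfl
    have hXr : (0 : ℝ) < ((prml n / 4 : ℕ) : ℝ) := by exact_mod_cast hX0
    have hXX : X₁ ≤ prml n / 4 := by
      have h5 : Real.log (X₁ + 1) ≤ Real.log ((prml n / 4 : ℕ) : ℝ) := (le_max_right _ _).trans hY
      rw [Real.log_le_log_iff (by positivity) hXr] at h5
      have h6 : ((X₁ : ℕ) : ℝ) ≤ ((prml n / 4 : ℕ) : ℝ) := by linarith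
      exact_mod_cast h6
    have h5 := hX₁ _ hXX
    have h6 : (2 : ℝ) ^ A ≤ Real.log ((prml n / 4 : ℕ) : ℝ) := (le_max_left _ _).trans hY
    have h7 : (0 : ℝ) ≤ Real.log ((prml n / 4 : ℕ) : ℝ) := le_trans (by positivity) h6
    calc (Real.log (prml n)) ^ A ≤ (2 * Real.log ((prml n / 4 : ℕ) : ℝ)) ^ A := by gcongr
      _ = 2 ^ A * (Real.log ((prml n / 4 : ℕ) : ℝ)) ^ A := by rw [mul_pow]
      _ ≤ Real.log ((prml n / 4 : ℕ) : ℝ) * (Real.log ((prml n / 4 : ℕ) : ℝ)) ^ A := by gcongr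
      _ = (Real.log ((prml n / 4 : ℕ) : ℝ)) ^ (A + 1) := by ring
      _ ≤ _ := h5
  intro G B
  obtain ⟨κ₁, C₁, X₀, hκ₁, hC₁, hWt⟩ := hW G B
  set κ₀ := min κ₁ 1 with hκ₀
  have hκ0 : 0 < κ₀ := lt_min hκ₁ one_pos
  have hκ01 : κ₀ ≤ κ₁ := min_le_left _ _
  have hκ02 : κ₀ ≤ 1 := min_le_right _ _
  set q := Real.exp (-κ₀) with hq
  have hq0 : 0 < q := Real.exp_pos _
  set δ := Real.exp (-(κ₀ / 2)) - q with hδ
  have hδ0 : 0 < δ := by
    rw [hδ, hq, sub_pos, Real.exp_lt_exp]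
    linarith
  obtain ⟨nL, hLt⟩ := hLFE G B κ₀ δ hκ0 hδ0
  obtain ⟨n₁, hn₁, h⟩ := PRT_large (max 33 (Real.log (X₀ + 1)))
  set C₂ := max C₁ 1 with hC₂
  have hC₂0 : 0 < C₂ := lt_of_lt_of_le one_pos (le_max_right _ _)
  have hWt' : ∀ (X K : ℕ) (Lf : ℕ → ℕ) (ι : Type) [Fintype ι] (g : ι → ℕ) (b : ι → ℤ) (N : ℤ),
      X₀ ≤ X → (K : ℝ) ≤ κ₁ * Real.log X → Fintype.card ι ≤ K →
      (∀ a, 2 ≤ a → a ≤ G → 32 * B * K * a ^ Lf a ≤ X ∧
        (X : ℝ) ≤ (a : ℝ) ^ Lf a * (Real.log X) ^ 2 ∧ 1 ≤ Lf a) →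
      Adm G B g b → 3 * (X : ℤ) ≤ 2 * N → (N : ℝ) ≤ X * (Real.log X) ^ 3 →
      (((bx fun i => Lf (g i)).filter fun v => Bdw X c (r X) (vl N g b v)).card : ℝ) ≤
        C₂ * (Real.exp (-(κ₁ * Fintype.card ι)) * ∏ i, (Lf (g i) : ℝ)) := by
    intro X K Lf ι _ g b N a1 a2 a3 a4 a5 a6 a7
    refine (hWt X K Lf ι g b N a1 a2 a3 a4 a5 a6 a7).trans ?_
    apply mul_le_mul_of_nonneg_right (le_max_left _ _)
    exact mul_nonneg (Real.exp_pos _).le (prod_nonneg fun i _ => by positivity)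
  refine ⟨κ₀ ^ 2 / 4, C₂ * Real.exp (κ₀ / 2), max nT (max nL n₁), by positivity, by positivity,
    fun n k g b N hn hA => ?_⟩
  simp only [max_le_iff] at hn
  obtain ⟨hnT, hnL, hn1⟩ := hn
  obtain ⟨hX0, h4, h8, hY, hl0, hl1, hl2, hP⟩ := h n hn1 _ rfl
  obtain ⟨X, hX⟩ : ∃ X : ℕ, X = prml n / 4 := ⟨_, rfl⟩
  rw [← hX] at hX0 h4 h8 hY hl1 hl2 hP
  have hXr : (0 : ℝ) < (X : ℝ) := by exact_mod_cast hX0
  have h33 : 33 ≤ Real.log X := (le_max_left _ _).trans hY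
  have hXX : X₀ ≤ X := by
    have h5 : Real.log (X₀ + 1) ≤ Real.log (X : ℝ) := (le_max_right _ _).trans hY
    rw [Real.log_le_log_iff (by positivity) hXr] at h5
    have h6 : ((X₀ : ℕ) : ℝ) ≤ (X : ℝ) := by linarith
    exact_mod_cast h6
  obtain ⟨k₁, hk₁⟩ : ∃ k₁ : ℕ, k₁ = min k ⌊κ₀ * Real.log X⌋₊ := ⟨_, rfl⟩
  have hk₁k : k₁ ≤ k := by rw [hk₁]; exact min_le_left _ _
  have hκX : 0 ≤ κ₀ * Real.log X := by positivity
  have hk₁κ : (k₁ : ℝ) ≤ κ₀ * Real.log X := by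
    have h5 : k₁ ≤ ⌊κ₀ * Real.log X⌋₊ := by rw [hk₁]; exact min_le_right _ _
    have h6 : (k₁ : ℝ) ≤ (⌊κ₀ * Real.log X⌋₊ : ℝ) := by exact_mod_cast h5
    exact h6.trans (Nat.floor_le hκX)
  have hprod : (0 : ℝ) ≤ ∏ i, (Nat.log (g i) (prml (n + 1)) : ℝ) :=
    prod_nonneg fun i _ => by positivity
  -- the main bound
  have hmain : (((bx fun i => Nat.log (g i) (prml (n + 1))).filter fun v =>
      ∃ m : ℕ, (m : ℤ) = vl N g b v ∧ Bdp n (c / 32) m ∧ ¬ r X ∣ m).card : ℝ) ≤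
      C₂ * Real.exp (-(κ₀ / 2 * k₁)) * ∏ i, (Nat.log (g i) (prml (n + 1)) : ℝ) := by
    rcases Nat.eq_zero_or_pos k₁ with hk0 | hk0
    · have h5 : Real.exp (-(κ₀ / 2 * (k₁ : ℝ))) = 1 := by rw [hk0]; simp
      rw [h5, mul_one]
      have h6 := card_bx (fun i => Nat.log (g i) (prml (n + 1)))
      have h8 := PRT_triv (bx (fun i => Nat.log (g i) (prml (n + 1))))
        (fun v => ∃ m : ℕ, (m : ℤ) = vl N g b v ∧ Bdp n (c / 32) m ∧ ¬ r X ∣ m)
      rw [h6] at h8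
      refine h8.trans ?_
      have h10 : 1 ≤ C₂ := le_max_right _ _
      calc ∏ i, (Nat.log (g i) (prml (n + 1)) : ℝ)
          = 1 * ∏ i, (Nat.log (g i) (prml (n + 1)) : ℝ) := (one_mul _).symm
        _ ≤ _ := mul_le_mul_of_nonneg_right h10 hprod
    · obtain ⟨Lf, hLf⟩ := hLt n k₁ hnL hk0 (by rw [← hX]; exact hk₁κ)
      rw [← hX] at hLf
      have h5 := PRT_J hSPL C₂ q δ hC₂0.le hq0.le hδ0.le
        (fun z => ∃ m : ℕ, (m : ℤ) = z ∧ Bdp n (c / 32) m ∧ ¬ r X ∣ m) G B k₁ Lf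
        (fun a => Nat.log a (prml (n + 1))) (fun a h1 h2 => (hLf a h1 h2).2)
        (fun ι _ g b N hcard hA => PRT_sub c κ₀ κ₁ C₂ r G B X₀ hc hC₂0 hκ01 hWt'
          n X k₁ hX hXX h4 h8 h33 hl0 hP (fun m => hT n m hnT) hk0
          (hk₁κ.trans (mul_le_mul_of_nonneg_right hκ01 (by linarith))) Lf
          (fun a h1 h2 => (hLf a h1 h2).1) ι g b N hcard hA)
        (Fin k) g b N hA (univ.filter fun i : Fin k => k₁ ≤ (i : ℕ))
        (PRT_card k k₁ hk₁k _).le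
      refine h5.trans (le_of_eq ?_)
      congr 2
      rw [PRT_card k k₁ hk₁k _, hδ, sub_add_cancel, ← Real.exp_nat_mul]
      congr 1
      ring
  beta_reduce
  rw [← hX]
  refine hmain.trans ?_
  rw [mul_assoc, mul_assoc]
  refine mul_le_mul_of_nonneg_left ?_ hC₂0.le
  rw [← mul_assoc]
  refine mul_le_mul_of_nonneg_right ?_ hprod
  -- the exponentials
  have h9 : 0 < Real.exp (-(κ₀ ^ 2 / 4 * k)) := Real.exp_pos _
  have h10 : 0 < Real.exp (-(κ₀ ^ 2 / 4 * Real.log (prml n))) := Real.exp_pos _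
  rcases le_total k ⌊κ₀ * Real.log X⌋₊ with hk | hk
  · have h5 : k₁ = k := by rw [hk₁]; exact min_eq_left hk
    rw [h5]
    have h6 : Real.exp (-(κ₀ / 2 * k)) ≤ Real.exp (-(κ₀ ^ 2 / 4 * k)) := by
      rw [Real.exp_le_exp]
      have h11 : (0 : ℝ) ≤ k := by positivity
      have h12 : κ₀ ^ 2 / 4 ≤ κ₀ / 2 := by nlinarith
      have := mul_le_mul_of_nonneg_right h12 h11
      linarith
    have h7 : 1 ≤ Real.exp (κ₀ / 2) := Real.one_le_exp (by positivity)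
    calc Real.exp (-(κ₀ / 2 * k)) ≤ 1 * Real.exp (-(κ₀ ^ 2 / 4 * k)) := by linarith
      _ ≤ Real.exp (κ₀ / 2) * (Real.exp (-(κ₀ ^ 2 / 4 * k)) +
          Real.exp (-(κ₀ ^ 2 / 4 * Real.log (prml n)))) :=
        mul_le_mul h7 (by linarith) h9.le (by positivity)
  · have h5 : k₁ = ⌊κ₀ * Real.log X⌋₊ := by rw [hk₁]; exact min_eq_right hk
    have h6 : κ₀ * Real.log X - 1 ≤ k₁ := by
      rw [h5]
      exact (Nat.sub_one_lt_floor _).le
    have h7 : Real.exp (-(κ₀ / 2 * k₁)) ≤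
        Real.exp (κ₀ / 2) * Real.exp (-(κ₀ ^ 2 / 4 * Real.log (prml n))) := by
      rw [← Real.exp_add, Real.exp_le_exp]
      have h11 := mul_le_mul_of_nonneg_left h6 (by positivity : (0 : ℝ) ≤ κ₀ / 2)
      have h12 := mul_le_mul_of_nonneg_left hl1 (by positivity : (0 : ℝ) ≤ κ₀ ^ 2 / 4)
      have h13 : κ₀ / 2 * (κ₀ * Real.log X - 1) =
          κ₀ ^ 2 / 4 * (2 * Real.log X) - κ₀ / 2 := by ring
      linarith
    refine h7.trans ?_
    apply mul_le_mul_of_nonneg_left _ (Real.exp_pos _).le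
    linarith

end Pool.TP

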