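import Pool.Agent.Work.MP_484fb8_tp.Interface2
import Pool.Agent.Work.MP_484fb8_nt.Cheb

set_option autoImplicit false

/-! # TypicalPowers, block PW3: two primes and a bounded number of powers of `g` -/

namespace Pool.TP

open Finset
open Pool.Agent.Circle (e)
open Pool.Agent.PS (th)
open Pool.Agent.Work.MP_484fb8_nt
open scoped Classical

/-- every even integer of `ℐ_{n+1}` is `p + q` as in Q1 plus at most `K` powers of `g` -/
def Stmt_PW3 : Prop := ∀ c : ℝ, 0 < c → FinC c → ∀ g : ℕ, 2 ≤ g → ∃ K : ℕ, ∀ n : ℕ, 1 ≤ n →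
  ∀ m ∈ evensIn (n + 1), ∃ p ∈ primesIn n, ∃ q ∈ primesIn n ∪ primesIn (n + 1),
    ∃ k ≤ K, ∃ v : Fin k → ℕ, m = p + q + ∑ i, g ^ v i

theorem PW3_small_prime (n m : ℕ) (hn : 1 ≤ n) (hm : m ∈ evensIn (n + 1)) :
    ∃ p ∈ primesIn n, 2 * p ≤ m := by
  unfold evensIn primorialInterval at hm
  rw [mem_filter, mem_Icc, Nat.add_sub_cancel] at hm
  obtain ⟨⟨hm1, hm2⟩, hev⟩ := hm
  obtain ⟨j, rfl⟩ : ∃ j, n = j + 1 := ⟨n - 1, by omega⟩
  have hps : prml (j + 1) = prml j * Nat.nth Nat.Prime j := prml_succ j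
  have hpos := prml_pos j
  unfold primesIn primorialInterval
  rcases Nat.lt_or_ge j 2 with hj | hj
  · obtain rfl | rfl : j = 0 ∨ j = 1 := by omega
    · refine ⟨2, ?_, ?_⟩
      · have h0 : prml 0 = 1 := prml_zero
        have h1 : prml (0 + 1) = 2 := by
          rw [hps, h0, Nat.nth_prime_zero_eq_two]
        rw [mem_filter, mem_Icc, Nat.add_sub_cancel, h0, h1]
        exact ⟨⟨le_rfl, by norm_num⟩, Nat.prime_two⟩
      · have h0 : prml 0 = 1 := prml_zero
        have h1 : prml (0 + 1) = 2 := by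
          rw [hps, h0, Nat.nth_prime_zero_eq_two]
        rw [h1] at hm1
        obtain ⟨r, hr⟩ := hev
        omega
    · refine ⟨3, ?_, ?_⟩
      · have h0 : prml 1 = 2 := by
          rw [show (1 : ℕ) = 0 + 1 by rfl, prml_succ 0, prml_zero, Nat.nth_prime_zero_eq_two]
        have h1 : prml (1 + 1) = 6 := by
          rw [hps, h0, Nat.nth_prime_one_eq_three]
        rw [mem_filter, mem_Icc, Nat.add_sub_cancel, h0, h1]
        exact ⟨⟨le_rfl, by norm_num⟩, Nat.prime_three⟩
      · have h0 : prml 1 = 2 := by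
          rw [show (1 : ℕ) = 0 + 1 by rfl, prml_succ 0, prml_zero, Nat.nth_prime_zero_eq_two]
        have h1 : prml (1 + 1) = 6 := by
          rw [hps, h0, Nat.nth_prime_one_eq_three]
        rw [h1] at hm1
        omega
  · have h5 : 5 ≤ Nat.nth Nat.Prime j := by
      rw [← Nat.nth_prime_two_eq_five]
      exact Nat.nth_monotone Nat.infinite_setOfPred_prime hj
    obtain ⟨p, hp, hlt, hle⟩ := Nat.exists_prime_lt_and_le_two_mul (prml j) hpos.ne'
    have h4 : 4 * prml j ≤ prml (j + 1) := by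
      rw [hps]
      nlinarith
    refine ⟨p, ?_, by omega⟩
    rw [mem_filter, mem_Icc, Nat.add_sub_cancel]
    exact ⟨⟨hlt, by omega⟩, hp⟩

theorem PW3_mono {a b : ℕ} (h : a ≤ b) : prml a ≤ prml b := by
  induction b, h using Nat.le_induction with
  | base => exact le_rfl
  | succ b _ ih =>
    rw [prml_succ]
    have := nth_prime_ge b
    nlinarith

theorem PW3_even (g k : ℕ) (v : Fin (2 * k) → ℕ) (hv : ∀ i, 1 ≤ v i) :
    Even (∑ i, g ^ v i) := by
  rw [← ZMod.natCast_eq_zero_iff_even]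
  push_cast
  have h1 : ∀ x : ZMod 2, ∀ w : ℕ, 1 ≤ w → x ^ w = x := by
    intro x w hw
    obtain ⟨u, rfl⟩ : ∃ u, w = u + 1 := ⟨w - 1, by omega⟩
    clear hw
    induction u with
    | zero => simp
    | succ u ih =>
      rw [pow_succ, ih]
      clear ih
      revert x
      decide
  rw [sum_congr rfl fun i _ => h1 _ _ (hv i), sum_const, card_univ, Fintype.card_fin,
    nsmul_eq_mul]
  push_cast
  have h2 : (2 : ZMod 2) = 0 := rfl
  rw [h2]
  ring

theorem PW3_log_tendsto (y : ℝ) : ∃ n₀ : ℕ, ∀ n : ℕ, n₀ ≤ n →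
    y ≤ Real.log (prml n) ∧ y ≤ Real.log (prml n / 4 : ℕ) := by
  have h1 : Filter.Tendsto (fun X : ℕ => Real.log (X : ℝ)) Filter.atTop Filter.atTop :=
    Real.tendsto_log_atTop.comp tendsto_natCast_atTop_atTop
  obtain ⟨X0, hX0⟩ := Filter.eventually_atTop.1 (h1.eventually_ge_atTop y)
  refine ⟨4 * X0, fun n hn => ?_⟩
  have h2 := le_prml n
  exact ⟨hX0 _ (by omega), hX0 _ (by omega)⟩

theorem p_PW3 (hLFE : Stmt_LFE) : Stmt_PW3 := by
  intro c hc hfin g hg
  obtain ⟨κ, C, hκ, hF⟩ := hfin g 1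
  obtain ⟨C', hC'⟩ := hF 1
  -- the number of powers
  obtain ⟨k₁, hk₁⟩ := exists_pow_lt_of_lt_one (show (0 : ℝ) < 1 / (8 * (|C| + 1)) by positivity)
    (show Real.exp (-(κ * 2)) < 1 by
      rw [Real.exp_lt_one_iff]
      linarith)
  set k : ℕ := 2 * (k₁ + 1) with hk
  have hk2 : 2 ≤ k := by omega
  have hkr : (0 : ℝ) < k := by exact_mod_cast (by omega : 0 < k)
  have hexp : C * Real.exp (-(κ * k)) ≤ 1 / 8 := by
    have h1 : Real.exp (-(κ * k)) = Real.exp (-(κ * 2)) ^ (k₁ + 1) := by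
      rw [← Real.exp_nat_mul]
      congr 1
      rw [hk]
      push_cast
      ring
    have h2 : Real.exp (-(κ * 2)) ^ (k₁ + 1) ≤ Real.exp (-(κ * 2)) ^ k₁ := by
      apply pow_le_pow_of_le_one (Real.exp_pos _).le _ (Nat.le_succ _)
      rw [Real.exp_le_one_iff]
      linarith
    have h3 : Real.exp (-(κ * k)) ≤ 1 / (8 * (|C| + 1)) := by
      rw [h1]
      exact h2.trans hk₁.le
    calc C * Real.exp (-(κ * k)) ≤ |C| * Real.exp (-(κ * k)) := by
          gcongr
          exact le_abs_self C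
      _ ≤ |C| * (1 / (8 * (|C| + 1))) := by gcongr
      _ ≤ 1 / 8 := by
          rw [mul_one_div, div_le_div_iff₀ (by positivity) (by norm_num)]
          have := abs_nonneg C
          linarith
  set δ : ℝ := 1 / (2 * k) with hδ
  have hδ0 : 0 < δ := by positivity
  have hδk : (1 / 2 : ℝ) ≤ (1 - δ) ^ k := by
    have h1 : δ ≤ 1 := by
      rw [hδ, div_le_one (by positivity)]
      have : (2 : ℝ) ≤ k := by exact_mod_cast hk2
      linarith
    have h2 := one_add_mul_le_pow (show (-2 : ℝ) ≤ -δ by linarith) k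
    have h3 : 1 + (k : ℝ) * -δ = 1 / 2 := by
      rw [hδ]
      field_simp
      ring
    rw [h3] at h2
    rw [show (1 - δ) = 1 + -δ by ring]
    exact h2
  obtain ⟨n₁, hn₁⟩ := hLFE g 1 1 δ one_pos hδ0
  obtain ⟨n₂, hn₂⟩ := PW3_log_tendsto (max (8 * |C'| + 1) k)
  set n₀ : ℕ := max (max n₁ n₂) 4 with hn₀
  refine ⟨max k (prml (n₀ + 1) + 1), fun n hn m hm => ?_⟩
  have hmE := hm
  unfold evensIn primorialInterval at hmE
  rw [mem_filter, mem_Icc, Nat.add_sub_cancel] at hmE
  obtain ⟨⟨hm1, hm2⟩, hev⟩ := hmE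
  by_cases h : n₀ ≤ n
  · -- large `n`
    have hc1 : n₁ ≤ n := ((le_max_left _ _).trans (le_max_left _ _)).trans h
    have hc2 : n₂ ≤ n := ((le_max_right _ _).trans (le_max_left _ _)).trans h
    have hc3 : 4 ≤ n := (le_max_right _ _).trans h
    obtain ⟨hy, hy4⟩ := hn₂ n hc2
    have hy1 : 8 * |C'| + 1 ≤ Real.log (prml n) := (le_max_left _ _).trans hy
    have hyk : (k : ℝ) ≤ 1 * Real.log (prml n / 4 : ℕ) := by
      rw [one_mul]
      exact (le_max_right _ _).trans hy4
    obtain ⟨Lf, hLf⟩ := hn₁ n k hc1 (by omega) hyk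
    obtain ⟨⟨hL1, _, hL3⟩, hL4, hL5⟩ := hLf g hg le_rfl
    set L := Lf g with hL
    set ℓ := Nat.log g (prml (n + 1)) with hℓ
    have hpr := le_prml n
    have hLr : (1 : ℝ) ≤ L := by exact_mod_cast hL3
    have hℓr : (1 : ℝ) ≤ ℓ := by exact_mod_cast hL3.trans hL4
    have hb := hC' n k (fun _ => g) (fun _ => -1) m hn (fun i => ⟨hg, le_rfl, by norm_num, by norm_num⟩)
    have hb1 : ((((bx fun _ : Fin k => ℓ).filter fun v =>
        ∃ m' : ℕ, (m' : ℤ) = vl m (fun _ => g) (fun _ => -1) v ∧ Bdp n c m').card : ℕ) : ℝ) ≤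
        1 / 4 * (ℓ : ℝ) ^ k := by
      refine hb.trans ?_
      rw [prod_const, card_univ, Fintype.card_fin]
      have h1 : C' / Real.log (prml n) ^ 1 ≤ 1 / 8 := by
        rw [pow_one, div_le_iff₀ (by have := abs_nonneg C'; linarith)]
        have := le_abs_self C'
        linarith
      have h2 : (0 : ℝ) ≤ (ℓ : ℝ) ^ k := by positivity
      nlinarith
    have hsub : ∃ v ∈ bx fun _ : Fin k => L, ¬ ∃ m' : ℕ,
        (m' : ℤ) = vl m (fun _ => g) (fun _ => -1) v ∧ Bdp n c m' := by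
      by_contra hcon
      push Not at hcon
      have h1 : (bx fun _ : Fin k => L) ⊆ ((bx fun _ : Fin k => ℓ).filter fun v =>
          ∃ m' : ℕ, (m' : ℤ) = vl m (fun _ => g) (fun _ => -1) v ∧ Bdp n c m') := by
        intro v hv
        rw [mem_filter]
        refine ⟨?_, hcon v hv⟩
        rw [mem_bx] at hv ⊢
        exact fun i => ⟨(hv i).1, (hv i).2.trans hL4⟩
      have h2 : ((bx fun _ : Fin k => L).card : ℝ) ≤ 1 / 4 * (ℓ : ℝ) ^ k := by
        refine le_trans ?_ hb1
        exact_mod_cast card_le_card h1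
      rw [card_bx, prod_const, card_univ, Fintype.card_fin] at h2
      have h3 : (1 - δ) * ℓ ≤ L := by linarith
      have h4 : ((1 - δ) * ℓ) ^ k ≤ (L : ℝ) ^ k := by
        have h5 : 0 ≤ 1 - δ := by
          rw [hδ, sub_nonneg, div_le_one (by positivity)]
          have : (2 : ℝ) ≤ k := by exact_mod_cast hk2
          linarith
        gcongr
      rw [mul_pow] at h4
      have h6 : 0 < (ℓ : ℝ) ^ k := by positivity
      nlinarith
    obtain ⟨v, hv, hnot⟩ := hsub
    rw [mem_bx] at hv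
    have hsum : ∑ i, g ^ v i ≤ k * g ^ L := by
      calc ∑ i, g ^ v i ≤ ∑ _i : Fin k, g ^ L :=
            sum_le_sum fun i _ => Nat.pow_le_pow_right (by omega) (hv i).2
        _ = k * g ^ L := by rw [sum_const, card_univ, Fintype.card_fin, smul_eq_mul]
    have hsum2 : 128 * ∑ i, g ^ v i ≤ prml n := by
      have h1 : 32 * 1 * k * g ^ L ≤ prml n / 4 := hL1
      have h2 : 32 * (k * g ^ L) ≤ prml n / 4 := by
        calc 32 * (k * g ^ L) = 32 * 1 * k * g ^ L := by ring
          _ ≤ _ := h1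
      omega
    have hevs : Even (∑ i, g ^ v i) := PW3_even g (k₁ + 1) v fun i => (hv i).1
    set s := ∑ i, g ^ v i with hs
    have hval : ((m - s : ℕ) : ℤ) = vl m (fun _ => g) (fun _ => -1) v := by
      unfold vl
      rw [Nat.cast_sub (by omega), hs]
      push_cast
      simp only [neg_mul, one_mul]
      rw [sum_neg_distrib]
      ring
    have hnb : ¬ Bdp n c (m - s) := fun hB => hnot ⟨m - s, hval, hB⟩
    have hev2 : Even (m - s) := (Nat.even_sub (by omega)).2 ⟨fun _ => hevs, fun _ => hev⟩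
    have hreps : c * (((m - s : ℕ) : ℝ) / (m - s).totient) *
        (prml n / (Real.log (prml n)) ^ 2) ≤ primorialReps n (m - s) := by
      by_contra hlt
      push Not at hlt
      exact hnb ⟨hev2, by omega, by omega, hlt⟩
    have hpos : (0 : ℝ) < primorialReps n (m - s) := by
      refine lt_of_lt_of_le ?_ hreps
      have h1 : 0 < m - s := by omega
      have h2 : (0 : ℝ) < ((m - s : ℕ) : ℝ) := by exact_mod_cast h1
      have h3 : (0 : ℝ) < (m - s).totient := by exact_mod_cast Nat.totient_pos.2 h1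
      have h4 : (0 : ℝ) < prml n := by exact_mod_cast (by omega : 0 < prml n)
      have h5 : (0 : ℝ) < Real.log (prml n) := by
        have := abs_nonneg C'
        linarith
      positivity
    have hpos2 : 0 < primorialReps n (m - s) := by exact_mod_cast hpos
    unfold primorialReps at hpos2
    rw [Finset.card_pos] at hpos2
    obtain ⟨⟨p, q⟩, hz⟩ := hpos2
    rw [mem_filter, mem_product] at hz
    obtain ⟨⟨hp, hq⟩, hpq⟩ := hz
    simp only at hp hq hpq
    exact ⟨p, hp, q, hq, k, le_max_left _ _, v, by omega⟩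
  · -- small `n`
    obtain ⟨p, hp, h2p⟩ := PW3_small_prime n m hn hm
    have hmono : prml (n + 1) ≤ prml (n₀ + 1) := PW3_mono (by omega)
    refine ⟨p, hp, p, mem_union_left _ hp, m - 2 * p, le_max_of_le_right (by omega), fun _ => 0,
      ?_⟩
    rw [sum_const, card_univ, Fintype.card_fin, smul_eq_mul, pow_zero, mul_one]
    omega

end Pool.TP
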