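import Pool.Agent.Work.MP_484fb8_tp.Interface2

set_option autoImplicit false

namespace Pool.TP

open Finset
open Pool.Agent.Circle (e)
open Pool.Agent.PS (th)
open Pool.Agent.Work.MP_484fb8_nt
open scoped Classical

/-- Binomials with a shifted upper entry. -/
theorem RAT_choose (α₀ ω j k : ℕ) (hjk : j ≤ k) (hk : k < α₀) :
    ((α₀ + ω).choose j : ℝ) ≤
      (α₀.choose j : ℝ) * Real.exp (((k : ℝ) * ω) / ((α₀ : ℝ) - k)) := by
  have hak : (0 : ℝ) < (α₀ : ℝ) - k := by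
    have : (k : ℝ) < α₀ := by exact_mod_cast hk
    linarith
  have hω : (0 : ℝ) ≤ ω := Nat.cast_nonneg _
  have h1 : ((α₀ + ω).descFactorial j : ℝ) ≤
      (α₀.descFactorial j : ℝ) * Real.exp ((ω : ℝ) / ((α₀ : ℝ) - k)) ^ j := by
    rw [Nat.descFactorial_eq_prod_range, Nat.descFactorial_eq_prod_range, Nat.cast_prod,
      Nat.cast_prod]
    have h2 : Real.exp ((ω : ℝ) / ((α₀ : ℝ) - k)) ^ j =
        ∏ _i ∈ range j, Real.exp ((ω : ℝ) / ((α₀ : ℝ) - k)) := by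
      rw [Finset.prod_const, card_range]
    rw [h2, ← Finset.prod_mul_distrib]
    refine Finset.prod_le_prod (fun i _ => Nat.cast_nonneg _) fun i hi => ?_
    have hi' : i < j := Finset.mem_range.mp hi
    have h3 : ((α₀ + ω - i : ℕ) : ℝ) = ((α₀ : ℝ) - i) + ω := by
      rw [Nat.cast_sub (by omega)]
      push_cast
      ring
    have h4 : ((α₀ - i : ℕ) : ℝ) = (α₀ : ℝ) - i := by
      rw [Nat.cast_sub (by omega)]
    rw [h3, h4]
    have h5 : (i : ℝ) ≤ k := by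
      have : i ≤ k := by omega
      exact_mod_cast this
    have h6 : (ω : ℝ) / ((α₀ : ℝ) - k) + 1 ≤ Real.exp ((ω : ℝ) / ((α₀ : ℝ) - k)) :=
      Real.add_one_le_exp _
    have h7 : (α₀ : ℝ) - k ≤ (α₀ : ℝ) - i := by linarith
    have h8 : (ω : ℝ) ≤ ((α₀ : ℝ) - i) * ((ω : ℝ) / ((α₀ : ℝ) - k)) := by
      rw [mul_div_assoc', le_div_iff₀ hak]
      nlinarith
    have h9 : 0 ≤ (α₀ : ℝ) - i := by linarith
    calc ((α₀ : ℝ) - i) + ω ≤ ((α₀ : ℝ) - i) * ((ω : ℝ) / ((α₀ : ℝ) - k) + 1) := by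
          rw [mul_add, mul_one]
          linarith
      _ ≤ ((α₀ : ℝ) - i) * Real.exp ((ω : ℝ) / ((α₀ : ℝ) - k)) :=
          mul_le_mul_of_nonneg_left h6 h9
  have h2 : Real.exp ((ω : ℝ) / ((α₀ : ℝ) - k)) ^ j ≤
      Real.exp (((k : ℝ) * ω) / ((α₀ : ℝ) - k)) := by
    rw [← Real.exp_nat_mul]
    apply Real.exp_le_exp.mpr
    rw [mul_div_assoc']
    apply div_le_div_of_nonneg_right _ hak.le
    have : (j : ℝ) ≤ k := by exact_mod_cast hjk
    exact mul_le_mul_of_nonneg_right this hω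
  have h3 : ((α₀ + ω).descFactorial j : ℝ) = (j.factorial : ℝ) * ((α₀ + ω).choose j : ℝ) := by
    rw [Nat.descFactorial_eq_factorial_mul_choose]
    push_cast
    ring
  have h4 : (α₀.descFactorial j : ℝ) = (j.factorial : ℝ) * (α₀.choose j : ℝ) := by
    rw [Nat.descFactorial_eq_factorial_mul_choose]
    push_cast
    ring
  have hf : (0 : ℝ) < (j.factorial : ℝ) := by exact_mod_cast Nat.factorial_pos j
  rw [h3, h4] at h1
  have h5 : (j.factorial : ℝ) * ((α₀ + ω).choose j : ℝ) ≤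
      (j.factorial : ℝ) * ((α₀.choose j : ℝ) * Real.exp (((k : ℝ) * ω) / ((α₀ : ℝ) - k))) := by
    calc (j.factorial : ℝ) * ((α₀ + ω).choose j : ℝ) ≤
          (j.factorial : ℝ) * (α₀.choose j : ℝ) * Real.exp ((ω : ℝ) / ((α₀ : ℝ) - k)) ^ j := h1
      _ ≤ (j.factorial : ℝ) * (α₀.choose j : ℝ) *
          Real.exp (((k : ℝ) * ω) / ((α₀ : ℝ) - k)) :=
          mul_le_mul_of_nonneg_left h2 (by positivity)
      _ = _ := by ring
  exact le_of_mul_le_mul_left h5 hf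

theorem RAT_pow (α₀ ω ℓ k k₂ : ℕ) (hk : k < α₀) (hℓ : ℓ ≤ α₀ + ω) :
    (ℓ : ℝ) ^ k₂ ≤ ((α₀ - k : ℕ) : ℝ) ^ k₂ *
      Real.exp (((k₂ : ℝ) * (ω + k)) / ((α₀ : ℝ) - k)) := by
  have hak : (0 : ℝ) < (α₀ : ℝ) - k := by
    have : (k : ℝ) < α₀ := by exact_mod_cast hk
    linarith
  have h1 : ((α₀ - k : ℕ) : ℝ) = (α₀ : ℝ) - k := Nat.cast_sub hk.le
  have h2 : (ℓ : ℝ) ≤ ((α₀ : ℝ) - k) * Real.exp (((ω : ℝ) + k) / ((α₀ : ℝ) - k)) := by
    have h3 := Real.add_one_le_exp (((ω : ℝ) + k) / ((α₀ : ℝ) - k))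
    have h4 : (ℓ : ℝ) ≤ (α₀ : ℝ) + ω := by exact_mod_cast hℓ
    calc (ℓ : ℝ) ≤ (α₀ : ℝ) + ω := h4
      _ = ((α₀ : ℝ) - k) * (((ω : ℝ) + k) / ((α₀ : ℝ) - k) + 1) := by
          field_simp
          ring
      _ ≤ _ := mul_le_mul_of_nonneg_left h3 hak.le
  rw [h1]
  calc (ℓ : ℝ) ^ k₂ ≤ (((α₀ : ℝ) - k) * Real.exp (((ω : ℝ) + k) / ((α₀ : ℝ) - k))) ^ k₂ :=
        pow_le_pow_left₀ (Nat.cast_nonneg _) h2 _
    _ = ((α₀ : ℝ) - k) ^ k₂ * Real.exp (((k₂ : ℝ) * (ω + k)) / ((α₀ : ℝ) - k)) := by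
        rw [mul_pow, ← Real.exp_nat_mul, mul_div_assoc]

theorem RAT_nat (α₀ j k₂ : ℕ) (hj : 1 ≤ j) (hle : j + k₂ ≤ α₀) :
    α₀.choose j * (α₀ + 1 - j - k₂) ^ k₂ ≤
      (k₂ + 1) * (α₀.choose (j + k₂) * (j + k₂ - 1).descFactorial k₂) := by
  have h1 : (α₀ - j + 1 - k₂) ^ k₂ ≤ (α₀ - j).descFactorial k₂ :=
    Nat.pow_sub_le_descFactorial (α₀ - j) k₂
  have h2 : α₀ - j + 1 - k₂ = α₀ + 1 - j - k₂ := by omega
  rw [h2] at h1
  have h3 : α₀.choose (j + k₂) * (j + k₂).choose j =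
      α₀.choose j * (α₀ - j).choose k₂ := by
    have := Nat.choose_mul (n := α₀) (k := j + k₂) (s := j) (by omega)
    rw [Nat.add_sub_cancel_left] at this
    exact this
  have h4 : (j + k₂).choose j = (j + k₂).choose k₂ := by
    rw [Nat.choose_symm_add]
  have h5 : α₀.choose j * (α₀ - j).descFactorial k₂ =
      α₀.choose (j + k₂) * (j + k₂).descFactorial k₂ := by
    rw [Nat.descFactorial_eq_factorial_mul_choose, Nat.descFactorial_eq_factorial_mul_choose,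
      ← h4]
    calc α₀.choose j * (k₂.factorial * (α₀ - j).choose k₂)
        = k₂.factorial * (α₀.choose j * (α₀ - j).choose k₂) := by ring
      _ = k₂.factorial * (α₀.choose (j + k₂) * (j + k₂).choose j) := by rw [h3]
      _ = _ := by ring
  have h6 : (j + k₂).descFactorial k₂ ≤ (k₂ + 1) * (j + k₂ - 1).descFactorial k₂ := by
    have h7 := Nat.succ_descFactorial (j + k₂ - 1) k₂
    have h8 : (j + k₂ - 1).succ = j + k₂ := by omega
    have h8' : j + k₂ - 1 + 1 = j + k₂ := by omega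
    rw [h8'] at h7
    have h9 : j + k₂ - k₂ = j := by omega
    rw [h9] at h7
    have h10 : j * (j + k₂).descFactorial k₂ ≤
        j * ((k₂ + 1) * (j + k₂ - 1).descFactorial k₂) := by
      rw [h7, ← mul_assoc]
      apply Nat.mul_le_mul_right
      nlinarith
    exact Nat.le_of_mul_le_mul_left h10 (by omega)
  calc α₀.choose j * (α₀ + 1 - j - k₂) ^ k₂
      ≤ α₀.choose j * (α₀ - j).descFactorial k₂ := Nat.mul_le_mul_left _ h1
    _ = α₀.choose (j + k₂) * (j + k₂).descFactorial k₂ := h5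
    _ ≤ α₀.choose (j + k₂) * ((k₂ + 1) * (j + k₂ - 1).descFactorial k₂) :=
        Nat.mul_le_mul_left _ h6
    _ = _ := by ring

/-- **RAT** -/
theorem p_RAT : Stmt_RAT := by
  intro α₀ α₁ ω ℓ k k₂ hk2 hk h1 hℓ
  have hak : (0 : ℝ) < (α₀ : ℝ) - k := by
    have : (k : ℝ) < α₀ := by exact_mod_cast hk
    linarith
  obtain ⟨j, hj⟩ : ∃ j, k = j + k₂ + 1 := ⟨k - k₂ - 1, by omega⟩
  have hj1 : 1 ≤ j := by omega
  have e1 : k - k₂ - 1 = j := by omega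
  have e2 : k - 1 = j + k₂ := by omega
  have e3 : k - 2 = j + k₂ - 1 := by omega
  rw [e1, e2, e3]
  have a1 : (α₁.choose j : ℝ) ≤ ((α₀ + ω).choose j : ℝ) := by
    exact_mod_cast Nat.choose_le_choose j h1
  have a2 := RAT_choose α₀ ω j k (by omega) hk
  have a3 := RAT_pow α₀ ω ℓ k k₂ hk hℓ
  have a4 : (α₀.choose j : ℝ) * ((α₀ - k : ℕ) : ℝ) ^ k₂ ≤
      ((k₂ : ℝ) + 1) * ((α₀.choose (j + k₂) : ℝ) * ((j + k₂ - 1).descFactorial k₂ : ℝ)) := by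
    have b1 := RAT_nat α₀ j k₂ hj1 (by omega)
    have b2 : (α₀ - k) ^ k₂ ≤ (α₀ + 1 - j - k₂) ^ k₂ := Nat.pow_le_pow_left (by omega) _
    have b3 : α₀.choose j * (α₀ - k) ^ k₂ ≤
        (k₂ + 1) * (α₀.choose (j + k₂) * (j + k₂ - 1).descFactorial k₂) :=
      le_trans (Nat.mul_le_mul_left _ b2) b1
    exact_mod_cast b3
  have a5 : Real.exp (((k₂ : ℝ) * (ω + k) + k * ω) / ((α₀ : ℝ) - k)) =
      Real.exp (((k₂ : ℝ) * (ω + k)) / ((α₀ : ℝ) - k)) *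
        Real.exp (((k : ℝ) * ω) / ((α₀ : ℝ) - k)) := by
    rw [← Real.exp_add, add_div]
  rw [a5]
  set E1 := Real.exp (((k₂ : ℝ) * (ω + k)) / ((α₀ : ℝ) - k)) with hE1
  set E2 := Real.exp (((k : ℝ) * ω) / ((α₀ : ℝ) - k)) with hE2
  have hE1p : 0 < E1 := Real.exp_pos _
  have hE2p : 0 < E2 := Real.exp_pos _
  calc (α₁.choose j : ℝ) * (ℓ : ℝ) ^ k₂
      ≤ ((α₀.choose j : ℝ) * E2) * (((α₀ - k : ℕ) : ℝ) ^ k₂ * E1) :=
        mul_le_mul (le_trans a1 a2) a3 (by positivity) (by positivity)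
    _ = ((α₀.choose j : ℝ) * ((α₀ - k : ℕ) : ℝ) ^ k₂) * (E1 * E2) := by ring
    _ ≤ (((k₂ : ℝ) + 1) * ((α₀.choose (j + k₂) : ℝ) *
          ((j + k₂ - 1).descFactorial k₂ : ℝ))) * (E1 * E2) :=
        mul_le_mul_of_nonneg_right a4 (by positivity)
    _ = _ := by ring

end Pool.TP
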