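import Pool.Agent.Work.MP_484fb8_tp.Interface

set_option autoImplicit false

/-! # TypicalPowers, block RM4: the second moment of `FF` at the values `hh g v` -/

namespace Pool.TP

open Finset
open Pool.Agent.Circle (e)
open Pool.Agent.PS (th)
open Pool.Agent.Work.MP_484fb8_nt
open scoped Classical

theorem RM4_bound {g L : ℕ} (hg : 2 ≤ g) {v : Fin 4 → ℕ} (hv : v ∈ box4 L) :
    (hh g v).natAbs ≤ 2 * g ^ L := by
  unfold box4 at hv
  rw [mem_bx] at hv
  have hg1 : (1 : ℤ) ≤ (g : ℤ) := by exact_mod_cast (by omega : 1 ≤ g)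
  have hpow : ∀ i, (g : ℤ) ^ v i ≤ (g : ℤ) ^ L := fun i => pow_le_pow_right₀ hg1 (hv i).2
  have hpos : ∀ i, (0 : ℤ) ≤ (g : ℤ) ^ v i := fun i => by positivity
  have h : |hh g v| ≤ 2 * (g : ℤ) ^ L := by
    unfold hh
    rw [abs_le]
    have h0 := hpow 0
    have h1 := hpow 1
    have h2 := hpow 2
    have h3 := hpow 3
    have p0 := hpos 0
    have p1 := hpos 1
    have p2 := hpos 2
    have p3 := hpos 3
    constructor <;> linarith
  have h2 : ((hh g v).natAbs : ℤ) ≤ ((2 * g ^ L : ℕ) : ℤ) := by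
    rw [Int.natCast_natAbs]
    push_cast
    exact h
  exact_mod_cast h2

theorem RM4_wt_nonneg (T : Finset ℕ) : 0 ≤ wt T := by
  unfold wt
  exact prod_nonneg fun p _ => by positivity

theorem RM4_dt {g L : ℕ} {T : Finset ℕ} (hT : T ⊆ PL g L) :
    1 ≤ dt T ∧ Nat.Coprime g (dt T) := by
  unfold dt
  constructor
  · refine Nat.one_le_iff_ne_zero.mpr (prod_ne_zero_iff.mpr fun p hp => ?_)
    have h := hT hp
    unfold PL at h
    rw [mem_filter] at h
    exact h.2.1.ne_zero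
  · refine Nat.Coprime.prod_right fun p hp => ?_
    have h := hT hp
    unfold PL at h
    rw [mem_filter] at h
    exact ((Nat.Prime.coprime_iff_not_dvd h.2.1).mpr h.2.2).symm

theorem p_RM4 (hFFS : Stmt_FFS) (hORS : Stmt_ORS) (hCN4 : Stmt_CN4) : Stmt_RM4 := by
  intro g hg
  obtain ⟨C1, hC1, h1⟩ := hFFS g hg
  obtain ⟨C2, hC2, h2⟩ := hORS g hg
  refine ⟨C1 * (2 * C2), by positivity, fun L hL => ?_⟩
  obtain ⟨ha, hb⟩ := h2 L hL
  have s1 : ∑ v ∈ (box4 L).filter (fun v => hh g v ≠ 0), FF (hh g v).natAbs ^ 2 ≤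
      ∑ v ∈ box4 L, C1 * ∑ T ∈ (PL g L).powerset,
        (if (dt T : ℤ) ∣ hh g v then wt T else 0) := by
    have hnn : ∀ v, (0 : ℝ) ≤ C1 * ∑ T ∈ (PL g L).powerset,
        (if (dt T : ℤ) ∣ hh g v then wt T else 0) := by
      intro v
      refine mul_nonneg hC1.le (sum_nonneg fun T _ => ?_)
      split_ifs
      · exact RM4_wt_nonneg T
      · exact le_rfl
    refine le_trans (sum_le_sum fun v hv => ?_)
      (sum_le_sum_of_subset_of_nonneg (filter_subset _ _) fun v _ _ => hnn v)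
    rw [mem_filter] at hv
    refine le_trans (h1 L (hh g v).natAbs hL (Int.natAbs_pos.mpr hv.2) (RM4_bound hg hv.1)) ?_
    refine mul_le_mul_of_nonneg_left (le_of_eq ?_) hC1.le
    rw [sum_filter]
    refine sum_congr rfl fun T _ => ?_
    simp only [Int.natCast_dvd]
  have s2 : ∑ v ∈ box4 L, C1 * ∑ T ∈ (PL g L).powerset,
        (if (dt T : ℤ) ∣ hh g v then wt T else 0) =
      C1 * ∑ T ∈ (PL g L).powerset,
        wt T * (((box4 L).filter fun v => (dt T : ℤ) ∣ hh g v).card : ℝ) := by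
    rw [← mul_sum, sum_comm]
    congr 1
    refine sum_congr rfl fun T _ => ?_
    rw [← sum_filter, sum_const, nsmul_eq_mul, mul_comm]
  have s3 : ∑ T ∈ (PL g L).powerset,
        wt T * (((box4 L).filter fun v => (dt T : ℤ) ∣ hh g v).card : ℝ) ≤
      ∑ T ∈ (PL g L).powerset, ((L : ℝ) ^ 4 * (wt T / (orderOf (g : ZMod (dt T)) : ℝ)) +
        (L : ℝ) ^ 3 * wt T) := by
    refine sum_le_sum fun T hT => ?_
    rw [mem_powerset] at hT
    obtain ⟨hd, hc⟩ := RM4_dt hT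
    refine le_trans (mul_le_mul_of_nonneg_left (hCN4 g L (dt T) hg hL hd hc)
      (RM4_wt_nonneg T)) (le_of_eq ?_)
    ring
  rw [sum_add_distrib, ← mul_sum, ← mul_sum] at s3
  have s4 : (L : ℝ) ^ 4 * ∑ T ∈ (PL g L).powerset, wt T / (orderOf (g : ZMod (dt T)) : ℝ) ≤
      (L : ℝ) ^ 4 * C2 := mul_le_mul_of_nonneg_left hb (by positivity)
  have s5 : (L : ℝ) ^ 3 * ∑ T ∈ (PL g L).powerset, wt T ≤ (L : ℝ) ^ 3 * (C2 * L) :=
    mul_le_mul_of_nonneg_left ha (by positivity)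
  have s6 : (L : ℝ) ^ 4 * C2 + (L : ℝ) ^ 3 * (C2 * L) = 2 * C2 * (L : ℝ) ^ 4 := by ring
  have s7 : ∑ T ∈ (PL g L).powerset,
        wt T * (((box4 L).filter fun v => (dt T : ℤ) ∣ hh g v).card : ℝ) ≤
      2 * C2 * (L : ℝ) ^ 4 := by
    rw [← s6]
    exact s3.trans (add_le_add s4 s5)
  rw [s2] at s1
  refine s1.trans ?_
  calc C1 * ∑ T ∈ (PL g L).powerset,
        wt T * (((box4 L).filter fun v => (dt T : ℤ) ∣ hh g v).card : ℝ)
      ≤ C1 * (2 * C2 * (L : ℝ) ^ 4) := mul_le_mul_of_nonneg_left s7 hC1.le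
    _ = C1 * (2 * C2) * (L : ℝ) ^ 4 := by ring

end Pool.TP
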