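import Pool.Agent.Work.MP_484fb8_tp.Interface
import Pool.Agent.Work.Circle.Ram

set_option autoImplicit false

/-! # TypicalPowers, block SG4: the fourth moment -/

namespace Pool.TP

open Finset
open Pool.Agent.Circle (e e_add conj_e full_sum)
open Pool.Agent.PS (th)
open Pool.Agent.Work.MP_484fb8_nt
open scoped Classical

theorem SG4_FFnn (n : ℕ) : 0 ≤ FF n := Finset.sum_nonneg fun _ _ => by positivity

theorem SG4_FFle (n : ℕ) : FF n ≤ n := by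
  unfold FF
  calc ∑ d ∈ n.divisors, (1 : ℝ) / d ≤ ∑ d ∈ n.divisors, (1 : ℝ) := by
        refine sum_le_sum fun d hd => ?_
        have : (1 : ℝ) ≤ d := by exact_mod_cast Nat.pos_of_mem_divisors hd
        exact (div_le_one (by linarith)).2 this
    _ = (n.divisors.card : ℝ) := by simp
    _ ≤ n := by exact_mod_cast Nat.card_divisors_le_self n

theorem SG4_FFmul (m n : ℕ) (hm : 0 < m) (hn : 0 < n) : FF (m * n) ≤ FF m * FF n := by
  unfold FF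
  rw [sum_mul_sum, ← sum_product']
  have hg : ∀ d ∈ (m * n).divisors, Nat.gcd d m * (d / Nat.gcd d m) = d := fun d _ =>
    Nat.mul_div_cancel' (Nat.gcd_dvd_left d m)
  have h1 : ∑ d ∈ (m * n).divisors, (1 : ℝ) / d = ∑ d ∈ (m * n).divisors,
      (1 : ℝ) / ((Nat.gcd d m, d / Nat.gcd d m) : ℕ × ℕ).1 *
        (1 / ((Nat.gcd d m, d / Nat.gcd d m) : ℕ × ℕ).2) := by
    refine sum_congr rfl fun d hd => ?_
    have h2 := hg d hd
    have h3 : (d : ℝ) = (Nat.gcd d m : ℝ) * ((d / Nat.gcd d m : ℕ) : ℝ) := by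
      exact_mod_cast h2.symm
    conv_lhs => rw [h3]
    rw [one_div_mul_one_div]
  have hinj : Set.InjOn (fun d : ℕ => ((Nat.gcd d m, d / Nat.gcd d m) : ℕ × ℕ))
      ((m * n).divisors : Set ℕ) := by
    intro d hd d' hd' h
    have h2 := hg d hd
    have h3 := hg d' hd'
    have h4 : Nat.gcd d m = Nat.gcd d' m := congrArg Prod.fst h
    have h5 : d / Nat.gcd d m = d' / Nat.gcd d' m := congrArg Prod.snd h
    rw [← h2, ← h3, h5, h4]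
  rw [h1, ← sum_image (s := (m * n).divisors)
    (g := fun d : ℕ => ((Nat.gcd d m, d / Nat.gcd d m) : ℕ × ℕ))
    (f := fun p : ℕ × ℕ => (1 : ℝ) / p.1 * (1 / p.2)) hinj]
  refine sum_le_sum_of_subset_of_nonneg ?_ (fun _ _ _ => by positivity)
  intro p hp
  rw [mem_image] at hp
  obtain ⟨d, hd, rfl⟩ := hp
  have hd1 := Nat.dvd_of_mem_divisors hd
  have hd0 := Nat.pos_of_mem_divisors hd
  have hgp : 0 < Nat.gcd d m := Nat.gcd_pos_of_pos_left m hd0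
  rw [mem_product, Nat.mem_divisors, Nat.mem_divisors]
  refine ⟨⟨Nat.gcd_dvd_right d m, hm.ne'⟩, ?_, hn.ne'⟩
  have hc : Nat.Coprime (d / Nat.gcd d m) (m / Nat.gcd d m) := Nat.coprime_div_gcd_div_gcd hgp
  refine hc.dvd_of_dvd_mul_left ?_
  have h6 : Nat.gcd d m * (d / Nat.gcd d m) ∣ Nat.gcd d m * (m / Nat.gcd d m * n) := by
    rw [← mul_assoc, Nat.mul_div_cancel' (Nat.gcd_dvd_right d m), hg d hd]
    exact hd1
  exact Nat.dvd_of_mul_dvd_mul_left hgp h6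

theorem SG4_norm (z : ℂ) : ((‖z‖ ^ 2 : ℝ) : ℂ) = z * (starRingEnd ℂ) z := by
  rw [Complex.mul_conj']
  push_cast
  rfl

theorem SG4_msq (A N R : ℕ) (h : ℤ) (hR : 0 < R) (hh : |h| + N < R) :
    ∑ k ∈ range R, ((‖Sth A N ((k : ℝ) / R)‖ ^ 2 : ℝ) : ℂ) * e ((h : ℝ) * ((k : ℝ) / R)) =
      (R : ℂ) * (cor A N h : ℂ) := by
  have h1 : ∀ k ∈ range R, ((‖Sth A N ((k : ℝ) / R)‖ ^ 2 : ℝ) : ℂ) * e ((h : ℝ) * ((k : ℝ) / R)) =
      ∑ n ∈ Ioc A (A + N), ∑ n' ∈ Ioc A (A + N),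
        ((th n * th n' : ℝ) : ℂ) * e ((k : ℝ) * (((n - n' + h : ℤ) : ℝ) / R)) := by
    intro k _
    rw [SG4_norm]
    unfold Sth
    rw [map_sum, sum_mul_sum, sum_mul]
    refine sum_congr rfl fun n _ => ?_
    rw [sum_mul]
    refine sum_congr rfl fun n' _ => ?_
    rw [map_mul, Complex.conj_ofReal, conj_e]
    have h2 : (k : ℝ) * (((n - n' + h : ℤ) : ℝ) / R) =
        (n : ℝ) * ((k : ℝ) / R) + -((n' : ℝ) * ((k : ℝ) / R)) + (h : ℝ) * ((k : ℝ) / R) := by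
      push_cast
      ring
    rw [h2, e_add, e_add]
    push_cast
    ring
  rw [sum_congr rfl h1, sum_comm]
  unfold cor
  push_cast
  rw [mul_sum]
  refine sum_congr rfl fun n hn => ?_
  rw [sum_comm, mul_sum]
  refine sum_congr rfl fun n' hn' => ?_
  rw [← mul_sum]
  have h3 := full_sum R hR ((n : ℤ) - n' + h)
  push_cast at h3
  rw [h3]
  rw [mem_Ioc] at hn hn'
  have habs := abs_le.1 (le_refl |h|)
  have h4 : (R : ℤ) ∣ (n : ℤ) - n' + h ↔ (n' : ℤ) - n = h := by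
    constructor
    · intro h5
      have h6 : (n : ℤ) - n' + h = 0 := by
        refine Int.eq_zero_of_abs_lt_dvd h5 ?_
        rw [abs_lt]
        constructor <;> omega
      omega
    · intro h5
      have h6 : (n : ℤ) - n' + h = 0 := by omega
      rw [h6]
      exact dvd_zero _
  by_cases h7 : (n' : ℤ) - n = h
  · rw [if_pos (h4.2 h7), if_pos h7]
    push_cast
    ring
  · rw [if_neg (fun h8 => h7 (h4.1 h8)), if_neg h7]
    simp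

theorem SG4_corneg (A N : ℕ) (h : ℤ) : cor A N (-h) = cor A N h := by
  unfold cor
  rw [sum_comm]
  refine sum_congr rfl fun n _ => sum_congr rfl fun n' _ => ?_
  by_cases h1 : (n' : ℤ) - n = h
  · rw [if_pos h1, if_pos (by omega), mul_comm]
  · rw [if_neg h1, if_neg (by omega)]

theorem SG4_gg (g L : ℕ) (x : ℝ) :
    ((‖Gg g L x‖ ^ 4 : ℝ) : ℂ) = ∑ v ∈ box4 L, e ((hh g v : ℝ) * x) := by
  have h1 : ((‖Gg g L x‖ ^ 4 : ℝ) : ℂ) = Gg g L x * Gg g L x *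
      (starRingEnd ℂ) (Gg g L x) * (starRingEnd ℂ) (Gg g L x) := by
    have h2 : ((‖Gg g L x‖ ^ 4 : ℝ) : ℂ) = ((‖Gg g L x‖ ^ 2 : ℝ) : ℂ) * ((‖Gg g L x‖ ^ 2 : ℝ) : ℂ) := by
      push_cast
      ring
    rw [h2, SG4_norm]
    ring
  set f : Fin 4 → ℕ → ℂ := ![fun v => e ((g : ℝ) ^ v * x), fun v => e ((g : ℝ) ^ v * x),
    fun v => e (-((g : ℝ) ^ v * x)), fun v => e (-((g : ℝ) ^ v * x))] with hf
  have h3 : (starRingEnd ℂ) (Gg g L x) = ∑ v ∈ Icc 1 L, e (-((g : ℝ) ^ v * x)) := by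
    unfold Gg
    rw [map_sum]
    exact sum_congr rfl fun v _ => conj_e _
  have h4 : ∏ i : Fin 4, ∑ v ∈ Icc 1 L, f i v = ((‖Gg g L x‖ ^ 4 : ℝ) : ℂ) := by
    rw [h1, h3, Fin.prod_univ_four]
    rfl
  rw [← h4, Finset.prod_univ_sum]
  refine sum_congr ?_ fun v _ => ?_
  · unfold box4 bx
    ext v
    simp only [Fintype.mem_piFinset]
  rw [Fin.prod_univ_four]
  have h5 : (hh g v : ℝ) * x = (g : ℝ) ^ v 0 * x + (g : ℝ) ^ v 1 * x + -((g : ℝ) ^ v 2 * x) +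
      -((g : ℝ) ^ v 3 * x) := by
    unfold hh
    push_cast
    ring
  rw [h5, e_add, e_add, e_add]
  rfl

theorem SG4_hb (g L : ℕ) (v : Fin 4 → ℕ) (hg : 2 ≤ g) (hv : v ∈ box4 L) :
    |hh g v| ≤ 2 * (g : ℤ) ^ L := by
  have hv' := mem_bx.1 hv
  have h1 : ∀ i, 0 ≤ (g : ℤ) ^ v i ∧ (g : ℤ) ^ v i ≤ (g : ℤ) ^ L := by
    intro i
    refine ⟨by positivity, ?_⟩
    exact_mod_cast Nat.pow_le_pow_right (by omega) (hv' i).2
  unfold hh
  have a0 := h1 0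
  have a1 := h1 1
  have a2 := h1 2
  have a3 := h1 3
  rw [abs_le]
  constructor <;> linarith

/-- the identity -/
theorem SG4_id (g B A₁ N₁ A₂ N₂ X L R : ℕ) (b : ℤ) (hg : 2 ≤ g) (h1 : N₁ ≤ X) (h2 : N₂ ≤ X)
    (hb : |b| ≤ B) (hR : X + 2 * B * g ^ L < R) :
    (1 / (R : ℝ)) ^ 2 * ∑ k ∈ range R, ∑ l ∈ range R, ‖Sth A₁ N₁ ((k : ℝ) / R)‖ ^ 2 *
      ‖Sth A₂ N₂ ((l : ℝ) / R)‖ ^ 2 * ‖Gg g L (b * (((k : ℝ) - l) / R))‖ ^ 4 =
      ∑ v ∈ box4 L, cor A₁ N₁ (b * hh g v) * cor A₂ N₂ (b * hh g v) := by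
  have hR0 : 0 < R := by omega
  have hRc : (R : ℝ) ≠ 0 := by exact_mod_cast hR0.ne'
  have hbd : ∀ v ∈ box4 L, |b * hh g v| ≤ 2 * B * (g : ℤ) ^ L := by
    intro v hv
    rw [abs_mul]
    have h3 := SG4_hb g L v hg hv
    calc |b| * |hh g v| ≤ (B : ℤ) * (2 * (g : ℤ) ^ L) :=
          mul_le_mul hb h3 (abs_nonneg _) (by positivity)
      _ = 2 * B * (g : ℤ) ^ L := by ring
  have hRz : (X : ℤ) + 2 * B * (g : ℤ) ^ L < R := by exact_mod_cast hR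
  have key : (∑ k ∈ range R, ∑ l ∈ range R, ‖Sth A₁ N₁ ((k : ℝ) / R)‖ ^ 2 *
      ‖Sth A₂ N₂ ((l : ℝ) / R)‖ ^ 2 * ‖Gg g L (b * (((k : ℝ) - l) / R))‖ ^ 4 : ℝ) =
      (R : ℝ) ^ 2 * ∑ v ∈ box4 L, cor A₁ N₁ (b * hh g v) * cor A₂ N₂ (b * hh g v) := by
    have hc : ((∑ k ∈ range R, ∑ l ∈ range R, ‖Sth A₁ N₁ ((k : ℝ) / R)‖ ^ 2 *
      ‖Sth A₂ N₂ ((l : ℝ) / R)‖ ^ 2 * ‖Gg g L (b * (((k : ℝ) - l) / R))‖ ^ 4 : ℝ) : ℂ) =
      (((R : ℝ) ^ 2 * ∑ v ∈ box4 L, cor A₁ N₁ (b * hh g v) * cor A₂ N₂ (b * hh g v) : ℝ) : ℂ) := by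
      rw [Complex.ofReal_sum]
      have e1 : ∀ k ∈ range R, ((∑ l ∈ range R, ‖Sth A₁ N₁ ((k : ℝ) / R)‖ ^ 2 *
          ‖Sth A₂ N₂ ((l : ℝ) / R)‖ ^ 2 * ‖Gg g L (b * (((k : ℝ) - l) / R))‖ ^ 4 : ℝ) : ℂ) =
          ∑ v ∈ box4 L, ∑ l ∈ range R,
            (((‖Sth A₁ N₁ ((k : ℝ) / R)‖ ^ 2 : ℝ) : ℂ) *
              e (((b * hh g v : ℤ) : ℝ) * ((k : ℝ) / R))) *
            (((‖Sth A₂ N₂ ((l : ℝ) / R)‖ ^ 2 : ℝ) : ℂ) *
              e (((-(b * hh g v) : ℤ) : ℝ) * ((l : ℝ) / R))) := by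
        intro k _
        rw [Complex.ofReal_sum, sum_comm]
        refine sum_congr rfl fun l _ => ?_
        rw [Complex.ofReal_mul, Complex.ofReal_mul, SG4_gg, mul_sum]
        refine sum_congr rfl fun v _ => ?_
        have e2 : (hh g v : ℝ) * ((b : ℝ) * (((k : ℝ) - l) / R)) =
            ((b * hh g v : ℤ) : ℝ) * ((k : ℝ) / R) +
              ((-(b * hh g v) : ℤ) : ℝ) * ((l : ℝ) / R) := by
          push_cast
          ring
        rw [e2, e_add]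
        ring
      rw [sum_congr rfl e1, sum_comm]
      rw [Complex.ofReal_mul, Complex.ofReal_sum, mul_sum]
      refine sum_congr rfl fun v hv => ?_
      have b1 := hbd v hv
      have e3 : ∑ k ∈ range R, ∑ l ∈ range R,
            (((‖Sth A₁ N₁ ((k : ℝ) / R)‖ ^ 2 : ℝ) : ℂ) *
              e (((b * hh g v : ℤ) : ℝ) * ((k : ℝ) / R))) *
            (((‖Sth A₂ N₂ ((l : ℝ) / R)‖ ^ 2 : ℝ) : ℂ) *
              e (((-(b * hh g v) : ℤ) : ℝ) * ((l : ℝ) / R))) =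
          (∑ k ∈ range R, ((‖Sth A₁ N₁ ((k : ℝ) / R)‖ ^ 2 : ℝ) : ℂ) *
              e (((b * hh g v : ℤ) : ℝ) * ((k : ℝ) / R))) *
          (∑ l ∈ range R, ((‖Sth A₂ N₂ ((l : ℝ) / R)‖ ^ 2 : ℝ) : ℂ) *
              e (((-(b * hh g v) : ℤ) : ℝ) * ((l : ℝ) / R))) := by
        rw [sum_mul_sum]
      rw [e3, SG4_msq A₁ N₁ R (b * hh g v) hR0 (by omega),
        SG4_msq A₂ N₂ R (-(b * hh g v)) hR0 (by rw [abs_neg]; omega), SG4_corneg]
      push_cast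
      ring
    exact_mod_cast hc
  rw [key]
  field_simp

theorem p_SG4 (hRRB : Stmt_RRB) (hRM4 : Stmt_RM4) (hZC4 : Stmt_ZC4) : Stmt_SG4 := by
  intro g B hg
  obtain ⟨C1, hC1, hc⟩ := hRRB
  obtain ⟨C2, hC2, hr⟩ := hRM4 g hg
  refine ⟨C1 ^ 2 * (8 * (g : ℝ) ^ 2 + (B : ℝ) ^ 2 * C2), by positivity, ?_⟩
  intro A₁ N₁ A₂ N₂ X L R b hN1 hA1 hAN1 hN2 hA2 hAN2 hX1 hX2 hL hlog hb0 hbB hR
  rw [SG4_id g B A₁ N₁ A₂ N₂ X L R b hg hX1 hX2 hbB hR]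
  -- one interval
  have one : ∀ A N : ℕ, 2 ≤ N → 2 ≤ A → A + N ≤ N ^ 3 → N ≤ X →
      ∑ v ∈ box4 L, cor A N (b * hh g v) ^ 2 ≤
        C1 ^ 2 * (8 * (g : ℝ) ^ 2 + (B : ℝ) ^ 2 * C2) * ((X : ℝ) ^ 2 * (L : ℝ) ^ 4) := by
    intro A N hN hA hAN hNX
    obtain ⟨hc0, hch⟩ := hc A N hN hA hAN
    have hNr : (2 : ℝ) ≤ N := by exact_mod_cast hN
    have hNXr : (N : ℝ) ≤ X := by exact_mod_cast hNX
    have hlN : 0 ≤ Real.log N := Real.log_nonneg (by linarith)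
    have hlNX : Real.log N ≤ Real.log X := Real.log_le_log (by linarith) hNXr
    have hLr : (0 : ℝ) ≤ L := Nat.cast_nonneg L
    rw [← sum_filter_add_sum_filter_not (box4 L) (fun v => hh g v = 0)]
    have z1 : ∑ v ∈ (box4 L).filter (fun v => hh g v = 0), cor A N (b * hh g v) ^ 2 ≤
        C1 ^ 2 * (8 * (g : ℝ) ^ 2) * ((X : ℝ) ^ 2 * (L : ℝ) ^ 4) := by
      have z2 : ∀ v ∈ (box4 L).filter (fun v => hh g v = 0),
          cor A N (b * hh g v) ^ 2 ≤ (C1 * (X * (2 * g * L))) ^ 2 := by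
        intro v hv
        rw [(mem_filter.1 hv).2, mul_zero]
        refine pow_le_pow_left₀ (hch 0).1 (hc0.trans ?_) 2
        refine mul_le_mul_of_nonneg_left ?_ hC1.le
        exact mul_le_mul hNXr (hlNX.trans hlog) hlN (by linarith)
      refine (sum_le_card_nsmul _ _ _ z2).trans ?_
      rw [nsmul_eq_mul]
      have z3 : (((box4 L).filter (fun v => hh g v = 0)).card : ℝ) ≤ 2 * (L : ℝ) ^ 2 := by
        exact_mod_cast hZC4 g L hg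
      calc (((box4 L).filter (fun v => hh g v = 0)).card : ℝ) * (C1 * (X * (2 * g * L))) ^ 2
          ≤ (2 * (L : ℝ) ^ 2) * (C1 * (X * (2 * g * L))) ^ 2 :=
            mul_le_mul_of_nonneg_right z3 (sq_nonneg _)
        _ = C1 ^ 2 * (8 * (g : ℝ) ^ 2) * ((X : ℝ) ^ 2 * (L : ℝ) ^ 4) := by ring
    have z4 : ∑ v ∈ (box4 L).filter (fun v => ¬ hh g v = 0), cor A N (b * hh g v) ^ 2 ≤
        C1 ^ 2 * ((B : ℝ) ^ 2 * C2) * ((X : ℝ) ^ 2 * (L : ℝ) ^ 4) := by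
      have z5 : ∀ v ∈ (box4 L).filter (fun v => ¬ hh g v = 0),
          cor A N (b * hh g v) ^ 2 ≤ (C1 * (X * B)) ^ 2 * FF (hh g v).natAbs ^ 2 := by
        intro v hv
        have hv0 := (mem_filter.1 hv).2
        have hne : b * hh g v ≠ 0 := mul_ne_zero hb0 hv0
        have z6 := (hch (b * hh g v)).2 hne
        rw [← mul_pow]
        refine pow_le_pow_left₀ (hch _).1 (z6.trans ?_) 2
        rw [mul_assoc C1]
        refine mul_le_mul_of_nonneg_left ?_ hC1.le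
        rw [mul_assoc (X : ℝ)]
        refine mul_le_mul hNXr ?_ (SG4_FFnn _) (by linarith)
        rw [Int.natAbs_mul]
        refine (SG4_FFmul _ _ (Int.natAbs_pos.2 hb0) (Int.natAbs_pos.2 hv0)).trans ?_
        refine mul_le_mul_of_nonneg_right ((SG4_FFle _).trans ?_) (SG4_FFnn _)
        have z7 : b.natAbs ≤ B := by
          have z9 := Int.natCast_natAbs b
          omega
        exact_mod_cast z7
      refine (sum_le_sum z5).trans ?_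
      rw [← mul_sum]
      have z8 := hr L hL
      calc (C1 * (X * B)) ^ 2 *
            ∑ v ∈ (box4 L).filter (fun v => ¬ hh g v = 0), FF (hh g v).natAbs ^ 2
          ≤ (C1 * (X * B)) ^ 2 * (C2 * (L : ℝ) ^ 4) :=
            mul_le_mul_of_nonneg_left z8 (sq_nonneg _)
        _ = C1 ^ 2 * ((B : ℝ) ^ 2 * C2) * ((X : ℝ) ^ 2 * (L : ℝ) ^ 4) := by ring
    calc _ ≤ C1 ^ 2 * (8 * (g : ℝ) ^ 2) * ((X : ℝ) ^ 2 * (L : ℝ) ^ 4) +
          C1 ^ 2 * ((B : ℝ) ^ 2 * C2) * ((X : ℝ) ^ 2 * (L : ℝ) ^ 4) := add_le_add z1 z4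
      _ = _ := by ring
  have o1 := one A₁ N₁ hN1 hA1 hAN1 hX1
  have o2 := one A₂ N₂ hN2 hA2 hAN2 hX2
  have o3 : ∑ v ∈ box4 L, cor A₁ N₁ (b * hh g v) * cor A₂ N₂ (b * hh g v) ≤
      ∑ v ∈ box4 L, (cor A₁ N₁ (b * hh g v) ^ 2 / 2 + cor A₂ N₂ (b * hh g v) ^ 2 / 2) := by
    refine sum_le_sum fun v _ => ?_
    nlinarith [sq_nonneg (cor A₁ N₁ (b * hh g v) - cor A₂ N₂ (b * hh g v))]
  refine o3.trans ?_
  rw [sum_add_distrib, ← sum_div, ← sum_div]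
  linarith

end Pool.TP
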