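import Pool.Agent.Work.MP_484fb8_tp.Interface

set_option autoImplicit false

/-! # Block SPL: splitting the box of the exponents -/

namespace Pool.TP

open Finset
open Pool.Agent.Circle (e)
open Pool.Agent.PS (th)
open Pool.Agent.Work.MP_484fb8_nt
open scoped Classical

theorem SPL_prod {ι : Type} [Fintype ι] (J : Finset ι) (f : ι → ℝ) :
    ∏ i : {i // i ∉ J}, f i = ∏ i ∈ Jᶜ, f i :=
  (prod_subtype (Jᶜ) (p := fun i => i ∉ J) (fun _ => mem_compl) f).symm

theorem SPL_key {ι : Type} [Fintype ι] (J : Finset ι) (A : ι → Finset ℕ) (ℓ : ι → ℕ)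
    (P : (ι → ℕ) → Prop) (D : ℝ)
    (h : ∀ w : ι → ℕ, (((bx fun i : {i // i ∉ J} => ℓ i).filter fun u => P (glue J w u)).card : ℝ)
      ≤ D) (S : Finset (ι → ℕ))
    (hS : ∀ v ∈ S, P v ∧ (∀ i ∈ J, v i ∈ A i) ∧ ∀ i ∉ J, 1 ≤ v i ∧ v i ≤ ℓ i) :
    (S.card : ℝ) ≤ (∏ i ∈ J, ((A i).card : ℝ)) * D := by
  let R : (ι → ℕ) → ({i // i ∈ J} → ℕ) := fun v i => v i
  let T : Finset ({i // i ∈ J} → ℕ) := Fintype.piFinset fun i => A i
  have hT : ((T.card : ℕ) : ℝ) = ∏ i ∈ J, ((A i).card : ℝ) := by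
    show ((Fintype.piFinset fun i : {i // i ∈ J} => A i).card : ℝ) = _
    rw [Fintype.card_piFinset, Nat.cast_prod]
    exact prod_coe_sort J fun i => ((A i).card : ℝ)
  have hm : ∀ v ∈ S, R v ∈ T := fun v hv => by
    show R v ∈ Fintype.piFinset fun i : {i // i ∈ J} => A i
    rw [Fintype.mem_piFinset]
    exact fun i => (hS v hv).2.1 i i.2
  rw [card_eq_sum_card_fiberwise (f := R) (t := T) (fun v hv => hm v hv), Nat.cast_sum]
  have hf : ∀ w ∈ T, ((S.filter fun v => R v = w).card : ℝ) ≤ D := by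
    intro w _
    refine le_trans (Nat.cast_le.mpr ?_) (h fun i => if hi : i ∈ J then w ⟨i, hi⟩ else 0)
    refine card_le_card_of_injOn (fun v i => v i) ?_ ?_
    · intro v hv
      rw [mem_coe, mem_filter] at hv
      rw [mem_coe, mem_filter, mem_bx]
      obtain ⟨hv1, hv2⟩ := hv
      refine ⟨fun i => (hS v hv1).2.2 i i.2, ?_⟩
      have : glue J (fun i => if hi : i ∈ J then w ⟨i, hi⟩ else 0) (fun i => v i) = v := by
        funext i
        unfold glue
        by_cases hi : i ∈ J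
        · rw [dif_neg (not_not.mpr hi)]
          show (if hi : i ∈ J then w ⟨i, hi⟩ else 0) = v i
          rw [dif_pos hi, ← hv2]
        · rw [dif_pos hi]
      rw [this]
      exact (hS v hv1).1
    · intro v hv v' hv' hvv
      rw [mem_coe, mem_filter] at hv hv'
      funext i
      by_cases hi : i ∈ J
      · have h1 := congrFun (hv.2.trans hv'.2.symm) ⟨i, hi⟩
        exact h1
      · exact congrFun hvv ⟨i, hi⟩
  calc ∑ w ∈ T, ((S.filter fun v => R v = w).card : ℝ) ≤ ∑ w ∈ T, D := sum_le_sum hf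
    _ = (∏ i ∈ J, ((A i).card : ℝ)) * D := by rw [sum_const, nsmul_eq_mul, hT]

theorem p_SPL : Stmt_SPL := by
  intro ι _ ℓ P
  refine ⟨fun J C hC h => ?_, fun Lf C q hC hq hL h => ?_⟩
  · have h1 := SPL_key J (fun i => Icc 1 (ℓ i)) ℓ P _ h ((bx ℓ).filter P) (fun v hv => by
      rw [mem_filter, mem_bx] at hv
      exact ⟨hv.2, fun i _ => mem_Icc.mpr (hv.1 i), fun i _ => hv.1 i⟩)
    refine h1.trans (le_of_eq ?_)
    rw [SPL_prod J fun i => (ℓ i : ℝ), ← prod_mul_prod_compl J fun i => (ℓ i : ℝ)]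
    simp only [Nat.card_Icc, Nat.add_sub_cancel]
    ring
  · let Jf : (ι → ℕ) → Finset ι := fun v => univ.filter fun i => Lf i < v i
    rw [card_eq_sum_card_fiberwise (s := (bx ℓ).filter P) (f := Jf) (t := univ.powerset)
      (fun v _ => by
        rw [mem_coe, mem_powerset]
        exact subset_univ _), Nat.cast_sum]
    have h2 : ∀ J ∈ (univ : Finset ι).powerset,
        ((((bx ℓ).filter P).filter fun v => Jf v = J).card : ℝ) ≤
          C * ((∏ i ∈ J, ((ℓ i : ℝ) - Lf i)) * ∏ i ∈ univ \ J, q * (Lf i : ℝ)) := by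
      intro J _
      have h1 := SPL_key J (fun i => Ioc (Lf i) (ℓ i)) Lf P _ (h J)
        (((bx ℓ).filter P).filter fun v => Jf v = J) (fun v hv => by
          rw [mem_filter, mem_filter, mem_bx] at hv
          obtain ⟨⟨hv1, hv2⟩, hv3⟩ := hv
          refine ⟨hv2, fun i hi => ?_, fun i hi => ?_⟩
          · rw [← hv3, mem_filter] at hi
            exact mem_Ioc.mpr ⟨hi.2, (hv1 i).2⟩
          · refine ⟨(hv1 i).1, ?_⟩
            by_contra hc
            refine hi ?_
            rw [← hv3, mem_filter]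
            exact ⟨mem_univ _, lt_of_not_ge hc⟩)
      refine h1.trans (le_of_eq ?_)
      have h3 : ∏ i ∈ J, (((Ioc (Lf i) (ℓ i)).card : ℕ) : ℝ) = ∏ i ∈ J, ((ℓ i : ℝ) - Lf i) :=
        prod_congr rfl fun i _ => by rw [Nat.card_Ioc, Nat.cast_sub (hL i)]
      rw [h3, SPL_prod J fun i => (Lf i : ℝ), ← compl_eq_univ_sdiff, prod_mul_distrib, prod_const,
        Fintype.card_subtype_compl, Fintype.card_coe, card_compl]
      ring
    refine (sum_le_sum h2).trans (le_of_eq ?_)
    rw [← mul_sum, prod_add]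

end Pool.TP
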