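import Pool.Agent.Work.MP_484fb8_tp.Interface
import Pool.Agent.Work.PS.FINALB

set_option autoImplicit false

/-! # Block THR: representations and weighted representations -/

namespace Pool.TP

open Finset
open Pool.Agent.Circle (e)
open Pool.Agent.PS (th)
open Pool.Agent.Work.MP_484fb8_nt
open scoped Classical

/-- Block THR. -/
theorem p_THR : Stmt_THR := by
  obtain ⟨X1, hX1⟩ := Pool.Agent.PS.prml_succ_le
  refine ⟨max X1 16, fun n m hn hm1 hm2 => ?_⟩
  have hn1 : X1 ≤ n := (le_max_left _ _).trans hn
  have hn2 : 16 ≤ n := (le_max_right _ _).trans hn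
  have hle : n ≤ prml n := by
    have := le_prml n
    omega
  obtain ⟨-, hL2⟩ := hX1 n (by omega) (hn1.trans hle)
  obtain ⟨k, rfl⟩ : ∃ k, n = k + 1 := ⟨n - 1, by omega⟩
  have hsucc : prml (k + 1) = prml k * Nat.nth Nat.Prime k := prml_succ k
  have hp16 : 16 ≤ Nat.nth Nat.Prime k := by
    have := nth_prime_ge k
    omega
  have hk1 : 1 ≤ prml k := by
    have := le_prml k
    omega
  have h16 : 16 * prml k ≤ prml (k + 1) := by
    rw [hsucc, mul_comm 16]
    exact Nat.mul_le_mul_left _ hp16
  have hs1 : prml (k + 1) ≤ prml (k + 1 + 1) := prml_mono (Nat.le_succ _)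
  set X := prml (k + 1) with hX
  set L := prml (k + 1 + 1) + 1 with hL
  have hX0 : (0 : ℝ) < X := by
    have : 0 < X := by omega
    exact_mod_cast this
  have hL0 : (0 : ℝ) < L := by
    have : 0 < L := by omega
    exact_mod_cast this
  have hlog : Real.log L ≤ 2 * Real.log X := by
    have h1 := Real.log_le_log hL0 hL2
    rw [Real.log_pow] at h1
    push_cast at h1
    exact h1
  have hlogX : 0 ≤ Real.log X := Real.log_nonneg (by
    have : 1 ≤ X := by omega
    exact_mod_cast this)
  have hr := Pool.Agent.PS.r_le_pairs (X / 4 / 4) (X / 4 / 2) m (2 * Real.log X) (by linarith)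
    (fun a ha => by
      rw [mem_Ioc] at ha
      exact (Pool.Agent.PS.th_le a L (by omega) (by omega)).trans hlog)
    (fun a ha => by
      rw [mem_Ioc] at ha
      exact (Pool.Agent.PS.th_le (m - a) L (by omega) (by omega)).trans hlog)
  have hcard : ((Ioc (X / 4 / 4) (X / 4 / 2)).filter
      (fun p => p.Prime ∧ (m - p).Prime)).card ≤ primorialReps (k + 1) m := by
    unfold primorialReps
    refine card_le_card_of_injOn (fun p => (p, m - p)) ?_ ?_
    · intro p hp
      rw [mem_coe, mem_filter, mem_Ioc] at hp
      obtain ⟨⟨hp1, hp2⟩, hpp, hqp⟩ := hp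
      rw [mem_coe, mem_filter, mem_product]
      refine ⟨⟨?_, ?_⟩, ?_⟩
      · unfold primesIn primorialInterval
        rw [mem_filter, mem_Icc]
        refine ⟨⟨?_, ?_⟩, hpp⟩
        · simp only [Nat.add_sub_cancel]
          omega
        · show p ≤ X + 1
          omega
      · rw [mem_union]
        by_cases hq : m - p ≤ X + 1
        · left
          unfold primesIn primorialInterval
          rw [mem_filter, mem_Icc]
          refine ⟨⟨?_, hq⟩, hqp⟩
          simp only [Nat.add_sub_cancel]
          omega
        · right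
          unfold primesIn primorialInterval
          rw [mem_filter, mem_Icc]
          refine ⟨⟨?_, ?_⟩, hqp⟩
          · show X + 1 ≤ m - p
            omega
          · show m - p ≤ L
            omega
      · show p + (m - p) = m
        omega
    · intro p _ q _ h
      exact (Prod.mk.inj h).1
  have hcr : (((Ioc (X / 4 / 4) (X / 4 / 2)).filter
      (fun p => p.Prime ∧ (m - p).Prime)).card : ℝ) ≤ primorialReps (k + 1) m := by
    exact_mod_cast hcard
  refine hr.trans ?_
  calc (((Ioc (X / 4 / 4) (X / 4 / 2)).filter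
      (fun p => p.Prime ∧ (m - p).Prime)).card : ℝ) * (2 * Real.log X) ^ 2
      ≤ primorialReps (k + 1) m * (2 * Real.log X) ^ 2 := by gcongr
    _ = 4 * (Real.log X) ^ 2 * primorialReps (k + 1) m := by ring

end Pool.TP
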