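import Pool.Agent.Work.MP_484fb8_tp.Interface2
import Pool.Agent.Work.MP_484fb8_nt.Cheb

set_option autoImplicit false

namespace Pool.TP

open Finset
open Pool.Agent.Circle (e)
open Pool.Agent.PS (th)
open Pool.Agent.Work.MP_484fb8_nt
open scoped Classical

theorem TOT_up (g M0 M1 j : ℕ) (hg : 2 ≤ g)
    (hN : ∀ a j : ℕ, ((Ico (g ^ a) (g ^ (a + 1))).filter fun m => nz g m = j + 1).card =
      a.choose j * (g - 1) ^ (j + 1)) :
    ((Icc (g ^ M0) M1).filter fun N => nz g N = j + 1).card ≤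
      (Nat.log g M1 + 1 - M0) * ((Nat.log g M1).choose j * (g - 1) ^ (j + 1)) := by
  have h1 : ((Icc (g ^ M0) M1).filter fun N => nz g N = j + 1) ⊆
      (Icc M0 (Nat.log g M1)).biUnion fun a =>
        (Ico (g ^ a) (g ^ (a + 1))).filter fun m => nz g m = j + 1 := by
    intro N hNm
    rw [mem_filter, mem_Icc] at hNm
    obtain ⟨⟨h2, h3⟩, h4⟩ := hNm
    have h5 : 0 < g ^ M0 := Nat.pow_pos (by omega)
    have h6 : N ≠ 0 := by omega
    rw [mem_biUnion]
    refine ⟨Nat.log g N, ?_, ?_⟩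
    · rw [mem_Icc]
      exact ⟨Nat.le_log_of_pow_le (by omega) h2, Nat.log_mono_right h3⟩
    · rw [mem_filter, mem_Ico]
      exact ⟨⟨Nat.pow_log_le_self g h6, Nat.lt_pow_succ_log_self (by omega) N⟩, h4⟩
  refine le_trans (card_le_card h1) (le_trans card_biUnion_le ?_)
  refine le_trans (sum_le_card_nsmul _ _ ((Nat.log g M1).choose j * (g - 1) ^ (j + 1)) ?_) ?_
  · intro a ha
    rw [mem_Icc] at ha
    rw [hN a j]
    exact Nat.mul_le_mul_right _ (Nat.choose_le_choose j ha.2)
  · rw [Nat.card_Icc, smul_eq_mul]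

theorem TOT_lo (g P P1 j : ℕ) (hg : 2 ≤ g) (hP1 : P1 ≠ 0)
    (hN : ∀ a j : ℕ, 1 ≤ a → (a - 1).choose j * (g - 1) ^ (j + 1) ≤
      2 * ((Ico (g ^ a) (g ^ (a + 1))).filter fun m => nz g m = j + 1 ∧ Even m).card) :
    (Nat.log g P1 - Nat.log g P - 1) * ((Nat.log g P).choose j * (g - 1) ^ (j + 1)) ≤
      2 * ((Icc (P + 1) P1).filter fun m => nz g m = j + 1 ∧ Even m).card := by
  have h1 : ((Ioo (Nat.log g P) (Nat.log g P1)).biUnion fun a =>
        (Ico (g ^ a) (g ^ (a + 1))).filter fun m => nz g m = j + 1 ∧ Even m) ⊆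
      ((Icc (P + 1) P1).filter fun m => nz g m = j + 1 ∧ Even m) := by
    intro m hm
    rw [mem_biUnion] at hm
    obtain ⟨a, ha, hm⟩ := hm
    rw [mem_Ioo] at ha
    rw [mem_filter, mem_Ico] at hm
    rw [mem_filter, mem_Icc]
    refine ⟨⟨?_, ?_⟩, hm.2⟩
    · have h2 : P < g ^ (Nat.log g P + 1) := Nat.lt_pow_succ_log_self (by omega) P
      have h3 : g ^ (Nat.log g P + 1) ≤ g ^ a := Nat.pow_le_pow_right (by omega) ha.1
      omega
    · have h2 : g ^ Nat.log g P1 ≤ P1 := Nat.pow_log_le_self g hP1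
      have h3 : g ^ (a + 1) ≤ g ^ Nat.log g P1 := Nat.pow_le_pow_right (by omega) ha.2
      omega
  have h4 : ((Ioo (Nat.log g P) (Nat.log g P1)).biUnion fun a =>
        (Ico (g ^ a) (g ^ (a + 1))).filter fun m => nz g m = j + 1 ∧ Even m).card =
      ∑ a ∈ Ioo (Nat.log g P) (Nat.log g P1),
        ((Ico (g ^ a) (g ^ (a + 1))).filter fun m => nz g m = j + 1 ∧ Even m).card := by
    refine card_biUnion ?_
    intro a _ b _ hab
    change Disjoint _ _
    rw [disjoint_left]
    intro m hma hmb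
    rw [mem_filter, mem_Ico] at hma hmb
    apply hab
    rcases lt_trichotomy a b with h | h | h
    · have h3 : g ^ (a + 1) ≤ g ^ b := Nat.pow_le_pow_right (by omega) h
      omega
    · exact h
    · have h3 : g ^ (b + 1) ≤ g ^ a := Nat.pow_le_pow_right (by omega) h
      omega
  have h5 : (Nat.log g P1 - Nat.log g P - 1) * ((Nat.log g P).choose j * (g - 1) ^ (j + 1)) ≤
      ∑ a ∈ Ioo (Nat.log g P) (Nat.log g P1),
        2 * ((Ico (g ^ a) (g ^ (a + 1))).filter fun m => nz g m = j + 1 ∧ Even m).card := by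
    have h6 := card_nsmul_le_sum (Ioo (Nat.log g P) (Nat.log g P1))
      (fun a => 2 * ((Ico (g ^ a) (g ^ (a + 1))).filter fun m => nz g m = j + 1 ∧ Even m).card)
      ((Nat.log g P).choose j * (g - 1) ^ (j + 1)) ?_
    · rw [Nat.card_Ioo, smul_eq_mul] at h6
      exact h6
    · intro a ha
      rw [mem_Ioo] at ha
      refine le_trans ?_ (hN a j (by omega))
      exact Nat.mul_le_mul_right _ (Nat.choose_le_choose j (by omega))
  refine le_trans h5 ?_
  rw [← mul_sum, ← h4]
  exact Nat.mul_le_mul_left 2 (card_le_card h1)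

theorem p_TOT (hT : Stmt_NZT) : Stmt_TOT := by
  intro g hg
  refine ⟨g ^ 2, ?_⟩
  intro n j hn
  have hpos := prml_pos n
  have hlog : Nat.log g (prml n) + 2 ≤ Nat.log g (prml (n + 1) + 1) := by
    refine Nat.le_log_of_pow_le (by omega) ?_
    have h1 : g ^ Nat.log g (prml n) ≤ prml n := Nat.pow_log_le_self g (by omega)
    have h2 : n ≤ Nat.nth Nat.Prime n := (Nat.nth_strictMono Nat.infinite_setOfPred_prime).le_apply
    calc g ^ (Nat.log g (prml n) + 2) = g ^ Nat.log g (prml n) * g ^ 2 := by rw [pow_add]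
      _ ≤ prml n * Nat.nth Nat.Prime n := Nat.mul_le_mul h1 (le_trans hn h2)
      _ = prml (n + 1) := (prml_succ n).symm
      _ ≤ prml (n + 1) + 1 := Nat.le_succ _
  have hg1 : ((g - 1 : ℕ) : ℝ) = (g : ℝ) - 1 := by
    rw [Nat.cast_sub (by omega), Nat.cast_one]
  constructor
  · have h1 := TOT_up g (Nat.log g (prml n)) (prml (n + 1) + 1) j hg (fun a j => (hT g a j hg).1)
    have h2 : (((Icc (g ^ Nat.log g (prml n)) (prml (n + 1) + 1)).filter
        fun N => nz g N = j + 1).card : ℝ) ≤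
        (((Nat.log g (prml (n + 1) + 1) + 1 - Nat.log g (prml n)) *
          ((Nat.log g (prml (n + 1) + 1)).choose j * (g - 1) ^ (j + 1)) : ℕ) : ℝ) := by
      exact_mod_cast h1
    rw [Nat.cast_mul, Nat.cast_mul, Nat.cast_pow, hg1] at h2
    exact h2
  · have h1 := TOT_lo g (prml n) (prml (n + 1) + 1) j hg (by omega)
      (fun a j => (hT g a j hg).2)
    have h3 : ((evensIn (n + 1)).filter fun m => nz g m = j + 1) =
        ((Icc (prml n + 1) (prml (n + 1) + 1)).filter fun m => nz g m = j + 1 ∧ Even m) := by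
      unfold evensIn primorialInterval
      rw [filter_filter]
      rw [show n + 1 - 1 = n from rfl]
      refine filter_congr fun m _ => ?_
      exact and_comm
    rw [h3]
    have h4 : om g n * ((Nat.log g (prml n)).choose j * (g - 1) ^ (j + 1)) ≤
        6 * ((Icc (prml n + 1) (prml (n + 1) + 1)).filter
          fun m => nz g m = j + 1 ∧ Even m).card := by
      have h5 : om g n ≤ 3 * (Nat.log g (prml (n + 1) + 1) - Nat.log g (prml n) - 1) := by
        unfold om
        omega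
      calc om g n * ((Nat.log g (prml n)).choose j * (g - 1) ^ (j + 1))
          ≤ 3 * (Nat.log g (prml (n + 1) + 1) - Nat.log g (prml n) - 1) *
            ((Nat.log g (prml n)).choose j * (g - 1) ^ (j + 1)) := Nat.mul_le_mul_right _ h5
        _ = 3 * ((Nat.log g (prml (n + 1) + 1) - Nat.log g (prml n) - 1) *
            ((Nat.log g (prml n)).choose j * (g - 1) ^ (j + 1))) := by ring
        _ ≤ 3 * (2 * _) := Nat.mul_le_mul_left 3 h1
        _ = 6 * _ := by ring
    have h6 : ((om g n * ((Nat.log g (prml n)).choose j * (g - 1) ^ (j + 1)) : ℕ) : ℝ) ≤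
        ((6 * ((Icc (prml n + 1) (prml (n + 1) + 1)).filter
          fun m => nz g m = j + 1 ∧ Even m).card : ℕ) : ℝ) := by
      exact_mod_cast h4
    rw [Nat.cast_mul, Nat.cast_mul, Nat.cast_mul, Nat.cast_pow, hg1, Nat.cast_ofNat] at h6
    exact h6

end Pool.TP
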