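import Pool.Agent.Work.MP_484fb8_tp.Interface

set_option autoImplicit false

/-! # TypicalPowers: block VBD (elementary inequality) -/

namespace Pool.TP

open Finset
open Pool.Agent.Circle (e)
open Pool.Agent.PS (th)
open Pool.Agent.Work.MP_484fb8_nt
open scoped Classical

theorem VBD_amgm (a b c d : ℝ) : a * b * c * d ≤ (a ^ 4 + b ^ 4 + c ^ 4 + d ^ 4) / 4 := by
  nlinarith [sq_nonneg (a * b - c * d), sq_nonneg (a ^ 2 - b ^ 2), sq_nonneg (c ^ 2 - d ^ 2)]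

theorem VBD_emod {R : ℕ} {g : ℤ → ℝ} (hg : ∀ j, g (j + R) = g j) (j : ℤ) : g (j % R) = g j := by
  have h : Function.Periodic g (R : ℤ) := hg
  have h1 := h.sub_zsmul_eq (x := j) (j / R)
  rw [← h1, Int.emod_def]
  congr 2
  simp [mul_comm]

/-- The exceptional integers. -/
def VBD_E {ι : Type} (γ : ι → ℤ → ℝ) (t : ℝ) (j : ℤ) : Prop := ∃ i, t < γ i j

theorem VBD_count {R : ℕ} {ι : Type} (γ : ι → ℤ → ℝ) (t : ℝ) (hR : 0 < R)
    (hγ : ∀ i j, γ i (j + R) = γ i j) (k : ℕ) :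
    ((range R).filter fun l : ℕ => VBD_E γ t ((k : ℤ) - l)).card ≤
      ((range R).filter fun j : ℕ => VBD_E γ t j).card := by
  have hRz : (0 : ℤ) < R := by exact_mod_cast hR
  have hnn : ∀ l : ℕ, 0 ≤ ((k : ℤ) - l) % R := fun l => Int.emod_nonneg _ hRz.ne'
  apply Finset.card_le_card_of_injOn (fun l : ℕ => (((k : ℤ) - l) % R).toNat)
  · intro l hl
    have hl' := Finset.mem_filter.mp (Finset.mem_coe.mp hl)
    obtain ⟨hl1, i, hi⟩ := hl'
    apply Finset.mem_coe.mpr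
    rw [mem_filter, mem_range]
    refine ⟨?_, i, ?_⟩
    · have h1 : ((k : ℤ) - l) % R < R := Int.emod_lt_of_pos _ hRz
      have h2 := hnn l
      show (((k : ℤ) - l) % R).toNat < R
      omega
    · have h3 : ((((k : ℤ) - l) % R).toNat : ℤ) = ((k : ℤ) - l) % R := Int.toNat_of_nonneg (hnn l)
      rw [h3, VBD_emod (hγ i)]
      exact hi
  · intro l hl l' hl' hll
    have h1 := (Finset.mem_filter.mp (Finset.mem_coe.mp hl)).1
    have h2 := (Finset.mem_filter.mp (Finset.mem_coe.mp hl')).1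
    rw [mem_range] at h1 h2
    have h3 : ((k : ℤ) - l) % R = ((k : ℤ) - l') % R := by
      have h4 : ((((k : ℤ) - l) % R).toNat : ℤ) = ((((k : ℤ) - l') % R).toNat : ℤ) := by
        exact_mod_cast hll
      rwa [Int.toNat_of_nonneg (hnn l), Int.toNat_of_nonneg (hnn l')] at h4
    have h5 : (R : ℤ) ∣ ((k : ℤ) - l') - ((k : ℤ) - l) := Int.ModEq.dvd h3
    have h6 : ((k : ℤ) - l') - ((k : ℤ) - l) = l - l' := by ring
    rw [h6] at h5
    have h7 : (l : ℤ) - l' = 0 := by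
      apply Int.eq_zero_of_abs_lt_dvd h5
      rw [abs_lt]
      constructor <;> omega
    omega

theorem VBD_bad {R : ℕ} (F S₂ : ℕ → ℝ) (p : ℕ → ℕ → Prop) (U N W : ℝ)
    (hN : 0 ≤ N) (h0 : ∀ k, 0 ≤ F k ∧ 0 ≤ S₂ k)
    (hF : ∀ k ∈ range R, F k ≤ U * S₂ k)
    (hc : ∀ k ∈ range R, (((range R).filter fun l => p k l).card : ℝ) ≤ N)
    (hc' : ∀ l ∈ range R, (((range R).filter fun k => p k l).card : ℝ) ≤ N)
    (hW : ∑ k ∈ range R, S₂ k ^ 2 ≤ W) :
    ∑ k ∈ range R, ∑ l ∈ range R, (if p k l then F k * F l else 0) ≤ N * (U ^ 2 * W) := by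
  have hFsq : ∑ k ∈ range R, F k ^ 2 ≤ U ^ 2 * W := by
    calc ∑ k ∈ range R, F k ^ 2 ≤ ∑ k ∈ range R, U ^ 2 * S₂ k ^ 2 := by
          refine sum_le_sum fun k hk => ?_
          rw [← mul_pow]
          exact pow_le_pow_left₀ (h0 k).1 (hF k hk) 2
      _ = U ^ 2 * ∑ k ∈ range R, S₂ k ^ 2 := by rw [mul_sum]
      _ ≤ _ := by gcongr
  have h1 : ∀ k l, (if p k l then F k * F l else 0) ≤
      (if p k l then F k ^ 2 / 2 else 0) + (if p k l then F l ^ 2 / 2 else 0) := by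
    intro k l
    split_ifs
    · nlinarith [sq_nonneg (F k - F l)]
    · simp
  have h2 : ∑ k ∈ range R, ∑ l ∈ range R, (if p k l then F k ^ 2 / 2 else 0) ≤
      N * (U ^ 2 * W) / 2 := by
    calc ∑ k ∈ range R, ∑ l ∈ range R, (if p k l then F k ^ 2 / 2 else 0)
        = ∑ k ∈ range R, (((range R).filter fun l => p k l).card : ℝ) * (F k ^ 2 / 2) := by
          refine sum_congr rfl fun k _ => ?_
          rw [← sum_filter, sum_const, nsmul_eq_mul]
      _ ≤ ∑ k ∈ range R, N * (F k ^ 2 / 2) := by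
          refine sum_le_sum fun k hk => ?_
          exact mul_le_mul_of_nonneg_right (hc k hk) (by positivity)
      _ = N * (∑ k ∈ range R, F k ^ 2) / 2 := by
          rw [mul_sum, sum_div]
          refine sum_congr rfl fun k _ => ?_
          ring
      _ ≤ _ := by gcongr
  have h3 : ∑ k ∈ range R, ∑ l ∈ range R, (if p k l then F l ^ 2 / 2 else 0) ≤
      N * (U ^ 2 * W) / 2 := by
    rw [sum_comm]
    calc ∑ l ∈ range R, ∑ k ∈ range R, (if p k l then F l ^ 2 / 2 else 0)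
        = ∑ l ∈ range R, (((range R).filter fun k => p k l).card : ℝ) * (F l ^ 2 / 2) := by
          refine sum_congr rfl fun l _ => ?_
          rw [← sum_filter, sum_const, nsmul_eq_mul]
      _ ≤ ∑ l ∈ range R, N * (F l ^ 2 / 2) := by
          refine sum_le_sum fun k hk => ?_
          exact mul_le_mul_of_nonneg_right (hc' k hk) (by positivity)
      _ = N * (∑ k ∈ range R, F k ^ 2) / 2 := by
          rw [mul_sum, sum_div]
          refine sum_congr rfl fun k _ => ?_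
          ring
      _ ≤ _ := by gcongr
  calc ∑ k ∈ range R, ∑ l ∈ range R, (if p k l then F k * F l else 0)
      ≤ ∑ k ∈ range R, ∑ l ∈ range R, ((if p k l then F k ^ 2 / 2 else 0) +
        (if p k l then F l ^ 2 / 2 else 0)) :=
        sum_le_sum fun k _ => sum_le_sum fun l _ => h1 k l
    _ = ∑ k ∈ range R, ∑ l ∈ range R, (if p k l then F k ^ 2 / 2 else 0) +
        ∑ k ∈ range R, ∑ l ∈ range R, (if p k l then F l ^ 2 / 2 else 0) := by
        rw [← sum_add_distrib]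
        refine sum_congr rfl fun k _ => ?_
        rw [sum_add_distrib]
    _ ≤ N * (U ^ 2 * W) / 2 + N * (U ^ 2 * W) / 2 := add_le_add h2 h3
    _ = _ := by ring

theorem VBD_good {R : ℕ} (F S₁ S₂ : ℕ → ℝ) (g : Fin 4 → ℤ → ℝ) (Q : ℝ)
    (h0 : ∀ k, 0 ≤ F k ∧ 0 ≤ S₁ k ∧ 0 ≤ S₂ k)
    (hF : ∀ k ∈ range R, F k ≤ S₁ k * S₂ k)
    (hg : ∀ i j, 0 ≤ g i j ∧ g i (-j) = g i j)
    (hQ : ∀ i, ∑ k ∈ range R, ∑ l ∈ range R,
      S₁ k ^ 2 * S₂ l ^ 2 * g i ((k : ℤ) - l) ^ 4 ≤ Q) :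
    ∑ k ∈ range R, ∑ l ∈ range R, F k * F l * ∏ i, g i ((k : ℤ) - l) ≤ Q := by
  have h1 : ∀ k ∈ range R, ∀ l ∈ range R, F k * F l * ∏ i, g i ((k : ℤ) - l) ≤
      ∑ i, ((1 / 8) * (S₁ k ^ 2 * S₂ l ^ 2 * g i ((k : ℤ) - l) ^ 4) +
        (1 / 8) * (S₁ l ^ 2 * S₂ k ^ 2 * g i ((l : ℤ) - k) ^ 4)) := by
    intro k hk l hl
    have h2 : F k * F l ≤ (S₁ k ^ 2 * S₂ l ^ 2 + S₁ l ^ 2 * S₂ k ^ 2) / 2 := by
      calc F k * F l ≤ (S₁ k * S₂ k) * (S₁ l * S₂ l) :=
            mul_le_mul (hF k hk) (hF l hl) (h0 l).1 (mul_nonneg (h0 k).2.1 (h0 k).2.2)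
        _ ≤ _ := by nlinarith [sq_nonneg (S₁ k * S₂ l - S₁ l * S₂ k)]
    have h3 : ∏ i, g i ((k : ℤ) - l) ≤ (∑ i, g i ((k : ℤ) - l) ^ 4) / 4 := by
      rw [Fin.prod_univ_four, Fin.sum_univ_four]
      exact VBD_amgm _ _ _ _
    have h4 : 0 ≤ ∏ i, g i ((k : ℤ) - l) := prod_nonneg fun i _ => (hg i _).1
    have h5 : 0 ≤ S₁ k ^ 2 * S₂ l ^ 2 + S₁ l ^ 2 * S₂ k ^ 2 := by positivity
    have h6 : ∀ i, g i ((l : ℤ) - k) = g i ((k : ℤ) - l) := by
      intro i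
      rw [← (hg i ((k : ℤ) - l)).2]
      congr 1
      ring
    calc F k * F l * ∏ i, g i ((k : ℤ) - l)
        ≤ ((S₁ k ^ 2 * S₂ l ^ 2 + S₁ l ^ 2 * S₂ k ^ 2) / 2) *
          ((∑ i, g i ((k : ℤ) - l) ^ 4) / 4) :=
          mul_le_mul h2 h3 h4 (by positivity)
      _ = _ := by
          rw [sum_div, mul_sum]
          refine sum_congr rfl fun i _ => ?_
          rw [h6 i]
          ring
  have h7 : ∀ i, ∑ k ∈ range R, ∑ l ∈ range R,
      S₁ l ^ 2 * S₂ k ^ 2 * g i ((l : ℤ) - k) ^ 4 ≤ Q := by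
    intro i
    rw [sum_comm]
    exact hQ i
  calc ∑ k ∈ range R, ∑ l ∈ range R, F k * F l * ∏ i, g i ((k : ℤ) - l)
      ≤ ∑ k ∈ range R, ∑ l ∈ range R,
        ∑ i, ((1 / 8) * (S₁ k ^ 2 * S₂ l ^ 2 * g i ((k : ℤ) - l) ^ 4) +
        (1 / 8) * (S₁ l ^ 2 * S₂ k ^ 2 * g i ((l : ℤ) - k) ^ 4)) :=
        sum_le_sum fun k hk => sum_le_sum fun l hl => h1 k hk l hl
    _ = ∑ i, ((1 / 8) * ∑ k ∈ range R, ∑ l ∈ range R,
          (S₁ k ^ 2 * S₂ l ^ 2 * g i ((k : ℤ) - l) ^ 4) +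
        (1 / 8) * ∑ k ∈ range R, ∑ l ∈ range R,
          (S₁ l ^ 2 * S₂ k ^ 2 * g i ((l : ℤ) - k) ^ 4)) := by
        have h8 : ∀ k ∈ range R, ∑ l ∈ range R,
            ∑ i, ((1 / 8) * (S₁ k ^ 2 * S₂ l ^ 2 * g i ((k : ℤ) - l) ^ 4) +
            (1 / 8) * (S₁ l ^ 2 * S₂ k ^ 2 * g i ((l : ℤ) - k) ^ 4)) =
            ∑ i, ∑ l ∈ range R, ((1 / 8) * (S₁ k ^ 2 * S₂ l ^ 2 * g i ((k : ℤ) - l) ^ 4) +
            (1 / 8) * (S₁ l ^ 2 * S₂ k ^ 2 * g i ((l : ℤ) - k) ^ 4)) :=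
          fun k _ => sum_comm
        rw [sum_congr rfl h8, sum_comm]
        refine sum_congr rfl fun i _ => ?_
        rw [mul_sum, mul_sum, ← sum_add_distrib]
        refine sum_congr rfl fun k _ => ?_
        rw [mul_sum, mul_sum, ← sum_add_distrib]
    _ ≤ ∑ _i : Fin 4, ((1 / 8) * Q + (1 / 8) * Q) := by
        refine sum_le_sum fun i _ => ?_
        have := hQ i
        have := h7 i
        linarith
    _ = Q := by
        rw [Fin.sum_univ_four]
        ring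

theorem p_VBD : Stmt_VBD := by
  intro R ι _ F S₁ S₂ γ U η Q T W hR hcard hU hη0 hη1 h0 hF hγ hQ hT hW
  have hRr : (0 : ℝ) < R := by exact_mod_cast hR
  obtain ⟨f⟩ := Function.Embedding.nonempty_of_card_le (α := Fin 4) (β := ι) (by simpa using hcard)
  set I : Finset ι := Finset.univ.map f with hI
  have hIc : I.card = 4 := by rw [hI, card_map]; simp
  have hRT : (0 : ℝ) ≤ R * T := le_trans (Nat.cast_nonneg _) hT
  set q := (1 - η) ^ (Fintype.card ι - 4) with hq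
  have hq0 : 0 ≤ q := pow_nonneg (by linarith) _
  -- the pointwise bound
  have hpt : ∀ k l : ℕ, F k * F l * ∏ i, γ i ((k : ℤ) - l) ≤
      (if VBD_E γ (1 - η) ((k : ℤ) - l) then F k * F l else 0) +
        q * (F k * F l * ∏ j, γ (f j) ((k : ℤ) - l)) := by
    intro k l
    have hFF : 0 ≤ F k * F l := mul_nonneg (h0 k).1 (h0 l).1
    have h1 : 0 ≤ ∏ j, γ (f j) ((k : ℤ) - l) := prod_nonneg fun j _ => (hγ _ _).1
    by_cases hp : VBD_E γ (1 - η) ((k : ℤ) - l)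
    · rw [if_pos hp]
      have h2 : ∏ i, γ i ((k : ℤ) - l) ≤ 1 :=
        prod_le_one (fun i _ => (hγ _ _).1) fun i _ => (hγ _ _).2.1
      have h3 : 0 ≤ q * (F k * F l * ∏ j, γ (f j) ((k : ℤ) - l)) := by positivity
      nlinarith
    · rw [if_neg hp, zero_add]
      unfold VBD_E at hp
      push Not at hp
      have h2 : ∏ i, γ i ((k : ℤ) - l) ≤ (∏ j, γ (f j) ((k : ℤ) - l)) * q := by
        rw [← prod_mul_prod_compl I]
        have h3 : ∏ i ∈ I, γ i ((k : ℤ) - l) = ∏ j, γ (f j) ((k : ℤ) - l) := by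
          rw [hI, prod_map]
        rw [h3]
        apply mul_le_mul_of_nonneg_left _ h1
        have h4 : ∏ i ∈ Iᶜ, γ i ((k : ℤ) - l) ≤ ∏ _i ∈ Iᶜ, (1 - η) :=
          prod_le_prod (fun i _ => (hγ _ _).1) fun i _ => hp i
        rwa [prod_const, card_compl, hIc] at h4
      calc F k * F l * ∏ i, γ i ((k : ℤ) - l)
          ≤ F k * F l * ((∏ j, γ (f j) ((k : ℤ) - l)) * q) := by gcongr
        _ = _ := by ring
  have hgood := VBD_good (R := R) F S₁ S₂ (fun j => γ (f j)) ((R : ℝ) ^ 2 * Q) h0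
    (fun k hk => (hF k hk).1) (fun i j => ⟨(hγ _ _).1, (hγ _ _).2.2.1⟩) (fun i => by
      have h1 := hQ (f i)
      have h2 : (0 : ℝ) < (R : ℝ) ^ 2 := by positivity
      rw [one_div, inv_pow, inv_mul_le_iff₀ h2] at h1
      exact h1)
  have hW' : ∑ k ∈ range R, S₂ k ^ 2 ≤ R * W := by
    rw [one_div, inv_mul_le_iff₀ hRr] at hW
    exact hW
  have hT' : (((range R).filter fun j : ℕ => VBD_E γ (1 - η) j).card : ℝ) ≤ R * T := by
    refine le_trans (Nat.cast_le.mpr (card_le_card fun j hj => ?_)) hT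
    rw [mem_filter] at hj ⊢
    exact hj
  have hbad := VBD_bad (R := R) F S₂ (fun k l => VBD_E γ (1 - η) ((k : ℤ) - l)) U (R * T) (R * W)
    hRT (fun k => ⟨(h0 k).1, (h0 k).2.2⟩) (fun k hk => (hF k hk).2)
    (fun k _ => le_trans (by
      exact_mod_cast VBD_count γ (1 - η) hR (fun i j => (hγ i j).2.2.2) k) hT')
    (fun l _ => le_trans (by
      have h1 := VBD_count γ (1 - η) hR (fun i j => (hγ i j).2.2.2) l
      have h2 : ((range R).filter fun k : ℕ => VBD_E γ (1 - η) ((k : ℤ) - l)) =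
          ((range R).filter fun k : ℕ => VBD_E γ (1 - η) ((l : ℤ) - k)) := by
        refine filter_congr fun k _ => ?_
        have h3 : ∀ i, γ i ((k : ℤ) - l) = γ i ((l : ℤ) - k) := by
          intro i
          rw [← (hγ i ((l : ℤ) - k)).2.2.1]
          congr 1
          ring
        unfold VBD_E
        simp only [h3]
      rw [h2]
      exact_mod_cast h1) hT') hW'
  have hsum : ∑ k ∈ range R, ∑ l ∈ range R, F k * F l * ∏ i, γ i ((k : ℤ) - l) ≤
      (R * T) * (U ^ 2 * (R * W)) + q * ((R : ℝ) ^ 2 * Q) := by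
    calc ∑ k ∈ range R, ∑ l ∈ range R, F k * F l * ∏ i, γ i ((k : ℤ) - l)
        ≤ ∑ k ∈ range R, ∑ l ∈ range R,
          ((if VBD_E γ (1 - η) ((k : ℤ) - l) then F k * F l else 0) +
          q * (F k * F l * ∏ j, γ (f j) ((k : ℤ) - l))) :=
          sum_le_sum fun k _ => sum_le_sum fun l _ => hpt k l
      _ = ∑ k ∈ range R, ∑ l ∈ range R,
            (if VBD_E γ (1 - η) ((k : ℤ) - l) then F k * F l else 0) +
          q * ∑ k ∈ range R, ∑ l ∈ range R, F k * F l * ∏ j, γ (f j) ((k : ℤ) - l) := by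
          rw [mul_sum, ← sum_add_distrib]
          refine sum_congr rfl fun k _ => ?_
          rw [mul_sum, ← sum_add_distrib]
      _ ≤ _ := add_le_add hbad (by gcongr)
  have h2 : (0 : ℝ) < (R : ℝ) ^ 2 := by positivity
  rw [one_div, inv_pow, inv_mul_le_iff₀ h2]
  calc ∑ k ∈ range R, ∑ l ∈ range R, F k * F l * ∏ i, γ i ((k : ℤ) - l)
      ≤ (R * T) * (U ^ 2 * (R * W)) + q * ((R : ℝ) ^ 2 * Q) := hsum
    _ = _ := by ring

end Pool.TP
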