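import Pool.Agent.Work.MP_484fb8_tp.Interface
import Pool.Agent.Work.PS.LINW1

set_option autoImplicit false

/-! # Block VFT of TypicalPowers: finite Fourier inversion over the box of the exponents -/

namespace Pool.TP

open Finset
open Pool.Agent.Circle (e)
open Pool.Agent.PS (th)
open Pool.Agent.Work.MP_484fb8_nt
open scoped Classical

theorem VFT_gg_neg (g L : ℕ) (x : ℝ) : ‖Gg g L (-x)‖ = ‖Gg g L x‖ := by
  have h : Gg g L (-x) = (starRingEnd ℂ) (Gg g L x) := by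
    unfold Gg
    rw [map_sum]
    refine sum_congr rfl fun v _ => ?_
    rw [Pool.Agent.Circle.conj_e]
    congr 1
    ring
  rw [h, RCLike.norm_conj]

theorem VFT_e_sum {ι : Type} (s : Finset ι) (f : ι → ℝ) : e (∑ i ∈ s, f i) = ∏ i ∈ s, e (f i) := by
  induction s using Finset.induction_on with
  | empty => simp [Pool.Agent.Circle.e_zero]
  | insert a s ha ih => rw [sum_insert ha, prod_insert ha, Pool.Agent.Circle.e_add, ih]

theorem VFT_box {ι : Type} [Fintype ι] (ℓ g : ι → ℕ) (b : ι → ℤ) (N : ℤ) (y : ℝ) :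
    ‖∑ v ∈ bx ℓ, e (-((vl N g b v : ℝ) * y))‖ = ∏ i, ‖Gg (g i) (ℓ i) (b i * y)‖ := by
  have h1 : ∀ v ∈ bx ℓ, e (-((vl N g b v : ℝ) * y)) =
      e (-((N : ℝ) * y)) * ∏ i, e ((g i : ℝ) ^ v i * (-(b i * y))) := by
    intro v _
    rw [← VFT_e_sum, ← Pool.Agent.Circle.e_add]
    congr 1
    unfold vl
    push_cast
    have : ∑ i, ((g i : ℝ) ^ v i * (-(b i * y))) = -((∑ i, (b i : ℝ) * (g i : ℝ) ^ v i) * y) := by
      rw [sum_mul, ← sum_neg_distrib]
      refine sum_congr rfl fun i _ => ?_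
      ring
    rw [this]
    ring
  rw [sum_congr rfl h1, ← mul_sum, norm_mul, Pool.Agent.Circle.norm_e, one_mul]
  unfold bx
  rw [← prod_univ_sum (fun i => Icc 1 (ℓ i)) (fun i x => e ((g i : ℝ) ^ x * (-(b i * y)))),
    norm_prod]
  refine prod_congr rfl fun i _ => ?_
  exact VFT_gg_neg (g i) (ℓ i) (b i * y)

/-- BLOCK VFT -/
theorem p_VFT : Stmt_VFT := by
  intro R D ι _ ℓ g b N hR hv
  set F : ℕ → ℂ := fun k => ∑ m ∈ range R, D m * e (m * ((k : ℝ) / R)) with hF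
  have key : ∀ v ∈ bx ℓ, ((‖D (vl N g b v).toNat‖ ^ 2 : ℝ) : ℂ) =
      (1 / (R : ℂ)) ^ 2 * ∑ k ∈ range R, ∑ l ∈ range R, (F k * (starRingEnd ℂ) (F l)) *
        e (-((vl N g b v : ℝ) * (((k : ℝ) - l) / R))) := by
    intro v hvb
    obtain ⟨h0, h1⟩ := hv v hvb
    have hm : (vl N g b v).toNat ∈ range R := by
      rw [mem_range]
      omega
    have hc : (((vl N g b v).toNat : ℕ) : ℝ) = (vl N g b v : ℝ) := by
      have : (((vl N g b v).toNat : ℕ) : ℤ) = vl N g b v := Int.toNat_of_nonneg h0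
      exact_mod_cast this
    have h2 := Pool.Agent.PS.Linw.inv_dft hR D hm
    rw [hc] at h2
    have h3 : ((‖D (vl N g b v).toNat‖ ^ 2 : ℝ) : ℂ) =
        D (vl N g b v).toNat * (starRingEnd ℂ) (D (vl N g b v).toNat) := by
      rw [Complex.mul_conj, Complex.normSq_eq_norm_sq]
    rw [h3, h2]
    rw [map_mul, map_sum]
    have h4 : (starRingEnd ℂ) (1 / (R : ℂ)) = 1 / (R : ℂ) := by simp
    rw [h4]
    rw [mul_mul_mul_comm, sum_mul_sum, ← pow_two]
    congr 1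
    refine sum_congr rfl fun k _ => sum_congr rfl fun l _ => ?_
    rw [map_mul, Pool.Agent.Circle.conj_e]
    have h5 : e (-((vl N g b v : ℝ) * (((k : ℝ) - l) / R))) =
        e (-((vl N g b v : ℝ) * ((k : ℝ) / R))) * e (- -((vl N g b v : ℝ) * ((l : ℝ) / R))) := by
      rw [← Pool.Agent.Circle.e_add]
      congr 1
      ring
    rw [h5]
    simp only [hF]
    ring
  have h6 : ((∑ v ∈ bx ℓ, ‖D (vl N g b v).toNat‖ ^ 2 : ℝ) : ℂ) =
      (1 / (R : ℂ)) ^ 2 * ∑ k ∈ range R, ∑ l ∈ range R, (F k * (starRingEnd ℂ) (F l)) *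
        ∑ v ∈ bx ℓ, e (-((vl N g b v : ℝ) * (((k : ℝ) - l) / R))) := by
    rw [Complex.ofReal_sum, sum_congr rfl key, ← mul_sum, sum_comm]
    congr 1
    refine sum_congr rfl fun k _ => ?_
    rw [sum_comm]
    refine sum_congr rfl fun l _ => ?_
    rw [mul_sum]
  have h7 : ∑ v ∈ bx ℓ, ‖D (vl N g b v).toNat‖ ^ 2 =
      ‖((∑ v ∈ bx ℓ, ‖D (vl N g b v).toNat‖ ^ 2 : ℝ) : ℂ)‖ := by
    rw [Complex.norm_real, Real.norm_of_nonneg]
    exact sum_nonneg fun v _ => by positivity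
  rw [h7, h6, norm_mul]
  have h8 : ‖(1 / (R : ℂ)) ^ 2‖ = (1 / (R : ℝ)) ^ 2 := by
    rw [norm_pow, norm_div, norm_one, Complex.norm_natCast]
  rw [h8]
  refine mul_le_mul_of_nonneg_left ?_ (by positivity)
  refine (norm_sum_le _ _).trans (sum_le_sum fun k _ => ?_)
  refine (norm_sum_le _ _).trans (sum_le_sum fun l _ => ?_)
  rw [norm_mul, norm_mul, RCLike.norm_conj, VFT_box]

end Pool.TP
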