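import Pool.Agent.Work.MP_484fb8_tp.Interface
import Pool.Agent.Work.PS.MainC

set_option autoImplicit false

/-! # TypicalPowers (MP_484fb8_nt), block WDT (helper25): the window -/

namespace Pool.TP

open Finset ArithmeticFunction Metric
open Pool.Agent.Circle (e)
open Pool.Agent.PS
open Pool.Agent.Work.MP_484fb8_nt
open scoped Classical

theorem WDT_sqf (s : Finset ℕ) (hs : ∀ p ∈ s, p.Prime) : Squarefree (∏ p ∈ s, p) := by
  induction s using Finset.induction_on with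
  | empty => simp
  | insert a s ha ih =>
    rw [Finset.prod_insert ha, Nat.squarefree_mul_iff]
    have hap : a.Prime := hs a (Finset.mem_insert_self a s)
    refine ⟨?_, hap.prime.squarefree, ih fun p hp => hs p (Finset.mem_insert_of_mem hp)⟩
    refine Nat.Coprime.prod_right fun p hp => ?_
    have hpp : p.Prime := hs p (Finset.mem_insert_of_mem hp)
    rw [Nat.coprime_primes hap hpp]
    rintro rfl
    exact ha hp

theorem WDT_rad5 (D : ℕ) : Squarefree (rad5 D) := by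
  unfold rad5
  refine WDT_sqf _ fun p hp => ?_
  rw [mem_filter] at hp
  exact Nat.prime_of_mem_primeFactors hp.1

/-- the exceptional integer -/
noncomputable def WDT_r (E : Option (Ch × ℝ)) (X : ℕ) : ℕ :=
  match E with
  | none => (Nat.exists_infinite_primes (X ^ 3 + 1)).choose
  | some (y, _) => rad5 y.1

theorem WDT_r_sqf (E : Option (Ch × ℝ)) (X : ℕ) : Squarefree (WDT_r E X) := by
  rcases E with _ | ⟨y, δ⟩
  · exact (Nat.exists_infinite_primes (X ^ 3 + 1)).choose_spec.2.prime.squarefree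
  · exact WDT_rad5 _

theorem WDT_r_le (E : Option (Ch × ℝ)) (X : ℕ) : WINB.rr E X ≤ WDT_r E X := by
  rcases E with _ | ⟨y, δ⟩
  · exact (Nat.exists_infinite_primes (X ^ 3 + 1)).choose_spec.1
  · exact le_rfl

theorem p_WDT : Stmt_WDT := by
  obtain ⟨εb, cb, Pb, hεb, hcb, hlowb⟩ := main_low2
  obtain ⟨θ, hθ, hθ1, X1, hws⟩ := main_wsb εb hεb
  obtain ⟨C, hC, hmin⟩ := stmt_MIN
  choose! PP EE hPlow0 hPup0 hE0 hE20 hW0 using hws
  obtain ⟨X2, hX2⟩ := log_pow_le_rpow 4 (θ / 32) (1 / C) (by positivity) (by positivity)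
  obtain ⟨X3, hX3⟩ := log_pow_le_rpow 3 (θ / 8) 1 (by positivity) (by positivity)
  have htend : Filter.Tendsto (fun X : ℕ => (X : ℝ) ^ (θ / 8)) Filter.atTop Filter.atTop :=
    (tendsto_rpow_atTop (by positivity)).comp tendsto_natCast_atTop_atTop
  obtain ⟨X4, hX4⟩ := Filter.eventually_atTop.1 (htend.eventually_ge_atTop (max Pb 2 : ℝ))
  obtain ⟨n0, hn0⟩ := stmt_DIVB (θ / 128) (by positivity)
  refine ⟨cb / 2, θ / 32, fun X => WDT_r (EE X) X,
    max X1 (max X2 (max X3 (max X4 (max n0 1000)))), by positivity, by positivity, by linarith,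
    fun A => ?_, fun X => WDT_r_sqf _ _, fun X M hX hXM hM => ?_⟩
  · obtain ⟨X5, hX5⟩ := WINB.rr_growth stmt_RAD stmt_SIEG hθ A
    refine ⟨max X1 X5, fun X hX => ?_⟩
    have h1 : X1 ≤ X := (le_max_left _ _).trans hX
    refine (hX5 X ((le_max_right _ _).trans hX) (PP X) (EE X)
      (fun y δ h => (hE0 X h1 y δ h).1) (hE20 X h1)).trans ?_
    exact_mod_cast WDT_r_le (EE X) X
  simp only [max_le_iff] at hX
  obtain ⟨hX1', hX2', hX3', hX4', hn0', hX1000⟩ := hX
  have hPlow := hPlow0 X hX1'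
  have hPup := hPup0 X hX1'
  have hE := hE0 X hX1'
  have hW := hW0 X hX1'
  generalize hPP : PP X = P at hPlow hPup hE hW
  generalize hEE : EE X = E at hE hW
  have hXr : (1000 : ℝ) ≤ X := by exact_mod_cast hX1000
  have hX0 : (0 : ℝ) < X := by linarith
  have hXp : 0 < X := by omega
  set l : ℝ := Real.log X with hl
  have hl0 : 0 ≤ l := Real.log_nonneg (by linarith)
  have h4 := hX2 X hX2'
  have h3 := hX3 X hX3'
  rw [← hl] at h4 h3
  rw [one_mul] at h3
  have hP02 := hX4 X hX4'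
  have hPr2 : (2 : ℝ) ≤ P := (le_max_right _ _).trans (hP02.trans hPlow)
  have hP2 : 2 ≤ P := by exact_mod_cast hPr2
  have hP0 : Pb ≤ P := by
    have : (Pb : ℝ) ≤ P := (le_max_left _ _).trans (hP02.trans hPlow)
    exact_mod_cast this
  have hPr : (0 : ℝ) < P := by linarith
  have hPX : P ^ 10 ≤ X := by
    have : (P : ℝ) ^ 10 ≤ X := by
      calc (P : ℝ) ^ 10 ≤ ((X : ℝ) ^ θ) ^ 10 := by gcongr
        _ = (X : ℝ) ^ (θ * 10) := by
            rw [← Real.rpow_natCast, ← Real.rpow_mul hX0.le]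
            norm_num
        _ ≤ (X : ℝ) ^ (1 : ℝ) := Real.rpow_le_rpow_of_exponent_le (by linarith) (by linarith)
        _ = X := Real.rpow_one _
    exact_mod_cast this
  have hL3P : l ^ 3 ≤ P := h3.trans hPlow
  have hPX2 : (2 : ℝ) * P ≤ X := by
    have h1 : P ^ 2 ≤ P ^ 10 := Nat.pow_le_pow_right (by omega) (by norm_num)
    have h5 : (P : ℝ) ^ 2 ≤ X := by exact_mod_cast h1.trans hPX
    have h6 : (2 : ℝ) * P ≤ P ^ 2 := by
      rw [pow_two]
      exact mul_le_mul_of_nonneg_right hPr2 hPr.le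
    linarith
  have hMP : (M : ℝ) ≤ X * P := by
    calc (M : ℝ) ≤ X * l ^ 3 := hM
      _ ≤ X * P := by gcongr
  have hMX2 : (M : ℝ) + X ≤ (X : ℝ) ^ 2 := by
    have h5 : (X : ℝ) * P ≤ X * (X / 2) := by
      apply mul_le_mul_of_nonneg_left _ hX0.le
      linarith
    have h6 : (X : ℝ) ≤ X * (X / 2) := by
      apply le_mul_of_one_le_right hX0.le
      linarith
    calc (M : ℝ) + X ≤ X * (X / 2) + X * (X / 2) := by linarith
      _ = (X : ℝ) ^ 2 := by ring
  -- the modulus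
  obtain ⟨R, H, hR, hHR, hHR2, hRX, hRM, hdiv, h4HP, hS1min⟩ :=
    Linw.arcs_setup hmin X M P hP2 hPX hXM
  set U : ℝ := C * (X / √(P : ℝ)) * l ^ 4 with hU
  have hU0 : 0 ≤ U := by positivity
  have hUle : U ≤ (X : ℝ) ^ (1 - θ / 32) := by
    have hsP : (X : ℝ) ^ (θ / 16) ≤ √(P : ℝ) := by
      apply Real.le_sqrt_of_sq_le
      refine le_trans (le_of_eq ?_) hPlow
      rw [← Real.rpow_natCast, ← Real.rpow_mul hX0.le]
      congr 1
      push_cast
      ring
    have hXθ : 0 < (X : ℝ) ^ (θ / 16) := by positivity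
    have h5 : C * l ^ 4 ≤ (X : ℝ) ^ (θ / 32) := by
      calc C * l ^ 4 ≤ C * (1 / C * (X : ℝ) ^ (θ / 32)) := by gcongr
        _ = (X : ℝ) ^ (θ / 32) := by field_simp
    have e1 : (X : ℝ) / (X : ℝ) ^ (θ / 16) = (X : ℝ) ^ (1 - θ / 16) := by
      rw [Real.rpow_sub hX0, Real.rpow_one]
    calc U ≤ C * (X / (X : ℝ) ^ (θ / 16)) * l ^ 4 := by
          rw [hU]
          gcongr
      _ = (C * l ^ 4) * (X : ℝ) ^ (1 - θ / 16) := by
          rw [e1]
          ring
      _ ≤ (X : ℝ) ^ (θ / 32) * (X : ℝ) ^ (1 - θ / 16) := by gcongr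
      _ = (X : ℝ) ^ (1 - θ / 32) := by
          rw [← Real.rpow_add hX0]
          congr 1
          ring
  have hI1 : ∀ n ∈ Ioc (X / 4) (X / 2), 4 * n < R := by
    intro n hn
    rw [mem_Ioc] at hn
    omega
  have hI2 : ∀ n ∈ Ioc (M - X / 2) M, 4 * n < R := by
    intro n hn
    rw [mem_Ioc] at hn
    omega
  have hDft := Linw.diff_ft (by omega : 0 < P) hR hdiv h4HP (Ioc (X / 4) (X / 2))
    (Ioc (M - X / 2) M) hI1 hI2 (fun n => (th n : ℂ)) (fun n => (th n : ℂ)) U hU0 hS1min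
  have hw1 := hW R H (X / 4) (X / 2) hR hHR (by omega) (by omega) (by omega) (by omega) (by
    have h1 : ((X / 2 : ℕ) : ℝ) ≤ X := by exact_mod_cast Nat.div_le_self X 2
    nlinarith)
  have hw2 := hW R H (M - X / 2) M hR hHR (by omega) (by omega) (by omega) (by omega) hMP
  refine ⟨R, fun a => cv (Ioc (X / 4) (X / 2)) (Ioc (M - X / 2) M) (fun n => (th n : ℂ))
      (fun n => (th n : ℂ)) a - Maj P R H (Ioc (X / 4) (X / 2)) (Ioc (M - X / 2) M)
        (fun n => (th n : ℂ)) (fun n => (th n : ℂ)) a, hRM, fun m hm hev hr => ?_,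
    fun k hk => ?_⟩
  · rw [mem_Ioc] at hm
    obtain ⟨hm1, hm2⟩ := hm
    have hdc : (m.divisors.card : ℝ) ≤ (P : ℝ) ^ (1 / 8 : ℝ) := by
      refine (hn0 m (by omega)).trans ?_
      have h6 : (m : ℝ) ≤ (X : ℝ) ^ 2 := by
        refine le_trans ?_ hMX2
        exact_mod_cast (by omega : m ≤ M + X)
      calc (m : ℝ) ^ (θ / 128) ≤ ((X : ℝ) ^ 2) ^ (θ / 128) :=
            Real.rpow_le_rpow (Nat.cast_nonneg _) h6 (by positivity)
        _ = ((X : ℝ) ^ (θ / 8)) ^ (1 / 8 : ℝ) := by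
            rw [← Real.rpow_natCast, ← Real.rpow_mul hX0.le, ← Real.rpow_mul hX0.le]
            congr 1
            push_cast
            ring
        _ ≤ (P : ℝ) ^ (1 / 8 : ℝ) := Real.rpow_le_rpow (by positivity) hPlow (by norm_num)
    have hQm : ∀ y δ, E = some (y, δ) → ∃ p : ℕ, p.Prime ∧ 5 ≤ p ∧ p ∣ y.1 ∧ ¬ p ∣ m := by
      intro y δ hy
      by_contra hcon
      push Not at hcon
      apply hr
      show WDT_r (EE X) X ∣ m
      rw [hEE, hy]
      exact WINB.rad5_dvd fun p hp h5 hd => hcon p hp h5 hd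
    have h1 := hlowb X P M m R H E hP0 hPX hR hHR hHR2 hXM hm1 hm2 hev (by omega) hdc hE hQm
      hw1 hw2
    have h5 := cv_window X M m hXM hm1 hm2
    have h6 := Complex.abs_re_le_norm (cv (Ioc (X / 4) (X / 2)) (Ioc (M - X / 2) M)
      (fun n => (th n : ℂ)) (fun n => (th n : ℂ)) m - Maj P R H (Ioc (X / 4) (X / 2))
        (Ioc (M - X / 2) M) (fun n => (th n : ℂ)) (fun n => (th n : ℂ)) m)
    have h7 := (abs_le.1 h6).1
    rw [Complex.sub_re] at h7
    have h8 : (cv (Ioc (X / 4) (X / 2)) (Ioc (M - X / 2) M)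
      (fun n => (th n : ℂ)) (fun n => (th n : ℂ)) m).re =
        ∑ a ∈ Ioc (X / 4) (X / 2), th a * th (m - a) := by
      rw [h5, Complex.ofReal_re]
    rw [h8] at h7
    have h9 : 2 * (cb / 2) * ((m : ℝ) / m.totient) * X = cb * ((m : ℝ) / m.totient) * X := by
      ring
    rw [h9]
    linarith
  · have e1 : X / 4 + (X / 2 - X / 4) = X / 2 := by omega
    have e2 : M - X / 2 + X / 2 = M := by omega
    have h1 : Sth (X / 4) (X / 2 - X / 4) ((k : ℝ) / R) =
        ∑ n ∈ Ioc (X / 4) (X / 2), (th n : ℂ) * e (n * ((k : ℝ) / R)) := by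
      unfold Sth
      rw [e1]
    have h2 : Sth (M - X / 2) (X / 2) ((k : ℝ) / R) =
        ∑ n ∈ Ioc (M - X / 2) M, (th n : ℂ) * e (n * ((k : ℝ) / R)) := by
      unfold Sth
      rw [e2]
    rw [h1, h2]
    obtain ⟨h5, h6⟩ := hDft k hk
    exact ⟨h5, h6.trans (mul_le_mul_of_nonneg_right hUle (norm_nonneg _))⟩

end Pool.TP
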