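import Pool.Agent.Work.MP_484fb8_tp.Interface
import Pool.Agent.Work.Circle.CircleIneq

set_option autoImplicit false

/-! # TypicalPowers, block WTH (helper54): the window theorem -/

namespace Pool.TP

open Finset
open Pool.Agent.Circle (e)
open Pool.Agent.PS (th)
open Pool.Agent.Work.MP_484fb8_nt
open scoped Classical

theorem WTH_Gg_le (g L : ℕ) (x : ℝ) : ‖Gg g L x‖ ≤ L := by
  unfold Gg
  refine (norm_sum_le _ _).trans ?_
  have h : ∑ v ∈ Icc 1 L, ‖e ((g : ℝ) ^ v * x)‖ = ∑ v ∈ Icc 1 L, (1 : ℝ) :=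
    sum_congr rfl fun v _ => Pool.Agent.Circle.norm_e _
  rw [h]
  simp

theorem WTH_Gg_neg (g L : ℕ) (x : ℝ) : ‖Gg g L (-x)‖ = ‖Gg g L x‖ := by
  have h : Gg g L (-x) = (starRingEnd ℂ) (Gg g L x) := by
    unfold Gg
    rw [map_sum]
    refine sum_congr rfl fun v _ => ?_
    rw [Pool.Agent.Circle.conj_e, mul_neg]
  rw [h]
  exact RCLike.norm_conj _

theorem WTH_Gg_add (g L : ℕ) (x : ℝ) (z : ℤ) : Gg g L (x + z) = Gg g L x := by
  unfold Gg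
  refine sum_congr rfl fun v _ => ?_
  have h : (g : ℝ) ^ v * (x + z) = (g : ℝ) ^ v * x + (((g : ℤ) ^ v * z : ℤ) : ℝ) := by
    push_cast
    ring
  rw [h, Pool.Agent.Circle.e_add_int]

theorem WTH_th {n M : ℕ} (h : n ≤ M) (hM : 1 ≤ M) : ‖((th n : ℝ) : ℂ)‖ ≤ Real.log M := by
  have h0 : 0 ≤ Real.log M := Real.log_nonneg (by exact_mod_cast hM)
  unfold th
  split_ifs with h1
  · rw [Complex.norm_real, Real.norm_of_nonneg (Real.log_nonneg (by exact_mod_cast h1.one_le))]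
    exact Real.log_le_log (by exact_mod_cast h1.pos) (by exact_mod_cast h)
  · simpa using h0

theorem WTH_par (R M n : ℕ) (hR : 0 < R) (hMR : M < R) (hn : n ≤ M) (hM : 1 ≤ M) :
    (1 / (R : ℝ)) * ∑ k ∈ range R, ‖Sth (M - n) n ((k : ℝ) / R)‖ ^ 2 ≤
      n * Real.log M ^ 2 := by
  have h := Pool.Agent.Circle.parseval R hR (Ioc (M - n) (M - n + n))
    (fun a ha => by
      have := (mem_Ioc.1 ha).2
      omega) (fun a => ((th a : ℝ) : ℂ))
  have h2 : ∑ k ∈ range R, ‖Sth (M - n) n ((k : ℝ) / R)‖ ^ 2 =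
      R * ∑ a ∈ Ioc (M - n) (M - n + n), ‖((th a : ℝ) : ℂ)‖ ^ 2 := h
  have hR0 : (0 : ℝ) < R := by exact_mod_cast hR
  rw [h2, ← mul_assoc, one_div, inv_mul_cancel₀ hR0.ne', one_mul]
  have h3 : ∑ a ∈ Ioc (M - n) (M - n + n), ‖((th a : ℝ) : ℂ)‖ ^ 2 ≤
      ∑ _a ∈ Ioc (M - n) (M - n + n), Real.log M ^ 2 := by
    refine sum_le_sum fun a ha => ?_
    have h4 := (mem_Ioc.1 ha).2
    exact pow_le_pow_left₀ (norm_nonneg _) (WTH_th (by omega) hM) 2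
  refine h3.trans (le_of_eq ?_)
  rw [sum_const, Nat.card_Ioc, nsmul_eq_mul]
  congr 2
  omega

/-- uniform constants for the large spectrum -/
theorem WTH_ugb (hGBG : Stmt_GBG) (B : ℕ) (w : ℝ) (hw : w < 1) : ∀ G : ℕ, ∃ η C : ℝ, 0 < η ∧
    η < 1 ∧ 0 < C ∧ ∀ g, 2 ≤ g → g ≤ G → ∀ (L R : ℕ) (b : ℤ), 1 ≤ L → g ^ L ≤ R → b ≠ 0 →
      |b| ≤ B → (((range R).filter fun k : ℕ => (1 - η) * L < ‖Gg g L (b * ((k : ℝ) / R))‖).card : ℝ)
      ≤ C * (R * (g : ℝ) ^ (-(w * L))) := by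
  intro G
  induction G with
  | zero =>
    refine ⟨1 / 2, 1, by norm_num, by norm_num, by norm_num, ?_⟩
    intro g h1 h2
    omega
  | succ G ih =>
    obtain ⟨η, C, h1, h2, h3, h4⟩ := ih
    by_cases hG : 2 ≤ G + 1
    · obtain ⟨η', C', h1', h2', h3', h4'⟩ := hGBG (G + 1) B w hG hw
      refine ⟨min η η', C + C', lt_min h1 h1', (min_le_left _ _).trans_lt h2, by linarith, ?_⟩
      intro g hg1 hg2 L R b hL hR hb hb2
      have hnn : 0 ≤ (R : ℝ) * (g : ℝ) ^ (-(w * L)) := by positivity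
      have hLn : (0 : ℝ) ≤ L := Nat.cast_nonneg _
      rcases Nat.lt_or_ge G g with h5 | h5
      · have h6 : g = G + 1 := by omega
        subst h6
        have h7 := h4' L R b hL hR hb hb2
        refine le_trans ?_ (h7.trans ?_)
        · refine Nat.cast_le.2 (card_le_card ?_)
          intro k hk
          rw [mem_filter] at hk ⊢
          refine ⟨hk.1, lt_of_le_of_lt ?_ hk.2⟩
          refine mul_le_mul_of_nonneg_right ?_ hLn
          have := min_le_right η η'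
          linarith
        · refine mul_le_mul_of_nonneg_right ?_ hnn
          linarith
      · have h7 := h4 g hg1 h5 L R b hL hR hb hb2
        refine le_trans ?_ (h7.trans ?_)
        · refine Nat.cast_le.2 (card_le_card ?_)
          intro k hk
          rw [mem_filter] at hk ⊢
          refine ⟨hk.1, lt_of_le_of_lt ?_ hk.2⟩
          refine mul_le_mul_of_nonneg_right ?_ hLn
          have := min_le_left η η'
          linarith
        · refine mul_le_mul_of_nonneg_right ?_ hnn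
          linarith
    · refine ⟨η, C, h1, h2, h3, ?_⟩
      intro g hg1 hg2
      omega

/-- uniform constants for the fourth moment -/
theorem WTH_usg (hSG : Stmt_SG4) (B : ℕ) : ∀ G : ℕ, ∃ C : ℝ, 0 < C ∧ ∀ g, 2 ≤ g → g ≤ G →
  ∀ (A₁ N₁ A₂ N₂ X L R : ℕ) (b : ℤ), 2 ≤ N₁ → 2 ≤ A₁ → A₁ + N₁ ≤ N₁ ^ 3 → 2 ≤ N₂ → 2 ≤ A₂ →
    A₂ + N₂ ≤ N₂ ^ 3 → N₁ ≤ X → N₂ ≤ X → 1 ≤ L → Real.log X ≤ 2 * g * L → b ≠ 0 → |b| ≤ B →
    X + 2 * B * g ^ L < R →
    (1 / (R : ℝ)) ^ 2 * ∑ k ∈ range R, ∑ l ∈ range R, ‖Sth A₁ N₁ ((k : ℝ) / R)‖ ^ 2 *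
      ‖Sth A₂ N₂ ((l : ℝ) / R)‖ ^ 2 * ‖Gg g L (b * (((k : ℝ) - l) / R))‖ ^ 4
      ≤ C * ((X : ℝ) ^ 2 * (L : ℝ) ^ 4) := by
  intro G
  induction G with
  | zero =>
    refine ⟨1, by norm_num, ?_⟩
    intro g h1 h2
    omega
  | succ G ih =>
    obtain ⟨C, h3, h4⟩ := ih
    by_cases hG : 2 ≤ G + 1
    · obtain ⟨C', h3', h4'⟩ := hSG (G + 1) B hG
      refine ⟨C + C', by linarith, ?_⟩
      intro g hg1 hg2 A₁ N₁ A₂ N₂ X L R b k1 k2 k3 k4 k5 k6 k7 k8 k9 k10 k11 k12 k13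
      have hnn : 0 ≤ (X : ℝ) ^ 2 * (L : ℝ) ^ 4 := by positivity
      rcases Nat.lt_or_ge G g with h5 | h5
      · have h6 : g = G + 1 := by omega
        subst h6
        refine (h4' A₁ N₁ A₂ N₂ X L R b k1 k2 k3 k4 k5 k6 k7 k8 k9 k10 k11 k12 k13).trans ?_
        exact mul_le_mul_of_nonneg_right (by linarith) hnn
      · refine (h4 g hg1 h5 A₁ N₁ A₂ N₂ X L R b k1 k2 k3 k4 k5 k6 k7 k8 k9 k10 k11 k12 k13).trans ?_
        exact mul_le_mul_of_nonneg_right (by linarith) hnn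
    · refine ⟨C, h3, ?_⟩
      intro g hg1 hg2
      omega

/-- the second moment -/
theorem WTH_V (hVFT : Stmt_VFT) (hVBD : Stmt_VBD) {G B : ℕ} {η C₁ C₂ w Y U : ℝ} (hη : 0 < η)
    (hη1 : η < 1) (hC₁ : 0 < C₁)
    (hGB : ∀ g, 2 ≤ g → g ≤ G → ∀ (L R : ℕ) (b : ℤ), 1 ≤ L → g ^ L ≤ R → b ≠ 0 →
      |b| ≤ B → (((range R).filter fun k : ℕ => (1 - η) * L < ‖Gg g L (b * ((k : ℝ) / R))‖).card : ℝ)
      ≤ C₁ * (R * (g : ℝ) ^ (-(w * L))))
    (hSG : ∀ g, 2 ≤ g → g ≤ G →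
      ∀ (A₁ N₁ A₂ N₂ X L R : ℕ) (b : ℤ), 2 ≤ N₁ → 2 ≤ A₁ → A₁ + N₁ ≤ N₁ ^ 3 → 2 ≤ N₂ → 2 ≤ A₂ →
      A₂ + N₂ ≤ N₂ ^ 3 → N₁ ≤ X → N₂ ≤ X → 1 ≤ L → Real.log X ≤ 2 * g * L → b ≠ 0 → |b| ≤ B →
      X + 2 * B * g ^ L < R →
      (1 / (R : ℝ)) ^ 2 * ∑ k ∈ range R, ∑ l ∈ range R, ‖Sth A₁ N₁ ((k : ℝ) / R)‖ ^ 2 *
        ‖Sth A₂ N₂ ((l : ℝ) / R)‖ ^ 2 * ‖Gg g L (b * (((k : ℝ) - l) / R))‖ ^ 4
        ≤ C₂ * ((X : ℝ) ^ 2 * (L : ℝ) ^ 4))
    (X M R : ℕ) (D : ℕ → ℂ) (ι : Type) [Fintype ι] (Lf : ℕ → ℕ) (g : ι → ℕ) (b : ι → ℤ) (N : ℤ)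
    (hX : 100 ≤ X) (hXM : X ≤ M) (hM : M ≤ (X / 2) ^ 3) (hR : 16 * M ≤ R)
    (hcard : 4 ≤ Fintype.card ι) (hadm : Adm G B g b) (hL1 : ∀ i, 1 ≤ Lf (g i))
    (hlog : ∀ i, Real.log X ≤ 2 * (g i : ℝ) * (Lf (g i) : ℝ))
    (hXB : ∀ i, 32 * B * (g i) ^ (Lf (g i)) ≤ X)
    (hY : ∀ i, (g i : ℝ) ^ (-(w * Lf (g i))) ≤ Y)
    (hvl : ∀ v ∈ bx (fun i => Lf (g i)), 0 ≤ vl N g b v ∧ vl N g b v < R) (hU : 0 ≤ U)
    (hF1 : ∀ k ∈ range R, ‖∑ m ∈ range R, D m * e (m * ((k : ℝ) / R))‖ ≤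
      ‖Sth (X / 4) (X / 2 - X / 4) ((k : ℝ) / R)‖ * ‖Sth (M - X / 2) (X / 2) ((k : ℝ) / R)‖)
    (hF2 : ∀ k ∈ range R, ‖∑ m ∈ range R, D m * e (m * ((k : ℝ) / R))‖ ≤
      U * ‖Sth (M - X / 2) (X / 2) ((k : ℝ) / R)‖) :
    ∑ v ∈ bx (fun i => Lf (g i)), ‖D (vl N g b v).toNat‖ ^ 2 ≤ (∏ i, (Lf (g i) : ℝ)) *
      ((1 - η) ^ (Fintype.card ι - 4) * (C₂ * (X : ℝ) ^ 2) +
        (Fintype.card ι * (C₁ * Y)) * (U ^ 2 * (X * (Real.log M) ^ 2))) := by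
  have hR0 : 0 < R := by omega
  have hRr : (0 : ℝ) < R := by exact_mod_cast hR0
  have hB : 1 ≤ B := by
    have hne : Nonempty ι := Fintype.card_pos_iff.1 (by omega)
    obtain ⟨i⟩ := hne
    obtain ⟨-, -, h1, h2⟩ := hadm i
    have h3 := Int.one_le_abs h1
    omega
  have hLr : ∀ i, (0 : ℝ) < Lf (g i) := fun i => by exact_mod_cast hL1 i
  obtain ⟨γ, hγ⟩ : ∃ γ : ι → ℤ → ℝ, ∀ i j, γ i j =
    ‖Gg (g i) (Lf (g i)) (b i * ((j : ℝ) / R))‖ / Lf (g i) := ⟨_, fun _ _ => rfl⟩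
  have h1 := hVFT R D ι (fun i => Lf (g i)) g b N hR0 hvl
  have h2 := hVBD R ι (fun k => ‖∑ m ∈ range R, D m * e (m * ((k : ℝ) / R))‖)
    (fun k => ‖Sth (X / 4) (X / 2 - X / 4) ((k : ℝ) / R)‖)
    (fun k => ‖Sth (M - X / 2) (X / 2) ((k : ℝ) / R)‖) γ U η (C₂ * (X : ℝ) ^ 2)
    (Fintype.card ι * (C₁ * Y)) (X * (Real.log M) ^ 2) hR0 hcard hU hη.le hη1.le
    (fun k => ⟨norm_nonneg _, norm_nonneg _, norm_nonneg _⟩)
    (fun k hk => ⟨hF1 k hk, hF2 k hk⟩) ?_ ?_ ?_ ?_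
  · refine h1.trans (le_trans (le_of_eq ?_) (mul_le_mul_of_nonneg_left h2
      (prod_nonneg fun i _ => (hLr i).le)))
    rw [mul_left_comm]
    refine congrArg ((1 / (R : ℝ)) ^ 2 * ·) ?_
    rw [mul_sum]
    refine sum_congr rfl fun k _ => ?_
    rw [mul_sum]
    refine sum_congr rfl fun l _ => ?_
    have h3 : ∏ i, ‖Gg (g i) (Lf (g i)) (b i * (((k : ℝ) - l) / R))‖ =
        (∏ i, (Lf (g i) : ℝ)) * ∏ i, γ i ((k : ℤ) - l) := by
      rw [← prod_mul_distrib]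
      refine prod_congr rfl fun i _ => ?_
      rw [hγ]
      push_cast
      rw [mul_div_cancel₀ _ (hLr i).ne']
    rw [h3]
    ring
  · intro i j
    rw [hγ, hγ, hγ]
    refine ⟨div_nonneg (norm_nonneg _) (hLr i).le, ?_, ?_, ?_⟩
    · rw [div_le_one (hLr i)]
      exact WTH_Gg_le _ _ _
    · congr 1
      rw [← WTH_Gg_neg]
      congr 2
      push_cast
      ring
    · congr 2
      have h3 : (b i : ℝ) * (((j + R : ℤ) : ℝ) / R) = b i * ((j : ℝ) / R) + (b i : ℤ) := by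
        push_cast
        field_simp
      rw [h3, WTH_Gg_add]
  · intro i
    obtain ⟨g2, gG, b0, bB⟩ := hadm i
    have h3 := hSG (g i) g2 gG (X / 4) (X / 2 - X / 4) (M - X / 2) (X / 2) X (Lf (g i)) R (b i)
      (by omega) (by omega) (by
        obtain ⟨n, hn⟩ : ∃ n, n = X / 2 - X / 4 := ⟨_, rfl⟩
        rw [← hn]
        have h4 : X / 4 + n ≤ n * 4 := by omega
        have h5 : 2 ≤ n := by omega
        calc X / 4 + n ≤ n * 4 := h4
          _ ≤ n * (n * n) := Nat.mul_le_mul_left n (Nat.mul_le_mul h5 h5)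
          _ = n ^ 3 := by ring)
      (by omega) (by omega) (by
        have h4 : M - X / 2 + X / 2 = M := by omega
        rw [h4]
        exact hM) (by omega) (by omega) (hL1 i) (hlog i) b0 bB (by
        have h4 := hXB i
        have h5 : 2 * B * g i ^ Lf (g i) ≤ 32 * B * g i ^ Lf (g i) := by
          refine Nat.mul_le_mul_right _ ?_
          omega
        omega)
    have h4 : (1 / (R : ℝ)) ^ 2 * ∑ k ∈ range R, ∑ l ∈ range R,
        ‖Sth (X / 4) (X / 2 - X / 4) ((k : ℝ) / R)‖ ^ 2 *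
          ‖Sth (M - X / 2) (X / 2) ((l : ℝ) / R)‖ ^ 2 * γ i ((k : ℤ) - l) ^ 4 =
        ((1 / (R : ℝ)) ^ 2 * ∑ k ∈ range R, ∑ l ∈ range R,
          ‖Sth (X / 4) (X / 2 - X / 4) ((k : ℝ) / R)‖ ^ 2 *
          ‖Sth (M - X / 2) (X / 2) ((l : ℝ) / R)‖ ^ 2 *
            ‖Gg (g i) (Lf (g i)) (b i * (((k : ℝ) - l) / R))‖ ^ 4) / (Lf (g i) : ℝ) ^ 4 := by
      rw [mul_div_assoc, sum_div]
      congr 1
      refine sum_congr rfl fun k _ => ?_
      rw [sum_div]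
      refine sum_congr rfl fun l _ => ?_
      rw [hγ, div_pow]
      push_cast
      ring
    rw [h4, div_le_iff₀ (pow_pos (hLr i) 4)]
    refine h3.trans (le_of_eq ?_)
    ring
  · have h3 : ((range R).filter fun j : ℕ => ∃ i, 1 - η < γ i j) ⊆
        univ.biUnion fun i => (range R).filter fun k : ℕ =>
          (1 - η) * (Lf (g i) : ℝ) < ‖Gg (g i) (Lf (g i)) (b i * ((k : ℝ) / R))‖ := by
      intro k hk
      obtain ⟨hk1, i, hk2⟩ := mem_filter.1 hk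
      rw [mem_biUnion]
      refine ⟨i, mem_univ _, mem_filter.2 ⟨hk1, ?_⟩⟩
      rw [hγ, lt_div_iff₀ (hLr i)] at hk2
      simpa using hk2
    have h4 : (((range R).filter fun j : ℕ => ∃ i, 1 - η < γ i j).card : ℝ) ≤
        ∑ i, (((range R).filter fun k : ℕ =>
          (1 - η) * (Lf (g i) : ℝ) < ‖Gg (g i) (Lf (g i)) (b i * ((k : ℝ) / R))‖).card : ℝ) := by
      exact_mod_cast (card_le_card h3).trans card_biUnion_le
    refine h4.trans ?_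
    have h5 : ∀ i : ι, (((range R).filter fun k : ℕ =>
          (1 - η) * (Lf (g i) : ℝ) < ‖Gg (g i) (Lf (g i)) (b i * ((k : ℝ) / R))‖).card : ℝ) ≤
        C₁ * (R * Y) := by
      intro i
      obtain ⟨g2, gG, b0, bB⟩ := hadm i
      refine (hGB (g i) g2 gG (Lf (g i)) R (b i) (hL1 i) ?_ b0 bB).trans ?_
      · have h6 := hXB i
        have h7 : 1 * g i ^ Lf (g i) ≤ 32 * B * g i ^ Lf (g i) := by
          refine Nat.mul_le_mul_right _ ?_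
          omega
        omega
      · refine mul_le_mul_of_nonneg_left ?_ hC₁.le
        exact mul_le_mul_of_nonneg_left (hY i) hRr.le
    refine (sum_le_sum fun i _ => h5 i).trans (le_of_eq ?_)
    rw [sum_const, card_univ, nsmul_eq_mul]
    ring
  · refine (WTH_par R M (X / 2) hR0 (by omega) (by omega) (by omega)).trans ?_
    refine mul_le_mul_of_nonneg_right ?_ (sq_nonneg _)
    have h3 : X / 2 ≤ X := Nat.div_le_self _ _
    exact_mod_cast h3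

/-- large values -/
theorem WTH_large {θ C₁ : ℝ} (hθ : 0 < θ) (hC₁ : 0 < C₁) (X₀ : ℕ) : ∃ X₁ : ℕ, ∀ X : ℕ, X₁ ≤ X →
    100 ≤ X ∧ X₀ ≤ X ∧ 1 ≤ Real.log X ∧ Real.log X ^ 4 ≤ X ∧
      4 * C₁ * Real.log X ^ 5 ≤ (X : ℝ) ^ (θ / 2) := by
  have h1 : ∀ᶠ x : ℝ in Filter.atTop, Real.log x ^ 4 ≤ x := by
    have h := (Real.isLittleO_pow_log_id_atTop (n := 4)).bound (c := 1) one_pos
    filter_upwards [h, Filter.eventually_ge_atTop 1] with x hx hx1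
    rw [id, one_mul] at hx
    exact (le_abs_self _).trans (hx.trans (le_of_eq (Real.norm_of_nonneg (by linarith))))
  have h2 : ∀ᶠ x : ℝ in Filter.atTop, 4 * C₁ * Real.log x ^ 5 ≤ x ^ (θ / 2) := by
    have h := (isLittleO_log_rpow_rpow_atTop (s := θ / 2) 5 (by linarith)).bound
      (c := 1 / (4 * C₁)) (by positivity)
    filter_upwards [h, Filter.eventually_ge_atTop 1] with x hx hx1
    have h5 : Real.log x ^ (5 : ℝ) = Real.log x ^ 5 := by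
      rw [← Real.rpow_natCast]
      norm_num
    rw [h5, Real.norm_of_nonneg (Real.rpow_nonneg (by linarith) _)] at hx
    have h6 := (le_abs_self _).trans hx
    calc 4 * C₁ * Real.log x ^ 5 ≤ 4 * C₁ * (1 / (4 * C₁) * x ^ (θ / 2)) :=
          mul_le_mul_of_nonneg_left h6 (by positivity)
      _ = x ^ (θ / 2) := by
          field_simp
  have h3 : ∀ᶠ x : ℝ in Filter.atTop, 1 ≤ Real.log x :=
    Real.tendsto_log_atTop.eventually (Filter.eventually_ge_atTop 1)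
  have h4 := tendsto_natCast_atTop_atTop.eventually (h1.and (h2.and h3))
  obtain ⟨X₁, hX₁⟩ := Filter.eventually_atTop.1 h4
  refine ⟨max X₁ (max 100 X₀), fun X hX => ?_⟩
  obtain ⟨h5, h6, h7⟩ := hX₁ X ((le_max_left _ _).trans hX)
  have h8 := (le_max_right X₁ (max 100 X₀)).trans hX
  exact ⟨(le_max_left _ _).trans h8, (le_max_right _ _).trans h8, h7, h5, h6⟩

/-- the values are near `N` -/
theorem WTH_vl {ι : Type} [Fintype ι] (X K B : ℕ) (ℓ g : ι → ℕ) (b : ι → ℤ) (N : ℤ) (v : ι → ℕ)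
    (hv : ∀ i, v i ≤ ℓ i) (hg : ∀ i, 1 ≤ g i) (hb : ∀ i, |b i| ≤ B) (hc : Fintype.card ι ≤ K)
    (h : ∀ i, 32 * B * K * g i ^ ℓ i ≤ X) : 32 * |vl N g b v - N| ≤ X := by
  have h1 : |vl N g b v - N| ≤ ∑ i, (B : ℤ) * (g i : ℤ) ^ ℓ i := by
    have h2 : vl N g b v - N = ∑ i, b i * (g i : ℤ) ^ v i := by
      unfold vl
      ring
    rw [h2]
    refine (abs_sum_le_sum_abs _ _).trans (sum_le_sum fun i _ => ?_)
    rw [abs_mul]
    refine mul_le_mul (hb i) ?_ (abs_nonneg _) (by positivity)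
    rw [abs_of_nonneg (by positivity)]
    have h3 : g i ^ v i ≤ g i ^ ℓ i := Nat.pow_le_pow_right (hg i) (hv i)
    exact_mod_cast h3
  rcases Nat.eq_zero_or_pos K with hK | hK
  · have h2 : Fintype.card ι = 0 := by omega
    have h3 : IsEmpty ι := Fintype.card_eq_zero_iff.1 h2
    rw [Fintype.sum_empty] at h1
    have h4 := abs_nonneg (vl N g b v - N)
    omega
  · have h2 : (K : ℤ) * (32 * ∑ i, (B : ℤ) * (g i : ℤ) ^ ℓ i) ≤ K * X := by
      have h3 : (K : ℤ) * (32 * ∑ i, (B : ℤ) * (g i : ℤ) ^ ℓ i) =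
          ∑ i, ((32 * B * K * g i ^ ℓ i : ℕ) : ℤ) := by
        rw [← mul_assoc, mul_sum]
        refine sum_congr rfl fun i _ => ?_
        push_cast
        ring
      rw [h3]
      calc ∑ i, ((32 * B * K * g i ^ ℓ i : ℕ) : ℤ) ≤ ∑ _i : ι, (X : ℤ) :=
            sum_le_sum fun i _ => by exact_mod_cast h i
        _ = (Fintype.card ι : ℤ) * X := by
            rw [sum_const, card_univ, nsmul_eq_mul]
        _ ≤ K * X := by
            refine mul_le_mul_of_nonneg_right ?_ (Nat.cast_nonneg _)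
            exact_mod_cast hc
    have h3 := le_of_mul_le_mul_left h2 (by exact_mod_cast hK)
    linarith

theorem WTH_log {X g L : ℕ} (hg : 1 ≤ g) (h1 : (X : ℝ) ≤ (g : ℝ) ^ L * Real.log X ^ 2)
    (h4 : Real.log X ^ 4 ≤ X) (hX : 1 ≤ X) : Real.log X ≤ 2 * (g : ℝ) * (L : ℝ) := by
  have hX0 : (0 : ℝ) < X := by exact_mod_cast hX
  have hg0 : (0 : ℝ) < g := by exact_mod_cast hg
  have h2 : (X : ℝ) * X ≤ ((g : ℝ) ^ L) ^ 2 * X := by
    calc (X : ℝ) * X ≤ ((g : ℝ) ^ L * Real.log X ^ 2) * ((g : ℝ) ^ L * Real.log X ^ 2) :=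
          mul_le_mul h1 h1 hX0.le (hX0.le.trans h1)
      _ = ((g : ℝ) ^ L) ^ 2 * Real.log X ^ 4 := by ring
      _ ≤ ((g : ℝ) ^ L) ^ 2 * X := mul_le_mul_of_nonneg_left h4 (by positivity)
  have h3 : (X : ℝ) ≤ ((g : ℝ) ^ L) ^ 2 := le_of_mul_le_mul_right h2 hX0
  have h5 := Real.log_le_log hX0 h3
  rw [Real.log_pow, Real.log_pow] at h5
  push_cast at h5
  have h6 : Real.log g ≤ g := Real.log_le_self hg0.le
  have h7 : (L : ℝ) * Real.log g ≤ L * g := mul_le_mul_of_nonneg_left h6 (Nat.cast_nonneg _)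
  linarith

theorem WTH_Y {X g L : ℕ} {w : ℝ} (hw0 : 0 ≤ w) (hw1 : w ≤ 1) (hg : 1 ≤ g)
    (h1 : (X : ℝ) ≤ (g : ℝ) ^ L * Real.log X ^ 2) (hl : 1 ≤ Real.log X) (hX : 1 ≤ X) :
    (g : ℝ) ^ (-(w * L)) ≤ (X : ℝ) ^ (-w) * Real.log X ^ 2 := by
  have hX0 : (0 : ℝ) < X := by exact_mod_cast hX
  have hg0 : (0 : ℝ) < g := by exact_mod_cast hg
  have hl2 : 1 ≤ Real.log X ^ 2 := one_le_pow₀ hl
  have hl0 : 0 < Real.log X ^ 2 := by linarith
  have h2 : (g : ℝ) ^ (-(w * L)) = ((g : ℝ) ^ L) ^ (-w) := by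
    rw [← Real.rpow_natCast, ← Real.rpow_mul hg0.le]
    congr 1
    ring
  have h3 : (X : ℝ) / Real.log X ^ 2 ≤ (g : ℝ) ^ L := by
    rw [div_le_iff₀ hl0]
    exact h1
  rw [h2]
  calc ((g : ℝ) ^ L) ^ (-w) ≤ ((X : ℝ) / Real.log X ^ 2) ^ (-w) :=
        Real.rpow_le_rpow_of_nonpos (by positivity) h3 (by linarith)
    _ = (X : ℝ) ^ (-w) * (Real.log X ^ 2) ^ w := by
        rw [Real.div_rpow hX0.le hl0.le, Real.rpow_neg hl0.le, div_inv_eq_mul]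
    _ ≤ (X : ℝ) ^ (-w) * (Real.log X ^ 2) ^ (1 : ℝ) := by
        refine mul_le_mul_of_nonneg_left ?_ (by positivity)
        exact Real.rpow_le_rpow_of_exponent_le hl2 hw1
    _ = (X : ℝ) ^ (-w) * Real.log X ^ 2 := by rw [Real.rpow_one]

/-- the second part of the bound is small -/
theorem WTH_small {X M k : ℕ} {θ C₁ : ℝ} (hX : 1 ≤ X) (hl : 1 ≤ Real.log X) (hC₁ : 0 < C₁)
    (hk : (k : ℝ) ≤ Real.log X) (hM1 : 1 ≤ M) (hM : M ≤ X * X)
    (h5 : 4 * C₁ * Real.log X ^ 5 ≤ (X : ℝ) ^ (θ / 2)) :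
    ((k : ℝ) * (C₁ * ((X : ℝ) ^ (-(1 - θ / 2)) * Real.log X ^ 2))) *
      (((X : ℝ) ^ (1 - θ)) ^ 2 * (X * (Real.log M) ^ 2)) ≤ (X : ℝ) ^ 2 * (X : ℝ) ^ (-θ) := by
  have hX0 : (0 : ℝ) < X := by exact_mod_cast hX
  have hl0 : 0 ≤ Real.log X := by linarith
  have hM0 : (0 : ℝ) < M := by exact_mod_cast hM1
  have hlM0 : 0 ≤ Real.log M := Real.log_nonneg (by exact_mod_cast hM1)
  have hlM : Real.log M ≤ 2 * Real.log X := by
    have h1 : (M : ℝ) ≤ X * X := by exact_mod_cast hM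
    have h2 := Real.log_le_log hM0 h1
    rw [Real.log_mul hX0.ne' hX0.ne'] at h2
    linarith
  have h6 : (X : ℝ) ^ (θ / 2) * ((X : ℝ) ^ (-(1 - θ / 2)) * (((X : ℝ) ^ (1 - θ)) ^ 2 * X)) =
      (X : ℝ) ^ 2 * (X : ℝ) ^ (-θ) := by
    have h7 : ((X : ℝ) ^ (1 - θ)) ^ 2 = (X : ℝ) ^ ((1 - θ) * 2) := by
      rw [Real.rpow_mul hX0.le]
      norm_num
    have h8 : (X : ℝ) ^ 2 = (X : ℝ) ^ (2 : ℝ) := by norm_num
    have h9 : (X : ℝ) ^ ((1 - θ) * 2) * X = (X : ℝ) ^ ((1 - θ) * 2 + 1) := by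
      rw [Real.rpow_add hX0, Real.rpow_one]
    rw [h7, h9, h8, ← Real.rpow_add hX0, ← Real.rpow_add hX0, ← Real.rpow_add hX0]
    congr 1
    ring
  calc ((k : ℝ) * (C₁ * ((X : ℝ) ^ (-(1 - θ / 2)) * Real.log X ^ 2))) *
      (((X : ℝ) ^ (1 - θ)) ^ 2 * (X * (Real.log M) ^ 2))
      ≤ (Real.log X * (C₁ * ((X : ℝ) ^ (-(1 - θ / 2)) * Real.log X ^ 2))) *
      (((X : ℝ) ^ (1 - θ)) ^ 2 * (X * (2 * Real.log X) ^ 2)) := by
        gcongr
    _ = (4 * C₁ * Real.log X ^ 5) *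
        ((X : ℝ) ^ (-(1 - θ / 2)) * (((X : ℝ) ^ (1 - θ)) ^ 2 * X)) := by ring
    _ ≤ (X : ℝ) ^ (θ / 2) * ((X : ℝ) ^ (-(1 - θ / 2)) * (((X : ℝ) ^ (1 - θ)) ^ 2 * X)) :=
        mul_le_mul_of_nonneg_right h5 (by positivity)
    _ = (X : ℝ) ^ 2 * (X : ℝ) ^ (-θ) := h6

theorem p_WTH (hWDT : Stmt_WDT) (hGBG : Stmt_GBG) (hSG : Stmt_SG4) (hVFT : Stmt_VFT)
    (hVBD : Stmt_VBD) : Stmt_WTH := by
  obtain ⟨c, θ, r, X₀, hc, hθ, hθ1, hr1, hr2, hW⟩ := hWDT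
  refine ⟨c, r, hc, hr1, hr2, fun G B => ?_⟩
  obtain ⟨η, C₁, hη, hη1, hC₁, hGB⟩ := WTH_ugb hGBG B (1 - θ / 2) (by linarith) G
  obtain ⟨C₂, hC₂, hS⟩ := WTH_usg hSG B G
  obtain ⟨X₁, hX₁⟩ := WTH_large hθ hC₁ X₀
  obtain ⟨κ, hκ⟩ : ∃ κ, κ = min η θ := ⟨_, rfl⟩
  have hκ0 : 0 < κ := by
    rw [hκ]
    exact lt_min hη hθ
  have hκη : κ ≤ η := by
    rw [hκ]
    exact min_le_left _ _
  have hκθ : κ ≤ θ := by
    rw [hκ]
    exact min_le_right _ _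
  have h1η : 0 < 1 - η := by linarith
  have hCa : 0 < (C₂ / (1 - η) ^ 4 + 1) / c ^ 2 := by positivity
  obtain ⟨C, hC⟩ : ∃ C, C = Real.exp 4 + (C₂ / (1 - η) ^ 4 + 1) / c ^ 2 := ⟨_, rfl⟩
  have hC0 : 0 < C := by
    rw [hC]
    have := Real.exp_pos 4
    linarith
  refine ⟨κ, C, X₁, hκ0, hC0, ?_⟩
  intro X K Lf ι _ g b N hX hK hcK hLf hadm hN1 hN2
  obtain ⟨hX100, hX0, hlog1, hlog4, hlog5⟩ := hX₁ X hX
  have hprod : ((bx fun i => Lf (g i)).card : ℝ) = ∏ i, (Lf (g i) : ℝ) := card_bx _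
  have hP0 : 0 ≤ ∏ i, (Lf (g i) : ℝ) := prod_nonneg fun i _ => Nat.cast_nonneg _
  rcases Nat.lt_or_ge (Fintype.card ι) 4 with h4 | h4
  · have h1 : (((bx fun i => Lf (g i)).filter fun v => Bdw X c (r X) (vl N g b v)).card : ℝ) ≤
        ∏ i, (Lf (g i) : ℝ) := by
      rw [← hprod]
      exact Nat.cast_le.2 (card_filter_le _ _)
    have h2 : 1 ≤ C * Real.exp (-(κ * Fintype.card ι)) := by
      have h3 : 1 ≤ Real.exp 4 * Real.exp (-(κ * Fintype.card ι)) := by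
        rw [← Real.exp_add]
        refine Real.one_le_exp ?_
        have h5 : (Fintype.card ι : ℝ) ≤ 4 := by exact_mod_cast h4.le
        nlinarith
      refine h3.trans (mul_le_mul_of_nonneg_right ?_ (Real.exp_pos _).le)
      rw [hC]
      linarith
    calc (((bx fun i => Lf (g i)).filter fun v => Bdw X c (r X) (vl N g b v)).card : ℝ)
        ≤ 1 * ∏ i, (Lf (g i) : ℝ) := by
          rw [one_mul]
          exact h1
      _ ≤ (C * Real.exp (-(κ * Fintype.card ι))) * ∏ i, (Lf (g i) : ℝ) :=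
          mul_le_mul_of_nonneg_right h2 hP0
      _ = C * (Real.exp (-(κ * Fintype.card ι)) * ∏ i, (Lf (g i) : ℝ)) := by ring
  have hXr : (1 : ℝ) ≤ X := by
    have : 1 ≤ X := by omega
    exact_mod_cast this
  have hX0r : (0 : ℝ) < X := by linarith
  have hLi : ∀ i, 32 * B * K * g i ^ Lf (g i) ≤ X ∧
      (X : ℝ) ≤ (g i : ℝ) ^ Lf (g i) * (Real.log X) ^ 2 ∧ 1 ≤ Lf (g i) :=
    fun i => hLf (g i) (hadm i).1 (hadm i).2.1
  have hvn : ∀ v ∈ bx (fun i => Lf (g i)), 32 * |vl N g b v - N| ≤ X := by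
    intro v hv
    exact WTH_vl X K B (fun i => Lf (g i)) g b N v (fun i => (mem_bx.1 hv i).2)
      (fun i => by have := (hadm i).1; omega) (fun i => (hadm i).2.2.2) hcK
      (fun i => (hLi i).1)
  obtain ⟨M, hM⟩ : ∃ M : ℕ, (M : ℤ) = N - ((X / 32 : ℕ) : ℤ) - 1 := by
    refine ⟨(N - ((X / 32 : ℕ) : ℤ) - 1).toNat, ?_⟩
    rw [Int.toNat_of_nonneg]
    omega
  have hXM : X ≤ M := by omega
  have hMN : (M : ℤ) ≤ N := by omega
  have hMr : (M : ℝ) ≤ X * (Real.log X) ^ 3 := by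
    have h1 : (M : ℝ) ≤ (N : ℝ) := by exact_mod_cast hMN
    exact h1.trans hN2
  have hMX : M ≤ X * X := by
    have h1 : Real.log X ^ 3 ≤ X := by
      refine le_trans ?_ hlog4
      exact pow_le_pow_right₀ hlog1 (by norm_num)
    have h2 : (M : ℝ) ≤ X * X := hMr.trans (mul_le_mul_of_nonneg_left h1 hX0r.le)
    exact_mod_cast h2
  have hM3 : M ≤ (X / 2) ^ 3 := by
    obtain ⟨y, hy⟩ : ∃ y, y = X / 2 := ⟨_, rfl⟩
    rw [← hy]
    have h1 : X ≤ 2 * y + 1 := by omega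
    have h2 : 50 ≤ y := by omega
    have h3 : X * X ≤ (2 * y + 1) * (2 * y + 1) := Nat.mul_le_mul h1 h1
    nlinarith
  obtain ⟨R, D, hR, hD1, hD2⟩ := hW X M hX0 hXM hMr
  have hvr : ∀ v ∈ bx (fun i => Lf (g i)), (M : ℤ) < vl N g b v ∧
      vl N g b v ≤ M + ((X / 8 : ℕ) : ℤ) := by
    intro v hv
    have h1 := hvn v hv
    have h2 := abs_le.1 (le_refl |vl N g b v - N|)
    obtain ⟨h3, h5⟩ := h2
    constructor
    · omega
    · omega
  have hVb := WTH_V hVFT hVBD hη hη1 hC₁ hGB hS X M R D ι Lf g b N hX100 hXM hM3 hR h4 hadm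
    (fun i => (hLi i).2.2) (fun i => WTH_log (by have := (hadm i).1; omega) (hLi i).2.1 hlog4
      (by omega)) (fun i => by
      have h1 := (hLi i).1
      have h2 : 32 * B * 1 * g i ^ Lf (g i) ≤ 32 * B * K * g i ^ Lf (g i) :=
        Nat.mul_le_mul_right _ (Nat.mul_le_mul_left _ (by omega))
      rw [mul_one] at h2
      omega) (fun i => WTH_Y (w := 1 - θ / 2) (by linarith) (by linarith)
        (by have := (hadm i).1; omega) (hLi i).2.1 hlog1 (by omega))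
    (fun v hv => by
      have h1 := hvr v hv
      constructor
      · omega
      · omega) (U := (X : ℝ) ^ (1 - θ)) (Real.rpow_nonneg hX0r.le _)
    (fun k hk => (hD2 k hk).1) (fun k hk => (hD2 k hk).2)
  -- the main estimate
  have hcl : (Fintype.card ι : ℝ) ≤ κ * Real.log X := by
    have h1 : (Fintype.card ι : ℝ) ≤ K := by exact_mod_cast hcK
    linarith
  have hcl1 : (Fintype.card ι : ℝ) ≤ Real.log X := by
    refine hcl.trans ?_
    nlinarith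
  have hsm := WTH_small (X := X) (M := M) (k := Fintype.card ι) (θ := θ) (C₁ := C₁) (by omega)
    hlog1 hC₁ hcl1 (by omega) hMX hlog5
  have hE1 : (X : ℝ) ^ (-θ) ≤ Real.exp (-(κ * Fintype.card ι)) := by
    rw [Real.rpow_def_of_pos hX0r]
    refine Real.exp_le_exp.2 ?_
    have h1 : κ * (Fintype.card ι : ℝ) ≤ θ * Real.log X := by
      calc κ * (Fintype.card ι : ℝ) ≤ κ * Real.log X := mul_le_mul_of_nonneg_left hcl1 hκ0.le
        _ ≤ θ * Real.log X := mul_le_mul_of_nonneg_right hκθ (by linarith)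
    linarith
  have hE2 : (1 - η) ^ (Fintype.card ι - 4) ≤
      Real.exp (-(κ * Fintype.card ι)) / (1 - η) ^ 4 := by
    rw [le_div_iff₀ (pow_pos h1η 4), ← pow_add, Nat.sub_add_cancel h4]
    have h1 : 1 - η ≤ Real.exp (-η) := by
      have := Real.add_one_le_exp (-η)
      linarith
    calc (1 - η) ^ Fintype.card ι ≤ (Real.exp (-η)) ^ Fintype.card ι :=
          pow_le_pow_left₀ h1η.le h1 _
      _ = Real.exp (-(η * Fintype.card ι)) := by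
          rw [← Real.exp_nat_mul]
          congr 1
          ring
      _ ≤ Real.exp (-(κ * Fintype.card ι)) := by
          refine Real.exp_le_exp.2 ?_
          have := mul_le_mul_of_nonneg_right hκη (Nat.cast_nonneg (α := ℝ) (Fintype.card ι))
          linarith
  have hVf : ∑ v ∈ bx (fun i => Lf (g i)), ‖D (vl N g b v).toNat‖ ^ 2 ≤
      (∏ i, (Lf (g i) : ℝ)) * ((X : ℝ) ^ 2 * (Real.exp (-(κ * Fintype.card ι)) *
        (C₂ / (1 - η) ^ 4 + 1))) := by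
    refine hVb.trans (mul_le_mul_of_nonneg_left ?_ hP0)
    have h1 : (1 - η) ^ (Fintype.card ι - 4) * (C₂ * (X : ℝ) ^ 2) ≤
        Real.exp (-(κ * Fintype.card ι)) / (1 - η) ^ 4 * (C₂ * (X : ℝ) ^ 2) :=
      mul_le_mul_of_nonneg_right hE2 (by positivity)
    have h2 : (X : ℝ) ^ 2 * (X : ℝ) ^ (-θ) ≤ (X : ℝ) ^ 2 * Real.exp (-(κ * Fintype.card ι)) :=
      mul_le_mul_of_nonneg_left hE1 (by positivity)
    calc _ ≤ Real.exp (-(κ * Fintype.card ι)) / (1 - η) ^ 4 * (C₂ * (X : ℝ) ^ 2) +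
          (X : ℝ) ^ 2 * Real.exp (-(κ * Fintype.card ι)) := add_le_add h1 (hsm.trans h2)
      _ = _ := by ring
  have hcount : (((bx fun i => Lf (g i)).filter fun v => Bdw X c (r X) (vl N g b v)).card : ℝ) *
      (c * X) ^ 2 ≤ ∑ v ∈ bx (fun i => Lf (g i)), ‖D (vl N g b v).toNat‖ ^ 2 := by
    rw [← nsmul_eq_mul, ← sum_const]
    refine le_trans (sum_le_sum fun v hv => ?_)
      (sum_le_sum_of_subset_of_nonneg (filter_subset _ _) fun _ _ _ => sq_nonneg _)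
    obtain ⟨hv1, m, hm1, hm2, hm3, hm4⟩ := mem_filter.1 hv
    obtain ⟨h1, h2⟩ := hvr v hv1
    rw [← hm1] at h1 h2 ⊢
    rw [Int.toNat_natCast]
    have h3 : m ∈ Ioc M (M + X / 8) := by
      rw [mem_Ioc]
      omega
    have h5 := hD1 m h3 hm2 hm3
    have hm0 : 0 < m := by omega
    have h6 : (1 : ℝ) ≤ (m : ℝ) / m.totient := by
      rw [one_le_div (by exact_mod_cast Nat.totient_pos.2 hm0)]
      exact_mod_cast Nat.totient_le m
    have h7 : c * X ≤ c * ((m : ℝ) / m.totient) * X := by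
      refine mul_le_mul_of_nonneg_right ?_ hX0r.le
      nlinarith
    have h8 : c * X ≤ ‖D m‖ := by linarith
    exact pow_le_pow_left₀ (by positivity) h8 2
  have hcX : 0 < (c * X) ^ 2 := by positivity
  have hfin : (((bx fun i => Lf (g i)).filter fun v => Bdw X c (r X) (vl N g b v)).card : ℝ) ≤
      (C₂ / (1 - η) ^ 4 + 1) / c ^ 2 * (Real.exp (-(κ * Fintype.card ι)) *
        ∏ i, (Lf (g i) : ℝ)) := by
    refine le_of_mul_le_mul_right ((hcount.trans hVf).trans (le_of_eq ?_)) hcX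
    field_simp
  refine hfin.trans (mul_le_mul_of_nonneg_right ?_ (by positivity))
  rw [hC]
  have := Real.exp_pos 4
  linarith

end Pool.TP
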