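import Pool.Agent.Work.MP_484fb8_tp.Interface

set_option autoImplicit false

/-! # TypicalPowers, block ZC4 -/

namespace Pool.TP

open Finset
open scoped Classical

theorem ZC4_le (g a b c : ℕ) (hg : 2 ≤ g) (hca : c < a) (hcd : b ≤ c) : g ^ c + g ^ b < g ^ a + 1 := by
  have h1 : g ^ b ≤ g ^ c := Nat.pow_le_pow_right (by omega) hcd
  have h2 : g ^ (c + 1) ≤ g ^ a := Nat.pow_le_pow_right (by omega) hca
  have h3 : 2 * g ^ c ≤ g ^ (c + 1) := by
    rw [pow_succ, mul_comm (g ^ c) g]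
    exact Nat.mul_le_mul_right _ hg
  omega

theorem ZC4_key (g a b c d : ℕ) (hg : 2 ≤ g) (hab : b ≤ a) (hcd : d ≤ c)
    (h : g ^ a + g ^ b = g ^ c + g ^ d) : a = c ∧ b = d := by
  have hb : 0 < g ^ b := Nat.pow_pos (by omega)
  have hd : 0 < g ^ d := Nat.pow_pos (by omega)
  rcases lt_trichotomy a c with h1 | h1 | h1
  · have := ZC4_le g c b a hg h1 hab
    omega
  · subst h1
    refine ⟨rfl, ?_⟩
    have h2 : g ^ b = g ^ d := by omega
    exact Nat.pow_right_injective hg h2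
  · have := ZC4_le g a d c hg h1 hcd
    omega

theorem ZC4_two (g a b c d : ℕ) (hg : 2 ≤ g) (h : g ^ a + g ^ b = g ^ c + g ^ d) :
    (a = c ∧ b = d) ∨ (a = d ∧ b = c) := by
  rcases le_total b a with h1 | h1 <;> rcases le_total d c with h2 | h2
  · exact Or.inl (ZC4_key g a b c d hg h1 h2 h)
  · have := ZC4_key g a b d c hg h1 h2 (by omega)
    exact Or.inr this
  · have := ZC4_key g b a c d hg h1 h2 (by omega)
    exact Or.inr ⟨this.2, this.1⟩
  · have := ZC4_key g b a d c hg h1 h2 (by omega)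
    exact Or.inl ⟨this.2, this.1⟩

theorem p_ZC4 : Stmt_ZC4 := by
  intro g L hg
  have hsub : (box4 L).filter (fun v => hh g v = 0) ⊆
      ((Icc 1 L ×ˢ Icc 1 L).image fun p => (![p.1, p.2, p.1, p.2] : Fin 4 → ℕ)) ∪
      ((Icc 1 L ×ˢ Icc 1 L).image fun p => (![p.1, p.2, p.2, p.1] : Fin 4 → ℕ)) := by
    intro v hv
    rw [mem_filter] at hv
    obtain ⟨hv1, hv2⟩ := hv
    have hv3 : ∀ i, 1 ≤ v i ∧ v i ≤ L := by
      unfold box4 at hv1
      exact mem_bx.1 hv1
    have hv4 : g ^ v 0 + g ^ v 1 = g ^ v 2 + g ^ v 3 := by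
      unfold hh at hv2
      have : (g : ℤ) ^ v 0 + (g : ℤ) ^ v 1 = (g : ℤ) ^ v 2 + (g : ℤ) ^ v 3 := by linarith
      exact_mod_cast this
    have hm : (v 0, v 1) ∈ Icc 1 L ×ˢ Icc 1 L := by
      rw [mem_product, mem_Icc, mem_Icc]
      exact ⟨hv3 0, hv3 1⟩
    rw [mem_union, mem_image, mem_image]
    rcases ZC4_two g _ _ _ _ hg hv4 with ⟨h1, h2⟩ | ⟨h1, h2⟩
    · left
      refine ⟨(v 0, v 1), hm, ?_⟩
      funext i
      fin_cases i
      · rfl
      · rfl
      · exact h1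
      · exact h2
    · right
      refine ⟨(v 0, v 1), hm, ?_⟩
      funext i
      fin_cases i
      · rfl
      · rfl
      · exact h2
      · exact h1
  have hc : (Icc 1 L ×ˢ Icc 1 L).card = L ^ 2 := by
    rw [card_product, Nat.card_Icc]
    simp [sq]
  calc ((box4 L).filter (fun v => hh g v = 0)).card ≤ _ := card_le_card hsub
    _ ≤ _ := card_union_le _ _
    _ ≤ L ^ 2 + L ^ 2 := by
      refine Nat.add_le_add ?_ ?_
      · exact card_image_le.trans hc.le
      · exact card_image_le.trans hc.le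
    _ = 2 * L ^ 2 := by ring

end Pool.TP
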