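import Pool.Agent.Work.MP_484fb8_tp.B_CN1
import Pool.Agent.Work.MP_484fb8_tp.B_CN4
import Pool.Agent.Work.MP_484fb8_tp.B_CNC
import Pool.Agent.Work.MP_484fb8_tp.B_DBC
import Pool.Agent.Work.MP_484fb8_tp.B_FDG
import Pool.Agent.Work.MP_484fb8_tp.B_FFS
import Pool.Agent.Work.MP_484fb8_tp.B_FIN
import Pool.Agent.Work.MP_484fb8_tp.B_GBG
import Pool.Agent.Work.MP_484fb8_tp.B_LFE
import Pool.Agent.Work.MP_484fb8_tp.B_LGS
import Pool.Agent.Work.MP_484fb8_tp.B_MRT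
import Pool.Agent.Work.MP_484fb8_tp.B_NZC
import Pool.Agent.Work.MP_484fb8_tp.B_NZD
import Pool.Agent.Work.MP_484fb8_tp.B_NZI
import Pool.Agent.Work.MP_484fb8_tp.B_NZR
import Pool.Agent.Work.MP_484fb8_tp.B_NZT
import Pool.Agent.Work.MP_484fb8_tp.B_ORS
import Pool.Agent.Work.MP_484fb8_tp.B_PRT
import Pool.Agent.Work.MP_484fb8_tp.B_PW3
import Pool.Agent.Work.MP_484fb8_tp.B_RAT
import Pool.Agent.Work.MP_484fb8_tp.B_RM4
import Pool.Agent.Work.MP_484fb8_tp.B_RRB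
import Pool.Agent.Work.MP_484fb8_tp.B_SG4
import Pool.Agent.Work.MP_484fb8_tp.B_SPL
import Pool.Agent.Work.MP_484fb8_tp.B_THR
import Pool.Agent.Work.MP_484fb8_tp.B_TOT
import Pool.Agent.Work.MP_484fb8_tp.B_VBD
import Pool.Agent.Work.MP_484fb8_tp.B_VFT
import Pool.Agent.Work.MP_484fb8_tp.B_WDT
import Pool.Agent.Work.MP_484fb8_tp.B_WTH
import Pool.Agent.Work.MP_484fb8_tp.B_ZC4

set_option autoImplicit false

/-! # TypicalPowers: the blocks put together -/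

open Finset Pool.Agent.Work.MP_484fb8_nt

namespace Pool.TP

theorem stmt_SG4 : Stmt_SG4 := p_SG4 p_RRB (p_RM4 p_FFS (p_ORS p_MRT) p_CN4) p_ZC4

theorem stmt_WTH : Stmt_WTH := p_WTH p_WDT p_GBG stmt_SG4 p_VFT p_VBD

theorem stmt_PRT : Stmt_PRT := p_PRT stmt_WTH p_SPL p_THR p_LFE

theorem stmt_FIN : Stmt_FIN := p_FIN stmt_PRT (p_CNC (p_CN1 p_GBG))

theorem stmt_FDG : Stmt_FDG :=
  p_FDG (p_DBC NZR (p_NZI p_NZD)) (p_TOT (p_NZT p_NZD p_NZC)) p_RAT p_LGS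

open scoped Classical in
theorem main : ∃ c : ℝ, 0 < c ∧ FinC c ∧
    (∀ g : ℕ, 2 ≤ g → ∃ κ C : ℝ, 0 < κ ∧
      ∀ A : ℕ, ∃ C' : ℝ, ∀ n k : ℕ, 1 ≤ n → (k : ℝ) ≤ κ * Real.log (prml n) →
        (((evensIn (n + 1)).filter fun m => nz g m = k ∧ Bdp n c m).card : ℝ) ≤
          (C * Real.exp (-(κ * k)) + C' / (Real.log (prml n)) ^ A) *
            (((evensIn (n + 1)).filter fun m => nz g m = k).card : ℝ)) ∧
    (∀ g : ℕ, 2 ≤ g → ∃ K : ℕ, ∀ n : ℕ, 1 ≤ n →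
      ∀ m ∈ evensIn (n + 1), ∃ p ∈ primesIn n, ∃ q ∈ primesIn n ∪ primesIn (n + 1),
        ∃ k ≤ K, ∃ v : Fin k → ℕ, m = p + q + ∑ i, g ^ v i) := by
  obtain ⟨c, hc, hF⟩ := stmt_FIN
  exact ⟨c, hc, hF, fun g hg => stmt_FDG c hc hF g hg, fun g hg => p_PW3 p_LFE c hc hF g hg⟩

end Pool.TP
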