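import Pool.Agent.Work.MP_484fb8_tp.Interface

set_option autoImplicit false

/-! # TypicalPowers, block CN1: moments of the exponential sum over the powers of `g` modulo `r` -/

namespace Pool.TP

open Finset
open Pool.Agent.Circle (e)
open Pool.Agent.PS (th)
open Pool.Agent.Work.MP_484fb8_nt
open scoped Classical

theorem CN1_succ (g L : ℕ) (x : ℝ) : Gg g (L + 1) x = Gg g L x + e ((g : ℝ) ^ (L + 1) * x) := by
  unfold Gg
  rw [sum_Icc_succ_top (by omega)]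

theorem CN1_add (g L M : ℕ) (x : ℝ) :
    Gg g (L + M) x = Gg g L x + Gg g M ((g : ℝ) ^ L * x) := by
  induction M with
  | zero =>
    have : Gg g 0 ((g : ℝ) ^ L * x) = 0 := by
      unfold Gg
      simp
    rw [add_zero, this, add_zero]
  | succ M ih =>
    rw [← add_assoc, CN1_succ, CN1_succ, ih, add_assoc]
    congr 3
    ring

theorem CN1_le (g L : ℕ) (x : ℝ) : ‖Gg g L x‖ ≤ L := by
  unfold Gg
  refine (norm_sum_le _ _).trans ?_
  simp [Pool.Agent.Circle.norm_e]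

theorem CN1_per (g L : ℕ) (x : ℝ) (n : ℕ) : Gg g L (x + n) = Gg g L x := by
  unfold Gg
  refine sum_congr rfl fun v _ => ?_
  have h := Pool.Agent.Circle.e_add_int ((g : ℝ) ^ v * x) ((g ^ v * n : ℕ) : ℤ)
  rw [← h]
  congr 1
  push_cast
  ring

/-- multiplication by a unit modulo `r` -/
theorem CN1_perm (g L k a r : ℕ) (hr : 0 < r) (hc : Nat.Coprime a r) (t : ℝ) :
    ∑ x ∈ range r, (‖Gg g L ((a : ℝ) * ((x : ℝ) / r))‖ / t) ^ k =
      ∑ x ∈ range r, (‖Gg g L ((x : ℝ) / r)‖ / t) ^ k := by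
  have hr' : (r : ℝ) ≠ 0 := by exact_mod_cast hr.ne'
  have hinj : Set.InjOn (fun x : ℕ => a * x % r) (range r : Set ℕ) := by
    intro x hx y hy h
    rw [mem_coe, mem_range] at hx hy
    have h1 : a * x ≡ a * y [MOD r] := h
    have h2 : x ≡ y [MOD r] := Nat.ModEq.cancel_left_of_coprime (by rwa [Nat.gcd_comm]) h1
    exact Nat.ModEq.eq_of_lt_of_lt h2 hx hy
  have hmaps : Set.MapsTo (fun x : ℕ => a * x % r) (range r : Set ℕ) (range r : Set ℕ) := by
    intro x _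
    rw [mem_coe, mem_range]
    exact Nat.mod_lt _ hr
  refine sum_nbij (fun x => a * x % r) hmaps hinj ?_ ?_
  · exact surjOn_of_injOn_of_card_le _ hmaps hinj le_rfl
  · intro x _
    have h1 : (a : ℝ) * ((x : ℝ) / r) = ((a * x % r : ℕ) : ℝ) / r + ((a * x / r : ℕ) : ℝ) := by
      have h2 : (a * x % r : ℕ) + r * (a * x / r) = a * x := Nat.mod_add_div _ _
      have h3 : ((a * x % r : ℕ) : ℝ) + (r : ℝ) * ((a * x / r : ℕ) : ℝ) = (a : ℝ) * x := by
        exact_mod_cast h2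
      field_simp
      linarith
    rw [h1, CN1_per]

/-- the intervals of length between `L` and `2 L` -/
theorem CN1_small (g r L t k : ℕ) (η C : ℝ) (hη : 0 < η) (hη1 : η < 1) (hL : 1 ≤ L)
    (hLt : L ≤ t) (ht : t ≤ 2 * L)
    (hbad : (((range r).filter fun x : ℕ => (1 - η) * L < ‖Gg g L ((x : ℝ) / r)‖).card : ℝ)
      ≤ C) :
    ∑ x ∈ range r, (‖Gg g t ((x : ℝ) / r)‖ / t) ^ k ≤ r * Real.exp (-(η / 2 * k)) + C := by
  have ht0 : (0 : ℝ) < t := by
    have : 0 < t := by omega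
    exact_mod_cast this
  have hL0 : (0 : ℝ) < L := by exact_mod_cast hL
  have hpt : ∀ x ∈ range r, (‖Gg g t ((x : ℝ) / r)‖ / t) ^ k ≤ Real.exp (-(η / 2 * k)) +
      (if (1 - η) * L < ‖Gg g L ((x : ℝ) / r)‖ then (1 : ℝ) else 0) := by
    intro x _
    have h0 : 0 ≤ ‖Gg g t ((x : ℝ) / r)‖ / t := by positivity
    split_ifs with h
    · have h1 : ‖Gg g t ((x : ℝ) / r)‖ / t ≤ 1 := by
        rw [div_le_one ht0]
        exact CN1_le _ _ _
      have h2 := pow_le_one₀ h0 h1 (n := k)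
      have h3 := Real.exp_pos (-(η / 2 * k))
      linarith
    · rw [add_zero]
      have h1 : ‖Gg g t ((x : ℝ) / r)‖ / t ≤ Real.exp (-(η / 2)) := by
        rw [div_le_iff₀ ht0]
        have h2 : Gg g t ((x : ℝ) / r) = Gg g L ((x : ℝ) / r) +
            Gg g (t - L) ((g : ℝ) ^ L * ((x : ℝ) / r)) := by
          rw [← CN1_add, Nat.add_sub_cancel' hLt]
        have h3 : ‖Gg g t ((x : ℝ) / r)‖ ≤ (1 - η) * L + ((t - L : ℕ) : ℝ) := by
          rw [h2]
          refine (norm_add_le _ _).trans (add_le_add (not_lt.1 h) (CN1_le _ _ _))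
        have h4 : ((t - L : ℕ) : ℝ) = t - L := by rw [Nat.cast_sub hLt]
        have h5 : (t : ℝ) ≤ 2 * L := by exact_mod_cast ht
        have h6 : 1 - η / 2 ≤ Real.exp (-(η / 2)) := by
          have := Real.add_one_le_exp (-(η / 2))
          linarith
        have h7 : (1 - η / 2) * t ≤ Real.exp (-(η / 2)) * t :=
          mul_le_mul_of_nonneg_right h6 ht0.le
        rw [h4] at h3
        nlinarith
      calc (‖Gg g t ((x : ℝ) / r)‖ / t) ^ k ≤ (Real.exp (-(η / 2))) ^ k :=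
            pow_le_pow_left₀ h0 h1 k
        _ = Real.exp (-(η / 2 * k)) := by
            rw [← Real.exp_nat_mul]
            congr 1
            ring
  refine (sum_le_sum hpt).trans ?_
  rw [sum_add_distrib, sum_const, card_range, nsmul_eq_mul, ← sum_filter, sum_const, nsmul_eq_mul,
    mul_one]
  linarith

/-- one base -/
theorem CN1_one (hG : Stmt_GBG) (g : ℕ) (hg : 2 ≤ g) : ∃ κ C : ℝ, 0 < κ ∧ 0 < C ∧
    ∀ r ℓ k : ℕ, g < r → Nat.Coprime g r → 1 ≤ ℓ →
      ∑ x ∈ range r, (‖Gg g ℓ ((x : ℝ) / r)‖ / ℓ) ^ k ≤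
        r * (Real.exp (-(κ * k)) + C * ((r : ℝ) ^ (-(1 / 2) : ℝ) + (2 : ℝ) ^ (-(ℓ / 2) : ℝ))) := by
  obtain ⟨η, C, hη, hη1, hC, hB⟩ := hG g 1 (1 / 2) hg (by norm_num)
  have hg0 : (0 : ℝ) < g := by
    have : 0 < g := by omega
    exact_mod_cast this
  have hg1 : (1 : ℝ) ≤ g := by
    have : 1 ≤ g := by omega
    exact_mod_cast this
  have hg2 : (2 : ℝ) ≤ g := by exact_mod_cast hg
  have hbad : ∀ L r : ℕ, 1 ≤ L → g ^ L ≤ r →
      (((range r).filter fun x : ℕ => (1 - η) * L < ‖Gg g L ((x : ℝ) / r)‖).card : ℝ)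
        ≤ C * (r * (g : ℝ) ^ (-(1 / 2 * L) : ℝ)) := by
    intro L r hL hr
    have h := hB L r 1 hL hr one_ne_zero (by simp)
    simpa using h
  refine ⟨η / 2, C * (g : ℝ) ^ (1 / 2 : ℝ), by positivity, by positivity, ?_⟩
  intro r ℓ k hr hc hℓ
  have hr0 : 0 < r := by omega
  have hr0' : (0 : ℝ) < r := by exact_mod_cast hr0
  have hC1 : C ≤ C * (g : ℝ) ^ (1 / 2 : ℝ) := by
    have : (1 : ℝ) ≤ (g : ℝ) ^ (1 / 2 : ℝ) := Real.one_le_rpow hg1 (by norm_num)
    nlinarith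
  have hC1p : 0 < C * (g : ℝ) ^ (1 / 2 : ℝ) := by positivity
  have hrp : 0 < (r : ℝ) ^ (-(1 / 2) : ℝ) := by positivity
  have h2p : 0 < (2 : ℝ) ^ (-(ℓ / 2) : ℝ) := by positivity
  set L := Nat.log g r with hL
  have hL1 : 1 ≤ L := by
    rw [hL]
    exact Nat.log_pos (by omega) hr.le
  have hLr : g ^ L ≤ r := Nat.pow_log_le_self g hr0.ne'
  have hLr2 : r < g ^ (L + 1) := Nat.lt_pow_succ_log_self (by omega) r
  rcases lt_or_ge ℓ L with hlt | hge
  · have h1 : g ^ ℓ ≤ r := (Nat.pow_le_pow_right (by omega) hlt.le).trans hLr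
    have h2 := CN1_small g r ℓ ℓ k η _ hη hη1 hℓ le_rfl (by omega) (hbad ℓ r hℓ h1)
    refine h2.trans ?_
    have h3 : (g : ℝ) ^ (-(1 / 2 * ℓ) : ℝ) ≤ (2 : ℝ) ^ (-(ℓ / 2) : ℝ) := by
      have h4 : (-(1 / 2 * ℓ) : ℝ) = -(ℓ / 2) := by ring
      rw [h4]
      exact Real.rpow_le_rpow_of_nonpos (by norm_num) hg2 (by
        have : (0 : ℝ) ≤ ℓ := Nat.cast_nonneg _
        linarith)
    have h5 : C * (g : ℝ) ^ (-(1 / 2 * ℓ) : ℝ) ≤ C * (g : ℝ) ^ (1 / 2 : ℝ) *
        ((r : ℝ) ^ (-(1 / 2) : ℝ) + (2 : ℝ) ^ (-(ℓ / 2) : ℝ)) := by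
      calc C * (g : ℝ) ^ (-(1 / 2 * ℓ) : ℝ) ≤ C * (2 : ℝ) ^ (-(ℓ / 2) : ℝ) :=
            mul_le_mul_of_nonneg_left h3 hC.le
        _ ≤ C * (g : ℝ) ^ (1 / 2 : ℝ) * (2 : ℝ) ^ (-(ℓ / 2) : ℝ) :=
            mul_le_mul_of_nonneg_right hC1 h2p.le
        _ ≤ _ := mul_le_mul_of_nonneg_left (by linarith) hC1p.le
    nlinarith
  · -- the strong induction
    set M : ℝ := r * Real.exp (-(η / 2 * k)) + C * (r * (g : ℝ) ^ (-(1 / 2 * L) : ℝ)) with hM
    have hsm : ∀ t : ℕ, L ≤ t → t ≤ 2 * L →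
        ∑ x ∈ range r, (‖Gg g t ((x : ℝ) / r)‖ / t) ^ k ≤ M := fun t h1 h2 =>
      CN1_small g r L t k η _ hη hη1 hL1 h1 h2 (hbad L r hL1 hLr)
    have hall : ∀ n : ℕ, L ≤ n → ∑ x ∈ range r, (‖Gg g n ((x : ℝ) / r)‖ / n) ^ k ≤ M := by
      intro n
      induction n using Nat.strong_induction_on with
      | _ n ih =>
        intro hn
        rcases Nat.lt_or_ge (2 * L) n with h | h
        · have ih' := ih (n - L) (by omega) (by omega)
          have hn0 : (0 : ℝ) < n := by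
            have : 0 < n := by omega
            exact_mod_cast this
          have hL0 : (0 : ℝ) < L := by exact_mod_cast hL1
          have hnL : ((n - L : ℕ) : ℝ) = n - L := by rw [Nat.cast_sub hn]
          have hnL0 : (0 : ℝ) < ((n - L : ℕ) : ℝ) := by
            have : 0 < n - L := by omega
            exact_mod_cast this
          have hpt : ∀ x ∈ range r, (‖Gg g n ((x : ℝ) / r)‖ / n) ^ k ≤
              (L : ℝ) / n * (‖Gg g L ((x : ℝ) / r)‖ / L) ^ k + ((n - L : ℕ) : ℝ) / n *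
                (‖Gg g (n - L) (((g ^ L : ℕ) : ℝ) * ((x : ℝ) / r))‖ / ((n - L : ℕ) : ℝ)) ^ k := by
            intro x _
            set a := ‖Gg g L ((x : ℝ) / r)‖ / L with ha
            set b := ‖Gg g (n - L) (((g ^ L : ℕ) : ℝ) * ((x : ℝ) / r))‖ / ((n - L : ℕ) : ℝ)
              with hb
            have ha0 : 0 ≤ a := by positivity
            have hb0 : 0 ≤ b := by positivity
            have h2 : Gg g n ((x : ℝ) / r) = Gg g L ((x : ℝ) / r) +
                Gg g (n - L) (((g ^ L : ℕ) : ℝ) * ((x : ℝ) / r)) := by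
              have := CN1_add g L (n - L) ((x : ℝ) / r)
              rw [Nat.add_sub_cancel' hn] at this
              rw [this]
              push_cast
              rfl
            have h3 : ‖Gg g n ((x : ℝ) / r)‖ / n ≤ (L : ℝ) / n * a + ((n - L : ℕ) : ℝ) / n * b := by
              have e1 : (L : ℝ) / n * a = ‖Gg g L ((x : ℝ) / r)‖ / n := by
                rw [ha]
                field_simp
              have e2 : ((n - L : ℕ) : ℝ) / n * b =
                  ‖Gg g (n - L) (((g ^ L : ℕ) : ℝ) * ((x : ℝ) / r))‖ / n := by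
                rw [hb]
                field_simp
              rw [e1, e2, ← add_div, h2]
              exact div_le_div_of_nonneg_right (norm_add_le _ _) hn0.le
            have h4 : (L : ℝ) / n + ((n - L : ℕ) : ℝ) / n = 1 := by
              rw [hnL]
              field_simp
              ring
            have h5 := (convexOn_pow k).2 (Set.mem_Ici.2 ha0) (Set.mem_Ici.2 hb0)
              (by positivity : (0 : ℝ) ≤ (L : ℝ) / n)
              (by positivity : (0 : ℝ) ≤ ((n - L : ℕ) : ℝ) / n) h4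
            simp only [smul_eq_mul] at h5
            exact (pow_le_pow_left₀ (by positivity) h3 k).trans h5
          refine (sum_le_sum hpt).trans ?_
          rw [sum_add_distrib, ← mul_sum, ← mul_sum,
            CN1_perm g (n - L) k (g ^ L) r hr0 (Nat.Coprime.pow_left L hc) ((n - L : ℕ) : ℝ)]
          have h6 := hsm L le_rfl (by omega)
          have h4 : (L : ℝ) / n + ((n - L : ℕ) : ℝ) / n = 1 := by
            rw [hnL]
            field_simp
            ring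
          calc (L : ℝ) / n * ∑ x ∈ range r, (‖Gg g L ((x : ℝ) / r)‖ / L) ^ k +
                ((n - L : ℕ) : ℝ) / n * ∑ x ∈ range r,
                  (‖Gg g (n - L) ((x : ℝ) / r)‖ / ((n - L : ℕ) : ℝ)) ^ k
              ≤ (L : ℝ) / n * M + ((n - L : ℕ) : ℝ) / n * M :=
                add_le_add (mul_le_mul_of_nonneg_left h6 (by positivity))
                  (mul_le_mul_of_nonneg_left ih' (by positivity))
            _ = ((L : ℝ) / n + ((n - L : ℕ) : ℝ) / n) * M := by ring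
            _ = M := by rw [h4, one_mul]
        · exact hsm n hn h
    refine (hall ℓ hge).trans ?_
    rw [hM]
    have h3 : (g : ℝ) ^ (-(1 / 2 * L) : ℝ) ≤ (g : ℝ) ^ (1 / 2 : ℝ) * (r : ℝ) ^ (-(1 / 2) : ℝ) := by
      have h4 : (r : ℝ) ≤ (g : ℝ) ^ ((L : ℝ) + 1) := by
        have : (r : ℝ) ≤ (g : ℝ) ^ (L + 1) := by exact_mod_cast hLr2.le
        rw [← Real.rpow_natCast] at this
        push_cast at this
        exact this
      have h5 : ((g : ℝ) ^ ((L : ℝ) + 1)) ^ (-(1 / 2) : ℝ) ≤ (r : ℝ) ^ (-(1 / 2) : ℝ) :=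
        Real.rpow_le_rpow_of_nonpos hr0' h4 (by norm_num)
      have h6 : ((g : ℝ) ^ ((L : ℝ) + 1)) ^ (-(1 / 2) : ℝ) =
          (g : ℝ) ^ (-(1 / 2 * L) : ℝ) * (g : ℝ) ^ (-(1 / 2) : ℝ) := by
        rw [← Real.rpow_mul hg0.le, ← Real.rpow_add hg0]
        congr 1
        ring
      have h7 : (g : ℝ) ^ (1 / 2 : ℝ) * (g : ℝ) ^ (-(1 / 2) : ℝ) = 1 := by
        rw [← Real.rpow_add hg0]
        norm_num
      calc (g : ℝ) ^ (-(1 / 2 * L) : ℝ)
          = (g : ℝ) ^ (1 / 2 : ℝ) * ((g : ℝ) ^ (-(1 / 2 * L) : ℝ) * (g : ℝ) ^ (-(1 / 2) : ℝ)) := by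
            rw [mul_comm ((g : ℝ) ^ (-(1 / 2 * L) : ℝ)), ← mul_assoc, h7, one_mul]
        _ = (g : ℝ) ^ (1 / 2 : ℝ) * ((g : ℝ) ^ ((L : ℝ) + 1)) ^ (-(1 / 2) : ℝ) := by rw [h6]
        _ ≤ _ := mul_le_mul_of_nonneg_left h5 (by positivity)
    have h8 : C * (g : ℝ) ^ (-(1 / 2 * L) : ℝ) ≤ C * (g : ℝ) ^ (1 / 2 : ℝ) *
        ((r : ℝ) ^ (-(1 / 2) : ℝ) + (2 : ℝ) ^ (-(ℓ / 2) : ℝ)) := by
      calc C * (g : ℝ) ^ (-(1 / 2 * L) : ℝ)
          ≤ C * ((g : ℝ) ^ (1 / 2 : ℝ) * (r : ℝ) ^ (-(1 / 2) : ℝ)) :=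
            mul_le_mul_of_nonneg_left h3 hC.le
        _ = C * (g : ℝ) ^ (1 / 2 : ℝ) * (r : ℝ) ^ (-(1 / 2) : ℝ) := by ring
        _ ≤ _ := mul_le_mul_of_nonneg_left (by linarith) hC1p.le
    nlinarith

/-- all bases up to `G` -/
theorem CN1_all (hG : Stmt_GBG) (G : ℕ) : ∃ κ C : ℝ, 0 < κ ∧ 0 < C ∧
    ∀ g : ℕ, 2 ≤ g → g ≤ G → ∀ r ℓ k : ℕ, g < r → Nat.Coprime g r → 1 ≤ ℓ →
      ∑ x ∈ range r, (‖Gg g ℓ ((x : ℝ) / r)‖ / ℓ) ^ k ≤
        r * (Real.exp (-(κ * k)) + C * ((r : ℝ) ^ (-(1 / 2) : ℝ) + (2 : ℝ) ^ (-(ℓ / 2) : ℝ))) := by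
  induction G with
  | zero => exact ⟨1, 1, one_pos, one_pos, fun g h1 h2 => by omega⟩
  | succ G ih =>
    obtain ⟨κ, C, hκ, hC, h⟩ := ih
    rcases Nat.lt_or_ge (G + 1) 2 with h2 | h2
    · exact ⟨1, 1, one_pos, one_pos, fun g h1 h2 => by omega⟩
    · obtain ⟨κ', C', hκ', hC', h'⟩ := CN1_one hG (G + 1) h2
      refine ⟨min κ κ', max C C', lt_min hκ hκ', lt_max_of_lt_left hC, ?_⟩
      intro g hg hgG r ℓ k hr hc hℓ
      have hr0 : (0 : ℝ) ≤ r := Nat.cast_nonneg _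
      have hk0 : (0 : ℝ) ≤ k := Nat.cast_nonneg _
      have hs : 0 ≤ (r : ℝ) ^ (-(1 / 2) : ℝ) + (2 : ℝ) ^ (-(ℓ / 2) : ℝ) := by positivity
      rcases Nat.lt_or_ge g (G + 1) with h3 | h3
      · refine (h g hg (by omega) r ℓ k hr hc hℓ).trans ?_
        refine mul_le_mul_of_nonneg_left (add_le_add ?_ ?_) hr0
        · rw [Real.exp_le_exp]
          have := mul_le_mul_of_nonneg_right (min_le_left κ κ') hk0
          linarith
        · exact mul_le_mul_of_nonneg_right (le_max_left _ _) hs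
      · have hgg : g = G + 1 := by omega
        rw [hgg] at hr hc ⊢
        refine (h' r ℓ k hr hc hℓ).trans ?_
        refine mul_le_mul_of_nonneg_left (add_le_add ?_ ?_) hr0
        · rw [Real.exp_le_exp]
          have := mul_le_mul_of_nonneg_right (min_le_right κ κ') hk0
          linarith
        · exact mul_le_mul_of_nonneg_right (le_max_right _ _) hs

theorem p_CN1 (hG : Stmt_GBG) : Stmt_CN1 := by
  intro G
  obtain ⟨κ, C, hκ, hC, h⟩ := CN1_all hG G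
  refine ⟨κ, C, hκ, hC, ?_⟩
  intro r g ℓ k hr hq hg hgG hℓ
  have hr0 : (0 : ℝ) < r := by
    have : 0 < r := by omega
    exact_mod_cast this
  have hℓ0 : (0 : ℝ) < ℓ := by exact_mod_cast hℓ
  have hgr : g < r := by
    have h1 := hq r.minFac (Nat.minFac_prime (by omega)) (Nat.minFac_dvd r)
    have h2 := Nat.minFac_le (n := r) (by omega)
    omega
  have hc : Nat.Coprime g r := by
    refine Nat.Coprime.symm (Nat.coprime_of_dvd ?_)
    intro q hqp hqr hqg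
    have h1 := hq q hqp hqr
    have h2 := Nat.le_of_dvd (by omega) hqg
    omega
  have h1 := h g hg hgG r ℓ k hgr hc hℓ
  have h2 : ∑ x ∈ range r, ‖Gg g ℓ ((x : ℝ) / r)‖ ^ k =
      (ℓ : ℝ) ^ k * ∑ x ∈ range r, (‖Gg g ℓ ((x : ℝ) / r)‖ / ℓ) ^ k := by
    rw [mul_sum]
    refine sum_congr rfl fun x _ => ?_
    rw [div_pow]
    field_simp
  rw [h2]
  calc 1 / (r : ℝ) * ((ℓ : ℝ) ^ k * ∑ x ∈ range r, (‖Gg g ℓ ((x : ℝ) / r)‖ / ℓ) ^ k)
      ≤ 1 / (r : ℝ) * ((ℓ : ℝ) ^ k * (r * (Real.exp (-(κ * k)) +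
          C * ((r : ℝ) ^ (-(1 / 2) : ℝ) + (2 : ℝ) ^ (-(ℓ / 2) : ℝ))))) := by
        refine mul_le_mul_of_nonneg_left (mul_le_mul_of_nonneg_left h1 (by positivity))
          (by positivity)
    _ = _ := by
        field_simp

end Pool.TP
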