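import Pool.Agent.Work.MP_484fb8_tp.Interface
import Pool.Agent.Work.MP_b0c12c_nt_helper41.Mert

set_option autoImplicit false

namespace Pool.TP

open Finset
open Pool.Agent.Circle (e)
open Pool.Agent.PS (th)
open Pool.Agent.Work.MP_484fb8_nt
open scoped Classical

theorem MRT_sum : ∃ K : ℝ, 0 < K ∧ ∀ (M : ℕ) (F : Finset ℕ), 1 ≤ M →
    (∀ p ∈ F, p.Prime) → F.card ≤ M →
    ∑ p ∈ F, 1 / (p : ℝ) ≤ Real.log (Real.log ((M : ℝ) + 2)) + K := by
  obtain ⟨C, hC0, hC⟩ := Pool.Agent.Work.MP_b0c12c_nt_helper41.mertens2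
  have hl2 : 0 < Real.log 2 := Real.log_pos (by norm_num)
  refine ⟨1 + 1 / 2 + |Real.log (Real.log 2)| + C / Real.log 2, by positivity, ?_⟩
  intro M F hM hF hcard
  have hsplit := Finset.sum_filter_add_sum_filter_not F (fun p => p ≤ M + 2)
    (fun p : ℕ => 1 / (p : ℝ))
  rw [← hsplit]
  have hbig : ∑ p ∈ F.filter (fun p => ¬ p ≤ M + 2), 1 / (p : ℝ) ≤ 1 := by
    have h1 : ∑ p ∈ F.filter (fun p => ¬ p ≤ M + 2), 1 / (p : ℝ) ≤
        ∑ p ∈ F.filter (fun p => ¬ p ≤ M + 2), 1 / (M : ℝ) := by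
      refine Finset.sum_le_sum fun p hp => ?_
      have hp2 := (Finset.mem_filter.mp hp).2
      have h3 : (M : ℝ) ≤ (p : ℝ) := by
        have : M ≤ p := by omega
        exact_mod_cast this
      have h4 : (0 : ℝ) < (M : ℝ) := by exact_mod_cast hM
      exact one_div_le_one_div_of_le h4 h3
    have h2 : ∑ p ∈ F.filter (fun p => ¬ p ≤ M + 2), 1 / (M : ℝ) =
        ((F.filter (fun p => ¬ p ≤ M + 2)).card : ℝ) * (1 / (M : ℝ)) := by
      rw [Finset.sum_const, nsmul_eq_mul]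
    have h3 : ((F.filter (fun p => ¬ p ≤ M + 2)).card : ℝ) ≤ (M : ℝ) := by
      exact_mod_cast le_trans (Finset.card_filter_le _ _) hcard
    have h4 : (0 : ℝ) < (M : ℝ) := by exact_mod_cast hM
    calc ∑ p ∈ F.filter (fun p => ¬ p ≤ M + 2), 1 / (p : ℝ)
        ≤ ((F.filter (fun p => ¬ p ≤ M + 2)).card : ℝ) * (1 / (M : ℝ)) := by rw [← h2]; exact h1
      _ ≤ (M : ℝ) * (1 / (M : ℝ)) := by
          exact mul_le_mul_of_nonneg_right h3 (by positivity)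
      _ = 1 := by field_simp
  have hsmall : ∑ p ∈ F.filter (fun p => p ≤ M + 2), 1 / (p : ℝ) ≤
      1 / 2 + ∑ p ∈ (Ioc 2 (M + 2)).filter Nat.Prime, 1 / (p : ℝ) := by
    have hsub : F.filter (fun p => p ≤ M + 2) ⊆
        insert 2 ((Ioc 2 (M + 2)).filter Nat.Prime) := by
      intro p hp
      obtain ⟨hpF, hp2⟩ := Finset.mem_filter.mp hp
      have hpp := hF p hpF
      rw [Finset.mem_insert]
      by_cases h : p = 2
      · exact Or.inl h
      · right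
        rw [Finset.mem_filter, Finset.mem_Ioc]
        exact ⟨⟨lt_of_le_of_ne hpp.two_le (Ne.symm h), hp2⟩, hpp⟩
    have hnot : (2 : ℕ) ∉ (Ioc 2 (M + 2)).filter Nat.Prime := by simp
    calc ∑ p ∈ F.filter (fun p => p ≤ M + 2), 1 / (p : ℝ)
        ≤ ∑ p ∈ insert 2 ((Ioc 2 (M + 2)).filter Nat.Prime), 1 / (p : ℝ) :=
          Finset.sum_le_sum_of_subset_of_nonneg hsub (fun p _ _ => by positivity)
      _ = 1 / 2 + ∑ p ∈ (Ioc 2 (M + 2)).filter Nat.Prime, 1 / (p : ℝ) := by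
          rw [Finset.sum_insert hnot]
          norm_num
  have hm := hC 2 (M + 2) le_rfl (by omega)
  have hm' := (abs_le.mp hm).2
  push_cast at hm'
  have habs : -Real.log (Real.log 2) ≤ |Real.log (Real.log 2)| := neg_le_abs _
  linarith

/-- **MRT** -/
theorem p_MRT : Stmt_MRT := by
  intro ε hε
  obtain ⟨K, hK0, hK⟩ := MRT_sum
  set δ : ℝ := ε / 3 with hδ
  have hδ0 : 0 < δ := by positivity
  refine ⟨Real.exp (3 * K) * ((3 : ℝ) ^ ε / δ ^ 3), by positivity, ?_⟩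
  intro M F hM hF hcard
  have hM1 : (1 : ℝ) ≤ (M : ℝ) := by exact_mod_cast hM
  have h1 : ∏ p ∈ F, (1 + 3 / (p : ℝ)) ≤ Real.exp (3 * ∑ p ∈ F, 1 / (p : ℝ)) := by
    rw [Finset.mul_sum, Real.exp_sum]
    refine Finset.prod_le_prod (fun p _ => by positivity) fun p _ => ?_
    have := Real.add_one_le_exp (3 * (1 / (p : ℝ)))
    calc 1 + 3 / (p : ℝ) = 3 * (1 / (p : ℝ)) + 1 := by ring
      _ ≤ _ := this
  have h2 := hK M F hM hF hcard
  have hlog : 0 < Real.log ((M : ℝ) + 2) := Real.log_pos (by linarith)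
  have h3 : Real.exp (3 * ∑ p ∈ F, 1 / (p : ℝ)) ≤
      Real.exp (3 * K) * (Real.log ((M : ℝ) + 2)) ^ 3 := by
    have h4 : Real.exp (3 * Real.log (Real.log ((M : ℝ) + 2))) = (Real.log ((M : ℝ) + 2)) ^ 3 := by
      rw [show 3 * Real.log (Real.log ((M : ℝ) + 2)) =
        ((3 : ℕ) : ℝ) * Real.log (Real.log ((M : ℝ) + 2)) by norm_num, Real.exp_nat_mul,
        Real.exp_log hlog]
    rw [← h4, ← Real.exp_add]
    apply Real.exp_le_exp.mpr
    linarith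
  have h5 : Real.log ((M : ℝ) + 2) ≤ (3 * (M : ℝ)) ^ δ / δ := by
    calc Real.log ((M : ℝ) + 2) ≤ Real.log (3 * (M : ℝ)) :=
          Real.log_le_log (by linarith) (by linarith)
      _ ≤ (3 * (M : ℝ)) ^ δ / δ := Real.log_le_rpow_div (by linarith) hδ0
  have h6 : (Real.log ((M : ℝ) + 2)) ^ 3 ≤ ((3 : ℝ) ^ ε / δ ^ 3) * (M : ℝ) ^ ε := by
    calc (Real.log ((M : ℝ) + 2)) ^ 3 ≤ ((3 * (M : ℝ)) ^ δ / δ) ^ 3 :=
          pow_le_pow_left₀ hlog.le h5 3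
      _ = ((3 * (M : ℝ)) ^ δ) ^ 3 / δ ^ 3 := by rw [div_pow]
      _ = (3 * (M : ℝ)) ^ ε / δ ^ 3 := by
          rw [← Real.rpow_natCast ((3 * (M : ℝ)) ^ δ) 3, ← Real.rpow_mul (by positivity)]
          congr 2
          rw [hδ]
          push_cast
          ring
      _ = ((3 : ℝ) ^ ε / δ ^ 3) * (M : ℝ) ^ ε := by
          rw [Real.mul_rpow (by norm_num) (by positivity)]
          ring
  calc ∏ p ∈ F, (1 + 3 / (p : ℝ)) ≤ Real.exp (3 * ∑ p ∈ F, 1 / (p : ℝ)) := h1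
    _ ≤ Real.exp (3 * K) * (Real.log ((M : ℝ) + 2)) ^ 3 := h3
    _ ≤ Real.exp (3 * K) * (((3 : ℝ) ^ ε / δ ^ 3) * (M : ℝ) ^ ε) :=
        mul_le_mul_of_nonneg_left h6 (by positivity)
    _ = Real.exp (3 * K) * ((3 : ℝ) ^ ε / δ ^ 3) * (M : ℝ) ^ ε := by ring

end Pool.TP
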