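import Pool.Agent.Work.MP_484fb8_tp.Interface
import Pool.Agent.Work.PS.PAIR
import Pool.Agent.Work.MP_0b7501_nt.BT

set_option autoImplicit false

namespace Pool.TP

open Finset
open Pool.Agent.Circle (e)
open Pool.Agent.PS (th)
open Pool.Agent.Work.MP_484fb8_nt
open scoped Classical

lemma RRB_th_nonneg (n : ℕ) : 0 ≤ th n := by
  unfold th
  split_ifs
  · exact Real.log_natCast_nonneg n
  · exact le_rfl

lemma RRB_th_le {A N n : ℕ} (hAN : A + N ≤ N ^ 3) (hn : n ∈ Ioc A (A + N)) (hp : n.Prime) :
    th n ≤ 3 * Real.log N := by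
  rw [mem_Ioc] at hn
  unfold th
  rw [if_pos hp]
  have h1 : (n : ℝ) ≤ (N : ℝ) ^ 3 := by exact_mod_cast hn.2.trans hAN
  have h2 := Real.log_le_log (by exact_mod_cast hp.pos) h1
  rw [Real.log_pow] at h2
  exact_mod_cast h2

lemma RRB_symm (A N : ℕ) (h : ℤ) : cor A N (-h) = cor A N h := by
  unfold cor
  rw [sum_comm]
  refine sum_congr rfl fun n _ => sum_congr rfl fun n' _ => ?_
  by_cases h1 : (n' : ℤ) - n = h
  · rw [if_pos h1, if_pos (by omega), mul_comm]
  · rw [if_neg h1, if_neg (by omega)]

lemma RRB_nonneg (A N : ℕ) (h : ℤ) : 0 ≤ cor A N h := by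
  unfold cor
  refine sum_nonneg fun n _ => sum_nonneg fun n' _ => ?_
  split_ifs
  · exact mul_nonneg (RRB_th_nonneg _) (RRB_th_nonneg _)
  · exact le_rfl

lemma RRB_le {A N : ℕ} (hAN : A + N ≤ N ^ 3) (k : ℕ) :
    cor A N (k : ℤ) ≤ (3 * Real.log N) ^ 2 *
      (((Ioc A (A + N)).filter fun x => x.Prime ∧ (x + k).Prime).card : ℝ) := by
  unfold cor
  rw [← nsmul_eq_mul', ← sum_const, sum_filter]
  refine sum_le_sum fun n hn => ?_
  by_cases hk : n + k ∈ Ioc A (A + N)
  · rw [sum_eq_single (n + k)]
    · rw [if_pos (by push_cast; ring)]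
      by_cases h1 : n.Prime
      · by_cases h2 : (n + k).Prime
        · rw [if_pos ⟨h1, h2⟩, sq]
          exact mul_le_mul (RRB_th_le hAN hn h1) (RRB_th_le hAN hk h2) (RRB_th_nonneg _)
            ((RRB_th_nonneg n).trans (RRB_th_le hAN hn h1))
        · have h3 : th (n + k) = 0 := by unfold th; rw [if_neg h2]
          rw [h3, mul_zero]
          split_ifs
          · positivity
          · exact le_rfl
      · have h3 : th n = 0 := by unfold th; rw [if_neg h1]
        rw [h3, zero_mul]
        split_ifs
        · positivity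
        · exact le_rfl
    · intro b _ hb
      rw [if_neg (by omega)]
    · exact fun h => absurd hk h
  · rw [sum_eq_zero]
    · split_ifs
      · positivity
      · exact le_rfl
    · intro b hb
      rw [if_neg]
      intro h
      apply hk
      have : b = n + k := by omega
      rw [← this]
      exact hb

theorem p_RRB : Stmt_RRB := by
  obtain ⟨C1, hC1, hPair⟩ := Pool.Agent.PS.stmt_PAIR
  refine ⟨630 + 9 * C1, by positivity, fun A N hN hA hAN => ⟨?_, fun h => ⟨RRB_nonneg A N h, ?_⟩⟩⟩
  · have hlN : 0 < Real.log N := Real.log_pos (by exact_mod_cast (by omega : 1 < N))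
    have h1 := RRB_le hAN 0
    have h2 : (((Ioc A (A + N)).filter fun x => x.Prime ∧ (x + 0).Prime).card : ℝ) ≤
        70 * N / Real.log N := by
      refine le_trans ?_ (Pool.Agent.Work.MP_0b7501_nt.brun_titchmarsh A N hN)
      exact_mod_cast card_le_card (fun x hx => by
        rw [mem_filter] at hx ⊢
        exact ⟨hx.1, hx.2.1⟩)
    have h3 : cor A N 0 ≤ (3 * Real.log N) ^ 2 * (70 * N / Real.log N) := by
      refine le_trans ?_ (mul_le_mul_of_nonneg_left h2 (by positivity))
      exact_mod_cast h1
    refine h3.trans ?_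
    have h4 : (3 * Real.log N) ^ 2 * (70 * N / Real.log N) = 630 * (N * Real.log N) := by
      field_simp
      ring
    rw [h4]
    exact mul_le_mul_of_nonneg_right (by linarith) (by positivity)
  · intro h0
    have hlN : 0 < Real.log N := Real.log_pos (by exact_mod_cast (by omega : 1 < N))
    set k := h.natAbs with hk
    have hk0 : 0 < k := Int.natAbs_pos.2 h0
    have hcor : cor A N h = cor A N (k : ℤ) := by
      rcases Int.natAbs_eq h with h1 | h1
      · rw [hk]
        exact congrArg (cor A N) h1
      · rw [hk]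
        conv_lhs => rw [h1]
        exact RRB_symm A N _
    rw [hcor]
    have hFF : 0 ≤ FF k := sum_nonneg fun d _ => by positivity
    rcases Nat.even_or_odd k with he | ho
    · have h1 := RRB_le hAN k
      have h2 := hPair A N k hN hk0 he
      refine h1.trans ((mul_le_mul_of_nonneg_left h2 (by positivity)).trans ?_)
      have h4 : (3 * Real.log N) ^ 2 * (C1 * (N / Real.log N ^ 2) * ∑ d ∈ k.divisors, (1 : ℝ) / d) =
          9 * C1 * (N * FF k) := by
        unfold FF
        field_simp
        ring
      rw [h4]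
      exact mul_le_mul_of_nonneg_right (by linarith) (by positivity)
    · have h1 := RRB_le hAN k
      have h2 : ((Ioc A (A + N)).filter fun x => x.Prime ∧ (x + k).Prime) = ∅ := by
        apply filter_eq_empty_iff.2
        rintro x hx ⟨hp, hq⟩
        rw [mem_Ioc] at hx
        have h3 : Odd x := hp.odd_of_ne_two (by omega)
        have h4 : Odd (x + k) := hq.odd_of_ne_two (by omega)
        have h5 := h3.add_odd ho
        exact (Nat.not_even_iff_odd.2 h4) h5
      rw [h2, card_empty, Nat.cast_zero, mul_zero] at h1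
      exact h1.trans (by positivity)

end Pool.TP
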