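import Pool.Agent.Work.PS.InterfaceB
import Pool.Agent.Work.MP_484fb8_nt.Defs
import Pool.Agent.Work.Circle.Expo

set_option autoImplicit false

/-! # TypicalPowers (MP_484fb8_nt): definitions

`Gg g L x`    : exponential sum over the powers `g ^ v`, `1 ≤ v ≤ L`
`FF n`        : `∑_{d ∣ n} 1/d`
`hh g v`      : `g ^ v 0 + g ^ v 1 - g ^ v 2 - g ^ v 3`
`Sth A N x`   : exponential sum over the primes in `(A, A + N]`, weights `log p`
`cor A N h`   : weighted number of pairs of primes in `(A, A + N]` with difference `h`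
`bx ℓ`        : the box of the exponents `1 ≤ v i ≤ ℓ i`
`vl N g b v`  : `N + ∑ i, b i * g i ^ v i` -/

namespace Pool.TP

open Finset
open Pool.Agent.Circle (e)
open Pool.Agent.PS (th)
open Pool.Agent.Work.MP_484fb8_nt
open scoped Classical

noncomputable section

/-- The exponential sum over the powers of `g`. -/
def Gg (g L : ℕ) (x : ℝ) : ℂ := ∑ v ∈ Icc 1 L, e ((g : ℝ) ^ v * x)

/-- `∑_{d ∣ n} 1/d` -/
def FF (n : ℕ) : ℝ := ∑ d ∈ n.divisors, (1 : ℝ) / d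

/-- `g ^ v 0 + g ^ v 1 - g ^ v 2 - g ^ v 3` -/
def hh (g : ℕ) (v : Fin 4 → ℕ) : ℤ :=
  (g : ℤ) ^ v 0 + (g : ℤ) ^ v 1 - (g : ℤ) ^ v 2 - (g : ℤ) ^ v 3

/-- The exponential sum over the primes in `(A, A + N]`. -/
def Sth (A N : ℕ) (x : ℝ) : ℂ := ∑ n ∈ Ioc A (A + N), (th n : ℂ) * e (n * x)

/-- The correlation of the primes in `(A, A + N]` at the difference `h`. -/
def cor (A N : ℕ) (h : ℤ) : ℝ :=
  ∑ n ∈ Ioc A (A + N), ∑ n' ∈ Ioc A (A + N), if (n' : ℤ) - n = h then th n * th n' else 0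

/-- The primes up to `L` which do not divide `g`. -/
def PL (g L : ℕ) : Finset ℕ := (range (L + 1)).filter fun p => p.Prime ∧ ¬ p ∣ g

/-- The weight of a set of primes. -/
def wt (T : Finset ℕ) : ℝ := ∏ p ∈ T, (3 / (p : ℝ))

/-- The product of a set of primes. -/
def dt (T : Finset ℕ) : ℕ := ∏ p ∈ T, p

/-- The box of the exponents. -/
def bx {ι : Type} [Fintype ι] (ℓ : ι → ℕ) : Finset (ι → ℕ) := Fintype.piFinset fun i => Icc 1 (ℓ i)

theorem mem_bx {ι : Type} [Fintype ι] {ℓ v : ι → ℕ} : v ∈ bx ℓ ↔ ∀ i, 1 ≤ v i ∧ v i ≤ ℓ i := by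
  unfold bx
  rw [Fintype.mem_piFinset]
  simp only [mem_Icc]

theorem card_bx {ι : Type} [Fintype ι] (ℓ : ι → ℕ) : ((bx ℓ).card : ℝ) = ∏ i, (ℓ i : ℝ) := by
  unfold bx
  rw [Fintype.card_piFinset]
  simp

/-- The cube of the four exponents. -/
def box4 (L : ℕ) : Finset (Fin 4 → ℕ) := bx fun _ => L

/-- The value `N + ∑ i, b i * g i ^ v i`. -/
def vl {ι : Type} [Fintype ι] (N : ℤ) (g : ι → ℕ) (b : ι → ℤ) (v : ι → ℕ) : ℤ :=
  N + ∑ i, b i * (g i : ℤ) ^ v i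

/-- The bases are between `2` and `G`, the coefficients are nonzero and at most `B`. -/
def Adm (G B : ℕ) {ι : Type} (g : ι → ℕ) (b : ι → ℤ) : Prop :=
  ∀ i, 2 ≤ g i ∧ g i ≤ G ∧ b i ≠ 0 ∧ |b i| ≤ B

/-- The exponents `w` on `J` and `u` outside `J`. -/
def glue {ι : Type} (J : Finset ι) (w : ι → ℕ) (u : {i // i ∉ J} → ℕ) : ι → ℕ :=
  fun i => if h : i ∉ J then u ⟨i, h⟩ else w i

theorem vl_glue {ι : Type} [Fintype ι] (N : ℤ) (g : ι → ℕ) (b : ι → ℤ) (J : Finset ι) (w : ι → ℕ)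
    (u : {i // i ∉ J} → ℕ) : vl N g b (glue J w u) =
      vl (N + ∑ i ∈ J, b i * (g i : ℤ) ^ w i) (fun i : {i // i ∉ J} => g i) (fun i => b i) u := by
  unfold vl
  have h1 : ∑ i, b i * (g i : ℤ) ^ glue J w u i =
      ∑ i ∈ J, b i * (g i : ℤ) ^ w i + ∑ i ∈ Jᶜ, b i * (g i : ℤ) ^ glue J w u i := by
    rw [← sum_add_sum_compl J]
    congr 1
    refine sum_congr rfl fun i hi => ?_
    unfold glue
    rw [dif_neg (not_not.mpr hi)]
  have h2 : ∑ i ∈ Jᶜ, b i * (g i : ℤ) ^ glue J w u i =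
      ∑ i : {i // i ∉ J}, b i * (g i : ℤ) ^ u i := by
    rw [sum_subtype (Jᶜ) (p := fun i => i ∉ J) (fun i => mem_compl)
      (fun i => b i * (g i : ℤ) ^ glue J w u i)]
    refine sum_congr rfl fun i _ => ?_
    unfold glue
    rw [dif_pos i.2]
  rw [h1, h2]
  ring

/-- `m` is even and has fewer than `c (m/φ(m)) X` weighted representations `a + (m - a)` with
`a ∈ (X/4, X/2]`, and is not a multiple of `r`. -/
def Bdw (X : ℕ) (c : ℝ) (r : ℕ) (z : ℤ) : Prop :=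
  ∃ m : ℕ, (m : ℤ) = z ∧ Even m ∧ ¬ r ∣ m ∧
    ∑ a ∈ Ioc (X / 4) (X / 2), th a * th (m - a) < c * ((m : ℝ) / m.totient) * X

/-- `m` is even, `#(n)/2 ≤ m ≤ #(n+1) + 1`, and has few representations. -/
def Bdp (n : ℕ) (c : ℝ) (m : ℕ) : Prop :=
  Even m ∧ prml n ≤ 2 * m ∧ m ≤ prml (n + 1) + 1 ∧
    (primorialReps n m : ℝ) < c * ((m : ℝ) / m.totient) * (prml n / (Real.log (prml n)) ^ 2)

end

end Pool.TP
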