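import Pool.Agent.Work.MP_484fb8_tp.Defs

set_option autoImplicit false

/-! # TypicalPowers (MP_484fb8_nt, weight 10): the blocks

Files `B_X.lean` in `Pool/Agent/Work/MP_484fb8_tp`, `import Pool.Agent.Work.MP_484fb8_tp.Interface`
(and any file of `Pool/Agent/Work/PS` for its lemmas), namespace `Pool.TP`, `theorem p_X (hA : Stmt_A) .. : Stmt_X`
with exactly the blocks of the column `uses` as hypotheses in that order.  Auxiliary lemmas with the prefix `X_`.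
Definitions (`Gg FF hh Sth cor PL wt dt bx box4 vl Adm glue Bdw Bdp`, `mem_bx card_bx vl_glue`) are in `Defs.lean`.
`e x = exp (2 π i x)`, `th n = log n` at the primes and `0` elsewhere.
Paper proof: note 3087. -/

namespace Pool.TP

open Finset
open Pool.Agent.Circle (e)
open Pool.Agent.PS (th)
open Pool.Agent.Work.MP_484fb8_nt
open scoped Classical

/-! ### Large spectrum -/

/-- **GBG** (400, adapt `PS/GB.lean`, which is `g = 2`, `b = 1`).  Let `a v = e (g ^ v x)`, `x = b k / R`, `u` the direction of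
the sum: `∑ |a v - u|² ≤ 2 η L`, so `∑_{v < L} |a (v+1) - a v|² ≤ 8 η L`, and `|a (v+1) - a v| = |1 - e (g ^ v y)|`,
`y = (g - 1) x`.  `|1 - e t| ≥ 4 dn t`, so `dn (g ^ v y) < 1 / (2 g²)` for all but `2 η g⁴ L` of the `v < L`, and then
`⌊g ^ (v+2) y⌋ % g = ⌊g ^ (v+1) y⌋ % g` (with `y = A / R`, `A` natural: both digits are `0` or both are `g - 1`).  Weights
`Pw t n w = ∏_{i < n} (if (w / g ^ i) % g = (w / g ^ (i+1)) % g then 1 else t)`, `∑_{w < g ^ n M} Pw t n w = M (1 + (g-1) t) ^ n`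
(one digit is equal to the next one, `g - 1` are not).  `w = ⌊g ^ (L+1) k' / R⌋`, `k' = (g - 1) |b| k mod R` (the norm of the sum
does not change if `b` is replaced by `-b`: conjugation): each `w` comes from at most `R / g ^ (L+1) + 1 ≤ 2 R / g ^ L` values
of `k'`, each `k'` from at most `(g - 1) |b| ≤ g B` values of `k < R`.  Markov: the number of `k` is at most
`g B * (2 R / g ^ L) * g² * t ^ (-2 η g⁴ L) * (1 + g t) ^ L`; choose `t` with `1 + g t ≤ g ^ ((1-w)/2)`, then `η`. -/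
def Stmt_GBG : Prop := ∀ (g B : ℕ) (w : ℝ), 2 ≤ g → w < 1 → ∃ η C : ℝ, 0 < η ∧ η < 1 ∧ 0 < C ∧
  ∀ (L R : ℕ) (b : ℤ), 1 ≤ L → g ^ L ≤ R → b ≠ 0 → |b| ≤ B →
    (((range R).filter fun k : ℕ => (1 - η) * L < ‖Gg g L (b * ((k : ℝ) / R))‖).card : ℝ)
      ≤ C * (R * (g : ℝ) ^ (-(w * L)))

/-! ### Romanov's lemma, second moment -/

/-- **MRT** (100).  `log (1 + 3/p) ≤ 3/p`; the primes of `F` above `M + 2` contribute at most `M / (M + 2) ≤ 1` to `∑ 1/p`, the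
others at most `log log (M + 2) + C` (`Pool.Agent.Work.MP_b0c12c_nt_helper41.mertens2`, `u = 2`).  So the product is at most
`C (log (M + 2)) ^ 3 ≤ C M ^ ε`. -/
def Stmt_MRT : Prop := ∀ ε : ℝ, 0 < ε → ∃ C : ℝ, 0 < C ∧ ∀ (M : ℕ) (F : Finset ℕ), 1 ≤ M →
  (∀ p ∈ F, p.Prime) → F.card ≤ M → ∏ p ∈ F, (1 + 3 / (p : ℝ)) ≤ C * (M : ℝ) ^ ε

/-- **FFS** (200).  `FF h ≤ ∏_{p ∣ h} (1 - 1/p)⁻¹ ≤ 2 ∏_{p ∣ h} (1 + 1/p)` (`∏_{n ≥ 2} (1 - 1/n²)⁻¹ ≤ 2`).  The primes `p > L` contribute at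
most `(1 + 1/L) ^ ω(h) ≤ exp (ω(h) / L)`, `ω(h) ≤ log₂ h ≤ 1 + L log₂ g`, a constant; the primes dividing `g` at most
`∏_{p ∣ g} 2`.  So `FF h ^ 2 ≤ C ∏_{p ∈ PL g L, p ∣ h} (1 + 1/p)² ≤ C ∏ (1 + 3/p) = C ∑_{T ⊆ ..} wt T` (`Finset.prod_one_add`), and
`T ⊆ PL g L` has all its elements dividing `h` iff `dt T ∣ h` (distinct primes). -/
def Stmt_FFS : Prop := ∀ g : ℕ, 2 ≤ g → ∃ C : ℝ, 0 < C ∧ ∀ L h : ℕ, 1 ≤ L → 0 < h →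
  h ≤ 2 * g ^ L → FF h ^ 2 ≤ C * ∑ T ∈ (PL g L).powerset.filter (fun T => dt T ∣ h), wt T

/-- **ORS** (250, compare `PS/ROM.lean`), uses MRT.  (a) `∑_T wt T = ∏_{p ∈ PL g L} (1 + 3/p) ≤ C L`.
(b) `S t = ∑ {wt T : order ≤ t}`: if the order of `g` modulo `dt T` is `j ≤ t` then `dt T ∣ g ^ j - 1`, so all `p ∈ T` divide
`N = ∏_{1 ≤ j ≤ t} (g ^ j - 1)`, which has at most `log₂ N ≤ g t²` prime factors; so `S t ≤ ∏_{p ∣ N} (1 + 3/p) ≤ C t ^ (1/4)` (MRT, `ε = 1/8`).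
Then `∑_T wt T / order = ∑_T wt T ∑_{t ≥ order} 1 / (t (t+1)) = ∑_t S t / (t (t+1))` converges (or dyadic blocks).
The order is positive because `g` and `dt T` are coprime. -/
def Stmt_ORS : Prop := ∀ g : ℕ, 2 ≤ g → ∃ C : ℝ, 0 < C ∧ ∀ L : ℕ, 1 ≤ L →
  ∑ T ∈ (PL g L).powerset, wt T ≤ C * L ∧
  ∑ T ∈ (PL g L).powerset, wt T / (orderOf (g : ZMod (dt T)) : ℝ) ≤ C

/-- **CN4** (100, compare `PS/ORD.lean`).  For given `v 1, v 2, v 3` the `v 0 ∈ [1, L]` with `d ∣ hh g v` lie in one class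
modulo the order (if `g ^ v ≡ g ^ v'`, `v < v'`, then `g ^ (v' - v) ≡ 1`), so there are at most `L / order + 1` of them. -/
def Stmt_CN4 : Prop := ∀ g L d : ℕ, 2 ≤ g → 1 ≤ L → 1 ≤ d → Nat.Coprime g d →
  (((box4 L).filter fun v => (d : ℤ) ∣ hh g v).card : ℝ) ≤
    (L : ℝ) ^ 3 * (L / (orderOf (g : ZMod d) : ℝ) + 1)

/-- **ZC4** (60).  `g ^ a + g ^ b = g ^ c + g ^ d` with `a ≥ b`, `c ≥ d`: if `a > c` then `g ^ c + g ^ d ≤ 2 g ^ c ≤ g ^ a < g ^ a + g ^ b`.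
So `{v 0, v 1} = {v 2, v 3}`: `v 0 = v 2, v 1 = v 3` or `v 0 = v 3, v 1 = v 2`. -/
def Stmt_ZC4 : Prop := ∀ g L : ℕ, 2 ≤ g →
  ((box4 L).filter fun v => hh g v = 0).card ≤ 2 * L ^ 2

/-- **RM4** (100), uses FFS ORS CN4.  `|hh g v| ≤ 2 g ^ L`.  `∑_v FF² ≤ C ∑_T wt T #{v : dt T ∣ hh g v} ≤ C L³ (L ∑_T wt T / order + ∑_T wt T)`
(for `T ⊆ PL g L`: `g` and `dt T` are coprime). -/
def Stmt_RM4 : Prop := ∀ g : ℕ, 2 ≤ g → ∃ C : ℝ, 0 < C ∧ ∀ L : ℕ, 1 ≤ L →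
  ∑ v ∈ (box4 L).filter (fun v => hh g v ≠ 0), FF (hh g v).natAbs ^ 2 ≤ C * (L : ℝ) ^ 4

/-! ### The fourth moment -/

/-- **RRB** (150, compare `PS/SG.lean`).  `th n ≤ 3 log N` on the interval.  `h = 0`: `(3 log N)²` times the number of primes,
at most `70 N / log N` (`Pool.Agent.Work.MP_0b7501_nt.brun_titchmarsh`).  `h ≠ 0`, symmetric in `h`: for even `h` `stmt_PAIR` (in
`PS/PAIR.lean`); for odd `h` one of `n`, `n + h` is even and `> 2`, so `cor = 0`. -/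
def Stmt_RRB : Prop := ∃ C : ℝ, 0 < C ∧ ∀ A N : ℕ, 2 ≤ N → 2 ≤ A → A + N ≤ N ^ 3 →
  cor A N 0 ≤ C * (N * Real.log N) ∧
  ∀ h : ℤ, 0 ≤ cor A N h ∧ (h ≠ 0 → cor A N h ≤ C * (N * FF h.natAbs))

/-- **SG4** (300, compare `PS/SG.lean`), uses RRB RM4 ZC4.  `‖Gg g L (b x)‖ ^ 4 = ∑_{v ∈ box4 L} e (b hh(v) x)` (norm squared of
`Gg ^ 2`).  For an integer `h` with `|h| + N < R`: `(1/R) ∑_k ‖Sth A N (k/R)‖² e (± h k/R) = cor A N (± h)`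
(orthogonality modulo `R`, `Circle.full_sum`; `|n' - n| < N`).  So the left side is `∑_v cor₁ (b hh(v)) cor₂ (b hh(v))`
(`cor A N (-h) = cor A N h`), `≤ ∑_v (cor₁² + cor₂²) / 2`.  The `v` with `hh(v) = 0`: at most `2 L²`, each at most `(C X log X)² ≤ C X² L²`.
The others: `C X² ∑ FF (|b| |hh(v)|)²`, `FF (m n) ≤ FF m * FF n`, `FF |b| ≤ |b| ≤ B`; RM4.  (`N FF ≤ X FF`, `N log N ≤ X log X`.) -/
def Stmt_SG4 : Prop := ∀ g B : ℕ, 2 ≤ g → ∃ C : ℝ, 0 < C ∧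
  ∀ (A₁ N₁ A₂ N₂ X L R : ℕ) (b : ℤ), 2 ≤ N₁ → 2 ≤ A₁ → A₁ + N₁ ≤ N₁ ^ 3 → 2 ≤ N₂ → 2 ≤ A₂ →
    A₂ + N₂ ≤ N₂ ^ 3 → N₁ ≤ X → N₂ ≤ X → 1 ≤ L → Real.log X ≤ 2 * g * L → b ≠ 0 → |b| ≤ B →
    X + 2 * B * g ^ L < R →
    (1 / (R : ℝ)) ^ 2 * ∑ k ∈ range R, ∑ l ∈ range R, ‖Sth A₁ N₁ ((k : ℝ) / R)‖ ^ 2 *
      ‖Sth A₂ N₂ ((l : ℝ) / R)‖ ^ 2 * ‖Gg g L (b * (((k : ℝ) - l) / R))‖ ^ 4
      ≤ C * ((X : ℝ) ^ 2 * (L : ℝ) ^ 4)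

/-- **VFT** (200, compare `PS/LINW1.lean`: `inv_dft`, `box_G`).  `D m = (1/R) ∑_k F k e (- m k/R)` for `m < R`, so
`‖D m‖² = (1/R²) ∑_{k,l} F k conj (F l) e (- m (k - l)/R)`; the sum over `v` of `e (- (vl v) x)` is
`e (- N x) ∏_i Gg (g i) (ℓ i) (- b i x)`, and `‖Gg (-y)‖ = ‖Gg y‖` (conjugation). -/
def Stmt_VFT : Prop := ∀ (R : ℕ) (D : ℕ → ℂ) (ι : Type) [Fintype ι] (ℓ g : ι → ℕ) (b : ι → ℤ)
    (N : ℤ), 0 < R → (∀ v ∈ bx ℓ, 0 ≤ vl N g b v ∧ vl N g b v < R) →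
  ∑ v ∈ bx ℓ, ‖D (vl N g b v).toNat‖ ^ 2 ≤ (1 / (R : ℝ)) ^ 2 * ∑ k ∈ range R, ∑ l ∈ range R,
    ‖∑ m ∈ range R, D m * e (m * ((k : ℝ) / R))‖ * ‖∑ m ∈ range R, D m * e (m * ((l : ℝ) / R))‖ *
      ∏ i, ‖Gg (g i) (ℓ i) (b i * (((k : ℝ) - l) / R))‖

/-- **VBD** (200, elementary).  Pairs `(k, l)` with all `γ i (k - l) ≤ 1 - η`: choose four indices `I`;
`∏_i γ i ≤ (1 - η) ^ (card - 4) ∏_{i ∈ I} γ i ≤ (1 - η) ^ (card - 4) (1/4) ∑_{i ∈ I} (γ i) ^ 4`, and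
`F k F l ≤ S₁ k S₂ k S₁ l S₂ l ≤ (S₁ k ² S₂ l ² + S₁ l ² S₂ k ²) / 2`; exchange `k` and `l` in the second part (`γ` is even).
The other pairs: `∏ ≤ 1`, `F k F l ≤ (F k ² + F l ²) / 2`, for each `k` at most `R T` values of `l` (the residue of `k - l` modulo `R`
lies in the exceptional set; `γ` is even and periodic), `∑ F k ² ≤ U² ∑ S₂ k ²`. -/
def Stmt_VBD : Prop := ∀ (R : ℕ) (ι : Type) [Fintype ι] (F S₁ S₂ : ℕ → ℝ) (γ : ι → ℤ → ℝ)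
    (U η Q T W : ℝ), 0 < R → 4 ≤ Fintype.card ι → 0 ≤ U → 0 ≤ η → η ≤ 1 →
  (∀ k, 0 ≤ F k ∧ 0 ≤ S₁ k ∧ 0 ≤ S₂ k) →
  (∀ k ∈ range R, F k ≤ S₁ k * S₂ k ∧ F k ≤ U * S₂ k) →
  (∀ i j, 0 ≤ γ i j ∧ γ i j ≤ 1 ∧ γ i (-j) = γ i j ∧ γ i (j + R) = γ i j) →
  (∀ i, (1 / (R : ℝ)) ^ 2 * ∑ k ∈ range R, ∑ l ∈ range R,
    S₁ k ^ 2 * S₂ l ^ 2 * γ i ((k : ℤ) - l) ^ 4 ≤ Q) →
  (((range R).filter fun j : ℕ => ∃ i, 1 - η < γ i j).card : ℝ) ≤ R * T →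
  (1 / (R : ℝ)) * ∑ k ∈ range R, S₂ k ^ 2 ≤ W →
  (1 / (R : ℝ)) ^ 2 * ∑ k ∈ range R, ∑ l ∈ range R, F k * F l * ∏ i, γ i ((k : ℤ) - l)
    ≤ (1 - η) ^ (Fintype.card ι - 4) * Q + T * (U ^ 2 * W)

/-! ### The window theorem -/

/-- **WDT** (350, adapt `PS/LINW.lean` and `PS/WINB.lean`; import `Pool.Agent.Work.PS.MainC`).  Everything analytic is landed:
`main_wsb`, `main_low2`, `stmt_MIN`, `stmt_SIEG`, `stmt_RAD`, `stmt_DIVB`.  With `P`, `E` of `main_wsb` (choose them as functions of `X`,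
as in `WINB.lean`), `R`, `H` of `arcs_setup` and `D m = cv .. m - Maj .. m`: the transform is bounded by `diff_ft` (`LINW1.lean`) with
`U = C (X / √P) (log X) ^ 4 ≤ X ^ (1 - θ')`; `Re (Maj m) ≥ c_b (m/φ(m)) X` by LOW2 (as `hMJ1` in `LINW.lean`; `M ≤ X P` because
`(log X) ^ 3 ≤ P`), and `cv m = ∑ th a th (m - a)` (`cv_window`); `2 c = c_b`.  `r X = rad5 y.1` if there is an exceptional
character `y`, a prime `> X ^ 3` if there is none, `1` for small `X` (so `r X` is squarefree; growth: `rr_growth`). -/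
def Stmt_WDT : Prop := ∃ (c θ : ℝ) (r : ℕ → ℕ) (X₀ : ℕ), 0 < c ∧ 0 < θ ∧ θ ≤ 1 ∧
  (∀ A : ℕ, ∃ X₁ : ℕ, ∀ X : ℕ, X₁ ≤ X → (Real.log X) ^ A ≤ r X) ∧ (∀ X, Squarefree (r X)) ∧
  ∀ X M : ℕ, X₀ ≤ X → X ≤ M → (M : ℝ) ≤ X * (Real.log X) ^ 3 → ∃ (R : ℕ) (D : ℕ → ℂ),
    16 * M ≤ R ∧
    (∀ m ∈ Ioc M (M + X / 8), Even m → ¬ r X ∣ m → 2 * c * ((m : ℝ) / m.totient) * X ≤
      ∑ a ∈ Ioc (X / 4) (X / 2), th a * th (m - a) + ‖D m‖) ∧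
    ∀ k ∈ range R,
      ‖∑ m ∈ range R, D m * e (m * ((k : ℝ) / R))‖ ≤
        ‖Sth (X / 4) (X / 2 - X / 4) ((k : ℝ) / R)‖ * ‖Sth (M - X / 2) (X / 2) ((k : ℝ) / R)‖ ∧
      ‖∑ m ∈ range R, D m * e (m * ((k : ℝ) / R))‖ ≤
        (X : ℝ) ^ (1 - θ) * ‖Sth (M - X / 2) (X / 2) ((k : ℝ) / R)‖

/-- **WTH** (350), uses WDT GBG SG4 VFT VBD.  `K' = card ι`.  If `K' < 4` the bound is trivial (`C ≥ exp 4`).
`|vl v - N| ≤ X/32` (`32 K ∑ B g ^ Lf ≤ K' X`), `M = N - X/32 - 1`: all `vl v ∈ (M, M + X/8]`, `vl v < R`.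
VFT, VBD with `γ i j = ‖Gg (g i) (L i) (b i j / R)‖ / L i`, `L i = Lf (g i)`, `U = X ^ (1 - θ)`, `η` = the minimum of the `η` of GBG (with
`w = 1 - θ/2`) over `2 ≤ g ≤ G`, `Q = C X²` (SG4: `log X ≤ 2 g L` from `X ≤ g ^ L (log X)²`),
`T = C X ^ (-w) (log X)²` (union over the pairs `g ≤ G`, `|b| ≤ B`), `W = X (2 log X)²` (`Circle.parseval`; `M ≤ X²`).  So
`V = ∑_v ‖D (vl v)‖² ≤ ∏ L i * (C (1 - η) ^ (K' - 4) X² + X ^ (2 - θ))` for large `X`.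
If `Bdw (vl v)` then `2 c (m/φ(m)) X ≤ ∑ th th + ‖D m‖ < c (m/φ(m)) X + ‖D m‖`, so `‖D m‖ ≥ c X`: the number of these `v` is at
most `V / (c X)² ≤ C ∏ L i * ((1 - η) ^ K' + X ^ (-θ))`, and `X ^ (-θ) ≤ exp (-κ K')` if `κ ≤ min 1 θ` (`K' ≤ κ log X`). -/
def Stmt_WTH : Prop := ∃ (c : ℝ) (r : ℕ → ℕ), 0 < c ∧
  (∀ A : ℕ, ∃ X₁ : ℕ, ∀ X : ℕ, X₁ ≤ X → (Real.log X) ^ A ≤ r X) ∧ (∀ X, Squarefree (r X)) ∧
  ∀ G B : ℕ, ∃ (κ C : ℝ) (X₀ : ℕ), 0 < κ ∧ 0 < C ∧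
    ∀ (X K : ℕ) (Lf : ℕ → ℕ) (ι : Type) [Fintype ι] (g : ι → ℕ) (b : ι → ℤ) (N : ℤ),
      X₀ ≤ X → (K : ℝ) ≤ κ * Real.log X → Fintype.card ι ≤ K →
      (∀ a, 2 ≤ a → a ≤ G → 32 * B * K * a ^ Lf a ≤ X ∧
        (X : ℝ) ≤ (a : ℝ) ^ Lf a * (Real.log X) ^ 2 ∧ 1 ≤ Lf a) →
      Adm G B g b → 3 * (X : ℤ) ≤ 2 * N → (N : ℝ) ≤ X * (Real.log X) ^ 3 →
      (((bx fun i => Lf (g i)).filter fun v => Bdw X c (r X) (vl N g b v)).card : ℝ) ≤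
        C * (Real.exp (-(κ * Fintype.card ι)) * ∏ i, (Lf (g i) : ℝ))

/-! ### Concentration modulo `r` -/

/-- **CN1** (250), uses GBG.  `L' = Nat.log g r ≥ 1` (`r > G ≥ g`), `g ^ L' ≤ r < g ^ (L' + 1)`; GBG with `w = 1/2`, `B = 1`, `b = 1`; `η` the minimum
over `2 ≤ g ≤ G`.  If `ℓ ≥ L'` cut `[1, ℓ]` into intervals of lengths `t_j ∈ [L', 2 L')`: `‖Gg g ℓ x‖ ≤ ∑_j ‖Gg g t_j (g ^ (s_j) x)‖`, and by
convexity `(‖Gg g ℓ x‖ / ℓ) ^ k ≤ ∑_j (t_j / ℓ) (‖Gg g t_j (g ^ (s_j) x)‖ / t_j) ^ k`; `x ↦ g ^ (s_j) x` is a bijection modulo `r`.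
For `t ∈ [L', 2 L')`: `‖Gg g t x‖ ≤ ‖Gg g L' x‖ + (t - L')`, so it is `≤ (1 - η/2) t` unless `‖Gg g L' x‖ > (1 - η) L'`, which happens for at
most `C r g ^ (-L'/2) ≤ C r * r ^ (-1/2) * g ^ (1/2)` of the `x < r`.  If `ℓ < L'`: GBG with `L = ℓ`, `g ^ (-ℓ/2) ≤ 2 ^ (-ℓ/2)`. -/
def Stmt_CN1 : Prop := ∀ G : ℕ, ∃ κ C : ℝ, 0 < κ ∧ 0 < C ∧ ∀ r g ℓ k : ℕ, 2 ≤ r →
  (∀ q : ℕ, q.Prime → q ∣ r → G < q) → 2 ≤ g → g ≤ G → 1 ≤ ℓ →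
  (1 / (r : ℝ)) * ∑ x ∈ range r, ‖Gg g ℓ ((x : ℝ) / r)‖ ^ k ≤
    (ℓ : ℝ) ^ k * (Real.exp (-(κ * k)) + C * ((r : ℝ) ^ (-(1 / 2) : ℝ) + (2 : ℝ) ^ (-(ℓ / 2) : ℝ)))

/-- **CNC** (200), uses CN1.  The number is `(1/r) ∑_{x < r} ∑_v e (vl v * x / r) ≤ (1/r) ∑_x ∏_i ‖Gg (g i) (ℓ i) (b i x / r)‖`
(orthogonality), `∏_i a_i ≤ (1/k) ∑_i a_i ^ k` for `a_i = ‖..‖ / ℓ i` (AM-GM:
`Real.geom_mean_le_arith_mean_weighted` for `a_i ^ k` with the weights `1/k`), and `x ↦ b i x` is a bijection modulo `r` (all prime factors of `r` exceed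
`|b i|`).  `k = 0` is trivial. -/
def Stmt_CNC : Prop := ∀ G B : ℕ, ∃ κ C : ℝ, 0 < κ ∧ 0 < C ∧
  ∀ (r k lo : ℕ) (g : Fin k → ℕ) (b : Fin k → ℤ) (ℓ : Fin k → ℕ) (N : ℤ), 2 ≤ r →
    (∀ q : ℕ, q.Prime → q ∣ r → max G B < q) → Adm G B g b → 1 ≤ lo → (∀ i, lo ≤ ℓ i) →
    (((bx ℓ).filter fun v => (r : ℤ) ∣ vl N g b v).card : ℝ) ≤
      C * ((Real.exp (-(κ * k)) + (r : ℝ) ^ (-(1 / 2) : ℝ) + (2 : ℝ) ^ (-(lo / 2) : ℝ)) *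
        ∏ i, (ℓ i : ℝ))

/-! ### From the windows to the primorial intervals -/

/-- **SPL** (200, elementary).  First part: sum over the values on `J` (`∏_{i ∈ J} ℓ i` of them).  Second part: split the box
according to `J = {i : Lf i < v i}`; for each `J` there are `∏_{i ∈ J} (ℓ i - Lf i)` values on `J`, and
`∑_J ∏_{i ∈ J} (ℓ i - Lf i) ∏_{i ∉ J} (q Lf i) = ∏_i (ℓ i - Lf i + q Lf i)` (`Finset.prod_add`). -/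
def Stmt_SPL : Prop := ∀ (ι : Type) [Fintype ι] (ℓ : ι → ℕ) (P : (ι → ℕ) → Prop),
  (∀ (J : Finset ι) (C : ℝ), 0 ≤ C →
    (∀ w : ι → ℕ, (((bx fun i : {i // i ∉ J} => ℓ i).filter fun u => P (glue J w u)).card : ℝ) ≤
      C * ∏ i : {i // i ∉ J}, (ℓ i : ℝ)) →
    (((bx ℓ).filter P).card : ℝ) ≤ C * ∏ i, (ℓ i : ℝ)) ∧
  ∀ (Lf : ι → ℕ) (C q : ℝ), 0 ≤ C → 0 ≤ q → (∀ i, Lf i ≤ ℓ i) →
    (∀ (J : Finset ι) (w : ι → ℕ),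
      (((bx fun i : {i // i ∉ J} => Lf i).filter fun u => P (glue J w u)).card : ℝ) ≤
        C * (q ^ Fintype.card {i // i ∉ J} * ∏ i : {i // i ∉ J}, (Lf i : ℝ))) →
    (((bx ℓ).filter P).card : ℝ) ≤ C * ∏ i, ((ℓ i : ℝ) - Lf i + q * Lf i)

/-- **THR** (120, compare `PS/FINALB.lean`: `pairs_le_reps`, `r_le_pairs`, `th_le`).  `X = prml n / 4`.  For large `n` all primes
`a ∈ (X/4, X/2]` lie in `primesIn n` (`p_n ≥ 19`), and `m - a ≥ prml n / 2 - prml n / 8 ≥ prml (n-1) + 1`, `m - a ≤ prml (n+1) + 1`;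
`th a ≤ log (prml n)`, `th (m - a) ≤ log (prml (n+1) + 1) ≤ 2 log (prml n)` (`prml_succ_le`). -/
def Stmt_THR : Prop := ∃ n₀ : ℕ, ∀ n m : ℕ, n₀ ≤ n → prml n ≤ 2 * m → m ≤ prml (n + 1) + 1 →
  ∑ a ∈ Ioc (prml n / 4 / 4) (prml n / 4 / 2), th a * th (m - a) ≤
    4 * (Real.log (prml n)) ^ 2 * primorialReps n m

/-- **LFE** (150).  `Lf a = Nat.log a (X / (32 B K))` (`B ≥ 1`; for `B = 0` take `Nat.log a X`), `X = prml n / 4`.  `a ^ (Lf a + 1) > X / (32 B K)`, so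
`X ≤ a ^ (Lf a) * a * 64 B K ≤ a ^ (Lf a) (log X)²` for large `X`.  `Nat.log a (prml (n+1)) - Lf a ≤ C log log X` (`prml (n+1) ≤ X (log X)³`),
`Nat.log a (prml (n+1)) ≥ log X / log G - 1`. -/
def Stmt_LFE : Prop := ∀ (G B : ℕ) (κ δ : ℝ), 0 < κ → 0 < δ → ∃ n₀ : ℕ, ∀ n K : ℕ, n₀ ≤ n →
  1 ≤ K → (K : ℝ) ≤ κ * Real.log (prml n / 4 : ℕ) → ∃ Lf : ℕ → ℕ, ∀ a, 2 ≤ a → a ≤ G →
    (32 * B * K * a ^ Lf a ≤ prml n / 4 ∧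
      ((prml n / 4 : ℕ) : ℝ) ≤ (a : ℝ) ^ Lf a * (Real.log (prml n / 4 : ℕ)) ^ 2 ∧ 1 ≤ Lf a) ∧
    Lf a ≤ Nat.log a (prml (n + 1)) ∧
    (Nat.log a (prml (n + 1)) : ℝ) - Lf a ≤ δ * Nat.log a (prml (n + 1))

/-- **PRT** (350), uses WTH SPL THR LFE.  `X = prml n / 4`, `κ₀` of WTH (we may assume `κ₀ ≤ 1`), `q = exp (-κ₀)`, `δ = exp (-κ₀/2) - exp (-κ₀)`,
`k₁ = min k ⌊κ₀ log X⌋`.  `Bdp n c' m` and `¬ r ∣ m` give `Bdw X c (r X) m` for `c' = c / 32` (THR: `∑ th th ≤ 4 (log)² reps <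
4 c' (m/φ(m)) prml n ≤ c (m/φ(m)) X`).  SPL, first part, with `J = {i : k₁ ≤ i}`: it is enough to bound the number of `u` on the other
`k₁` coordinates, with `N₁ = N + ∑_J ..` (`vl_glue`).  If `k₁ = 0` this is trivial.  Otherwise LFE (`K = k₁`), SPL, second part
(on the type `{i // i ∉ J}`), and for each `J'`, `w` WTH with `N' = N₁ + ∑_{J'} ..`: if some `vl u` is in the range then
`|vl u - N'| ≤ X/32`, so `3 X ≤ 2 N'` (`vl u ≥ prml n / 2 ≥ 2 X`) and `N' ≤ prml (n+1) + 1 + X ≤ X (log X)³` (`prml_succ_le`); if none is, the set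
is empty.  Result: `C ∏ (ℓ i - L i + q L i) ≤ C ∏ ℓ i (δ + q) ≤ C exp (-κ₀ k₁/2) ∏ ℓ i`, and
`exp (-κ₀ k₁/2) ≤ exp (-κ₀ k/2) + exp (-κ₀ (κ₀ log X - 1)/2)`. -/
def Stmt_PRT : Prop := ∃ (c : ℝ) (r : ℕ → ℕ), 0 < c ∧
  (∀ A : ℕ, ∃ n₁ : ℕ, ∀ n : ℕ, n₁ ≤ n → (Real.log (prml n)) ^ A ≤ r n) ∧
  (∀ n, Squarefree (r n)) ∧
  ∀ G B : ℕ, ∃ (κ C : ℝ) (n₀ : ℕ), 0 < κ ∧ 0 < C ∧
    ∀ (n k : ℕ) (g : Fin k → ℕ) (b : Fin k → ℤ) (N : ℤ), n₀ ≤ n → Adm G B g b →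
      (((bx fun i => Nat.log (g i) (prml (n + 1))).filter fun v =>
        ∃ m : ℕ, (m : ℤ) = vl N g b v ∧ Bdp n c m ∧ ¬ r n ∣ m).card : ℝ) ≤
        C * ((Real.exp (-(κ * k)) + Real.exp (-(κ * Real.log (prml n)))) *
          ∏ i, (Nat.log (g i) (prml (n + 1)) : ℝ))

/-- **FIN** (200), uses PRT CNC.  If `r n ∤ m`: PRT, `exp (-κ log (prml n)) ≤ C' / (log (prml n)) ^ A`.  If `r n ∣ m`: let `r'` be the product of the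
primes `q > max G B` dividing `r n`; `r n ≤ r' * (max G B)!` (squarefree), `r' ∣ vl v`; CNC with `lo` = the minimum of the `Nat.log a (prml (n+1))`,
`2 ≤ a ≤ G`: `2 ^ (-lo/2) ≤ C' / (log) ^ A`, `r' ^ (-1/2) ≤ C' / (log) ^ A` (growth with the exponent `2 A + 1`).  For `n < n₀`: the number is at most
`∏ ℓ i` (`card_bx`) and `C' / (log (prml n)) ^ A ≥ 1`. -/
def Stmt_FIN : Prop := ∃ c : ℝ, 0 < c ∧ ∀ G B : ℕ, ∃ κ C : ℝ, 0 < κ ∧ ∀ A : ℕ, ∃ C' : ℝ,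
  ∀ (n k : ℕ) (g : Fin k → ℕ) (b : Fin k → ℤ) (N : ℤ), 1 ≤ n → Adm G B g b →
    (((bx fun i => Nat.log (g i) (prml (n + 1))).filter fun v =>
      ∃ m : ℕ, (m : ℤ) = vl N g b v ∧ Bdp n c m).card : ℝ) ≤
      (C * Real.exp (-(κ * k)) + C' / (Real.log (prml n)) ^ A) *
        ∏ i, (Nat.log (g i) (prml (n + 1)) : ℝ)

end Pool.TP
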