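import Pool.Agent.Work.MP_484fb8_tp.Interface

set_option autoImplicit false

/-! # TypicalPowers (MP_484fb8_nt), part 2: integers with few nonzero digits in base `g`

Same rules as for `Interface.lean`; `import Pool.Agent.Work.MP_484fb8_tp.Interface2`, table `tpw_blocks`.
`nz g m` is the number of nonzero digits of `m` in base `g`, `dg g m p` the digit at the position `p`. -/

namespace Pool.TP

open Finset
open Pool.Agent.Circle (e)
open Pool.Agent.PS (th)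
open Pool.Agent.Work.MP_484fb8_nt
open scoped Classical

/-- The number of nonzero digits of `m` in base `g`. -/
def nz (g m : ℕ) : ℕ := ((Nat.digits g m).filter fun d => d ≠ 0).length

/-- The digit of `m` in base `g` at the position `p`. -/
def dg (g m p : ℕ) : ℕ := m / g ^ p % g

theorem nz_zero (g : ℕ) : nz g 0 = 0 := by
  unfold nz
  simp

theorem nz_add (g m d : ℕ) (hg : 2 ≤ g) (hd : d < g) :
    nz g (g * m + d) = nz g m + if d = 0 then 0 else 1 := by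
  unfold nz
  rcases Nat.eq_zero_or_pos (g * m + d) with h | h
  · have hm : m = 0 := by
      by_contra hm
      have : 0 < g * m := Nat.mul_pos (by omega) (Nat.pos_of_ne_zero hm)
      omega
    have hd0 : d = 0 := by omega
    subst hm
    subst hd0
    simp
  · rw [Nat.digits_def' (by omega) h]
    have h1 : (g * m + d) % g = d := by
      rw [Nat.mul_add_mod, Nat.mod_eq_of_lt hd]
    have h2 : (g * m + d) / g = m := by
      rw [Nat.mul_add_div (by omega), Nat.div_eq_of_lt hd, add_zero]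
    rw [h1, h2]
    by_cases h3 : d = 0
    · simp [h3]
    · simp [h3]

/-- **NZD** (80).  Induction on `L`: `m = g * (m / g) + m % g`, `nz_add`, `dg g m 0 = m % g`, `dg g m (p + 1) = dg g (m / g) p`. -/
def Stmt_NZD : Prop := ∀ g m L : ℕ, 2 ≤ g → m < g ^ L →
  nz g m = ((range L).filter fun p => dg g m p ≠ 0).card

/-- **NZC** (100).  Induction on `L`; `range (g ^ (L+1))` is in bijection with `range (g ^ L) × range g` by `m = g * m' + d`,
`nz_add`, `Nat.choose_succ_succ`. -/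
def Stmt_NZC : Prop := ∀ g L j : ℕ, 2 ≤ g →
  ((range (g ^ L)).filter fun m => nz g m = j).card = L.choose j * (g - 1) ^ j

/-- **NZT** (200), uses NZD NZC.  `m = d g ^ a + m'`, `1 ≤ d ≤ g - 1`, `m' < g ^ a`, `nz g m = nz g m' + 1` (NZD with `L = a + 1`: the digits
below `a` are those of `m'`, the digit at `a` is `d`).  Even `m`: if `g` is odd then for each `m'` exactly `(g-1)/2` of the
`d` have the right parity (`g ^ a` is odd), and `C(a, j) ≥ C(a-1, j)`.  If `g` is even take `m' = g m''`, `m'' < g ^ (a-1)`,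
`nz g m' = nz g m''` (`nz_add`), all these `m` are even. -/
def Stmt_NZT : Prop := ∀ g a j : ℕ, 2 ≤ g →
  ((Ico (g ^ a) (g ^ (a + 1))).filter fun m => nz g m = j + 1).card = a.choose j * (g - 1) ^ (j + 1) ∧
  (1 ≤ a → (a - 1).choose j * (g - 1) ^ (j + 1) ≤
    2 * ((Ico (g ^ a) (g ^ (a + 1))).filter fun m => nz g m = j + 1 ∧ Even m).card)

/-- **NZR** (200), uses NZD.  Let `L = Nat.log g m + 1`, `m < g ^ L`, `m = ∑_{p < L} dg g m p * g ^ p`.  `s = ∑_i dg g m (v i) * g ^ v i` is the part of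
this sum over the image of `v` (`v` injective), so `m - s = ∑_{p < L, p not in the image} dg g m p * g ^ p`; the digits of a sum
`∑_{p < L} c_p g ^ p` with `c_p < g` are the `c_p` (induction on `L`, or `Nat.ofDigits`), so the digits of `m - s` are `0` on the image of
`v` and those of `m` elsewhere: `nz` is smaller by `k₂` (NZD).  The digit at `Nat.log g m` is still there: `m - s ≥ g ^ Nat.log g m`. -/
def Stmt_NZR : Prop := ∀ (g m k₂ : ℕ) (v : Fin k₂ → ℕ), 2 ≤ g → 0 < m → Function.Injective v →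
  (∀ i, dg g m (v i) ≠ 0 ∧ v i < Nat.log g m) →
  ∑ i, dg g m (v i) * g ^ v i ≤ m ∧
  nz g (m - ∑ i, dg g m (v i) * g ^ v i) + k₂ = nz g m ∧
  g ^ Nat.log g m ≤ m - ∑ i, dg g m (v i) * g ^ v i

/-- **NZI** (120), uses NZD.  The set `P` of the positions `1 ≤ p < Nat.log g m` with nonzero digit has at least `nz g m - 2`
elements (NZD with `L = Nat.log g m + 1`; only the positions `0` and `Nat.log g m` are left out), it is contained in `[1, ℓ]`, and there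
are `(card P).descFactorial k₂` injective maps `Fin k₂ → P` (`Fintype.card_embedding_eq`). -/
def Stmt_NZI : Prop := ∀ g m k₂ ℓ : ℕ, 2 ≤ g → 0 < m → Nat.log g m ≤ ℓ + 1 →
  (nz g m - 2).descFactorial k₂ ≤ ((bx fun _ : Fin k₂ => ℓ).filter fun v =>
    Function.Injective v ∧ ∀ i, dg g m (v i) ≠ 0 ∧ v i < Nat.log g m).card

/-- **DBC** (250), uses NZR NZI.  Double counting of the pairs `(m, v)`, `m ∈ S`, `v` as in NZI: at least `card S * (k-2).descFactorial k₂`.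
Each pair gives `N = m - ∑ dg g m (v i) g ^ v i ∈ [g ^ α, M₁]`, `nz g N = k - k₂` (NZR), `b i = dg g m (v i) ∈ [1, g - 1]`, and
`vl N (fun _ => g) b v = m`, so `P (vl ..)`; the pair is determined by `(N, b, v)`.  There are `(g - 1) ^ k₂` vectors `b`. -/
def Stmt_DBC : Prop := ∀ (g ℓ α M₁ k k₂ : ℕ) (P : ℤ → Prop) (E : ℝ) (S : Finset ℕ), 2 ≤ g →
  0 ≤ E → k₂ + 2 ≤ k →
  (∀ (N : ℤ) (b : Fin k₂ → ℤ), (∀ i, 1 ≤ b i ∧ b i < g) →
    (((bx fun _ : Fin k₂ => ℓ).filter fun v => P (vl N (fun _ => g) b v)).card : ℝ) ≤ E) →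
  (∀ m ∈ S, 0 < m ∧ P m ∧ nz g m = k ∧ α ≤ Nat.log g m ∧ Nat.log g m ≤ ℓ + 1 ∧ m ≤ M₁) →
  (S.card : ℝ) * (k - 2).descFactorial k₂ ≤
    (((Icc (g ^ α) M₁).filter fun N => nz g N = k - k₂).card : ℝ) * ((g : ℝ) - 1) ^ k₂ * E

/-- The number of possible positions of the leading digit of the elements of `ℐ_{n+1}`. -/
noncomputable def om (g n : ℕ) : ℕ := Nat.log g (prml (n + 1) + 1) + 1 - Nat.log g (prml n)

/-- **TOT** (200), uses NZT.  `α₀ = Nat.log g (prml n)`, `α₁ = Nat.log g (prml (n+1) + 1)`, `om = α₁ + 1 - α₀`.  First part: the interval is contained in the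
union of the `[g ^ a, g ^ (a+1))`, `α₀ ≤ a ≤ α₁`, and `C(a, j) ≤ C(α₁, j)`.  Second part: for `α₀ < a < α₁` the interval
`[g ^ a, g ^ (a+1))` is contained in `[prml n + 1, prml (n+1) + 1]` (`g ^ (α₀+1) > prml n`, `g ^ α₁ ≤ prml (n+1) + 1`); these are
`om - 2 ≥ om / 3` values of `a` if `om ≥ 3` (large `n`: `prml (n+1) = prml n * p` with `p ≥ g ^ 3`), each gives at least
`C(a-1, j) (g-1)^(j+1) / 2 ≥ C(α₀, j) (g-1)^(j+1) / 2` even numbers. -/
def Stmt_TOT : Prop := ∀ g : ℕ, 2 ≤ g → ∃ n₀ : ℕ, ∀ n j : ℕ, n₀ ≤ n →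
  (((Icc (g ^ Nat.log g (prml n)) (prml (n + 1) + 1)).filter fun N => nz g N = j + 1).card : ℝ) ≤
    (om g n : ℝ) * (((Nat.log g (prml (n + 1) + 1)).choose j : ℝ) * ((g : ℝ) - 1) ^ (j + 1)) ∧
  (om g n : ℝ) * (((Nat.log g (prml n)).choose j : ℝ) * ((g : ℝ) - 1) ^ (j + 1)) ≤
    6 * (((evensIn (n + 1)).filter fun m => nz g m = j + 1).card : ℝ)

/-- **RAT** (200, elementary).  `j = k - k₂ - 1`.  `C(α₀ + ω, j) / C(α₀, j) = ∏_{i < j} (1 + ω / (α₀ - i)) ≤ exp (k ω / (α₀ - k))`;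
`C(α₀, j) (α₀ - j).descFactorial k₂ = C(α₀, k - 1) (k - 1).descFactorial k₂`; `(α₀ - j).descFactorial k₂ ≥ (α₀ - k) ^ k₂`;
`(k - 1).descFactorial k₂ ≤ (k₂ + 1) (k - 2).descFactorial k₂` (the quotient is `(k-1)/(k-1-k₂) ≤ k₂ + 1`);
`(ℓ / (α₀ - k)) ^ k₂ ≤ (1 + (ω + k) / (α₀ - k)) ^ k₂ ≤ exp (k₂ (ω + k) / (α₀ - k))`. -/
def Stmt_RAT : Prop := ∀ α₀ α₁ ω ℓ k k₂ : ℕ, k₂ + 2 ≤ k → k < α₀ → α₁ ≤ α₀ + ω → ℓ ≤ α₀ + ω →
  (α₁.choose (k - k₂ - 1) : ℝ) * (ℓ : ℝ) ^ k₂ ≤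
    ((k₂ : ℝ) + 1) * Real.exp (((k₂ : ℝ) * (ω + k) + k * ω) / ((α₀ : ℝ) - k)) *
      (α₀.choose (k - 1) : ℝ) * ((k - 2).descFactorial k₂ : ℝ)

/-- **LGS** (120).  `prml (n+1) + 1 ≤ prml n * (log (prml n))²` (`PS.prml_succ_le`). -/
def Stmt_LGS : Prop := ∀ g : ℕ, 2 ≤ g → ∃ (c C : ℝ) (n₀ : ℕ), 0 < c ∧ 0 < C ∧ ∀ n : ℕ, n₀ ≤ n →
  c * Real.log (prml n) ≤ Nat.log g (prml n) ∧
  (om g n : ℝ) ≤ C * Real.log (Real.log (prml n)) ∧
  Nat.log g (prml (n + 1) + 1) ≤ Nat.log g (prml n) + om g n ∧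
  Nat.log g (prml (n + 1)) ≤ Nat.log g (prml n) + om g n ∧
  Nat.log g (prml (n + 1) + 1) ≤ Nat.log g (prml (n + 1)) + 1

/-- The conclusion of FIN. -/
def FinC (c : ℝ) : Prop := ∀ G B : ℕ, ∃ κ C : ℝ, 0 < κ ∧ ∀ A : ℕ, ∃ C' : ℝ,
  ∀ (n k : ℕ) (g : Fin k → ℕ) (b : Fin k → ℤ) (N : ℤ), 1 ≤ n → Adm G B g b →
    (((bx fun i => Nat.log (g i) (prml (n + 1))).filter fun v =>
      ∃ m : ℕ, (m : ℤ) = vl N g b v ∧ Bdp n c m).card : ℝ) ≤
      (C * Real.exp (-(κ * k)) + C' / (Real.log (prml n)) ^ A) *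
        ∏ i, (Nat.log (g i) (prml (n + 1)) : ℝ)

/-- **FDG** (350), uses DBC TOT RAT LGS.  `y = log (prml n)`; `κ, C` of `FinC` (`G = B = g`).  For `n < n₀` the bound is trivial (`C' / y ^ A ≥ 1`), for
`k ≤ 2` too (`C ≥ exp (3 κ)`).  Let `k₂ = min (k - 2) ⌈A' log y⌉`, `ℓ = Nat.log g (prml (n+1))`, `S` = the bad set,
`α = α₀ = Nat.log g (prml n)`, `M₁ = prml (n+1) + 1`, `P z = ∃ m, m = z ∧ Bdp n c m`.  DBC with
`E = (C exp (-κ k₂) + C'' / y ^ A'') ℓ ^ k₂`, TOT (first part with `j = k - k₂ - 1`, second with `j = k - 1`), RAT: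
`card S ≤ 6 (k₂ + 1) exp ((k₂ (ω + k) + k ω) / (α₀ - k)) (C exp (-κ k₂) + C'' / y ^ A'') * total`, `ω = om g n ≤ C₁ log y`.
`k ≤ κ₀ y` with `κ₀` so small that `k / (α₀ - k) ≤ κ / 8`, and `ω / (α₀ - k) ≤ κ / 8`: `exp (k₂ (ω + k) / (α₀ - k)) ≤ exp (κ k₂ / 4)`.
Case `k₂ = k - 2 ≤ A' log y`: `k ω / (α₀ - k) ≤ 1` for large `n`, so the first term is at most `C (k₂ + 1) exp (-3 κ k₂ / 4) ≤ C exp (-κ k / 2)`
and the second at most `C y ^ (A' κ / 4 + 1 - A'')`.  Case `k₂ = ⌈A' log y⌉`: `exp (k ω / (α₀ - k)) ≤ exp (κ ω / 8) ≤ y ^ C₂`, everything is at most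
`C y ^ (C₂ + 1 - 3 κ A' / 4) + C y ^ (C₂ + 1 + κ A' / 4 + 1 - A'')`.  Choose `A'`, then `A''`. -/
def Stmt_FDG : Prop := ∀ c : ℝ, 0 < c → FinC c → ∀ g : ℕ, 2 ≤ g → ∃ κ C : ℝ, 0 < κ ∧
  ∀ A : ℕ, ∃ C' : ℝ, ∀ n k : ℕ, 1 ≤ n → (k : ℝ) ≤ κ * Real.log (prml n) →
    (((evensIn (n + 1)).filter fun m => nz g m = k ∧ Bdp n c m).card : ℝ) ≤
      (C * Real.exp (-(κ * k)) + C' / (Real.log (prml n)) ^ A) *
        (((evensIn (n + 1)).filter fun m => nz g m = k).card : ℝ)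

end Pool.TP
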